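import Mathlib

/-!
# The choice of the parameters, with a cubic exponent
-/

set_option autoImplicit false

namespace Pool.Agent.LSH

theorem exists_params3s (C M d Lc : ℕ) (hL : 1 ≤ Lc) : ∃ A : ℕ, ∀ n : ℕ, 2 ≤ n →
    ∃ (N R : ℕ) (w δ e ε : ℝ), 0 < N ∧ 0 < R ∧ 0 < δ ∧ 0 < ε ∧ e = Lc * ε ∧ ε ≤ δ ∧
      δ ≤ 1 / 100 ∧ 1 / 2 ^ (n ^ A) ≤ ε ∧ 2 * w ≤ 1 / (4 ^ d * N) ∧ 2 * e + 5 * Lc * δ ≤ w ∧
      4 * e * (5 * n) ≤ (w - 2 * e) * δ ∧ (C / R : ℝ) * (5 * n + 1) ≤ ε ∧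
      2 ^ (C * (M * (5 * n + 1)) ^ 3) * (R + 1) ^ (2 * (d + 1)) *
        (2 * (d + 1) ^ 2 * (M * (5 * n + 1) + 1)) ^ (8 * (d + 1) + 1) <
          N ^ (8 * (d + 1) + 1) := by
  set c : ℕ := 51200000 * (C + 1) * Lc ^ 4 * 256 ^ d with hc
  set B : ℕ := 216 * C * M ^ 3 + (c + 3) * (2 * (d + 1)) +
    (8 * (d + 1) + 1) * (2 * (d + 1) ^ 2 * (6 * M + 1)) + 1 with hB
  set c' : ℕ := 1600 * 16 ^ d * Lc ^ 2 with hc'
  refine ⟨c' + 1 + 2 * B + 3, fun n hn => ?_⟩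
  have hn1 : 1 ≤ n := by omega
  have hnn : n ≤ n ^ 3 := by
    calc n = n ^ 1 := (pow_one n).symm
      _ ≤ n ^ 3 := Nat.pow_le_pow_right hn1 (by norm_num)
  have hn2 : 1 ≤ n ^ 3 := hn1.trans hnn
  set N : ℕ := 2 ^ (B * n ^ 3) with hN
  set W : ℕ := 2 * 4 ^ d * N with hW
  set E : ℕ := 400 * n * Lc ^ 2 * W ^ 2 with hE
  set R : ℕ := 10 * (C + 1) * n * E ^ 2 with hR
  have hNpos : 0 < N := by positivity
  have hWpos : 0 < W := by positivity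
  have hEpos : 0 < E := by positivity
  have hRpos : 0 < R := by positivity
  have hN16 : 16 ≤ N := by
    have h1 : 4 ≤ B * n ^ 3 := by
      have : 1 ≤ B := by omega
      have h8 : 2 ^ 3 ≤ n ^ 3 := Nat.pow_le_pow_left hn 3
      nlinarith
    calc 16 = 2 ^ 4 := by norm_num
      _ ≤ 2 ^ (B * n ^ 3) := Nat.pow_le_pow_right (by norm_num) h1
  have h4d : 1 ≤ 4 ^ d := Nat.one_le_pow _ _ (by norm_num)
  have hWN : 32 ≤ W := by
    calc 32 = 2 * 1 * 16 := by norm_num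
      _ ≤ 2 * 4 ^ d * N := Nat.mul_le_mul (Nat.mul_le_mul le_rfl h4d) hN16
  have hWr : (0 : ℝ) < W := by exact_mod_cast hWpos
  have hW32 : (32 : ℝ) ≤ W := by exact_mod_cast hWN
  have hLr : (1 : ℝ) ≤ Lc := by exact_mod_cast hL
  have hL0 : (0 : ℝ) < Lc := by linarith
  have hnr : (2 : ℝ) ≤ n := by exact_mod_cast hn
  have hn0 : (0 : ℝ) < n := by linarith
  have hEr : (E : ℝ) = 400 * n * Lc ^ 2 * W ^ 2 := by rw [hE]; push_cast; ring
  have hEr0 : (0 : ℝ) < E := by exact_mod_cast hEpos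
  refine ⟨N, R, 1 / W, 1 / (10 * Lc * W), Lc * (1 / E), 1 / E, hNpos, hRpos, by positivity,
    by positivity, rfl, ?_, ?_, ?_, ?_, ?_, ?_, ?_, ?_⟩
  · -- `ε ≤ δ`
    refine one_div_le_one_div_of_le (by positivity) ?_
    rw [hEr]
    have h1 : (1 : ℝ) ≤ Lc * W := by nlinarith
    have h2 : 10 * (Lc : ℝ) * W ≤ 400 * n * (Lc * W) * (Lc * W) := by
      have h3 : 0 < (Lc : ℝ) * W := by positivity
      have h4 : (Lc : ℝ) * W ≤ (Lc * W) * (Lc * W) := by nlinarith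
      nlinarith [mul_le_mul_of_nonneg_right hnr (by positivity : (0:ℝ) ≤ (Lc * W) * (Lc * W))]
    calc 10 * (Lc : ℝ) * W ≤ 400 * n * (Lc * W) * (Lc * W) := h2
      _ = 400 * n * Lc ^ 2 * W ^ 2 := by ring
  · refine one_div_le_one_div_of_le (by norm_num) ?_
    nlinarith
  · -- `1 / 2 ^ (n ^ A) ≤ ε`
    refine one_div_le_one_div_of_le hEr0 ?_
    have h1 : E ≤ 2 ^ (n ^ (c' + 1 + 2 * B + 3)) := by
      have h2 : E = c' * n * N ^ 2 := by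
        rw [hE, hW, hc']
        have : (4 : ℕ) ^ d * 4 ^ d = 16 ^ d := by rw [← mul_pow]; norm_num
        calc 400 * n * Lc ^ 2 * (2 * 4 ^ d * N) ^ 2 =
            1600 * (4 ^ d * 4 ^ d) * Lc ^ 2 * n * N ^ 2 := by ring
          _ = 1600 * 16 ^ d * Lc ^ 2 * n * N ^ 2 := by rw [this]
      have h3 : c' * n * N ^ 2 ≤ 2 ^ c' * 2 ^ n * 2 ^ (2 * (B * n ^ 3)) := by
        refine Nat.mul_le_mul (Nat.mul_le_mul Nat.lt_two_pow_self.le Nat.lt_two_pow_self.le) ?_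
        rw [hN, ← pow_mul]
        exact le_of_eq (by ring_nf)
      rw [h2]
      refine h3.trans ?_
      rw [← pow_add, ← pow_add]
      refine Nat.pow_le_pow_right (by norm_num) ?_
      have h4 : c' + n + 2 * (B * n ^ 3) ≤ (c' + 1 + 2 * B) * n ^ 3 := by nlinarith
      refine h4.trans ?_
      rw [pow_add n (c' + 1 + 2 * B) 3]
      refine Nat.mul_le_mul_right _ ?_
      calc c' + 1 + 2 * B ≤ 2 ^ (c' + 1 + 2 * B) := Nat.lt_two_pow_self.le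
        _ ≤ n ^ (c' + 1 + 2 * B) := Nat.pow_le_pow_left hn _
    exact_mod_cast h1
  · -- `2 w`
    rw [hW]
    push_cast
    have : (0 : ℝ) < 4 ^ d * N := by positivity
    rw [mul_one_div, div_le_div_iff₀ (by positivity) this]
    nlinarith
  · -- `2 e + 5 Lc δ ≤ w`
    have h1 : (5 : ℝ) * Lc * (1 / (10 * Lc * W)) = 1 / (2 * W) := by
      field_simp; norm_num
    have h2 : 2 * ((Lc : ℝ) * (1 / E)) ≤ 1 / (2 * W) := by
      rw [hEr]
      have h3 : 2 * ((Lc : ℝ) * (1 / (400 * n * Lc ^ 2 * W ^ 2))) =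
          1 / (200 * n * Lc * W ^ 2) := by field_simp; norm_num
      rw [h3]
      refine one_div_le_one_div_of_le (by positivity) ?_
      have h4 : (W : ℝ) ≤ n * Lc * W ^ 2 := by
        have h5 : (1 : ℝ) ≤ n * Lc * W := by nlinarith [mul_le_mul hnr hLr (by norm_num) hn0.le]
        nlinarith
      nlinarith
    have h3 : (1 : ℝ) / (2 * W) + 1 / (2 * W) = 1 / W := by field_simp; norm_num
    rw [h1]
    linarith
  · -- `4 e T ≤ (w - 2 e) δ`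
    have h2 : 2 * ((Lc : ℝ) * (1 / E)) ≤ 1 / (2 * W) := by
      rw [hEr]
      have h3 : 2 * ((Lc : ℝ) * (1 / (400 * n * Lc ^ 2 * W ^ 2))) =
          1 / (200 * n * Lc * W ^ 2) := by field_simp; norm_num
      rw [h3]
      refine one_div_le_one_div_of_le (by positivity) ?_
      have h4 : (W : ℝ) ≤ n * Lc * W ^ 2 := by
        have h5 : (1 : ℝ) ≤ n * Lc * W := by nlinarith [mul_le_mul hnr hLr (by norm_num) hn0.le]
        nlinarith
      nlinarith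
    have h3 : (1 : ℝ) / W - 1 / (2 * W) = 1 / (2 * W) := by field_simp; norm_num
    have h4 : (1 : ℝ) / (2 * W) ≤ 1 / W - 2 * (Lc * (1 / E)) := by linarith
    have h5 : 4 * ((Lc : ℝ) * (1 / E)) * (5 * n) = 1 / (2 * W) * (1 / (10 * Lc * W)) := by
      rw [hEr]; field_simp; norm_num
    rw [h5]
    exact mul_le_mul_of_nonneg_right h4 (by positivity)
  · -- `C / R`
    have hRr : (R : ℝ) = 10 * (C + 1) * n * E ^ 2 := by rw [hR]; push_cast; ring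
    have hE1 : (1 : ℝ) ≤ E := by exact_mod_cast hEpos
    have h1 : (C : ℝ) / R ≤ 1 / (10 * n * E ^ 2) := by
      rw [hRr, div_le_div_iff₀ (by positivity) (by positivity)]
      have : (0 : ℝ) ≤ 10 * n * E ^ 2 := by positivity
      nlinarith
    have h5 : (C : ℝ) / R * (5 * n + 1) ≤ 1 / (10 * n * E ^ 2) * (10 * n) :=
      mul_le_mul h1 (by linarith) (by positivity) (by positivity)
    have h6 : (1 : ℝ) / (10 * n * E ^ 2) * (10 * n) = 1 / E ^ 2 := by field_simp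
    rw [h6] at h5
    refine h5.trans (one_div_le_one_div_of_le hEr0 ?_)
    nlinarith
  · -- the counting inequality
    set P := M * (5 * n + 1) with hP
    have hPn : P ≤ 6 * M * n := by
      rw [hP]
      have : 5 * n + 1 ≤ 6 * n := by omega
      calc M * (5 * n + 1) ≤ M * (6 * n) := Nat.mul_le_mul_left _ this
        _ = 6 * M * n := by ring
    have h1 : C * P ^ 3 ≤ 216 * C * M ^ 3 * n ^ 3 := by
      calc C * P ^ 3 ≤ C * (6 * M * n) ^ 3 :=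
            Nat.mul_le_mul_left _ (Nat.pow_le_pow_left hPn 3)
        _ = 216 * C * M ^ 3 * n ^ 3 := by ring
    have h2 : R + 1 ≤ c * n ^ 3 * N ^ 4 := by
      have h3 : R + 1 ≤ 2 * R := by omega
      refine h3.trans (le_of_eq ?_)
      rw [hR, hE, hW, hc]
      have : (4 : ℕ) ^ d * 4 ^ d * (4 ^ d * 4 ^ d) = 256 ^ d := by
        rw [← mul_pow, ← mul_pow]; norm_num
      calc 2 * (10 * (C + 1) * n * (400 * n * Lc ^ 2 * (2 * 4 ^ d * N) ^ 2) ^ 2) =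
          51200000 * (C + 1) * Lc ^ 4 * (4 ^ d * 4 ^ d * (4 ^ d * 4 ^ d)) * n ^ 3 * N ^ 4 := by
            ring
        _ = 51200000 * (C + 1) * Lc ^ 4 * 256 ^ d * n ^ 3 * N ^ 4 := by rw [this]
    have h3 : c * n ^ 3 ≤ 2 ^ ((c + 3) * n ^ 3) := by
      calc c * n ^ 3 ≤ 2 ^ c * (2 ^ n) ^ 3 :=
            Nat.mul_le_mul Nat.lt_two_pow_self.le (Nat.pow_le_pow_left Nat.lt_two_pow_self.le 3)
        _ = 2 ^ (c + n * 3) := by rw [← pow_mul, ← pow_add]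
        _ ≤ 2 ^ ((c + 3) * n ^ 3) := Nat.pow_le_pow_right (by norm_num) (by nlinarith)
    have h4 : (R + 1) ^ (2 * (d + 1)) ≤
        2 ^ ((c + 3) * (2 * (d + 1)) * n ^ 3) * N ^ (8 * (d + 1)) := by
      calc (R + 1) ^ (2 * (d + 1)) ≤ (2 ^ ((c + 3) * n ^ 3) * N ^ 4) ^ (2 * (d + 1)) :=
            Nat.pow_le_pow_left (h2.trans (Nat.mul_le_mul_right _ h3)) _
        _ = 2 ^ ((c + 3) * (2 * (d + 1)) * n ^ 3) * N ^ (8 * (d + 1)) := by
            rw [mul_pow, ← pow_mul, ← pow_mul]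
            congr 1
            · congr 1; ring
            · congr 1; ring
    have h5 : 2 * (d + 1) ^ 2 * (P + 1) ≤ 2 ^ (2 * (d + 1) ^ 2 * (6 * M + 1) * n ^ 3) := by
      refine Nat.lt_two_pow_self.le.trans (Nat.pow_le_pow_right (by norm_num) ?_)
      have h6 : P + 1 ≤ (6 * M + 1) * n ^ 3 := by nlinarith
      calc 2 * (d + 1) ^ 2 * (P + 1) ≤ 2 * (d + 1) ^ 2 * ((6 * M + 1) * n ^ 3) :=
            Nat.mul_le_mul_left _ h6
        _ = 2 * (d + 1) ^ 2 * (6 * M + 1) * n ^ 3 := by ring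
    have h6 : (2 * (d + 1) ^ 2 * (P + 1)) ^ (8 * (d + 1) + 1) ≤
        2 ^ ((8 * (d + 1) + 1) * (2 * (d + 1) ^ 2 * (6 * M + 1)) * n ^ 3) := by
      refine (Nat.pow_le_pow_left h5 _).trans (le_of_eq ?_)
      rw [← pow_mul]
      congr 1; ring
    calc 2 ^ (C * P ^ 3) * (R + 1) ^ (2 * (d + 1)) *
          (2 * (d + 1) ^ 2 * (P + 1)) ^ (8 * (d + 1) + 1) ≤
        2 ^ (216 * C * M ^ 3 * n ^ 3) *
          (2 ^ ((c + 3) * (2 * (d + 1)) * n ^ 3) * N ^ (8 * (d + 1))) *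
          2 ^ ((8 * (d + 1) + 1) * (2 * (d + 1) ^ 2 * (6 * M + 1)) * n ^ 3) :=
          Nat.mul_le_mul (Nat.mul_le_mul (Nat.pow_le_pow_right (by norm_num) h1) h4) h6
      _ = 2 ^ (216 * C * M ^ 3 * n ^ 3 + (c + 3) * (2 * (d + 1)) * n ^ 3 +
          (8 * (d + 1) + 1) * (2 * (d + 1) ^ 2 * (6 * M + 1)) * n ^ 3) * N ^ (8 * (d + 1)) := by
          rw [pow_add, pow_add]; ring
      _ < 2 ^ (B * n ^ 3) * N ^ (8 * (d + 1)) := by
          refine Nat.mul_lt_mul_of_pos_right ?_ (by positivity)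
          refine Nat.pow_lt_pow_right (by norm_num) ?_
          rw [hB]
          nlinarith
      _ = N ^ (8 * (d + 1) + 1) := by rw [← hN, pow_succ]; ring

theorem exists_params3 (C M d Lc : ℕ) (hL : 1 ≤ Lc) : ∃ A : ℕ, ∀ n : ℕ, 2 ≤ n →
    ∃ (N R : ℕ) (w δ e ε : ℝ), 0 < N ∧ 0 < R ∧ 0 < δ ∧ 0 < ε ∧ e = Lc * ε ∧ ε ≤ δ ∧
      δ ≤ 1 / 100 ∧ 1 / 2 ^ (n ^ A) ≤ ε ∧ 2 * w ≤ 1 / (4 ^ d * N) ∧ 2 * e + 5 * Lc * δ ≤ w ∧
      4 * e * (5 * n) ≤ (w - 2 * e) * δ ∧ (C / R : ℝ) ≤ ε ∧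
      2 ^ (C * (M * (5 * n + 1)) ^ 3) * (R + 1) ^ (2 * (d + 1)) *
        (2 * (d + 1) ^ 2 * (M * (5 * n + 1) + 1)) ^ (8 * (d + 1) + 1) <
          N ^ (8 * (d + 1) + 1) := by
  obtain ⟨A, hA⟩ := exists_params3s C M d Lc hL
  refine ⟨A, fun n hn => ?_⟩
  obtain ⟨N, R, w, δ, e, ε, h1, h2, h3, h4, h5, h6, h7, h8, h9, h10, h11, h12, h13⟩ := hA n hn
  refine ⟨N, R, w, δ, e, ε, h1, h2, h3, h4, h5, h6, h7, h8, h9, h10, h11, ?_, h13⟩
  have h14 : (0 : ℝ) ≤ C / R := by positivity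
  have h15 : (0 : ℝ) ≤ (n : ℝ) := Nat.cast_nonneg n
  nlinarith

end Pool.Agent.LSH
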