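import Pool.Agent.Lib.MP_98022b_nd.Disc
import Pool.Agent.Lib.LSH.Param3

/-!
# The discretization of a space with coordinates

Let `co : X → V → ℝ` be coordinates on a metric space (nonnegative, sum `1`, at most `d + 1`
positive coordinates, Lipschitz) which are piecewise affine on the geodesics with a bounded number
of pieces for each unit of time, and let there be few classes of windows of geodesics such that the
tail sums of the coordinates of two windows of the same class are close. Then the states defined by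
the large coordinates are a discretization.
-/

set_option autoImplicit false
set_option linter.unusedSectionVars false

open Set Filter Topology

namespace Pool.Agent.LSH

open Pool.Agent.ND Pool.Agent.TD Pool.Agent.GLN

/-- Coordinates. -/
structure IsCo {X V : Type} [MetricSpace X] (co : X → V → ℝ) (d : ℕ) (L : ℝ) : Prop where
  pt : ∀ x, ∃ s : Finset V, s.card ≤ d + 1 ∧ IsPt s (co x) ∧ ∀ v, 0 < co x v ↔ v ∈ s
  lip : ∀ x y v, |co x v - co y v| ≤ L * dist x y

/-- The set of the vertices with large coordinates. -/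
def bigSet {X V : Type} (co : X → V → ℝ) (r : ℕ → ℝ) (x : X) : Set V :=
  {v | r (lev r (co x)) ≤ co x v}

/-- `x` is far from the thresholds. -/
def farC {X V : Type} (co : X → V → ℝ) (Lc : ℝ) (d : ℕ) (r : ℕ → ℝ) (e : ℝ) (x : X) : Prop :=
  ∀ k, 1 ≤ k → k ≤ d → Lc * e ≤ |tail k (co x) - r k|

variable {X V : Type} [MetricSpace X] {co : X → V → ℝ} {d : ℕ} {L : ℝ}

theorem IsCo.tail_lip (h : IsCo co d L) (k : ℕ) (x y : X) :
    |tail k (co x) - tail k (co y)| ≤ k * L * dist x y := by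
  obtain ⟨s, _, hs, _⟩ := h.pt x
  obtain ⟨s', _, hs', _⟩ := h.pt y
  have := hs.tail_lip hs' (k := k) (h.lip x y)
  rw [mul_assoc]; exact this

theorem farC_dist (h : IsCo co d L) (hL : 0 ≤ L) {Lc : ℝ} (hLc : d * L ≤ Lc) (r : ℕ → ℝ)
    (e : ℝ) (x y : X) (hf : farC co Lc d r e x) : farC co Lc d r (e - dist x y) y := by
  intro k h1 h2
  have h3 := hf k h1 h2
  have h4 := h.tail_lip k x y
  have h5 : k * L * dist x y ≤ Lc * dist x y := mul_le_mul_of_nonneg_right
    ((mul_le_mul_of_nonneg_right (by exact_mod_cast h2) hL).trans hLc) dist_nonneg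
  have h6 := abs_add_le (tail k (co x) - tail k (co y)) (tail k (co y) - r k)
  have h7 : tail k (co x) - tail k (co y) + (tail k (co y) - r k) = tail k (co x) - r k := by ring
  rw [h7] at h6
  rw [mul_sub]
  linarith

/-- The state is constant if the truth values of `tail k < r k` are constant. -/
theorem big_const (h : IsCo co d L) (hL : 0 ≤ L) {r : ℕ → ℝ} (hr : IsThr r) {γ : ℝ → X}
    {a b : ℝ} (hγ : ∀ s ∈ Icc a b, ∀ s' ∈ Icc a b, dist (γ s) (γ s') ≤ |s - s'|)
    (htr : ∀ k, ∀ s ∈ Icc a b, ∀ s' ∈ Icc a b, tail k (co (γ s)) < r k ↔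
      tail k (co (γ s')) < r k) :
    ∀ s ∈ Icc a b, ∀ s' ∈ Icc a b, bigSet co r (γ s) = bigSet co r (γ s') := by
  intro s hs s' hs'
  refine isPreconnected_Icc.induction₂ (fun x y => bigSet co r (γ x) = bigSet co r (γ y))
    ?_ ?_ ?_ hs hs'
  · intro x hx
    obtain ⟨σ, _, hσ, _⟩ := h.pt (γ x)
    have hlt := lev_spec hr hσ
    set ℓ := lev r (co (γ x)) with hℓ
    set m := r ℓ - tail ℓ (co (γ x)) with hm
    have hmpos : 0 < m := by linarith
    have hρ : 0 < m / (ℓ * L + 1) := by positivity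
    have hev : ∀ᶠ y in 𝓝[Icc a b] x, y ∈ Icc a b ∧ |y - x| < m / (ℓ * L + 1) := by
      refine (eventually_mem_nhdsWithin).and ?_
      refine eventually_nhdsWithin_of_eventually_nhds ?_
      have := Metric.ball_mem_nhds x hρ
      filter_upwards [this] with y hy
      rwa [Metric.mem_ball, Real.dist_eq] at hy
    filter_upwards [hev] with y hy
    obtain ⟨σ', _, hσ', _⟩ := h.pt (γ y)
    ext v
    refine state_congr hr hσ hσ' (fun k => htr k x hx y hy.1) (c := L * |x - y|)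
      (by positivity) (fun v => ?_) ?_ v
    · refine (h.lip (γ x) (γ y) v).trans ?_
      exact mul_le_mul_of_nonneg_left (hγ x hx y hy.1) hL
    · rw [← hℓ]
      have h1 : (ℓ * L + 1) * |y - x| < m := by
        have := hy.2
        rw [lt_div_iff₀ (by positivity)] at this
        linarith
      have h2 : ℓ * (L * |x - y|) ≤ (ℓ * L + 1) * |y - x| := by
        rw [abs_sub_comm x y]
        nlinarith [abs_nonneg (y - x)]
      linarith
  · intro x y z _ _ _ h1 h2; exact h1.trans h2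
  · intro x y _ _ h; exact h.symm

/-- The state is the same at near points. -/
theorem big_eq_of_far (h : IsCo co d L) (hL : 0 < L) (hd1 : 1 ≤ d) {Lc : ℝ} (hLc : d * L ≤ Lc)
    {r : ℕ → ℝ} (hr : IsThr r) {e : ℝ} {x y : X} (hfar : farC co Lc d r e x) (hxy : dist x y < e) :
    bigSet co r y = bigSet co r x := by
  classical
  obtain ⟨s, hs, hpt, hpos⟩ := h.pt x
  obtain ⟨s', hs', hpt', hpos'⟩ := h.pt y
  have hlip := h.lip
  have he : 0 < e := dist_nonneg.trans_lt hxy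
  have hL1 : 0 < Lc := lt_of_lt_of_le (by positivity) hLc
  have hLe : L * dist x y < Lc * e := by
    have h1 : L ≤ Lc := le_trans (by
      have : (1 : ℝ) ≤ d := by exact_mod_cast hd1
      nlinarith) hLc
    calc L * dist x y ≤ Lc * dist x y := mul_le_mul_of_nonneg_right h1 dist_nonneg
      _ < Lc * e := mul_lt_mul_of_pos_left hxy hL1
  -- the truth values agree
  have htr : ∀ k, tail k (co x) < r k ↔ tail k (co y) < r k := by
    intro k
    rcases Nat.eq_zero_or_pos k with h0 | h0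
    · subst h0
      rw [hpt.tail_zero, hpt'.tail_zero]
    · rcases le_or_gt k d with h1 | h1
      · have h2 := hfar k h0 h1
        have h3 := h.tail_lip k x y
        have h4 : k * L * dist x y < Lc * e := by
          have h5 : (k : ℝ) * L ≤ Lc := le_trans (mul_le_mul_of_nonneg_right
            (by exact_mod_cast h1) hL.le) hLc
          calc k * L * dist x y ≤ Lc * dist x y := mul_le_mul_of_nonneg_right h5 dist_nonneg
            _ < Lc * e := mul_lt_mul_of_pos_left hxy hL1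
        have h5 := abs_lt.1 (h3.trans_lt h4)
        constructor
        · intro h6
          rw [abs_of_neg (by linarith)] at h2
          linarith
        · intro h6
          by_contra h7
          push Not at h7
          rw [abs_of_nonneg (by linarith)] at h2
          linarith
      · rw [hpt.tail_big (hs.trans h1), hpt'.tail_big (hs'.trans h1)]
  have hll := lev_congr htr
  symm
  ext v
  show r (lev r (co x)) ≤ co x v ↔ r (lev r (co y)) ≤ co y v
  rcases le_or_gt (lev r (co x)) d with h1 | h1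
  · -- level at most `d`
    refine state_congr hr hpt hpt' htr (c := L * dist x y) (by positivity) (hlip x y) ?_ v
    have hlt := lev_spec hr hpt
    have h0 : 1 ≤ lev r (co x) := by
      by_contra hcon
      have h0 : lev r (co x) = 0 := by omega
      rw [h0, hpt.tail_zero, hr.zero] at hlt
      exact lt_irrefl _ hlt
    have h2 := hfar _ h0 h1
    rw [abs_of_neg (by linarith)] at h2
    have h4 : (lev r (co x) : ℝ) * (L * dist x y) < Lc * e := by
      have h5 : (lev r (co x) : ℝ) * L ≤ Lc := le_trans (mul_le_mul_of_nonneg_right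
        (by exact_mod_cast h1) hL.le) hLc
      calc (lev r (co x) : ℝ) * (L * dist x y) = lev r (co x) * L * dist x y := by ring
        _ ≤ Lc * dist x y := mul_le_mul_of_nonneg_right h5 dist_nonneg
        _ < Lc * e := mul_lt_mul_of_pos_left hxy hL1
    linarith
  · -- level `d + 1`
    have h2 : s.card = d + 1 := by
      have := lev_le hr hpt
      omega
    have h3 : r d ≤ tail d (co x) := lev_min h1
    have h4 := hfar d hd1 le_rfl
    rw [abs_of_nonneg (by linarith)] at h4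
    have h5 : ∀ u ∈ s, Lc * e + r d ≤ co x u := by
      intro u hu
      have h6 : tail d (co x) ≤ gs (s.erase u) (co x) := hpt.tail_le (by
        rw [Finset.card_erase_of_mem hu]; omega)
      have h7 : gs (s.erase u) (co x) = co x u := by
        unfold gs
        have := Finset.sum_erase_add s (co x) hu
        rw [hpt.sum] at this
        linarith
      linarith
    have h6 : s ⊆ s' := by
      intro u hu
      rw [← hpos']
      have h7 := h5 u hu
      have h8 := (abs_le.1 (hlip x y u)).2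
      have h9 := hr.pos d
      linarith
    have h7 : s' = s := by
      symm
      refine Finset.eq_of_subset_of_card_le h6 ?_
      rw [h2]; exact hs'
    subst h7
    have hgx : gs s' (co x) = 0 := by unfold gs; rw [hpt.sum]; ring
    have hgy : gs s' (co y) = 0 := by unfold gs; rw [hpt'.sum]; ring
    rw [← mem_state hr hpt (σ := s') (by omega) (by rw [hgx]; exact hr.pos _) v,
      ← mem_state hr hpt' (σ := s') (by rw [← hll]; omega) (by rw [hgy]; exact hr.pos _) v]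

/-- Finitely many thresholds one of which is far. -/
theorem short_auxC (co : X → V → ℝ) {d : ℕ} {Lc : ℝ} (hLc : 0 < Lc) :
    ∃ (n : ℕ) (r : Fin n → Thr) (e : ℝ), 0 < e ∧ ∀ x : X, ∃ j, farC co Lc d (r j).1 e x := by
  have hd0 : (0 : ℝ) < 4 ^ d * (d + 1) := by positivity
  have hx : ∀ j : Fin (d + 1), ∀ _k : ℕ, 0 ≤ ((j : ℕ) : ℝ) / (d + 1) ∧
      ((j : ℕ) : ℝ) / (d + 1) ≤ 1 := by
    intro j _
    refine ⟨by positivity, ?_⟩
    rw [div_le_one (by positivity)]
    have : ((j : ℕ) : ℝ) < ((d + 1 : ℕ) : ℝ) := by exact_mod_cast j.2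
    push_cast at this
    exact this.le
  refine ⟨d + 1, fun j => ⟨mkThr fun _ => ((j : ℕ) : ℝ) / (d + 1), isThr_mkThr (hx j)⟩,
    1 / (2 * Lc * (4 ^ d * (d + 1))), by positivity, fun x => ?_⟩
  by_contra hcon
  push Not at hcon
  have hbad : ∀ j : Fin (d + 1), ∃ k : Fin d, |tail (k + 1) (co x) -
      (1 + ((j : ℕ) : ℝ) / (d + 1)) / 4 ^ ((k : ℕ) + 1)| < 1 / (2 * (4 ^ d * (d + 1))) := by
    intro j
    have h1 := hcon j
    unfold farC at h1
    push Not at h1
    obtain ⟨k, hk1, hk2, hk⟩ := h1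
    obtain ⟨k', rfl⟩ : ∃ k', k = k' + 1 := ⟨k - 1, by omega⟩
    refine ⟨⟨k', by omega⟩, ?_⟩
    have h2 : Lc * (1 / (2 * Lc * (4 ^ d * ((d : ℝ) + 1)))) = 1 / (2 * (4 ^ d * (d + 1))) := by
      field_simp
    rw [h2] at hk
    exact hk
  choose g hg using hbad
  obtain ⟨j, j', hne, hgg⟩ := Fintype.exists_ne_map_eq_of_card_lt g (by simp)
  have h1 := hg j
  have h2 := hg j'
  rw [hgg] at h1
  set k := g j' with hk
  have h3 : |(1 + ((j : ℕ) : ℝ) / (d + 1)) / 4 ^ ((k : ℕ) + 1) -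
      (1 + ((j' : ℕ) : ℝ) / (d + 1)) / 4 ^ ((k : ℕ) + 1)| < 1 / (4 ^ d * (d + 1)) := by
    have h4 := abs_sub_lt_iff.1 h1
    have h5 := abs_sub_lt_iff.1 h2
    have h6 : 1 / (2 * (4 ^ d * ((d : ℝ) + 1))) + 1 / (2 * (4 ^ d * (d + 1))) =
      1 / (4 ^ d * (d + 1)) := by field_simp; norm_num
    rw [abs_sub_lt_iff]
    constructor <;> linarith
  have h4 : (1 + ((j : ℕ) : ℝ) / (d + 1)) / 4 ^ ((k : ℕ) + 1) -
      (1 + ((j' : ℕ) : ℝ) / (d + 1)) / 4 ^ ((k : ℕ) + 1) =
      (((j : ℕ) : ℝ) - ((j' : ℕ) : ℝ)) / (4 ^ ((k : ℕ) + 1) * (d + 1)) := by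
    field_simp; ring
  rw [h4, abs_div] at h3
  have h5 : (1 : ℝ) ≤ |((j : ℕ) : ℝ) - ((j' : ℕ) : ℝ)| := by
    have : ((j : ℕ) : ℤ) - ((j' : ℕ) : ℤ) ≠ 0 := by
      intro h
      exact hne (Fin.ext (by omega))
    have h6 : (1 : ℤ) ≤ |((j : ℕ) : ℤ) - ((j' : ℕ) : ℤ)| := Int.one_le_abs this
    exact_mod_cast h6
  have h6 : (4 : ℝ) ^ ((k : ℕ) + 1) ≤ 4 ^ d := pow_le_pow_right₀ (by norm_num) k.2
  have h7 : |(4 : ℝ) ^ ((k : ℕ) + 1) * ((d : ℝ) + 1)| ≤ 4 ^ d * (d + 1) := by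
    rw [abs_of_pos (by positivity)]
    exact mul_le_mul_of_nonneg_right h6 (by positivity)
  have h8 : 1 / (4 ^ d * ((d : ℝ) + 1)) ≤
      |((j : ℕ) : ℝ) - ((j' : ℕ) : ℝ)| / |(4 : ℝ) ^ ((k : ℕ) + 1) * ((d : ℝ) + 1)| :=
    div_le_div₀ (abs_nonneg _) h5 (abs_pos.2 (by positivity)) h7
  linarith

/-- A path with unit speed on `[0, T]` whose coordinates are affine on each of `P` pieces. -/
structure PWin (co : X → V → ℝ) (P : ℕ) (T : ℝ) (γ : ℝ → X) (t : ℕ → ℝ) : Prop where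
  speed : ∀ s ∈ Icc 0 T, ∀ s' ∈ Icc 0 T, dist (γ s) (γ s') ≤ |s - s'|
  mono : ∀ i < P, t i ≤ t (i + 1)
  t0 : t 0 = 0
  tP : t P = T
  aff : ∀ i < P, AffOn (fun s => co (γ s)) (t i) (t (i + 1))

/-- The coordinates are piecewise affine on geodesics with at most `M * (n + 1)` pieces in time
`n`. -/
def FewP (co : X → V → ℝ) (geo : X → X → ℝ → X) (M : ℕ) : Prop :=
  ∀ (x y : X) (n : ℕ) (a b : ℝ), 0 ≤ a → a ≤ b → b ≤ dist x y → b - a ≤ n →
    ∃ t : ℕ → ℝ, PWin co (M * (n + 1)) (b - a) (fun s => endPt geo x y (a + s)) t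

/-- Few classes of windows with close tail sums. -/
def FewClasses (co : X → V → ℝ) (geo : X → X → ℝ → X) (d M C : ℕ) : Prop :=
  ∀ n R : ℕ, 2 ≤ n → 0 < R → ∃ (Cl : Type) (_ : Fintype Cl)
    (cls : {p : X × X // 5 * (n : ℝ) ≤ dist p.1 p.2} → Cl),
    Fintype.card Cl ≤ 2 ^ (C * (M * (5 * n + 1)) ^ 3) * (R + 1) ^ (2 * (d + 1)) ∧
    ∀ ω ω', cls ω = cls ω' → ∀ k : ℕ, k ≤ d → ∀ s ∈ Icc (0 : ℝ) (5 * n),
      |tail k (co (endPt geo ω.1.1 ω.1.2 s)) - tail k (co (endPt geo ω'.1.1 ω'.1.2 s))| ≤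
        (C : ℝ) / R

/-- The tail sums along a window. -/
theorem PWin.pcc (h : IsCo co d L) (hL : 0 ≤ L) {P : ℕ} {T : ℝ} {γ : ℝ → X} {t : ℕ → ℝ}
    (w : PWin co P T γ t) {k : ℕ} (hk : k ≤ d) {Lc : ℝ} (hLc : d * L ≤ Lc) :
    Pcc P T Lc t fun s => tail k (co (γ s)) := by
  refine ⟨w.mono, w.t0, w.tP, fun s hs s' hs' => ?_, fun i hi => ?_⟩
  · have h1 := h.tail_lip k (γ s) (γ s')
    refine h1.trans ?_
    have h2 : (k : ℝ) * L ≤ Lc :=
      (mul_le_mul_of_nonneg_right (by exact_mod_cast hk) hL).trans hLc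
    have h3 := w.speed s hs s' hs'
    have h4 : (0 : ℝ) ≤ k * L := by positivity
    calc (k : ℝ) * L * dist (γ s) (γ s') ≤ k * L * |s - s'| := mul_le_mul_of_nonneg_left h3 h4
      _ ≤ Lc * |s - s'| := mul_le_mul_of_nonneg_right h2 (abs_nonneg _)
  · refine tail_concave (fun s _ => ?_) (w.aff i hi) k
    obtain ⟨σ, _, hσ, _⟩ := h.pt (γ s)
    exact ⟨σ, hσ⟩

/-- In a window with `P` pieces the state changes at most `2 * ((P + 1) + d * (2 * P))` times. -/
theorem PWin.few (h : IsCo co d L) (hL : 0 ≤ L) {P : ℕ} {T : ℝ} {γ : ℝ → X} {t : ℕ → ℝ}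
    (hP : 0 < P) (w : PWin co P T γ t) {r : ℕ → ℝ} (hr : IsThr r)
    {n : ℕ} {s : ℕ → ℝ} (hs : ∀ i < n, s i ≤ s (i + 1)) (h0 : 0 ≤ s 0) (hn : s n ≤ T)
    (hne : ∀ i < n, bigSet co r (γ (s i)) ≠ bigSet co r (γ (s (i + 1)))) :
    n ≤ 2 * ((P + 1) + d * (2 * P)) := by
  classical
  have hpcc : ∀ k ≤ d, Pcc P T (d * L) t fun s => tail k (co (γ s)) := fun k hk =>
    w.pcc h hL hk le_rfl
  choose! Z hZc hZ using fun (k : ℕ) (hk : k ≤ d) => exists_crossings (hpcc k hk) (r k)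
  set ZZ : Finset ℝ := (Finset.range (P + 1)).image t ∪ (Finset.Icc 1 d).biUnion Z with hZZ
  have hcard : ZZ.card ≤ (P + 1) + d * (2 * P) := by
    refine (Finset.card_union_le _ _).trans ?_
    have h1 := Finset.card_image_le (s := Finset.range (P + 1)) (f := t)
    rw [Finset.card_range] at h1
    have h2 : ((Finset.Icc 1 d).biUnion Z).card ≤ d * (2 * P) := by
      refine Finset.card_biUnion_le.trans ?_
      calc ∑ k ∈ Finset.Icc 1 d, (Z k).card ≤ ∑ _k ∈ Finset.Icc 1 d, 2 * P :=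
            Finset.sum_le_sum fun k hk => hZc k (Finset.mem_Icc.1 hk).2
        _ = d * (2 * P) := by simp
    omega
  have hmono : ∀ i j, i ≤ j → j ≤ n → s i ≤ s j := mono_le hs
  have hstrict : ∀ i < n, s i < s (i + 1) := by
    intro i hi
    rcases eq_or_lt_of_le (hs i hi) with h | h
    · exact absurd (by rw [h]) (hne i hi)
    · exact h
  refine (chain_bound hstrict ZZ fun i hi => ?_).trans (by omega)
  by_contra hcon
  push Not at hcon
  have hsi : s i ∈ Icc (0 : ℝ) T := ⟨h0.trans (hmono 0 i (by omega) (by omega)),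
    (hmono i n (by omega) le_rfl).trans hn⟩
  have hsi' : s (i + 1) ∈ Icc (0 : ℝ) T := ⟨h0.trans (hmono 0 (i + 1) (by omega) (by omega)),
    (hmono (i + 1) n (by omega) le_rfl).trans hn⟩
  obtain ⟨j, hj, hsj⟩ := exists_piece w.t0 w.tP hP hsi
  have hsj' : s (i + 1) ≤ t (j + 1) := by
    by_contra hlt
    push Not at hlt
    exact hcon (t (j + 1)) (Finset.mem_union_left _ (Finset.mem_image.2 ⟨j + 1,
      Finset.mem_range.2 (by omega), rfl⟩)) ⟨hsj.2, hlt.le⟩
  refine hne i hi (big_const h hL hr (a := s i) (b := s (i + 1)) ?_ ?_ _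
    ⟨le_rfl, hs i hi⟩ _ ⟨hs i hi, le_rfl⟩)
  · intro x hx y hy
    exact w.speed x ⟨hsi.1.trans hx.1, hx.2.trans hsi'.2⟩ y ⟨hsi.1.trans hy.1, hy.2.trans hsi'.2⟩
  · intro k x hx y hy
    obtain ⟨σ, hσf, hσ, _⟩ := h.pt (γ x)
    obtain ⟨σ', hσf', hσ', _⟩ := h.pt (γ y)
    rcases Nat.eq_zero_or_pos k with h1 | h1
    · subst h1; rw [hσ.tail_zero, hσ'.tail_zero]
    · rcases le_or_gt k d with h2 | h2
      · refine hZ k h2 j hj (s i) (s (i + 1)) hsj.1 hsj' (fun z hz => ?_) x hx y hy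
        exact hcon z (Finset.mem_union_right _ (Finset.mem_biUnion.2 ⟨k,
          Finset.mem_Icc.2 ⟨h1, h2⟩, hz⟩))
      · rw [hσ.tail_big (hσf.trans h2), hσ'.tail_big (hσf'.trans h2)]

theorem PWin.congr {P : ℕ} {T T' : ℝ} {γ γ' : ℝ → X} {t : ℕ → ℝ} (w : PWin co P T γ t)
    (hT : T = T') (hγ : ∀ s, γ s = γ' s) : PWin co P T' γ' t := by
  have : γ = γ' := funext hγ
  subst this
  subst hT
  exact w

/-- Few changes of the state in a unit of time. -/
theorem few_of_fewP (h : IsCo co d L) (hL : 0 ≤ L) {geo : X → X → ℝ → X} {M : ℕ} (hM : 0 < M)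
    (hfew : FewP co geo M) (r : Thr) (x y : X) (n : ℕ) (s : ℕ → ℝ) (hs : ∀ i < n, s i ≤ s (i + 1))
    (h0 : 0 ≤ s 0) (hn1 : s n ≤ s 0 + 1) (hn2 : s n ≤ dist x y)
    (hne : ∀ i < n, bigSet co r.1 (endPt geo x y (s i)) ≠
      bigSet co r.1 (endPt geo x y (s (i + 1)))) :
    n ≤ 2 * ((M * (1 + 1) + 1) + d * (2 * (M * (1 + 1)))) := by
  have hmono := mono_le hs 0 n (by omega) le_rfl
  obtain ⟨t, w⟩ := hfew x y 1 (s 0) (s n) h0 hmono hn2 (by push_cast; linarith)
  refine w.few h hL (by positivity) r.2 (s := fun i => s i - s 0)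
    (fun i hi => by have := hs i hi; linarith) (by simp) le_rfl fun i hi => ?_
  have e1 : s 0 + (s i - s 0) = s i := by ring
  have e2 : s 0 + (s (i + 1) - s 0) = s (i + 1) := by ring
  simp only [e1, e2]
  exact hne i hi

/-- The index lemma. -/
theorem pairs_of_fewP (h : IsCo co d L) (hL : 0 < L) (hd1 : 1 ≤ d) {geo : X → X → ℝ → X}
    {M C : ℕ} (hM : 0 < M) (hfew : FewP co geo M) (hcl : FewClasses co geo d M C) {Lc : ℕ}
    (hLc : d * L ≤ Lc) (hLc1 : 1 ≤ Lc) :
    ∃ m A : ℕ, ∀ n : ℕ, 2 ≤ n → ∃ (r : Fin m → Thr) (δ : Fin m → ℝ) (ε : ℝ), 0 < ε ∧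
    1 / 2 ^ (n ^ A) ≤ ε ∧ (∀ k, ε ≤ δ k ∧ δ k ≤ 1 / 100) ∧
    ∀ x y : X, 5 * (n : ℝ) ≤ dist x y → ∃ k,
      (∀ s ∈ Icc (0 : ℝ) (5 * n), ∀ t ∈ Icc (0 : ℝ) (5 * n), s ≤ t →
        (∀ e, ¬ farC co Lc d (r k).1 ε (endPt geo x y e) → e ∉ Icc s t) →
          bigSet co (r k).1 (endPt geo x y s) = bigSet co (r k).1 (endPt geo x y t)) ∧
      ∀ e, ¬ farC co Lc d (r k).1 ε (endPt geo x y e) →
        ∀ e', ¬ farC co Lc d (r k).1 ε (endPt geo x y e') →
        e ∈ Icc (0 : ℝ) (5 * n) → e' ∈ Icc (0 : ℝ) (5 * n) → |e - e'| ≤ δ k ∨ 4 * δ k ≤ |e - e'| := by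
  classical
  obtain ⟨A, hA⟩ := exists_params3 C M d Lc hLc1
  refine ⟨8 * (d + 1) + 1, A, fun n hn => ?_⟩
  obtain ⟨N, R, w, δ, e, ε, hN, hR, hδ, hε, heε, hεδ, hδ1, hεA, h2w, hw1, hw2, hCR, hcard⟩ :=
    hA n hn
  have hn0 : (0 : ℝ) < n := by exact_mod_cast (by omega : 0 < n)
  set P := M * (5 * n + 1) with hP
  have hPpos : 0 < P := by positivity
  have hT : (0 : ℝ) < 5 * n := by positivity
  -- the windows
  have hwin : ∀ ω : {p : X × X // 5 * (n : ℝ) ≤ dist p.1 p.2}, ∃ t : ℕ → ℝ,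
      PWin co P (5 * n) (endPt geo ω.1.1 ω.1.2) t := by
    intro ω
    obtain ⟨t, ht⟩ := hfew ω.1.1 ω.1.2 (5 * n) 0 (5 * n) le_rfl hT.le ω.2 (by push_cast; linarith)
    exact ⟨t, ht.congr (sub_zero _) fun s => by rw [zero_add]⟩
  choose W hW using hwin
  obtain ⟨Cl, _, cls, hclc, hcls⟩ := hcl n R hn hR
  have hLc0 : (0 : ℝ) < Lc := by exact_mod_cast hLc1
  have he0 : 0 ≤ e := by rw [heε]; positivity
  set rv : Fin d → Fin N → ℝ := fun k j => (1 + ((j : ℕ) : ℝ) / N) / 4 ^ ((k : ℕ) + 1) with hrv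
  have hN0 : (0 : ℝ) < N := by exact_mod_cast hN
  have hsep : ∀ k j j', j ≠ j' → 2 * w ≤ |rv k j - rv k j'| := by
    intro k j j' hne
    have h4 : rv k j - rv k j' =
        (((j : ℕ) : ℝ) - ((j' : ℕ) : ℝ)) / (4 ^ ((k : ℕ) + 1) * N) := by
      simp only [hrv]; field_simp; ring
    rw [h4, abs_div]
    have h5 : (1 : ℝ) ≤ |((j : ℕ) : ℝ) - ((j' : ℕ) : ℝ)| := by
      have : ((j : ℕ) : ℤ) - ((j' : ℕ) : ℤ) ≠ 0 := by
        intro h
        exact hne (Fin.ext (by omega))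
      have h6 : (1 : ℤ) ≤ |((j : ℕ) : ℤ) - ((j' : ℕ) : ℤ)| := Int.one_le_abs this
      exact_mod_cast h6
    have h6 : (4 : ℝ) ^ ((k : ℕ) + 1) ≤ 4 ^ d := pow_le_pow_right₀ (by norm_num) k.2
    have h7 : |(4 : ℝ) ^ ((k : ℕ) + 1) * (N : ℝ)| ≤ 4 ^ d * N := by
      rw [abs_of_pos (by positivity)]
      exact mul_le_mul_of_nonneg_right h6 (by positivity)
    exact h2w.trans (div_le_div₀ (abs_nonneg _) h5 (abs_pos.2 (by positivity)) h7)
  obtain ⟨v, hv⟩ := index_abstract (Ω := {p : X × X // 5 * (n : ℝ) ≤ dist p.1 p.2}) (n := d)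
    (K := 8 * (d + 1) + 1) (T := 5 * n) (L := Lc) W
    (fun ω k s => tail ((k : ℕ) + 1) (co (endPt geo ω.1.1 ω.1.2 s))) cls
    (fun ω k => (hW ω).pcc h hL.le k.2 hLc) hPpos hδ he0 hLc0.le hw1 hw2 rv hsep
    (by
      intro ω ω' hωω' k s hs
      refine (hcls ω ω' hωω' _ k.2 s hs).trans ?_
      rw [heε]
      have h1 : (1 : ℝ) ≤ Lc := by exact_mod_cast hLc1
      exact hCR.trans (by nlinarith))
    hN (by
      refine lt_of_le_of_lt (Nat.mul_le_mul_right _ hclc) hcard)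
  -- the thresholds
  set xx : Fin (8 * (d + 1) + 1) → ℕ → ℝ := fun j k =>
    if h : k < d then ((v j ⟨k, h⟩ : ℕ) : ℝ) / N else 0 with hxx
  have hx01 : ∀ j k, 0 ≤ xx j k ∧ xx j k ≤ 1 := by
    intro j k
    simp only [hxx]
    split_ifs with h
    · refine ⟨by positivity, ?_⟩
      rw [div_le_one hN0]
      exact_mod_cast (v j ⟨k, h⟩).2.le
    · exact ⟨le_rfl, zero_le_one⟩
  refine ⟨fun j => ⟨mkThr (xx j), isThr_mkThr (hx01 j)⟩, fun _ => δ, ε, hε, hεA,
    fun _ => ⟨hεδ, hδ1⟩, fun x y hxy => ?_⟩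
  obtain ⟨j, hj⟩ := hv ⟨(x, y), hxy⟩
  refine ⟨j, ?_, ?_⟩
  · -- const
    intro s hs t ht hst hclear
    have hγ := (hW ⟨(x, y), hxy⟩).speed
    have hsub : Icc s t ⊆ Icc (0 : ℝ) (5 * n) := fun z hz => ⟨hs.1.trans hz.1, hz.2.trans ht.2⟩
    refine isPreconnected_Icc.induction₂ (s := Icc s t)
      (fun a b => bigSet co (mkThr (xx j)) (endPt geo x y a) =
        bigSet co (mkThr (xx j)) (endPt geo x y b)) ?_ ?_ ?_ ⟨le_rfl, hst⟩ ⟨hst, le_rfl⟩
    · intro a ha
      have hfar : farC co Lc d (mkThr (xx j)) ε (endPt geo x y a) := by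
        by_contra hcon
        exact hclear a hcon ha
      have hev : ∀ᶠ b in 𝓝[Icc s t] a, b ∈ Icc s t ∧ |b - a| < ε := by
        refine (eventually_mem_nhdsWithin).and ?_
        refine eventually_nhdsWithin_of_eventually_nhds ?_
        filter_upwards [Metric.ball_mem_nhds a hε] with b hb
        rwa [Metric.mem_ball, Real.dist_eq] at hb
      filter_upwards [hev] with b hb
      refine (big_eq_of_far h hL hd1 hLc (isThr_mkThr (hx01 j)) hfar ?_).symm
      refine (hγ a (hsub ha) b (hsub hb.1)).trans_lt ?_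
      rw [abs_sub_comm]
      exact hb.2
    · intro a b c _ _ _ h1 h2; exact h1.trans h2
    · intro a b _ _ h; exact h.symm
  · -- gap
    have hbadk : ∀ s, ¬ farC co Lc d (mkThr (xx j)) ε (endPt geo x y s) →
        ∃ k : Fin d, |tail ((k : ℕ) + 1) (co (endPt geo x y s)) - rv k (v j k)| < e := by
      intro s hs
      unfold farC at hs
      push Not at hs
      obtain ⟨k, hk1, hk2, hk⟩ := hs
      obtain ⟨k', rfl⟩ : ∃ k', k = k' + 1 := ⟨k - 1, by omega⟩
      refine ⟨⟨k', by omega⟩, ?_⟩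
      rw [heε]
      have h1 : mkThr (xx j) (k' + 1) = rv ⟨k', by omega⟩ (v j ⟨k', by omega⟩) := by
        simp only [mkThr, hxx, hrv]
        rw [dif_pos (by omega)]
      rw [← h1]
      exact hk
    intro s hs s' hs' hsI hsI'
    obtain ⟨k, hk⟩ := hbadk s hs
    obtain ⟨k', hk'⟩ := hbadk s' hs'
    exact hj s hsI s' hsI' k k' hk hk'

/-- The discretization of a space with coordinates. The state of `x` is the value of `F` on the set
of the vertices with large coordinates. -/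
noncomputable def discC {Γ V' : Type} [Group Γ] [MulAction Γ X] [MulAction Γ V'] {co : X → V → ℝ}
    {dV : V' → V' → ℕ} {geo : X → X → ℝ → X} (h : IsCo co d L) (hL : 0 < L) (hd1 : 1 ≤ d)
    {M C : ℕ} (hM : 0 < M) (hfew : FewP co geo M) (hcl : FewClasses co geo d M C)
    (F : Set V → V') (hst : ∀ (r : Thr) (g : Γ) (x : X),
      F (bigSet co r.1 (g • x)) = g • F (bigSet co r.1 x))
    (htail : ∀ (g : Γ) (x : X) (k : ℕ), tail k (co (g • x)) = tail k (co x))
    (hnear : ∃ C : ℕ, ∀ (r r' : Thr) w w',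
      (dV (F (bigSet co r.1 w)) (F (bigSet co r'.1 w')) : ℝ) ≤ dist w w' + C ∧
      dist w w' ≤ dV (F (bigSet co r.1 w)) (F (bigSet co r'.1 w')) + C) :
    DiscQ Thr Γ X V' dV geo where
  st r x := F (bigSet co r.1 x)
  far r e x := farC co ((⌈d * L⌉₊ + 1 : ℕ) : ℝ) d r.1 e x
  st_smul g r w := hst r g w
  far_smul g r e w := by
    unfold farC
    simp only [htail]
  far_mono r e e' w h he k h1 h2 := by
    refine le_trans ?_ (h k h1 h2)
    exact mul_le_mul_of_nonneg_left he (by positivity)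
  far_dist r e w w' hf := by
    refine farC_dist h hL.le ?_ r.1 e w w' hf
    push_cast; linarith [Nat.le_ceil (d * L)]
  st_eq r e w w' hf hd' := by
    rw [big_eq_of_far h hL hd1 (by push_cast; linarith [Nat.le_ceil (d * L)]) r.2 hf hd']
  short := short_auxC co (by positivity)
  near := hnear
  few := by
    refine ⟨_, fun r x y n s hs h0 hn1 hn2 hne => few_of_fewP h hL.le hM hfew r x y n s hs h0 hn1
      hn2 fun i hi he => hne i hi (by rw [he])⟩
  pairs := by
    obtain ⟨m, A, hA⟩ := pairs_of_fewP h hL hd1 hM hfew hcl (Lc := ⌈d * L⌉₊ + 1)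
      (by push_cast; linarith [Nat.le_ceil (d * L)]) (by omega)
    refine ⟨m, A, fun n hn => ?_⟩
    obtain ⟨r, δ, ε, h1, h2, h3, h4⟩ := hA n hn
    refine ⟨r, δ, ε, h1, h2, h3, fun x y hxy => ?_⟩
    obtain ⟨k, hk1, hk2⟩ := h4 x y hxy
    refine ⟨k, fun s hs t ht hst' hcl => ?_, fun e he e' he' hI hI' => hk2 e he e' he' hI hI'⟩
    show F _ = F _
    rw [hk1 s hs t ht hst' fun e he => hcl e he]

end Pool.Agent.LSH
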