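import Mathlib
import Pool.Agent.Lib.MP_98022b_gln.ConeDefs

/-!
# Semilattices with a shift: definitions

`L` is a join semilattice, `φ` an automorphism with `x < φ x`; the space consists of the join
homomorphisms `s : L → ℝ` with `s (φ x) = s x + 1`.
-/

set_option autoImplicit false

open Set

namespace Pool.Agent.LSH

/-- a join semilattice with a shift `φ`: `x < φ x`, the elements `φ^k x` are cofinal, and the
chains from `x` to `φ x` have at most `d` steps -/
class HasShift (L : Type) [SemilatticeSup L] where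
  φ : L ≃o L
  d : ℕ
  lt : ∀ x, x < φ x
  cof : ∀ x y, ∃ k : ℕ, y ≤ φ^[k] x
  chain : ∀ (m : ℕ) (c : ℕ → L), (∀ i < m, c i < c (i + 1)) → c m ≤ φ (c 0) → m ≤ d

/-- the powers of the shift -/
def sh {L : Type} [SemilatticeSup L] [HasShift L] (n : ℤ) (x : L) : L :=
  ((HasShift.φ : L ≃o L) ^ n) x

/-- actions on `L` compatible with the order and with the shift -/
class ShiftAct (G L : Type) [Group G] [SemilatticeSup L] [HasShift L] extends MulAction G L where
  mono : ∀ (g : G) {x y : L}, x ≤ y → g • x ≤ g • y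
  phi : ∀ (g : G) (x : L), g • (HasShift.φ x : L) = HasShift.φ (g • x)

/-- the points: join homomorphisms to the reals compatible with the shift -/
@[ext] structure Pt (L : Type) [SemilatticeSup L] [HasShift L] where
  s : L → ℝ
  sup : ∀ x y, s (x ⊔ y) = max (s x) (s y)
  phi : ∀ x, s (HasShift.φ x) = s x + 1
  bdd : ∃ g, ∀ x, s x ≤ 0 → x ≤ g

/-- families of join homomorphisms on `[a, b]` which are convex in the time -/
structure Fam {L : Type} [SemilatticeSup L] (a b : ℝ) (f : ℝ → L → ℝ) : Prop where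
  conv : ∀ x, ConvexOn ℝ (Icc a b) (fun t => f t x)
  sup : ∀ t ∈ Icc a b, ∀ x y, f t (x ⊔ y) = max (f t x) (f t y)

section
variable {L : Type} [SemilatticeSup L] [HasShift L]

/-- the distance: supremum of the differences -/
noncomputable instance : Dist (Pt L) := ⟨fun p q => ⨆ x, |p.s x - q.s x|⟩

/-- families with ends below `p` and `q` -/
def Allowed (p q : Pt L) (f : ℝ → L → ℝ) : Prop :=
  Fam 0 1 f ∧ (∀ x, f 0 x ≤ p.s x) ∧ ∀ x, f 1 x ≤ q.s x

/-- the greatest family -/
noncomputable def geoS (p q : Pt L) (t : ℝ) (x : L) : ℝ :=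
  ⨆ f : {f : ℝ → L → ℝ // Allowed p q f}, f.1 t x

end

end Pool.Agent.LSH
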