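import Mathlib
import Pool.Agent.Lib.LSH.Defs

/-!
# Semilattices with a shift: the metric space
-/

set_option autoImplicit false
set_option linter.unusedSectionVars false

open Set

namespace Pool.Agent.LSH

section
variable {L : Type} [SemilatticeSup L] [HasShift L]

open HasShift (φ)

/-! ### powers of the shift -/

theorem sh_zero (x : L) : sh 0 x = x := by simp [sh]

theorem sh_one (x : L) : sh 1 x = φ x := by simp [sh]

theorem sh_add (m n : ℤ) (x : L) : sh (m + n) x = sh m (sh n x) := by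
  unfold sh
  rw [zpow_add]
  rfl

theorem sh_neg (n : ℤ) (x : L) : sh (-n) (sh n x) = x := by
  rw [← sh_add, neg_add_cancel, sh_zero]

theorem sh_neg' (n : ℤ) (x : L) : sh n (sh (-n) x) = x := by
  rw [← sh_add, add_neg_cancel, sh_zero]

theorem sh_le_sh {n : ℤ} {x y : L} : sh n x ≤ sh n y ↔ x ≤ y := (φ ^ n).le_iff_le

theorem sh_sup (n : ℤ) (x y : L) : sh n (x ⊔ y) = sh n x ⊔ sh n y := map_sup (φ ^ n) x y

theorem le_sh_iff {n : ℤ} {x y : L} : x ≤ sh n y ↔ sh (-n) x ≤ y := by
  rw [← sh_le_sh (n := n) (x := sh (-n) x), sh_neg']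

theorem sh_nat (k : ℕ) (x : L) : sh (k : ℤ) x = φ^[k] x := by
  induction k with
  | zero => rw [Nat.cast_zero, sh_zero]; rfl
  | succ k ih =>
    rw [Function.iterate_succ_apply', ← ih, ← sh_one (sh (k : ℤ) x), ← sh_add]
    congr 1
    push_cast
    ring

theorem lt_sh_one (x : L) : x < sh 1 x := by
  rw [sh_one]
  exact HasShift.lt x

theorem le_sh_nat (k : ℕ) (x : L) : x ≤ sh (k : ℤ) x := by
  induction k with
  | zero => rw [Nat.cast_zero, sh_zero]
  | succ k ih =>
    refine ih.trans ?_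
    have h1 : sh ((k + 1 : ℕ) : ℤ) x = sh 1 (sh (k : ℤ) x) := by
      rw [← sh_add]
      congr 1
      push_cast
      ring
    rw [h1]
    exact (lt_sh_one _).le

theorem sh_mono {m n : ℤ} (h : m ≤ n) (x : L) : sh m x ≤ sh n x := by
  obtain ⟨k, hk⟩ := Int.eq_ofNat_of_zero_le (sub_nonneg.2 h)
  have h1 : n = (k : ℤ) + m := by omega
  rw [h1, sh_add]
  exact le_sh_nat k _

theorem exists_sh (x y : L) : ∃ n : ℕ, y ≤ sh (n : ℤ) x := by
  obtain ⟨k, hk⟩ := HasShift.cof x y
  exact ⟨k, by rwa [sh_nat]⟩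

/-! ### chains -/

theorem chain_mono {m : ℕ} {c : ℕ → L} (hc : ∀ i < m, c i < c (i + 1)) {i j : ℕ} (hij : i ≤ j)
    (hj : j ≤ m) : c i ≤ c j := by
  induction j, hij using Nat.le_induction with
  | base => exact le_rfl
  | succ j hij ih => exact (ih (by omega)).trans (hc j (by omega)).le

theorem chain_lt {m : ℕ} {c : ℕ → L} (hc : ∀ i < m, c i < c (i + 1)) {i j : ℕ} (hij : i < j)
    (hj : j ≤ m) : c i < c j :=
  (hc i (by omega)).trans_le (chain_mono hc (i := i + 1) hij hj)

/-- bounded chains are finite -/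
theorem chain_bound (N : ℕ) : ∀ (x : L) (m : ℕ) (c : ℕ → L), (∀ i < m, c i < c (i + 1)) →
    x ≤ c 0 → c m ≤ sh (N : ℤ) x → m + 1 ≤ (HasShift.d L + 1) ^ N := by
  induction N with
  | zero =>
    intro x m c hc h0 hm
    rw [Nat.cast_zero, sh_zero] at hm
    rcases Nat.eq_zero_or_pos m with h | h
    · simp [h]
    · exact absurd (hm.trans h0) (not_le_of_gt (chain_lt hc h le_rfl))
  | succ N ih =>
    intro x m c hc h0 hm
    set d := HasShift.d L with hd
    set f : ℕ → L := fun k => c (k * (d + 1)) ⊔ φ x with hf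
    have hstep : ∀ k, (k + 1) * (d + 1) ≤ m → f k < f (k + 1) := by
      intro k hk
      have hkk : k * (d + 1) ≤ (k + 1) * (d + 1) := Nat.mul_le_mul_right _ (Nat.le_succ k)
      have h1 : f k ≤ f (k + 1) := sup_le_sup_right (chain_mono hc hkk hk) _
      refine lt_of_le_of_ne h1 fun he => ?_
      have h2 : c ((k + 1) * (d + 1)) ≤ φ (c (k * (d + 1))) := by
        calc c ((k + 1) * (d + 1)) ≤ f (k + 1) := le_sup_left
          _ = f k := he.symm
          _ ≤ φ (c (k * (d + 1))) := by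
            refine sup_le (HasShift.lt _).le ?_
            exact (φ).le_iff_le.2 (h0.trans (chain_mono hc (Nat.zero_le _) (hkk.trans hk)))
      have h3 := HasShift.chain (d + 1) (fun i => c (k * (d + 1) + i)) (fun i hi => by
        refine hc _ ?_
        have : (k + 1) * (d + 1) = k * (d + 1) + (d + 1) := by ring
        omega) (by
        show c (k * (d + 1) + (d + 1)) ≤ φ (c (k * (d + 1) + 0))
        have : (k + 1) * (d + 1) = k * (d + 1) + (d + 1) := by ring
        rw [← this, Nat.add_zero]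
        exact h2)
      omega
    have hK := ih (φ x) (m / (d + 1)) f (fun i hi => hstep i (by
        calc (i + 1) * (d + 1) ≤ m / (d + 1) * (d + 1) := Nat.mul_le_mul_right _ hi
          _ ≤ m := Nat.div_mul_le_self m (d + 1))) le_sup_right (by
        have h1 : sh ((N : ℕ) : ℤ) (φ x) = sh ((N + 1 : ℕ) : ℤ) x := by
          rw [← sh_one, ← sh_add]
          congr 1
        rw [h1]
        refine sup_le ((chain_mono hc (Nat.div_mul_le_self m (d + 1)) le_rfl).trans hm) ?_
        rw [← sh_one]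
        exact sh_mono (by push_cast; omega) x)
    have h1 : m < (m / (d + 1) + 1) * (d + 1) := by
      have e1 := Nat.div_add_mod m (d + 1)
      have e2 : m % (d + 1) < d + 1 := Nat.mod_lt m (Nat.succ_pos d)
      have e3 : (m / (d + 1) + 1) * (d + 1) = (d + 1) * (m / (d + 1)) + (d + 1) := by ring
      omega
    calc m + 1 ≤ (m / (d + 1) + 1) * (d + 1) := h1
      _ ≤ (d + 1) ^ N * (d + 1) := Nat.mul_le_mul_right _ hK
      _ = (d + 1) ^ (N + 1) := (pow_succ _ _).symm

/-- a nonempty bounded set closed under joins has a greatest element -/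
theorem exists_greatest {A : Set L} (hne : A.Nonempty) (hsup : ∀ x ∈ A, ∀ y ∈ A, x ⊔ y ∈ A)
    {u : L} (hu : ∀ x ∈ A, x ≤ u) : ∃ m, IsGreatest A m := by
  classical
  obtain ⟨x₀, hx₀⟩ := hne
  obtain ⟨N, hN⟩ := exists_sh x₀ u
  let P : ℕ → Prop := fun m => ∃ c : ℕ → L, (∀ i < m, c i < c (i + 1)) ∧ (∀ i, c i ∈ A) ∧ x₀ ≤ c 0
  have h0 : P 0 := ⟨fun _ => x₀, fun i hi => absurd hi (Nat.not_lt_zero i), fun _ => hx₀, le_rfl⟩
  have hbig : ¬ P ((HasShift.d L + 1) ^ N) := by
    rintro ⟨c, hc, hcA, hc0⟩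
    have := chain_bound N x₀ _ c hc hc0 ((hu _ (hcA _)).trans hN)
    omega
  have hex : ∃ m, ¬ P m := ⟨_, hbig⟩
  set m := Nat.find hex with hm
  have hm1 : ¬ P m := Nat.find_spec hex
  have hmpos : 0 < m := by
    rcases Nat.eq_zero_or_pos m with h | h
    · exact absurd (h ▸ h0 : P m) hm1
    · exact h
  have hm2 : P (m - 1) := by
    have := Nat.find_min hex (m := m - 1) (by omega)
    push Not at this
    exact this
  obtain ⟨c, hc, hcA, hc0⟩ := hm2
  refine ⟨c (m - 1), hcA _, fun x hx => ?_⟩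
  by_contra hnle
  have hlt : c (m - 1) < c (m - 1) ⊔ x := lt_of_le_of_ne le_sup_left fun h =>
    hnle (h ▸ le_sup_right)
  refine hm1 ⟨fun i => if i ≤ m - 1 then c i else c (m - 1) ⊔ x, fun i hi => ?_, fun i => ?_, ?_⟩
  · by_cases h : i = m - 1
    · subst h
      show (if m - 1 ≤ m - 1 then c (m - 1) else c (m - 1) ⊔ x) <
        if m - 1 + 1 ≤ m - 1 then c (m - 1 + 1) else c (m - 1) ⊔ x
      rw [if_pos le_rfl, if_neg (by omega)]
      exact hlt
    · show (if i ≤ m - 1 then c i else c (m - 1) ⊔ x) <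
        if i + 1 ≤ m - 1 then c (i + 1) else c (m - 1) ⊔ x
      rw [if_pos (by omega), if_pos (by omega)]
      exact hc i (by omega)
  · show (if i ≤ m - 1 then c i else c (m - 1) ⊔ x) ∈ A
    split_ifs
    · exact hcA i
    · exact hsup _ (hcA _) _ hx
  · show x₀ ≤ if 0 ≤ m - 1 then c 0 else c (m - 1) ⊔ x
    rw [if_pos (Nat.zero_le _)]
    exact hc0

/-! ### points -/

theorem Pt.mono (p : Pt L) {x y : L} (h : x ≤ y) : p.s x ≤ p.s y := by
  have h1 := p.sup x y
  rw [sup_eq_right.2 h] at h1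
  rw [h1]
  exact le_max_left _ _

theorem Pt.s_sh (p : Pt L) (n : ℤ) (x : L) : p.s (sh n x) = p.s x + n := by
  induction n using Int.induction_on with
  | zero => rw [sh_zero, Int.cast_zero, add_zero]
  | succ n ih =>
    rw [add_comm, sh_add, sh_one, p.phi, ih]
    push_cast
    ring
  | pred n ih =>
    have h1 : p.s (sh (1 + (-(n : ℤ) - 1)) x) = p.s (sh (-(n : ℤ) - 1) x) + 1 := by
      rw [sh_add, sh_one, p.phi]
    have h2 : (1 + (-(n : ℤ) - 1)) = -(n : ℤ) := by ring
    rw [h2, ih] at h1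
    have h3 : p.s (sh (-(n : ℤ) - 1) x) = p.s x + ((-(n : ℤ) : ℤ) : ℝ) - 1 := by linarith
    rw [h3]
    push_cast
    ring

/-- `x ≤ φ^m g` if `p.s x ≤ m` -/
theorem Pt.exists_le (p : Pt L) : ∃ g : L, ∀ (x : L) (m : ℤ), p.s x ≤ m → x ≤ sh m g := by
  obtain ⟨g, hg⟩ := p.bdd
  refine ⟨g, fun x m hm => le_sh_iff.2 (hg _ ?_)⟩
  rw [p.s_sh]
  push_cast
  linarith

theorem Pt.exists_bd (p q : Pt L) : ∃ C, ∀ x, q.s x ≤ p.s x + C := by
  obtain ⟨g, hg⟩ := p.exists_le
  refine ⟨q.s g + 1, fun x => ?_⟩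
  have h1 := q.mono (hg x ⌈p.s x⌉ (Int.le_ceil _))
  rw [q.s_sh] at h1
  have h2 := Int.ceil_lt_add_one (p.s x)
  linarith

theorem Pt.bddAbove (p q : Pt L) : BddAbove (range fun x => |p.s x - q.s x|) := by
  obtain ⟨C, hC⟩ := p.exists_bd q
  obtain ⟨C', hC'⟩ := q.exists_bd p
  refine ⟨max C C', ?_⟩
  rintro _ ⟨x, rfl⟩
  rw [abs_le]
  constructor
  · have h1 := hC x
    have h2 := le_max_left C C'
    linarith
  · have h1 := hC' x
    have h2 := le_max_right C C'
    linarith

theorem Pt.nonempty (p : Pt L) : Nonempty L := ⟨p.bdd.choose⟩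

theorem dist_eq (p q : Pt L) : dist p q = ⨆ x, |p.s x - q.s x| := rfl

theorem abs_le_dist (p q : Pt L) (x : L) : |p.s x - q.s x| ≤ dist p q :=
  le_ciSup (p.bddAbove q) x

theorem le_add_dist (p q : Pt L) (x : L) : p.s x ≤ q.s x + dist p q := by
  have := (abs_le.1 (abs_le_dist p q x)).2
  linarith

theorem dist_le_of {p q : Pt L} {C : ℝ} (h : ∀ x, |p.s x - q.s x| ≤ C) : dist p q ≤ C :=
  have := p.nonempty
  ciSup_le h

theorem dist_le_iff {p q : Pt L} {C : ℝ} : dist p q ≤ C ↔ ∀ x, |p.s x - q.s x| ≤ C :=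
  ⟨fun h x => (abs_le_dist p q x).trans h, dist_le_of⟩

noncomputable instance : MetricSpace (Pt L) where
  dist_self p := by
    have := p.nonempty
    simp [dist_eq]
  dist_comm p q := by
    simp only [dist_eq]
    exact iSup_congr fun x => abs_sub_comm _ _
  dist_triangle p q r := dist_le_of fun x => by
    have h1 := abs_le_dist p q x
    have h2 := abs_le_dist q r x
    have h3 := abs_sub_le (p.s x) (q.s x) (r.s x)
    linarith
  eq_of_dist_eq_zero := by
    intro p q h
    ext x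
    have h1 := abs_le_dist p q x
    rw [h] at h1
    have h2 := abs_eq_zero.1 (le_antisymm h1 (abs_nonneg _))
    linarith

instance : CompleteSpace (Pt L) := by
  refine Metric.complete_of_cauchySeq_tendsto fun u hu => ?_
  have hc : ∀ x, CauchySeq fun n => (u n).s x := by
    intro x
    rw [Metric.cauchySeq_iff] at hu ⊢
    intro ε hε
    obtain ⟨N, hN⟩ := hu ε hε
    refine ⟨N, fun m hm n hn => ?_⟩
    rw [Real.dist_eq]
    exact (abs_le_dist _ _ x).trans_lt (hN m hm n hn)
  choose s hs using fun x => cauchySeq_tendsto_of_complete (hc x)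
  -- uniform convergence
  have hunif : ∀ ε > 0, ∃ N, ∀ n ≥ N, ∀ x, |(u n).s x - s x| ≤ ε := by
    intro ε hε
    obtain ⟨N, hN⟩ := Metric.cauchySeq_iff.1 hu ε hε
    refine ⟨N, fun n hn x => ?_⟩
    have h1 : Filter.Tendsto (fun m => |(u n).s x - (u m).s x|) Filter.atTop
        (nhds |(u n).s x - s x|) := ((hs x).const_sub _).abs
    refine le_of_tendsto h1 ?_
    filter_upwards [Filter.eventually_ge_atTop N] with m hm
    exact (abs_le_dist _ _ x).trans (hN n hn m hm).le
  obtain ⟨N₁, hN₁⟩ := hunif 1 one_pos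
  let p : Pt L :=
    { s := s
      sup := fun x y => by
        have h1 := (hs x).max (hs y)
        have h2 := hs (x ⊔ y)
        simp only [(u _).sup] at h2
        exact tendsto_nhds_unique h2 h1
      phi := fun x => by
        have h1 := (hs x).add_const 1
        have h2 := hs (φ x)
        simp only [(u _).phi] at h2
        exact tendsto_nhds_unique h2 h1
      bdd := by
        obtain ⟨g, hg⟩ := (u N₁).exists_le
        refine ⟨sh 1 g, fun x hx => hg x 1 ?_⟩
        have h1 := (abs_le.1 (hN₁ N₁ le_rfl x)).2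
        push_cast
        linarith }
  refine ⟨p, ?_⟩
  rw [Metric.tendsto_atTop]
  intro ε hε
  obtain ⟨N, hN⟩ := hunif (ε / 2) (by linarith)
  refine ⟨N, fun n hn => ?_⟩
  have h1 : dist (u n) p ≤ ε / 2 := dist_le_of fun x => hN n hn x
  linarith

/-- the base points -/
theorem exists_pt (g : L) : ∃ p : Pt L, ∀ (x : L) (m : ℤ), p.s x ≤ m ↔ x ≤ sh m g := by
  classical
  have hex : ∀ x : L, ∃ m : ℤ, x ≤ sh m g ∧ ∀ m' : ℤ, x ≤ sh m' g → m ≤ m' := by
    intro x
    obtain ⟨n, hn⟩ := exists_sh g x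
    obtain ⟨k, hk⟩ := exists_sh x g
    obtain ⟨m, hm1, hm2⟩ := Int.exists_least_of_bdd (P := fun m : ℤ => x ≤ sh m g)
      ⟨-(k : ℤ), fun z hz => by
        by_contra hlt
        push Not at hlt
        have h1 : sh (-z) x ≤ g := by
          have := (le_sh_iff (n := z)).1 hz
          exact this
        have h2 := h1.trans hk
        have h3 : sh 1 (sh (k : ℤ) x) ≤ sh (-z) x := by
          rw [← sh_add]
          exact sh_mono (by omega) x
        exact absurd (h3.trans h2) (not_le_of_gt (lt_sh_one _))⟩ ⟨n, hn⟩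
    exact ⟨m, hm1, hm2⟩
  choose a ha1 ha2 using hex
  have hiff : ∀ (x : L) (m : ℤ), a x ≤ m ↔ x ≤ sh m g := fun x m =>
    ⟨fun h => (ha1 x).trans (sh_mono h g), fun h => ha2 x m h⟩
  refine ⟨{ s := fun x => a x, sup := fun x y => ?_, phi := fun x => ?_, bdd := ⟨g, fun x hx => ?_⟩ },
    fun x m => ?_⟩
  · rw [← Int.cast_max]
    congr 1
    refine le_antisymm ((hiff _ _).2 (sup_le ((hiff _ _).1 (le_max_left _ _))
      ((hiff _ _).1 (le_max_right _ _)))) (max_le ?_ ?_)
    · exact (hiff _ _).2 (le_sup_left.trans (ha1 _))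
    · exact (hiff _ _).2 (le_sup_right.trans (ha1 _))
  · have h1 : a (φ x) = a x + 1 := by
      refine le_antisymm ((hiff _ _).2 ?_) ?_
      · rw [← sh_one x, add_comm, sh_add]
        exact sh_le_sh.2 (ha1 x)
      · have h2 : a x ≤ a (φ x) - 1 := by
          refine (hiff _ _).2 ?_
          have h3 := ha1 (φ x)
          rw [← sh_one x] at h3
          have h4 : a (φ x) = 1 + (a (φ x) - 1) := by ring
          rw [← sh_one x] at h4
          rw [h4, sh_add, sh_le_sh] at h3
          rw [← sh_one x]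
          exact h3
        omega
    rw [h1]
    push_cast
    ring
  · have h1 : a x ≤ 0 := by exact_mod_cast hx
    have h2 := (hiff x 0).1 h1
    rwa [sh_zero] at h2
  · rw [← hiff]
    exact Int.cast_le

theorem exists_top (p : Pt L) (r : ℝ) : ∃ m, IsGreatest {x | p.s x ≤ r} m := by
  obtain ⟨g, hg⟩ := p.exists_le
  refine exists_greatest (u := sh ⌈r⌉ g) ?_ ?_ ?_
  · refine ⟨sh (-⌈p.s g - r⌉) g, ?_⟩
    show p.s _ ≤ r
    rw [p.s_sh]
    push_cast
    have := Int.le_ceil (p.s g - r)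
    linarith
  · intro x hx y hy
    show p.s (x ⊔ y) ≤ r
    rw [p.sup]
    exact max_le hx hy
  · intro x hx
    exact hg x _ (le_trans hx (Int.le_ceil r))

/-- the greatest `x` with `p.s x ≤ r` -/
noncomputable def Pt.top (p : Pt L) (r : ℝ) : L := (exists_top p r).choose

theorem Pt.le_top_iff (p : Pt L) {r : ℝ} {x : L} : x ≤ p.top r ↔ p.s x ≤ r :=
  ⟨fun h => (p.mono h).trans (exists_top p r).choose_spec.1,
    fun h => (exists_top p r).choose_spec.2 h⟩

theorem Pt.s_top (p : Pt L) (r : ℝ) : p.s (p.top r) ≤ r := p.le_top_iff.1 le_rfl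

theorem Pt.top_mono (p : Pt L) {r r' : ℝ} (h : r ≤ r') : p.top r ≤ p.top r' :=
  p.le_top_iff.2 ((p.s_top r).trans h)

theorem Pt.top_sh (p : Pt L) (r : ℝ) (n : ℤ) : p.top (r + n) = sh n (p.top r) := by
  refine le_antisymm ?_ ?_
  · rw [le_sh_iff, p.le_top_iff, p.s_sh]
    have := p.s_top (r + n)
    push_cast
    linarith
  · rw [p.le_top_iff, p.s_sh]
    have := p.s_top r
    linarith

end

/-! ### the action -/

section
variable {G L : Type} [Group G] [SemilatticeSup L] [HasShift L] [ShiftAct G L]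

theorem smul_le_iff {g : G} {x y : L} : g • x ≤ g • y ↔ x ≤ y := by
  refine ⟨fun h => ?_, fun h => ShiftAct.mono g h⟩
  have h1 := ShiftAct.mono g⁻¹ h
  rwa [inv_smul_smul, inv_smul_smul] at h1

theorem smul_sup' (g : G) (x y : L) : g • (x ⊔ y) = g • x ⊔ g • y := by
  refine le_antisymm ?_ (sup_le (smul_le_iff.2 le_sup_left) (smul_le_iff.2 le_sup_right))
  have h1 : x ⊔ y ≤ g⁻¹ • (g • x ⊔ g • y) := by
    refine sup_le ?_ ?_
    · have := ShiftAct.mono g⁻¹ (le_sup_left : g • x ≤ g • x ⊔ g • y)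
      rwa [inv_smul_smul] at this
    · have := ShiftAct.mono g⁻¹ (le_sup_right : g • y ≤ g • x ⊔ g • y)
      rwa [inv_smul_smul] at this
  have h2 := ShiftAct.mono g h1
  rwa [smul_inv_smul] at h2

instance : MulAction G (Pt L) where
  smul g p :=
    { s := fun x => p.s (g⁻¹ • x)
      sup := fun x y => by rw [smul_sup', p.sup]
      phi := fun x => by rw [ShiftAct.phi, p.phi]
      bdd := by
        obtain ⟨u, hu⟩ := p.bdd
        refine ⟨g • u, fun x hx => ?_⟩
        have h1 := ShiftAct.mono g (hu _ hx)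
        rwa [smul_inv_smul] at h1 }
  one_smul p := by
    ext x
    show p.s ((1 : G)⁻¹ • x) = p.s x
    rw [inv_one, one_smul]
  mul_smul g h p := by
    ext x
    show p.s ((g * h)⁻¹ • x) = p.s (h⁻¹ • g⁻¹ • x)
    rw [mul_inv_rev, mul_smul]

theorem smul_s (g : G) (p : Pt L) (x : L) : (g • p).s x = p.s (g⁻¹ • x) := rfl

theorem smul_s' (g : G) (p : Pt L) (x : L) : (g • p).s (g • x) = p.s x := by
  rw [smul_s, inv_smul_smul]

theorem dist_smul_pt (g : G) (p q : Pt L) : dist (g • p) (g • q) = dist p q := by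
  refine le_antisymm (dist_le_of fun x => abs_le_dist p q _) (dist_le_of fun x => ?_)
  have := abs_le_dist (g • p) (g • q) (g • x)
  rwa [smul_s', smul_s'] at this

end

end Pool.Agent.LSH
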