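import Mathlib
import Pool.Agent.Lib.LSH.Space

/-!
# Semilattices with a shift: the bicombing

`geo p q t` is the value at `t` of the greatest family of join homomorphisms which is convex in `t`
and has ends below `p` and `q`.
-/

set_option autoImplicit false
set_option linter.unusedSectionVars false

open Set

namespace Pool.Agent.LSH

open Pool.Agent.GLN

/-! ### gluing convex functions -/

theorem convex_three {f : ℝ → ℝ} {a b : ℝ} (hf : ConvexOn ℝ (Icc a b) f) {x y z : ℝ}
    (hx : x ∈ Icc a b) (hz : z ∈ Icc a b) (hxy : x ≤ y) (hyz : y ≤ z) :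
    (z - x) * f y ≤ (z - y) * f x + (y - x) * f z := by
  rcases eq_or_lt_of_le (hxy.trans hyz) with h | h
  · have h1 : y = x := le_antisymm (by linarith) hxy
    subst h1
    subst h
    simp
  · have hp : 0 < z - x := by linarith
    have h1 := hf.2 hx hz (div_nonneg (by linarith : 0 ≤ z - y) hp.le)
      (div_nonneg (by linarith : 0 ≤ y - x) hp.le) (by field_simp; ring)
    have h2 : ((z - y) / (z - x)) • x + ((y - x) / (z - x)) • z = y := by
      rw [smul_eq_mul, smul_eq_mul]
      field_simp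
      ring
    rw [h2] at h1
    have h3 := mul_le_mul_of_nonneg_left h1 hp.le
    refine h3.trans (le_of_eq ?_)
    rw [smul_eq_mul, smul_eq_mul]
    field_simp

theorem convexOn_of_three {f : ℝ → ℝ} {a b : ℝ}
    (h : ∀ x y z, x ∈ Icc a b → z ∈ Icc a b → x < y → y < z →
      (z - x) * f y ≤ (z - y) * f x + (y - x) * f z) : ConvexOn ℝ (Icc a b) f := by
  refine convexOn_of_slope_mono_adjacent (convex_Icc a b) ?_
  intro x y z hx hz hxy hyz
  have h1 := h x y z hx hz hxy hyz
  rw [div_le_div_iff₀ (by linarith) (by linarith)]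
  nlinarith

theorem convexOn_glue {f h : ℝ → ℝ} {u v a b : ℝ} (hab : a < b)
    (hf : ConvexOn ℝ (Icc u v) f) (hh : ConvexOn ℝ (Icc a b) h) (ha : h a = f a) (hb : h b = f b)
    (hle : ∀ t ∈ Icc a b, f t ≤ h t) :
    ConvexOn ℝ (Icc u v) (fun t => if a ≤ t ∧ t ≤ b then h t else f t) := by
  set g : ℝ → ℝ := fun t => if a ≤ t ∧ t ≤ b then h t else f t with hg
  have hfg : ∀ t, f t ≤ g t := by
    intro t
    simp only [hg]
    split_ifs with h1
    · exact hle t h1
    · exact le_rfl
  have hgh : ∀ t, a ≤ t → t ≤ b → g t = h t := fun t h1 h2 => if_pos ⟨h1, h2⟩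
  refine convexOn_of_three fun x y z hx hz hxy hyz => ?_
  show (z - x) * g y ≤ (z - y) * g x + (y - x) * g z
  by_cases hy : a ≤ y ∧ y ≤ b
  · -- `x' = max x a`, `z' = min z b`
    have hx' : (z - x) * h (max x a) ≤ (z - max x a) * g x + (max x a - x) * g z := by
      rcases le_total x a with h1 | h1
      · rw [max_eq_right h1, ha]
        have h2 := convex_three hf hx hz h1 (hy.1.trans hyz.le)
        have h3 := mul_le_mul_of_nonneg_left (hfg x) (by linarith [hy.1] : 0 ≤ z - a)
        have h4 := mul_le_mul_of_nonneg_left (hfg z) (by linarith : 0 ≤ a - x)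
        linarith
      · rw [max_eq_left h1, hgh x h1 (hxy.le.trans hy.2)]
        linarith
    have hz' : (z - x) * h (min z b) ≤ (z - min z b) * g x + (min z b - x) * g z := by
      rcases le_total z b with h1 | h1
      · rw [min_eq_left h1, hgh z (hy.1.trans hyz.le) h1]
        linarith
      · rw [min_eq_right h1, hb]
        have h2 := convex_three hf hx hz (hxy.le.trans hy.2) h1
        have h3 := mul_le_mul_of_nonneg_left (hfg x) (by linarith : 0 ≤ z - b)
        have h4 := mul_le_mul_of_nonneg_left (hfg z) (by linarith [hy.2] : 0 ≤ b - x)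
        linarith
    have hxa : max x a ∈ Icc a b := ⟨le_max_right _ _, max_le (hxy.le.trans hy.2) hab.le⟩
    have hzb : min z b ∈ Icc a b := ⟨le_min (hy.1.trans hyz.le) hab.le, min_le_right _ _⟩
    have hxy' : max x a ≤ y := max_le hxy.le hy.1
    have hyz' : y ≤ min z b := le_min hyz.le hy.2
    have h1 := convex_three hh hxa hzb hxy' hyz'
    rw [hgh y hy.1 hy.2]
    set x' := max x a
    set z' := min z b
    rcases eq_or_lt_of_le (hxy'.trans hyz') with he | hlt
    · have h2 : y = x' := le_antisymm (by rw [he]; exact hyz') hxy'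
      rw [h2]
      exact hx'
    · have hp : 0 < z' - x' := by linarith
      refine le_of_mul_le_mul_left ?_ hp
      have hzx : 0 < z - x := by linarith
      have h2 := mul_le_mul_of_nonneg_left h1 hzx.le
      have h3 := mul_le_mul_of_nonneg_left hx' (by linarith : 0 ≤ z' - y)
      have h4 := mul_le_mul_of_nonneg_left hz' (by linarith : 0 ≤ y - x')
      nlinarith
  · have h1 : g y = f y := if_neg hy
    rw [h1]
    have h2 := convex_three hf hx hz hxy.le hyz.le
    have h3 := mul_le_mul_of_nonneg_left (hfg x) (by linarith : 0 ≤ z - y)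
    have h4 := mul_le_mul_of_nonneg_left (hfg z) (by linarith : 0 ≤ y - x)
    linarith

section
variable {L : Type} [SemilatticeSup L] [HasShift L]

open HasShift (φ)

/-! ### the greatest family -/

theorem mem01_0 : (0 : ℝ) ∈ Icc (0 : ℝ) 1 := ⟨le_rfl, zero_le_one⟩

theorem mem01_1 : (1 : ℝ) ∈ Icc (0 : ℝ) 1 := ⟨zero_le_one, le_rfl⟩

theorem Fam.le_lin {f : ℝ → L → ℝ} (hf : Fam 0 1 f) {t : ℝ} (ht : t ∈ Icc (0 : ℝ) 1) (x : L) :
    f t x ≤ (1 - t) * f 0 x + t * f 1 x := by
  have h1 := convex_three (hf.conv x) mem01_0 mem01_1 ht.1 ht.2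
  simp only [sub_zero, one_mul] at h1
  exact h1

theorem Allowed.le_lin {p q : Pt L} {f : ℝ → L → ℝ} (hf : Allowed p q f) {t : ℝ}
    (ht : t ∈ Icc (0 : ℝ) 1) (x : L) : f t x ≤ (1 - t) * p.s x + t * q.s x := by
  refine (hf.1.le_lin ht x).trans ?_
  have h1 := mul_le_mul_of_nonneg_left (hf.2.1 x) (by linarith [ht.2] : 0 ≤ 1 - t)
  have h2 := mul_le_mul_of_nonneg_left (hf.2.2 x) ht.1
  linarith

/-- families which are translates of a point, linear in the time -/
theorem fam_lin (p : Pt L) (a b : ℝ) {u v : ℝ} : Fam u v (fun t x => p.s x + (a + t * b)) := by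
  refine ⟨fun x => ?_, fun t _ x y => ?_⟩
  · refine ⟨convex_Icc u v, fun s _ t _ c d _ _ hcd => le_of_eq ?_⟩
    simp only [smul_eq_mul]
    have : d = 1 - c := by linarith
    subst this
    ring
  · rw [p.sup, max_add_add_right]

theorem allowed_left (p q : Pt L) : Allowed p q (fun t x => p.s x + (0 + t * -dist p q)) := by
  refine ⟨fam_lin p _ _, fun x => by simp, fun x => ?_⟩
  have := le_add_dist p q x
  linarith

theorem allowed_right (p q : Pt L) :
    Allowed p q (fun t x => q.s x + (-dist p q + t * dist p q)) := by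
  refine ⟨fam_lin q _ _, fun x => ?_, fun x => by simp⟩
  have := le_add_dist q p x
  rw [dist_comm] at this
  linarith

theorem bdd_geoS (p q : Pt L) {t : ℝ} (ht : t ∈ Icc (0 : ℝ) 1) (x : L) :
    BddAbove (range fun f : {f : ℝ → L → ℝ // Allowed p q f} => f.1 t x) := by
  refine ⟨(1 - t) * p.s x + t * q.s x, ?_⟩
  rintro _ ⟨f, rfl⟩
  exact f.2.le_lin ht x

theorem Allowed.le_geoS {p q : Pt L} {f : ℝ → L → ℝ} (hf : Allowed p q f) {t : ℝ}
    (ht : t ∈ Icc (0 : ℝ) 1) (x : L) : f t x ≤ geoS p q t x :=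
  le_ciSup (bdd_geoS p q ht x) ⟨f, hf⟩

theorem geoS_le {p q : Pt L} {t : ℝ} {x : L} {c : ℝ}
    (h : ∀ f : ℝ → L → ℝ, Allowed p q f → f t x ≤ c) : geoS p q t x ≤ c := by
  have : Nonempty {f : ℝ → L → ℝ // Allowed p q f} := ⟨⟨_, allowed_left p q⟩⟩
  exact ciSup_le fun f => h f.1 f.2

theorem geoS_le_lin (p q : Pt L) {t : ℝ} (ht : t ∈ Icc (0 : ℝ) 1) (x : L) :
    geoS p q t x ≤ (1 - t) * p.s x + t * q.s x := geoS_le fun _ hf => hf.le_lin ht x

theorem fam_geoS (p q : Pt L) : Fam 0 1 (geoS p q) := by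
  refine ⟨fun x => ⟨convex_Icc 0 1, fun s hs t ht c d hc hd hcd => ?_⟩, fun t ht x y => ?_⟩
  · refine geoS_le fun f hf => ?_
    refine ((hf.1.conv x).2 hs ht hc hd hcd).trans ?_
    rw [smul_eq_mul, smul_eq_mul, smul_eq_mul, smul_eq_mul]
    have h1 := mul_le_mul_of_nonneg_left (hf.le_geoS hs x) hc
    have h2 := mul_le_mul_of_nonneg_left (hf.le_geoS ht x) hd
    linarith
  · refine le_antisymm (geoS_le fun f hf => ?_) (max_le (geoS_le fun f hf => ?_)
      (geoS_le fun f hf => ?_))
    · rw [hf.1.sup t ht]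
      exact max_le_max (hf.le_geoS ht x) (hf.le_geoS ht y)
    · have h1 := hf.1.sup t ht x y
      exact (le_max_left (f t x) (f t y)).trans (h1 ▸ hf.le_geoS ht (x ⊔ y))
    · have h1 := hf.1.sup t ht x y
      exact (le_max_right (f t x) (f t y)).trans (h1 ▸ hf.le_geoS ht (x ⊔ y))

theorem geoS_zero (p q : Pt L) (x : L) : geoS p q 0 x = p.s x := by
  refine le_antisymm (geoS_le fun f hf => hf.2.1 x) ?_
  have := (allowed_left p q).le_geoS mem01_0 x
  simpa using this

theorem geoS_one (p q : Pt L) (x : L) : geoS p q 1 x = q.s x := by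
  refine le_antisymm (geoS_le fun f hf => hf.2.2 x) ?_
  have := (allowed_right p q).le_geoS mem01_1 x
  simpa using this

theorem Fam.comp {f : ℝ → L → ℝ} {u v : ℝ} (hf : Fam u v f) (g : L → L)
    (hg : ∀ x y, g (x ⊔ y) = g x ⊔ g y) (c : ℝ) : Fam u v (fun t x => f t (g x) + c) := by
  refine ⟨fun x => (hf.conv (g x)).add_const c, fun t ht x y => ?_⟩
  rw [hg, hf.sup t ht, max_add_add_right]

theorem geoS_phi (p q : Pt L) {t : ℝ} (ht : t ∈ Icc (0 : ℝ) 1) (x : L) :
    geoS p q t (φ x) = geoS p q t x + 1 := by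
  have hsup1 : ∀ x y : L, sh 1 (x ⊔ y) = sh 1 x ⊔ sh 1 y := sh_sup 1
  have hsup2 : ∀ x y : L, sh (-1) (x ⊔ y) = sh (-1) x ⊔ sh (-1) y := sh_sup (-1)
  refine le_antisymm ?_ ?_
  · refine geoS_le fun f hf => ?_
    have h1 : Allowed p q (fun t x => f t (sh 1 x) + (-1)) := by
      refine ⟨hf.1.comp _ hsup1 _, fun y => ?_, fun y => ?_⟩
      · have := hf.2.1 (sh 1 y)
        rw [p.s_sh] at this
        push_cast at this
        linarith
      · have := hf.2.2 (sh 1 y)
        rw [q.s_sh] at this
        push_cast at this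
        linarith
    have h2 := h1.le_geoS ht x
    rw [sh_one] at h2
    linarith
  · have key : geoS p q t x ≤ geoS p q t (φ x) - 1 := by
      refine geoS_le fun f hf => ?_
      have h1 : Allowed p q (fun t x => f t (sh (-1) x) + 1) := by
        refine ⟨hf.1.comp _ hsup2 _, fun y => ?_, fun y => ?_⟩
        · have := hf.2.1 (sh (-1) y)
          rw [p.s_sh] at this
          push_cast at this
          linarith
        · have := hf.2.2 (sh (-1) y)
          rw [q.s_sh] at this
          push_cast at this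
          linarith
      have h2 := h1.le_geoS ht (φ x)
      rw [← sh_one x, sh_neg] at h2
      rw [← sh_one x]
      linarith
    linarith

/-- the distance from the ends -/
theorem geoS_ge_left (p q : Pt L) {t : ℝ} (ht : t ∈ Icc (0 : ℝ) 1) (x : L) :
    p.s x - t * dist p q ≤ geoS p q t x := by
  have := (allowed_left p q).le_geoS ht x
  linarith

theorem clamp_mem (t : ℝ) : max 0 (min t 1) ∈ Icc (0 : ℝ) 1 :=
  ⟨le_max_left _ _, max_le zero_le_one (min_le_right _ _)⟩

theorem clamp_eq {t : ℝ} (ht : t ∈ Icc (0 : ℝ) 1) : max 0 (min t 1) = t := by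
  rw [min_eq_left ht.2, max_eq_right ht.1]

/-- the bicombing -/
noncomputable def geo (p q : Pt L) (t : ℝ) : Pt L where
  s := geoS p q (max 0 (min t 1))
  sup := (fam_geoS p q).sup _ (clamp_mem t)
  phi := geoS_phi p q (clamp_mem t)
  bdd := by
    obtain ⟨g, hg⟩ := p.exists_le
    refine ⟨sh ⌈dist p q⌉ g, fun x hx => hg x _ ?_⟩
    have h1 := geoS_ge_left p q (clamp_mem t) x
    have h2 : max 0 (min t 1) * dist p q ≤ 1 * dist p q :=
      mul_le_mul_of_nonneg_right (clamp_mem t).2 dist_nonneg
    have h3 := Int.le_ceil (dist p q)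
    linarith

theorem geo_s (p q : Pt L) {t : ℝ} (ht : t ∈ Icc (0 : ℝ) 1) (x : L) :
    (geo p q t).s x = geoS p q t x := by
  show geoS p q (max 0 (min t 1)) x = _
  rw [clamp_eq ht]

theorem fam_congr {u v : ℝ} {f g : ℝ → L → ℝ} (hf : Fam u v f)
    (h : ∀ t ∈ Icc u v, ∀ x, g t x = f t x) : Fam u v g := by
  refine ⟨fun x => (hf.conv x).congr fun t ht => (h t ht x).symm, fun t ht x y => ?_⟩
  rw [h t ht, h t ht, h t ht, hf.sup t ht]

theorem fam_geo (p q : Pt L) : Fam 0 1 (fun t x => (geo p q t).s x) :=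
  fam_congr (fam_geoS p q) fun _ ht x => geo_s p q ht x

theorem geo_zero (p q : Pt L) : geo p q 0 = p := by
  ext x
  rw [geo_s p q mem01_0, geoS_zero]

theorem geo_one (p q : Pt L) : geo p q 1 = q := by
  ext x
  rw [geo_s p q mem01_1, geoS_one]

/-- maximality -/
theorem geo_max {p q : Pt L} {f : ℝ → L → ℝ} (hf : Fam 0 1 f) {a b : ℝ}
    (h0 : ∀ x, f 0 x ≤ p.s x + a) (h1 : ∀ x, f 1 x ≤ q.s x + b) {t : ℝ}
    (ht : t ∈ Icc (0 : ℝ) 1) (x : L) : f t x ≤ (geo p q t).s x + ((1 - t) * a + t * b) := by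
  have h2 : Allowed p q (fun t x => f t x + -((1 - t) * a + t * b)) := by
    refine ⟨⟨fun x => ?_, fun t ht x y => ?_⟩, fun x => ?_, fun x => ?_⟩
    · have h3 : ConvexOn ℝ (Icc (0 : ℝ) 1) fun t => -((1 - t) * a + t * b) := by
        refine ⟨convex_Icc 0 1, fun s _ t _ c d _ _ hcd => le_of_eq ?_⟩
        simp only [smul_eq_mul]
        have : d = 1 - c := by linarith
        subst this
        ring
      exact (hf.conv x).add h3
    · rw [hf.sup t ht, max_add_add_right]
    · have := h0 x
      simp only [sub_zero, one_mul, zero_mul, add_zero]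
      linarith
    · have := h1 x
      simp only [sub_self, one_mul, zero_mul, zero_add]
      linarith
  have h3 := h2.le_geoS ht x
  rw [geo_s p q ht]
  linarith

/-- `geo` is conical -/
theorem geo_conical (p q p' q' : Pt L) {t : ℝ} (ht : t ∈ Icc (0 : ℝ) 1) :
    dist (geo p q t) (geo p' q' t) ≤ (1 - t) * dist p p' + t * dist q q' := by
  refine dist_le_of fun x => abs_le.2 ⟨?_, ?_⟩
  · have h1 := geo_max (p := p) (q := q) (fam_geo p' q') (a := dist p p') (b := dist q q')
      (fun x => by
        have := le_add_dist p' p x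
        rw [dist_comm] at this
        simpa only [geo_zero] using this)
      (fun x => by
        have := le_add_dist q' q x
        rw [dist_comm] at this
        simpa only [geo_one] using this) ht x
    linarith
  · have h1 := geo_max (p := p') (q := q') (fam_geo p q) (a := dist p p') (b := dist q q')
      (fun x => by simpa only [geo_zero] using le_add_dist p p' x)
      (fun x => by simpa only [geo_one] using le_add_dist q q' x) ht x
    linarith

/-- the speed -/
theorem geo_dist_left (p q : Pt L) {t : ℝ} (ht : t ∈ Icc (0 : ℝ) 1) :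
    dist p (geo p q t) ≤ t * dist p q := by
  refine dist_le_of fun x => ?_
  rw [geo_s p q ht, abs_le]
  have h1 := geoS_ge_left p q ht x
  have h2 := geoS_le_lin p q ht x
  have h3 := le_add_dist q p x
  rw [dist_comm] at h3
  have h4 := mul_le_mul_of_nonneg_left h3 ht.1
  constructor <;> linarith

theorem geo_self (p : Pt L) {t : ℝ} (ht : t ∈ Icc (0 : ℝ) 1) : geo p p t = p := by
  have h1 := geo_dist_left p p ht
  rw [dist_self, mul_zero] at h1
  exact (dist_eq_zero.1 (le_antisymm h1 dist_nonneg)).symm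

/-- families on subintervals -/
theorem Fam.reparam {f : ℝ → L → ℝ} {u v : ℝ} (hf : Fam u v f) {a b : ℝ}
    (hu : ∀ t ∈ Icc (0 : ℝ) 1, (1 - t) * a + t * b ∈ Icc u v) :
    Fam 0 1 (fun t x => f ((1 - t) * a + t * b) x) := by
  refine ⟨fun x => ⟨convex_Icc 0 1, fun s hs t ht c d hc hd hcd => ?_⟩, fun t ht x y =>
    hf.sup _ (hu t ht) x y⟩
  have h1 := (hf.conv x).2 (hu s hs) (hu t ht) hc hd hcd
  have h2 : (1 - (c • s + d • t)) * a + (c • s + d • t) * b =
      c • ((1 - s) * a + s * b) + d • ((1 - t) * a + t * b) := by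
    simp only [smul_eq_mul]
    have : d = 1 - c := by linarith
    subst this
    ring
  simp only
  rw [h2]
  exact h1

/-- reversal -/
theorem geo_symm (p q : Pt L) {t : ℝ} (ht : t ∈ Icc (0 : ℝ) 1) : geo p q t = geo q p (1 - t) := by
  have key : ∀ (p q : Pt L) {t : ℝ}, t ∈ Icc (0 : ℝ) 1 → ∀ x,
      (geo p q t).s x ≤ (geo q p (1 - t)).s x := by
    intro p q t ht x
    have ht' : 1 - t ∈ Icc (0 : ℝ) 1 := ⟨by linarith [ht.2], by linarith [ht.1]⟩
    have h1 := (fam_geo p q).reparam (a := 1) (b := 0) (fun t ht => by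
      constructor <;> [linarith [ht.2]; linarith [ht.1]])
    have h2 := geo_max (p := q) (q := p) h1 (a := 0) (b := 0)
      (fun x => by simp [geo_one]) (fun x => by simp [geo_zero]) ht' x
    have h3 : (1 - (1 - t)) * 1 + (1 - t) * 0 = t := by ring
    simp only [h3] at h2
    linarith
  ext x
  refine le_antisymm (key p q ht x) ?_
  have ht' : 1 - t ∈ Icc (0 : ℝ) 1 := ⟨by linarith [ht.2], by linarith [ht.1]⟩
  have h1 := key q p ht' x
  rwa [sub_sub_cancel] at h1

/-- consistency, main case -/
theorem geo_cons {p q : Pt L} {a b t : ℝ} (ha : 0 ≤ a) (hab : a < b) (hb : b ≤ 1)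
    (ht : t ∈ Icc (0 : ℝ) 1) :
    geo (geo p q a) (geo p q b) t = geo p q ((1 - t) * a + t * b) := by
  have hsub : ∀ t ∈ Icc (0 : ℝ) 1, (1 - t) * a + t * b ∈ Icc a b := by
    intro t ht
    constructor
    · nlinarith [ht.1]
    · nlinarith [ht.2]
  have hsub' : ∀ t ∈ Icc (0 : ℝ) 1, (1 - t) * a + t * b ∈ Icc (0 : ℝ) 1 := fun t ht =>
    ⟨ha.trans (hsub t ht).1, (hsub t ht).2.trans hb⟩
  -- the restriction is below
  have hle : ∀ t ∈ Icc (0 : ℝ) 1, ∀ x, (geo p q ((1 - t) * a + t * b)).s x ≤
      (geo (geo p q a) (geo p q b) t).s x := by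
    intro t ht x
    have h1 := (fam_geo p q).reparam hsub'
    have h2 := geo_max (p := geo p q a) (q := geo p q b) h1 (a := 0) (b := 0)
      (fun x => by simp) (fun x => by simp) ht x
    simpa using h2
  -- the glued family
  set F : ℝ → L → ℝ := fun t x => (geo p q t).s x with hF
  set H : ℝ → L → ℝ := fun τ x => (geo (geo p q a) (geo p q b) ((τ - a) / (b - a))).s x with hH
  have hba : 0 < b - a := by linarith
  have hmem : ∀ τ ∈ Icc a b, (τ - a) / (b - a) ∈ Icc (0 : ℝ) 1 := by
    intro τ hτ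
    refine ⟨div_nonneg (by linarith [hτ.1]) hba.le, ?_⟩
    rw [div_le_one hba]
    linarith [hτ.2]
  have hback : ∀ τ : ℝ, (1 - (τ - a) / (b - a)) * a + (τ - a) / (b - a) * b = τ := by
    intro τ
    field_simp
    ring
  have hHfam : Fam a b H := by
    refine ⟨fun x => ⟨convex_Icc a b, fun s hs t ht c d hc hd hcd => ?_⟩, fun t ht x y =>
      (geo (geo p q a) (geo p q b) _).sup x y⟩
    have h1 := ((fam_geo (geo p q a) (geo p q b)).conv x).2 (hmem s hs) (hmem t ht) hc hd hcd
    have h2 : (c • s + d • t - a) / (b - a) = c • ((s - a) / (b - a)) + d • ((t - a) / (b - a)) := by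
      simp only [smul_eq_mul]
      have : d = 1 - c := by linarith
      subst this
      field_simp
      ring
    simp only [hH]
    rw [h2]
    exact h1
  have hHa : ∀ x, H a x = F a x := by
    intro x
    simp only [hH, hF]
    rw [sub_self, zero_div, geo_zero]
  have hHb : ∀ x, H b x = F b x := by
    intro x
    simp only [hH, hF]
    rw [div_self hba.ne', geo_one]
  have hFH : ∀ τ ∈ Icc a b, ∀ x, F τ x ≤ H τ x := by
    intro τ hτ x
    have h1 := hle _ (hmem τ hτ) x
    rw [hback] at h1
    exact h1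
  set Gl : ℝ → L → ℝ := fun τ x => if a ≤ τ ∧ τ ≤ b then H τ x else F τ x with hGl
  have hGfam : Fam 0 1 Gl := by
    refine ⟨fun x => convexOn_glue hab ((fam_geo p q).conv x) (hHfam.conv x) (hHa x) (hHb x)
      (fun τ hτ => hFH τ hτ x), fun τ hτ x y => ?_⟩
    simp only [hGl]
    split_ifs with h
    · exact hHfam.sup τ h x y
    · exact (fam_geo p q).sup τ hτ x y
  have hG0 : ∀ x, Gl 0 x ≤ p.s x + 0 := by
    intro x
    simp only [hGl]
    split_ifs with h
    · have h1 : a = 0 := le_antisymm h.1 ha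
      rw [← h1, hHa x]
      simp only [hF]
      rw [h1, geo_zero, add_zero]
    · simp only [hF]
      rw [geo_zero, add_zero]
  have hG1 : ∀ x, Gl 1 x ≤ q.s x + 0 := by
    intro x
    simp only [hGl]
    split_ifs with h
    · have h1 : b = 1 := le_antisymm hb h.2
      rw [← h1, hHb x]
      simp only [hF]
      rw [h1, geo_one, add_zero]
    · simp only [hF]
      rw [geo_one, add_zero]
  ext x
  refine le_antisymm ?_ (hle t ht x)
  have h1 := geo_max hGfam hG0 hG1 (hsub' t ht) x
  simp only [hGl] at h1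
  rw [if_pos ⟨(hsub t ht).1, (hsub t ht).2⟩] at h1
  simp only [hH] at h1
  have h2 : ((1 - t) * a + t * b - a) / (b - a) = t := by
    field_simp
    ring
  rw [h2] at h1
  simpa using h1

theorem bicomb : Bicomb (Pt L) geo where
  zero := geo_zero
  one := geo_one
  speed := by
    have key : ∀ (p q : Pt L) (s t : ℝ), 0 ≤ s → s ≤ t → t ≤ 1 →
        dist (geo p q s) (geo p q t) ≤ (t - s) * dist p q := by
      intro p q s t hs hst ht
      rcases eq_or_lt_of_le hst with h | h
      · rw [h, dist_self, sub_self, zero_mul]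
      · rcases eq_or_lt_of_le ht with h1 | h1
        · -- `t = 1`
          subst h1
          rw [geo_one, geo_symm p q ⟨hs, hst⟩, dist_comm]
          have h2 := geo_dist_left q p (t := 1 - s) ⟨by linarith, by linarith⟩
          rwa [dist_comm q p] at h2
        · -- `s = (1 - u) 0 + u t`
          have ht0 : 0 < t := hs.trans_lt h
          have hu : s / t ∈ Icc (0 : ℝ) 1 := ⟨div_nonneg hs ht0.le, (div_le_one ht0).2 hst⟩
          have h2 := geo_cons (p := p) (q := q) le_rfl ht0 ht hu
          have h3 : (1 - s / t) * 0 + s / t * t = s := by field_simp; ring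
          rw [h3, geo_zero] at h2
          rw [← h2, geo_symm p (geo p q t) hu, dist_comm]
          have h4 := geo_dist_left (geo p q t) p (t := 1 - s / t)
            ⟨by linarith [hu.2], by linarith [hu.1]⟩
          refine h4.trans ?_
          have h5 := geo_dist_left p q (t := t) ⟨ht0.le, ht⟩
          rw [dist_comm (geo p q t) p]
          calc (1 - s / t) * dist p (geo p q t) ≤ (1 - s / t) * (t * dist p q) :=
                mul_le_mul_of_nonneg_left h5 (by linarith [hu.2])
            _ = (t - s) * dist p q := by field_simp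
    intro p q s t hs hs1 ht ht1
    rcases le_total s t with h | h
    · rw [abs_of_nonpos (by linarith), neg_sub]
      exact key p q s t hs h ht1
    · rw [abs_of_nonneg (by linarith), dist_comm]
      exact key p q t s ht h hs1
  conical := fun p q p' q' t h0 h1 => geo_conical p q p' q' ⟨h0, h1⟩
  consistent := by
    intro p q a b t ha ha1 hb hb1 ht ht1
    rcases lt_trichotomy a b with h | h | h
    · exact geo_cons ha h hb1 ⟨ht, ht1⟩
    · subst h
      rw [geo_self _ ⟨ht, ht1⟩]
      congr 1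
      ring
    · rw [geo_symm _ _ ⟨ht, ht1⟩, geo_cons hb h ha1 ⟨by linarith, by linarith⟩]
      congr 1
      ring

end

section
variable {G L : Type} [Group G] [SemilatticeSup L] [HasShift L] [ShiftAct G L]

/-- the action commutes with the bicombing -/
theorem geo_smul (g : G) (p q : Pt L) {t : ℝ} (ht : t ∈ Icc (0 : ℝ) 1) :
    g • geo p q t = geo (g • p) (g • q) t := by
  have key : ∀ (g : G) (p q : Pt L) (x : L),
      (g • geo p q t).s x ≤ (geo (g • p) (g • q) t).s x := by
    intro g p q x
    have h1 := (fam_geo p q).comp (fun x => g⁻¹ • x) (fun x y => smul_sup' g⁻¹ x y) 0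
    have h2 := geo_max (p := g • p) (q := g • q) h1 (a := 0) (b := 0)
      (fun x => by rw [geo_zero, smul_s]) (fun x => by rw [geo_one, smul_s]) ht x
    rw [smul_s]
    simpa using h2
  ext x
  refine le_antisymm (key g p q x) ?_
  have h1 := key g⁻¹ (g • p) (g • q) (g⁻¹ • x)
  rw [inv_smul_smul, inv_smul_smul, smul_s, inv_inv, smul_inv_smul] at h1
  rwa [smul_s]

end

end Pool.Agent.LSH
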