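import Pool.Agent.Lib.LSH.Space

/-!
# Semilattices with a shift: the values of a point and the times at which it leaves a value
-/

set_option autoImplicit false

open Set

namespace Pool.Agent.LSH

section

variable {L : Type} [SemilatticeSup L] [HasShift L]

theorem exists_top' (p : Pt L) (r : ℝ) : ∃ m, IsGreatest {x | p.s x < r} m := by
  obtain ⟨g, hg⟩ := p.exists_le
  refine exists_greatest (u := sh ⌈r⌉ g) ?_ ?_ ?_
  · refine ⟨sh (-⌊p.s g - r⌋ - 1) g, ?_⟩
    show p.s _ < r
    rw [p.s_sh]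
    push_cast
    have := Int.lt_floor_add_one (p.s g - r)
    linarith
  · intro x hx y hy
    show p.s (x ⊔ y) < r
    rw [p.sup]
    exact max_lt hx hy
  · intro x hx
    exact hg x _ (le_trans (le_of_lt hx) (Int.le_ceil r))

/-- the greatest `x` with `p.s x < r` -/
noncomputable def Pt.top' (p : Pt L) (r : ℝ) : L := (exists_top' p r).choose

theorem Pt.le_top'_iff (p : Pt L) {r : ℝ} {x : L} : x ≤ p.top' r ↔ p.s x < r :=
  ⟨fun h => (p.mono h).trans_lt (exists_top' p r).choose_spec.1,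
    fun h => (exists_top' p r).choose_spec.2 h⟩

theorem Pt.s_top' (p : Pt L) (r : ℝ) : p.s (p.top' r) < r := p.le_top'_iff.1 le_rfl

theorem Pt.top'_le_top (p : Pt L) (r : ℝ) : p.top' r ≤ p.top r :=
  p.le_top_iff.2 (p.s_top' r).le

theorem Pt.top'_sh (p : Pt L) (r : ℝ) (n : ℤ) : p.top' (r + n) = sh n (p.top' r) := by
  refine le_antisymm ?_ ?_
  · rw [le_sh_iff, p.le_top'_iff, p.s_sh]
    have := p.s_top' (r + n)
    push_cast
    linarith
  · rw [p.le_top'_iff, p.s_sh]
    have := p.s_top' r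
    linarith

theorem Pt.s_top_s (p : Pt L) (x : L) : p.s (p.top (p.s x)) = p.s x :=
  le_antisymm (p.s_top _) (p.mono (p.le_top_iff.2 le_rfl))

theorem Pt.top_s_top (p : Pt L) (r : ℝ) : p.top (p.s (p.top r)) = p.top r :=
  le_antisymm (p.top_mono (p.s_top r)) (p.le_top_iff.2 le_rfl)

/-- there are at most `d + 1` values in an interval `[s, s + 1]` -/
theorem chain_values (p : Pt L) {m : ℕ} {a : ℕ → L} (ha : ∀ i < m, p.s (a i) < p.s (a (i + 1)))
    (h : p.s (a m) ≤ p.s (a 0) + 1) : m ≤ HasShift.d L := by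
  refine HasShift.chain m (fun i => p.top (p.s (a i))) (fun i hi => ?_) ?_
  · refine lt_of_le_of_ne (p.top_mono (ha i hi).le) fun he => ?_
    have h1 := congrArg p.s he
    rw [p.s_top_s, p.s_top_s] at h1
    exact (ha i hi).ne h1
  · show p.top (p.s (a m)) ≤ HasShift.φ (p.top (p.s (a 0)))
    have h1 := p.top_sh (p.s (a 0)) 1
    rw [sh_one, Int.cast_one] at h1
    rw [← h1]
    exact p.top_mono h

/-- the first time at which the value of `p` is not below `g` -/
noncomputable def kap (g : L) (p : Pt L) : ℝ := sInf (p.s '' {a | ¬ a ≤ g})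

theorem not_sh_one_le (g : L) : ¬ sh 1 g ≤ g := not_le_of_gt (lt_sh_one g)

theorem kap_aux (g : L) (p : Pt L) :
    BddBelow (p.s '' {a | ¬ a ≤ g}) ∧ (p.s '' {a | ¬ a ≤ g}).Nonempty := by
  constructor
  · obtain ⟨k, hk⟩ := exists_sh g (p.top 0)
    refine ⟨-k, ?_⟩
    rintro _ ⟨a, ha, rfl⟩
    by_contra hcon
    push Not at hcon
    refine ha ?_
    have h1 : a ≤ p.top (0 + ((-(k : ℤ) : ℤ) : ℝ)) := p.le_top_iff.2 (by push_cast; linarith)
    rw [p.top_sh] at h1
    refine h1.trans ?_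
    have h2 := (le_sh_iff (n := (k : ℤ)) (x := p.top 0) (y := g)).1 hk
    exact h2
  · exact ⟨_, _, not_sh_one_le g, rfl⟩

theorem kap_le {g a : L} (p : Pt L) (ha : ¬ a ≤ g) : kap g p ≤ p.s a :=
  csInf_le (kap_aux g p).1 ⟨a, ha, rfl⟩

/-- the infimum is attained -/
theorem exists_kap (g : L) (p : Pt L) : ∃ a, ¬ a ≤ g ∧ kap g p = p.s a := by
  by_contra hcon
  push Not at hcon
  have hstep : ∀ a : {a // ¬ a ≤ g}, ∃ a' : {a // ¬ a ≤ g}, p.s a' < p.s a := by
    rintro ⟨a, ha⟩
    have h1 : kap g p < p.s a := lt_of_le_of_ne (kap_le p ha) (hcon a ha)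
    obtain ⟨_, ⟨a', ha', rfl⟩, h2⟩ := exists_lt_of_csInf_lt (kap_aux g p).2 h1
    exact ⟨⟨a', ha'⟩, h2⟩
  choose f hf using hstep
  obtain ⟨_, ⟨a₀, ha₀, rfl⟩, h0⟩ := exists_lt_of_csInf_lt (kap_aux g p).2
    (lt_add_one (kap g p))
  have hs : StrictAnti fun k : ℕ => p.s (f^[k] ⟨a₀, ha₀⟩ : {a // ¬ a ≤ g}) := by
    refine strictAnti_nat_of_succ_lt fun k => ?_
    rw [Function.iterate_succ_apply']
    exact hf _
  have h1 := chain_values p (m := HasShift.d L + 1)
    (a := fun i => ((f^[HasShift.d L + 1 - i] ⟨a₀, ha₀⟩ : {a // ¬ a ≤ g}) : L)) (fun i hi => by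
      refine hs ?_
      omega) (by
      simp only [Nat.sub_self, Nat.sub_zero, Function.iterate_zero_apply]
      have h2 := kap_le p (f^[HasShift.d L + 1] ⟨a₀, ha₀⟩ : {a // ¬ a ≤ g}).2
      linarith)
  omega

theorem lt_kap {g : L} {p : Pt L} {t : ℝ} : t < kap g p ↔ p.top t ≤ g := by
  constructor
  · intro h
    by_contra hcon
    exact absurd (kap_le p hcon) (not_le.2 ((p.s_top t).trans_lt h))
  · intro h
    obtain ⟨a, ha, hk⟩ := exists_kap g p
    rw [hk]
    by_contra hcon
    push Not at hcon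
    exact ha ((p.le_top_iff.2 hcon).trans h)

theorem kap_mono (p : Pt L) {g g' : L} (hgg : g ≤ g') : kap g p ≤ kap g' p := by
  obtain ⟨a, ha, hk⟩ := exists_kap g' p
  rw [hk]
  exact kap_le p fun h => ha (h.trans hgg)

theorem kap_sh (g : L) (p : Pt L) (k : ℤ) : kap (sh k g) p = kap g p + k := by
  have h1 : ∀ (g : L) (k : ℤ), kap (sh k g) p ≤ kap g p + k := by
    intro g k
    obtain ⟨a, ha, hk⟩ := exists_kap g p
    rw [hk, ← p.s_sh]
    exact kap_le p fun h => ha (sh_le_sh.1 h)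
  refine le_antisymm (h1 g k) ?_
  have h2 := h1 (sh k g) (-k)
  rw [sh_neg] at h2
  push_cast at h2
  linarith

theorem kap_lip (g : L) (p q : Pt L) : kap g p ≤ kap g q + dist p q := by
  obtain ⟨a, ha, hk⟩ := exists_kap g q
  rw [hk]
  exact (kap_le p ha).trans (le_add_dist p q a)

theorem abs_kap_le (g : L) (p q : Pt L) : |kap g p - kap g q| ≤ dist p q := by
  have h1 := kap_lip g p q
  have h2 := kap_lip g q p
  rw [dist_comm] at h2
  rw [abs_le]
  constructor <;> linarith

/-- the values of `p` -/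
def carr (p : Pt L) : Set L := range p.top

/-- the length of the time for which the value of `p` is `g` -/
noncomputable def gap (g : L) (p : Pt L) : ℝ := max 0 (kap g p - p.s g)

theorem mem_carr {g : L} {p : Pt L} : g ∈ carr p ↔ p.top (p.s g) = g := by
  constructor
  · rintro ⟨t, rfl⟩
    exact p.top_s_top t
  · intro h
    exact ⟨_, h⟩

theorem gap_nonneg (g : L) (p : Pt L) : 0 ≤ gap g p := le_max_left _ _

theorem gap_pos_iff {g : L} {p : Pt L} : 0 < gap g p ↔ g ∈ carr p := by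
  unfold gap
  rw [lt_max_iff, mem_carr]
  simp only [lt_irrefl, false_or, sub_pos]
  rw [lt_kap]
  exact ⟨fun h => le_antisymm h (p.le_top_iff.2 le_rfl), fun h => h.le⟩

theorem gap_eq_of_mem {g : L} {p : Pt L} (h : g ∈ carr p) : gap g p = kap g p - p.s g := by
  have h1 := gap_pos_iff.2 h
  unfold gap at h1 ⊢
  rw [lt_max_iff] at h1
  rcases h1 with h1 | h1
  · exact absurd h1 (lt_irrefl _)
  · exact max_eq_right h1.le

theorem gap_sh (g : L) (p : Pt L) (k : ℤ) : gap (sh k g) p = gap g p := by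
  unfold gap
  rw [kap_sh, p.s_sh]
  congr 1
  ring

theorem abs_gap_le (g : L) (p q : Pt L) : |gap g p - gap g q| ≤ 2 * dist p q := by
  have h1 := abs_le.1 (abs_kap_le g p q)
  have h2 := abs_le.1 (abs_le_dist p q g)
  unfold gap
  have h3 := abs_max_sub_max_le_max 0 (kap g p - p.s g) 0 (kap g q - q.s g)
  refine h3.trans (max_le ?_ ?_)
  · simp
  · rw [abs_le]
    constructor <;> linarith

theorem carr_total {p : Pt L} {a b : L} (ha : a ∈ carr p) (hb : b ∈ carr p) :
    a ≤ b ∨ b ≤ a := by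
  obtain ⟨s, rfl⟩ := ha
  obtain ⟨t, rfl⟩ := hb
  rcases le_total s t with h | h
  · exact Or.inl (p.top_mono h)
  · exact Or.inr (p.top_mono h)

theorem carr_lt {p : Pt L} {a b : L} (ha : a ∈ carr p) (hb : b ∈ carr p) :
    a < b ↔ p.s a < p.s b := by
  rw [mem_carr] at ha hb
  constructor
  · intro h
    by_contra hcon
    push Not at hcon
    have h1 := p.top_mono hcon
    rw [ha, hb] at h1
    exact absurd h1 (not_le_of_gt h)
  · intro h
    have h1 := p.top_mono h.le
    rw [ha, hb] at h1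
    refine lt_of_le_of_ne h1 fun he => ?_
    rw [he] at h
    exact lt_irrefl _ h

theorem sh_mem_carr {p : Pt L} {a : L} (ha : a ∈ carr p) (k : ℤ) : sh k a ∈ carr p := by
  obtain ⟨t, rfl⟩ := ha
  exact ⟨t + k, p.top_sh t k⟩

/-- the value just before a time is a value -/
theorem top'_mem_carr (p : Pt L) (r : ℝ) : p.top' r ∈ carr p := by
  rw [mem_carr]
  refine le_antisymm ?_ (p.le_top_iff.2 le_rfl)
  rw [p.le_top'_iff]
  exact (p.s_top _).trans_lt (p.s_top' r)

/-- the time at which `p` leaves the value before the time `p.s a` -/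
theorem kap_top' (p : Pt L) (a : L) : kap (p.top' (p.s a)) p = p.s a := by
  refine le_antisymm (kap_le p fun h => ?_) ?_
  · exact absurd (p.le_top'_iff.1 h) (lt_irrefl _)
  · obtain ⟨b, hb, hk⟩ := exists_kap (p.top' (p.s a)) p
    rw [hk]
    by_contra hcon
    push Not at hcon
    exact hb (p.le_top'_iff.2 hcon)

end

section

variable {G L : Type} [Group G] [SemilatticeSup L] [HasShift L] [ShiftAct G L]

theorem smul_sh (g : G) (n : ℤ) (x : L) : g • sh n x = sh n (g • x) := by
  induction n using Int.induction_on with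
  | zero => rw [sh_zero, sh_zero]
  | succ n ih =>
    rw [add_comm, sh_add, sh_one, ShiftAct.phi, ih, sh_add, sh_one]
  | pred n ih =>
    have h1 : sh 1 (g • sh (-(n : ℤ) - 1) x) = sh 1 (sh (-(n : ℤ) - 1) (g • x)) := by
      rw [sh_one, ← ShiftAct.phi, ← sh_one, ← sh_add, ← sh_add]
      have h2 : (1 + (-(n : ℤ) - 1)) = -(n : ℤ) := by ring
      rw [h2]
      exact ih
    have h2 := congrArg (sh (-1)) h1
    rwa [sh_neg, sh_neg] at h2

theorem top_smul (g : G) (p : Pt L) (r : ℝ) : (g • p).top r = g • p.top r := by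
  refine le_antisymm ?_ ?_
  · have h1 : g⁻¹ • (g • p).top r ≤ p.top r := by
      rw [p.le_top_iff, ← smul_s]
      exact (g • p).s_top r
    have h2 := ShiftAct.mono g h1
    rwa [smul_inv_smul] at h2
  · rw [(g • p).le_top_iff, smul_s']
    exact p.s_top r

theorem kap_smul (g : G) (a : L) (p : Pt L) : kap (g • a) (g • p) = kap a p := by
  have h1 : ∀ (g : G) (a : L) (p : Pt L), kap (g • a) (g • p) ≤ kap a p := by
    intro g a p
    obtain ⟨b, hb, hk⟩ := exists_kap a p
    rw [hk, ← smul_s' g p b]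
    exact kap_le _ fun h => hb (smul_le_iff.1 h)
  refine le_antisymm (h1 g a p) ?_
  have h2 := h1 g⁻¹ (g • a) (g • p)
  rwa [inv_smul_smul, inv_smul_smul] at h2

theorem gap_smul (g : G) (a : L) (p : Pt L) : gap (g • a) (g • p) = gap a p := by
  unfold gap
  rw [kap_smul, smul_s']

end

end Pool.Agent.LSH
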