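import Mathlib
import Pool.Agent.Lib.LSH.Geo
import Pool.Agent.Lib.LSH.Kap

/-!
# Semilattices with a shift: the vertices and the concavity of `kap` along geodesics
-/

set_option autoImplicit false
set_option linter.unusedSectionVars false

open Set

namespace Pool.Agent.LSH

section
variable {L : Type} [SemilatticeSup L] [HasShift L]


/-! ### the values of a point are discrete -/

/-- a strictly increasing sequence with values in a finite set of reals -/
theorem exists_seq (F : Finset ℝ) {m : ℕ} (hF : F.card = m + 1) :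
    ∃ v : ℕ → ℝ, (∀ i < m, v i < v (i + 1)) ∧ ∀ i ≤ m, v i ∈ F := by
  classical
  let e := F.orderEmbOfFin hF
  refine ⟨fun i => if h : i < m + 1 then e ⟨i, h⟩ else 0, fun i hi => ?_, fun i hi => ?_⟩
  · simp only [show i < m + 1 by omega, show i + 1 < m + 1 by omega, dite_true]
    exact e.strictMono (by simp)
  · simp only [show i < m + 1 by omega, dite_true]
    exact F.orderEmbOfFin_mem hF _

/-- a point has finitely many values in a bounded interval -/
theorem Pt.finite_vals (p : Pt L) (a b : ℝ) : (range p.s ∩ Icc a b).Finite := by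
  by_contra hinf
  obtain ⟨N, hN⟩ := exists_sh (p.top a) (p.top b)
  obtain ⟨F, hF, hcard⟩ := Set.Infinite.exists_subset_card_eq hinf
    ((HasShift.d L + 1) ^ N + 1)
  obtain ⟨v, hv, hvF⟩ := exists_seq F hcard
  have h1 := chain_bound N (p.top a) ((HasShift.d L + 1) ^ N) (fun i => p.top (v i))
    (fun i hi => by
      refine lt_of_le_of_ne (p.top_mono (hv i hi).le) fun he => ?_
      obtain ⟨x, hx⟩ := (hF (hvF (i + 1) hi)).1
      have h1 : x ≤ p.top (v (i + 1)) := p.le_top_iff.2 hx.le
      rw [← he, p.le_top_iff, hx] at h1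
      exact absurd (hv i hi) (not_lt_of_ge h1))
    (p.top_mono (hF (hvF 0 (Nat.zero_le _))).2.1)
    ((p.top_mono (hF (hvF _ le_rfl)).2.2).trans hN)
  omega

theorem le_kap (p : Pt L) {g : L} {c : ℝ} (h : ∀ x, ¬ x ≤ g → c ≤ p.s x) : c ≤ kap g p :=
  le_csInf (kap_aux g p).2 (by rintro _ ⟨x, hx, rfl⟩; exact h x hx)

/-! ### the vertices -/

/-- the least `m` with `x ≤ φ^m g` -/
noncomputable def pv (g x : L) : ℤ := ⌈(exists_pt g).choose.s x⌉

theorem pv_le_iff {g x : L} {m : ℤ} : pv g x ≤ m ↔ x ≤ sh m g := by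
  rw [pv, Int.ceil_le, (exists_pt g).choose_spec x m]

theorem le_sh_pv (g x : L) : x ≤ sh (pv g x) g := pv_le_iff.1 le_rfl

theorem pv_sup (g x y : L) : pv g (x ⊔ y) = max (pv g x) (pv g y) := by
  refine le_antisymm (pv_le_iff.2 (sup_le (pv_le_iff.1 (le_max_left _ _))
    (pv_le_iff.1 (le_max_right _ _)))) (max_le ?_ ?_)
  · exact pv_le_iff.2 (le_sup_left.trans (le_sh_pv g _))
  · exact pv_le_iff.2 (le_sup_right.trans (le_sh_pv g _))

theorem pv_mono {g x y : L} (h : x ≤ y) : pv g x ≤ pv g y :=
  pv_le_iff.2 (h.trans (le_sh_pv g y))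

theorem pv_sh (g x : L) (n : ℤ) : pv g (sh n x) = pv g x + n := by
  have key : ∀ (n : ℤ) (x : L), pv g (sh n x) ≤ pv g x + n := by
    intro n x
    rw [pv_le_iff, add_comm, sh_add, sh_le_sh]
    exact le_sh_pv g x
  refine le_antisymm (key n x) ?_
  have := key (-n) (sh n x)
  rw [sh_neg] at this
  omega

/-- the vertex `g` as a point -/
noncomputable def vt (g : L) : Pt L where
  s x := pv g x
  sup x y := by rw [pv_sup]; push_cast; rfl
  phi x := by rw [← sh_one, pv_sh]; push_cast; ring
  bdd := ⟨g, fun x hx => by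
    have h1 : pv g x ≤ 0 := by exact_mod_cast hx
    have h2 := pv_le_iff.1 h1
    rwa [sh_zero] at h2⟩

theorem vt_s (g x : L) : (vt g).s x = pv g x := rfl

theorem pv_self (g : L) : pv g g = 0 := by
  refine le_antisymm (pv_le_iff.2 (by rw [sh_zero])) ?_
  by_contra h
  push Not at h
  have h1 : pv g g ≤ -1 := by omega
  rw [pv_le_iff] at h1
  have h2 : sh 1 g ≤ g := by
    have := (sh_le_sh (n := 1)).2 h1
    rw [← sh_add] at this
    simpa [sh_zero] using this
  exact not_sh_one_le g h2

theorem one_le_pv {g x : L} (h : ¬ x ≤ g) : 1 ≤ pv g x := by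
  by_contra hlt
  push Not at hlt
  have h1 : pv g x ≤ 0 := by omega
  rw [pv_le_iff, sh_zero] at h1
  exact h h1

theorem pv_add_kap_le (p : Pt L) (g x : L) : (pv g x : ℝ) - 1 + kap g p ≤ p.s x := by
  have h1 : ¬ x ≤ sh (pv g x - 1) g := by
    rw [← pv_le_iff]
    omega
  have h2 : ¬ sh (-(pv g x - 1)) x ≤ g := fun h => h1 (le_sh_iff.2 h)
  have h3 := kap_le p h2
  rw [p.s_sh] at h3
  push_cast at h3
  linarith

/-! ### `kap` is concave along geodesics -/

theorem kap_concave (p q : Pt L) (g : L) :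
    ConcaveOn ℝ (Icc (0 : ℝ) 1) (fun t => kap g (geo p q t)) := by
  have key : ∀ a b t : ℝ, 0 ≤ a → a < b → b ≤ 1 → t ∈ Icc (0 : ℝ) 1 →
      (1 - t) * kap g (geo p q a) + t * kap g (geo p q b) ≤
        kap g (geo p q ((1 - t) * a + t * b)) := by
    intro a b t ha hab hb ht
    set A := kap g (geo p q a) with hA
    set B := kap g (geo p q b) with hB
    refine le_kap _ fun x hx => ?_
    have h1 := geo_max (p := geo p q a) (q := geo p q b) (fam_lin (vt g) (A - 1) (B - A))
      (a := 0) (b := 0)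
      (fun x => by
        have := pv_add_kap_le (geo p q a) g x
        rw [vt_s]
        linarith)
      (fun x => by
        have := pv_add_kap_le (geo p q b) g x
        rw [vt_s]
        linarith) ht x
    rw [geo_cons ha hab hb ht, vt_s] at h1
    have h2 : (1 : ℝ) ≤ pv g x := by exact_mod_cast one_le_pv hx
    linarith
  refine ⟨convex_Icc 0 1, ?_⟩
  intro a ha b hb c d hc hd hcd
  simp only [smul_eq_mul]
  have hc' : c = 1 - d := by linarith
  subst hc'
  rcases lt_trichotomy a b with h | h | h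
  · exact key a b d ha.1 h hb.2 ⟨hd, by linarith⟩
  · subst h
    have : (1 - d) * a + d * a = a := by ring
    rw [this]
    linarith
  · have := key b a (1 - d) hb.1 h ha.2 ⟨hc, by linarith⟩
    have e : (1 - (1 - d)) * b + (1 - d) * a = (1 - d) * a + d * b := by ring
    rw [e] at this
    linarith

end

end Pool.Agent.LSH
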