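import Mathlib
import Pool.Agent.Lib.LSH.Conc

/-!
# Semilattices with a shift: a geodesic is piecewise affine with few pieces

The line of maximal slope goes through the whole window (`line`); it cuts the window into strips
between two values which exist for all times; induction on the height of the strip (`strip`).
-/

set_option autoImplicit false
set_option linter.unusedSectionVars false

open Set

namespace Pool.Agent.LSH

/-! ### real analysis -/

theorem conv_ge {f : ℝ → ℝ} {α β : ℝ} (hf : ConvexOn ℝ (Icc α β) f) {a P Q : ℝ} (_ha : α ≤ a)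
    (hab : a < β) (haff : ∀ u ∈ Icc a β, f u = P + u * Q) {t : ℝ} (ht : t ∈ Icc α β) :
    P + t * Q ≤ f t := by
  rcases le_or_gt a t with h | h
  · rw [haff t ⟨h, ht.2⟩]
  · have h1 := convex_three hf (x := t) (y := a) (z := β) ht ⟨ht.1.trans ht.2, le_rfl⟩ h.le hab.le
    rw [haff a ⟨le_rfl, hab.le⟩, haff β ⟨hab.le, le_rfl⟩] at h1
    have h2 : (β - a) * (P + t * Q) ≤ (β - a) * f t := by nlinarith
    exact le_of_mul_le_mul_left h2 (by linarith)

theorem conv_slope {f : ℝ → ℝ} {α β : ℝ} (hf : ConvexOn ℝ (Icc α β) f) {a P Q : ℝ} (ha : α ≤ a)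
    (hab : a < β) (haff : ∀ u ∈ Icc a β, f u = P + u * Q) {t t' : ℝ} (ht : α ≤ t) (htt : t ≤ t')
    (ht' : t' ≤ β) : f t' ≤ f t + Q * (t' - t) := by
  rcases le_or_gt a t' with h | h
  · rw [haff t' ⟨h, ht'⟩]
    have := conv_ge hf ha hab haff (t := t) ⟨ht, htt.trans ht'⟩
    linarith
  · have h1 := convex_three hf (x := t) (y := t') (z := β) ⟨ht, htt.trans ht'⟩
      ⟨ht.trans (htt.trans ht'), le_rfl⟩ htt ht'
    rw [haff β ⟨hab.le, le_rfl⟩] at h1
    have h2 := conv_ge hf ha hab haff (t := t') ⟨ht.trans htt, ht'⟩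
    have h3 : (t' - t) * (P + t' * Q) ≤ (t' - t) * f t' :=
      mul_le_mul_of_nonneg_left h2 (by linarith)
    have h4 : (β - t') * f t' ≤ (β - t') * (f t + Q * (t' - t)) := by nlinarith
    exact le_of_mul_le_mul_left h4 (by linarith)

theorem conc_le {f : ℝ → ℝ} {α β : ℝ} (hf : ConcaveOn ℝ (Icc α β) f) {a P Q : ℝ} (ha : α ≤ a)
    (hab : a < β) (haff : ∀ u ∈ Icc a β, f u = P + u * Q) {t : ℝ} (ht : t ∈ Icc α β) :
    f t ≤ P + t * Q := by
  have h1 := conv_ge (f := fun t => - f t) (P := -P) (Q := -Q) hf.neg ha hab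
    (fun u hu => by rw [haff u hu]; ring) ht
  linarith

theorem eq_of_Ioo {f : ℝ → ℝ} {a b : ℝ} (hab : a < b)
    (hf : ∀ s ∈ Icc a b, ∀ t ∈ Icc a b, |f s - f t| ≤ |s - t|) {c e : ℝ}
    (h : ∀ u ∈ Ioo a b, f u = c + u * e) : ∀ u ∈ Icc a b, f u = c + u * e := by
  have h1 : ContinuousOn f (Icc a b) := by
    have : LipschitzOnWith 1 f (Icc a b) := by
      refine LipschitzOnWith.of_dist_le_mul fun x hx y hy => ?_
      rw [Real.dist_eq, Real.dist_eq, NNReal.coe_one, one_mul]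
      exact hf x hx y hy
    exact this.continuousOn
  have h2 : EqOn f (fun u => c + u * e) (Icc a b) :=
    EqOn.of_subset_closure (s := Ioo a b) h h1 (by fun_prop) Ioo_subset_Icc_self
      (by rw [closure_Ioo hab.ne])
  exact h2

section
variable {L : Type} [SemilatticeSup L] [HasShift L]

/-- trajectories with unit speed with the two convexities and left germs -/
structure Traj (S : ℝ → Pt L) (α β : ℝ) : Prop where
  conv : ∀ x, ConvexOn ℝ (Icc α β) (fun t => (S t).s x)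
  conc : ∀ g, ConcaveOn ℝ (Icc α β) (fun t => kap g (S t))
  lip : ∀ s ∈ Icc α β, ∀ t ∈ Icc α β, dist (S s) (S t) ≤ |s - t|
  germ : ∀ t ∈ Ioc α β, ∃ ε > 0, α ≤ t - ε ∧ ∃ P Q : L → ℝ,
    ∀ u ∈ Icc (t - ε) t, ∀ x, (S u).s x = P x + u * Q x

theorem mem_carr_iff {p : Pt L} {v : L} : v ∈ carr p ↔ ∀ x, p.s x ≤ p.s v → x ≤ v := by
  rw [mem_carr]
  constructor
  · intro h x hx
    rw [← h]
    exact p.le_top_iff.2 hx
  · intro h
    exact le_antisymm (h _ (p.s_top _)) (p.le_top_iff.2 le_rfl)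

theorem lt_of_carr {p : Pt L} {v x : L} (hv : v ∈ carr p) (hx : ¬ x ≤ v) : p.s v < p.s x := by
  by_contra h
  push Not at h
  exact hx (mem_carr_iff.1 hv x h)

theorem top_mem_carr (p : Pt L) (r : ℝ) : p.top r ∈ carr p := ⟨r, rfl⟩

variable {S : ℝ → Pt L}

theorem aff_le {a b : ℝ} {P Q : L → ℝ} (h : ∀ u ∈ Icc a b, ∀ x, (S u).s x = P x + u * Q x)
    {t : ℝ} (ht : t ∈ Ioo a b) {x y : L} (hxy : (S t).s x ≤ (S t).s y) :
    ∀ u ∈ Icc a b, (S u).s x ≤ (S u).s y := by
  have hab : a < b := ht.1.trans ht.2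
  have key : ∀ u ∈ Icc a b, 0 ≤ (P (x ⊔ y) - P y) + u * (Q (x ⊔ y) - Q y) := by
    intro u hu
    have h1 := (S u).mono (le_sup_right : y ≤ x ⊔ y)
    rw [h u hu, h u hu] at h1
    linarith
  have h0 : (P (x ⊔ y) - P y) + t * (Q (x ⊔ y) - Q y) = 0 := by
    have h1 := (S t).sup x y
    rw [max_eq_right hxy, h t (Ioo_subset_Icc_self ht), h t (Ioo_subset_Icc_self ht)] at h1
    linarith
  have ha := key a ⟨le_rfl, hab.le⟩
  have hb := key b ⟨hab.le, le_rfl⟩
  have hQ : Q (x ⊔ y) - Q y = 0 := by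
    refine le_antisymm ?_ ?_
    · by_contra hc
      push Not at hc
      nlinarith [ht.1]
    · by_contra hc
      push Not at hc
      nlinarith [ht.2]
  intro u hu
  have h1 := (S u).mono (le_sup_left : x ≤ x ⊔ y)
  refine h1.trans (le_of_eq ?_)
  rw [h u hu, h u hu]
  have h2 : P (x ⊔ y) - P y = 0 := by rw [hQ] at h0; linarith
  have h3 : Q (x ⊔ y) = Q y := by linarith
  rw [h3]
  linarith

theorem aff_sh {a b : ℝ} (hab : a < b) {P Q : L → ℝ}
    (h : ∀ u ∈ Icc a b, ∀ x, (S u).s x = P x + u * Q x) (n : ℤ) (x : L) :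
    Q (sh n x) = Q x := by
  have h1 := (S a).s_sh n x
  have h2 := (S b).s_sh n x
  rw [h a ⟨le_rfl, hab.le⟩, h a ⟨le_rfl, hab.le⟩] at h1
  rw [h b ⟨hab.le, le_rfl⟩, h b ⟨hab.le, le_rfl⟩] at h2
  have h3 : (b - a) * (Q (sh n x) - Q x) = 0 := by linarith
  rcases mul_eq_zero.1 h3 with h4 | h4
  · linarith
  · linarith

theorem slopes_finite {a b : ℝ} (hab : a < b) {P Q : L → ℝ}
    (h : ∀ u ∈ Icc a b, ∀ x, (S u).s x = P x + u * Q x) : (range Q).Finite := by
  classical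
  set t := (a + b) / 2 with ht
  have htI : t ∈ Ioo a b := ⟨by rw [ht]; linarith, by rw [ht]; linarith⟩
  set f : ℝ → ℝ := fun v => if hv : ∃ x, (S t).s x = v then Q hv.choose else 0 with hf
  refine (((S t).finite_vals 0 1).image f).subset ?_
  rintro _ ⟨x, rfl⟩
  set x' := sh (-⌊(S t).s x⌋) x with hx'
  have h1 : (S t).s x' = Int.fract ((S t).s x) := by
    rw [hx', (S t).s_sh]
    push_cast
    rw [Int.fract]
    ring
  refine ⟨(S t).s x', ⟨⟨x', rfl⟩, ?_, ?_⟩, ?_⟩
  · rw [h1]; exact Int.fract_nonneg _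
  · rw [h1]; exact (Int.fract_lt_one _).le
  · have hv : ∃ y, (S t).s y = (S t).s x' := ⟨x', rfl⟩
    simp only [hf]
    rw [dif_pos hv]
    have h2 := hv.choose_spec
    have h3 := aff_le h htI h2.le
    have h4 := aff_le h htI h2.ge
    have h5 : ∀ u ∈ Icc a b, P hv.choose + u * Q hv.choose = P x' + u * Q x' := by
      intro u hu
      rw [← h u hu, ← h u hu]
      exact le_antisymm (h3 u hu) (h4 u hu)
    have h6 := h5 a ⟨le_rfl, hab.le⟩
    have h7 := h5 b ⟨hab.le, le_rfl⟩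
    have h8 : (b - a) * (Q hv.choose - Q x') = 0 := by linarith
    have h9 : Q hv.choose = Q x' := by
      rcases mul_eq_zero.1 h8 with h10 | h10
      · linarith
      · linarith
    rw [h9, hx', aff_sh hab h]

variable {α₀ β₀ : ℝ}

/-- the line of maximal slope -/
theorem line (hS : Traj S α₀ β₀) {α β : ℝ} (h1 : α₀ ≤ α) (hαβ : α < β) (h2 : β ≤ β₀)
    {A : Set L} (hA : A.Nonempty) : ∃ (c Λ t₂ : ℝ) (x₀ : L), t₂ ∈ Ioo α β ∧ x₀ ∈ A ∧ |Λ| ≤ 1 ∧
      (∀ t ∈ Icc α β, kap ((S t₂).top' ((S t₂).s x₀)) (S t) ≤ c + t * Λ) ∧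
      (∀ x ∈ A, ¬ x ≤ (S t₂).top' ((S t₂).s x₀) → ∀ t ∈ Icc α β, c + t * Λ ≤ (S t).s x) ∧
      ∀ x ∈ A, ∀ t t', α ≤ t → t ≤ t' → t' ≤ β → (S t').s x ≤ (S t).s x + Λ * (t' - t) := by
  have hsub : Icc α β ⊆ Icc α₀ β₀ := Icc_subset_Icc h1 h2
  obtain ⟨ε, hε, hε1, P, Q, hPQ⟩ := hS.germ β ⟨h1.trans_lt hαβ, h2⟩
  set a := max α (β - ε) with ha
  have hαa : α ≤ a := le_max_left _ _
  have haβ : a < β := max_lt hαβ (by linarith)
  have haff : ∀ u ∈ Icc a β, ∀ x, (S u).s x = P x + u * Q x := fun u hu x =>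
    hPQ u ⟨(le_max_right _ _).trans hu.1, hu.2⟩ x
  -- the maximal slope
  have hfin : (Q '' A).Finite := (slopes_finite haβ haff).subset (image_subset_range _ _)
  obtain ⟨x₀, hx₀, hmax⟩ : ∃ x₀ ∈ A, ∀ x ∈ A, Q x ≤ Q x₀ := by
    obtain ⟨x₀, hx₀, hx₀'⟩ := (hA.image Q).csSup_mem hfin
    exact ⟨x₀, hx₀, fun x hx => by
      rw [hx₀']
      exact le_csSup hfin.bddAbove ⟨x, hx, rfl⟩⟩
  set t₂ := (a + β) / 2 with ht₂
  have ht₂I : t₂ ∈ Ioo a β := ⟨by rw [ht₂]; linarith, by rw [ht₂]; linarith⟩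
  have hconvI : ∀ x, ConvexOn ℝ (Icc α β) (fun t => (S t).s x) := fun x =>
    (hS.conv x).subset hsub (convex_Icc _ _)
  have hconcI : ∀ g, ConcaveOn ℝ (Icc α β) (fun t => kap g (S t)) := fun g =>
    (hS.conc g).subset hsub (convex_Icc _ _)
  refine ⟨P x₀, Q x₀, t₂, x₀, ⟨hαa.trans_lt ht₂I.1, ht₂I.2⟩, hx₀, ?_, ?_, ?_, ?_⟩
  · -- the slope is at most one
    have h3 := abs_le_dist (S β) (S a) x₀
    have h4 := hS.lip β (hsub ⟨hαβ.le, le_rfl⟩) a (hsub ⟨hαa, haβ.le⟩)
    have h5 := h3.trans h4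
    rw [haff β ⟨haβ.le, le_rfl⟩, haff a ⟨le_rfl, haβ.le⟩] at h5
    have h6 : P x₀ + β * Q x₀ - (P x₀ + a * Q x₀) = (β - a) * Q x₀ := by ring
    rw [h6, abs_mul] at h5
    have h7 : 0 < |β - a| := abs_pos.2 (by linarith)
    by_contra hc
    push Not at hc
    nlinarith
  · intro t ht
    refine conc_le (hconcI _) hαa haβ (P := P x₀) (Q := Q x₀) (fun u hu => ?_) ht
    refine le_antisymm ?_ ?_
    · rw [← haff u hu]
      refine kap_le _ fun h => ?_
      exact absurd ((S t₂).le_top'_iff.1 h) (lt_irrefl _)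
    · refine le_kap _ fun x hx => ?_
      rw [← haff u hu]
      rw [(S t₂).le_top'_iff] at hx
      push Not at hx
      exact aff_le haff ht₂I hx u hu
  · intro x hx hxz t ht
    rw [(S t₂).le_top'_iff] at hxz
    push Not at hxz
    rcases le_or_gt a t with h | h
    · rw [← haff t ⟨h, ht.2⟩]
      exact aff_le haff ht₂I hxz t ⟨h, ht.2⟩
    · have h3 := conv_ge (hconvI x) hαa haβ (fun u hu => haff u hu x) ht
      have h4 := aff_le haff ht₂I hxz a ⟨le_rfl, haβ.le⟩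
      rw [haff a ⟨le_rfl, haβ.le⟩, haff a ⟨le_rfl, haβ.le⟩] at h4
      have h5 := hmax x hx
      nlinarith
  · intro x hx t t' ht htt ht'
    have h3 := conv_slope (hconvI x) hαa haβ (fun u hu => haff u hu x) ht htt ht'
    have h4 := mul_le_mul_of_nonneg_right (hmax x hx) (by linarith : 0 ≤ t' - t)
    linarith

/-! ### heights -/

/-- the chains in `[p, q]` have at most `m` steps -/
def Ht (p q : L) (m : ℕ) : Prop :=
  ∀ (k : ℕ) (c : ℕ → L), (∀ i < k, c i < c (i + 1)) → p ≤ c 0 → c k ≤ q → k ≤ m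

theorem chain_enum (n : ℕ) : ∀ F : Finset L, F.card = n + 1 →
    (∀ x ∈ F, ∀ y ∈ F, x ≤ y ∨ y ≤ x) →
    ∃ c : ℕ → L, (∀ i < n, c i < c (i + 1)) ∧ (∀ i ≤ n, c i ∈ F) ∧ ∀ x ∈ F, x ≤ c n := by
  classical
  induction n with
  | zero =>
    intro F hF hT
    obtain ⟨x, rfl⟩ := Finset.card_eq_one.1 hF
    exact ⟨fun _ => x, fun i hi => absurd hi (Nat.not_lt_zero i), fun i _ => by simp,
      fun y hy => (Finset.mem_singleton.1 hy).le⟩
  | succ n ih =>
    intro F hF hT
    have hne : F.Nonempty := by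
      rw [← Finset.card_pos]
      omega
    obtain ⟨M, hM⟩ := F.exists_maximal hne
    have hMF : M ∈ F := hM.1
    have hMmax : ∀ x ∈ F, x ≤ M := by
      intro x hx
      rcases hT x hx M hMF with h | h
      · exact h
      · exact hM.2 hx h
    obtain ⟨c, hc, hcF, hcmax⟩ := ih (F.erase M) (by rw [Finset.card_erase_of_mem hMF]; omega)
      fun x hx y hy => hT x (Finset.mem_of_mem_erase hx) y (Finset.mem_of_mem_erase hy)
    refine ⟨fun i => if i ≤ n then c i else M, fun i hi => ?_, fun i hi => ?_, fun x hx => ?_⟩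
    · by_cases h : i = n
      · subst h
        simp only [le_refl, if_true, show ¬ i + 1 ≤ i by omega, if_false]
        have h1 := hcF i le_rfl
        exact lt_of_le_of_ne (hMmax _ (Finset.mem_of_mem_erase h1)) (Finset.ne_of_mem_erase h1)
      · simp only [show i ≤ n by omega, show i + 1 ≤ n by omega, if_true]
        exact hc i (by omega)
    · show (if i ≤ n then c i else M) ∈ F
      split_ifs with h
      · exact Finset.mem_of_mem_erase (hcF i h)
      · exact hMF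
    · simp only [show ¬ n + 1 ≤ n by omega, if_false]
      exact hMmax x hx

/-- a chain in `[p, q]` is finite -/
theorem chain_card {p q : L} {m : ℕ} (h : Ht p q m) {C : Set L}
    (hT : ∀ x ∈ C, ∀ y ∈ C, x ≤ y ∨ y ≤ x) (hC : ∀ x ∈ C, p ≤ x ∧ x ≤ q) :
    ∃ F : Finset L, F.card ≤ m + 1 ∧ C ⊆ F := by
  classical
  have key : ∀ F : Finset L, (F : Set L) ⊆ C → F.card ≠ m + 1 + 1 := by
    intro F hF hcard
    obtain ⟨c, hc, hcF, -⟩ := chain_enum (m + 1) F hcard fun x hx y hy => hT x (hF hx) y (hF hy)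
    have := h (m + 1) c hc (hC _ (hF (hcF 0 (Nat.zero_le _)))).1 (hC _ (hF (hcF _ le_rfl))).2
    omega
  rcases C.finite_or_infinite with hf | hf
  · refine ⟨hf.toFinset, ?_, fun x hx => by simpa using hx⟩
    by_contra hc
    push Not at hc
    obtain ⟨F, hF, hFc⟩ := Finset.exists_subset_card_eq (s := hf.toFinset) (n := m + 1 + 1)
      (by omega)
    exact key F (fun x hx => by simpa using hF hx) hFc
  · obtain ⟨F, hF, hFc⟩ := hf.exists_subset_card_eq (m + 1 + 1)
    exact absurd hFc (key F hF)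

theorem Ht.left {p q z : L} {m : ℕ} (h : Ht p q (m + 1)) (hz : z < q) : Ht p z m := by
  intro k c hc h0 hk
  have h1 := h (k + 1) (fun i => if i ≤ k then c i else q) (fun i hi => by
    by_cases hik : i = k
    · subst hik
      simp only [le_refl, if_true, show ¬ i + 1 ≤ i by omega, if_false]
      exact hk.trans_lt hz
    · simp only [show i ≤ k by omega, show i + 1 ≤ k by omega, if_true]
      exact hc i (by omega)) (by simpa using h0)
    (by simp only [show ¬ k + 1 ≤ k by omega, if_false]; exact le_rfl)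
  omega

theorem Ht.right {p q y : L} {m : ℕ} (h : Ht p q (m + 1)) (hy : p < y) : Ht y q m := by
  intro k c hc h0 hk
  have h1 := h (k + 1) (fun i => if i = 0 then p else c (i - 1)) (fun i hi => by
    by_cases hi0 : i = 0
    · subst hi0
      simp only [if_true, show ¬ (0 + 1 = 0) by omega, if_false]
      exact hy.trans_le h0
    · simp only [hi0, if_false, show ¬ (i + 1 = 0) by omega]
      have := hc (i - 1) (by omega)
      have e : i - 1 + 1 = i + 1 - 1 := by omega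
      rwa [e] at this) (by simp)
    (by simp only [show ¬ (k + 1 = 0) by omega, if_false]; simpa using hk)
  omega

/-! ### strips -/

/-- the number of the cuts of a strip -/
def stripF : ℕ → ℕ
  | 0 => 0
  | m + 1 => (m + 2) ^ 2 * (2 + 2 * stripF m)

theorem strip (hS : Traj S α₀ β₀) (m : ℕ) : ∀ (p q : L) (α β : ℝ), α₀ ≤ α → α < β → β ≤ β₀ →
    (∀ t ∈ Ioo α β, p ∈ carr (S t) ∧ q ∈ carr (S t)) → Ht p q m →
    ∃ Z : Finset ℝ, Z.card ≤ stripF m ∧ ∀ a b, α ≤ a → a < b → b ≤ β →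
      (∀ z ∈ Z, z ∉ Ioo a b) → ∃ P Q : L → ℝ, ∀ t ∈ Icc a b, ∀ x, x ≤ q → ¬ x ≤ p →
        (S t).s x = P x + t * Q x := by
  classical
  induction m with
  | zero =>
    intro p q α β h1 hαβ h2 hpq hht
    refine ⟨∅, Nat.zero_le _, fun a b _ _ _ _ => ⟨fun _ => 0, fun _ => 0, fun t _ x hxq hxp => ?_⟩⟩
    exfalso
    have hm : (α + β) / 2 ∈ Ioo α β := ⟨by linarith, by linarith⟩
    obtain ⟨hp, hq⟩ := hpq _ hm
    rcases carr_total hp hq with h | h
    · rcases eq_or_lt_of_le h with h3 | h3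
      · exact hxp (h3 ▸ hxq)
      · have := hht 1 (fun i => if i = 0 then p else q) (fun i hi => by
          have : i = 0 := by omega
          subst this
          simpa using h3) (by simp) (by simp)
        omega
    · exact hxp (hxq.trans h)
  | succ m ih =>
    intro p q α β h1 hαβ h2 hpq hht
    by_cases hne : ∃ x, x ≤ q ∧ ¬ x ≤ p
    swap
    · push Not at hne
      exact ⟨∅, Nat.zero_le _, fun a b _ _ _ _ => ⟨fun _ => 0, fun _ => 0, fun t _ x hxq hxp =>
        absurd (hne x hxq) hxp⟩⟩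
    obtain ⟨c, Λ, t₂, x₀, ht₂, hx₀, hΛ, hkap, hge, hslope⟩ :=
      line hS h1 hαβ h2 (A := {x | x ≤ q ∧ ¬ x ≤ p}) hne
    set z₁ := (S t₂).top' ((S t₂).s x₀) with hz₁
    have hpz : p ≤ z₁ := by
      rw [hz₁, (S t₂).le_top'_iff]
      exact lt_of_carr (hpq t₂ ht₂).1 hx₀.2
    have hqz : ¬ q ≤ z₁ := by
      rw [hz₁, (S t₂).le_top'_iff]
      exact not_lt.2 ((S t₂).mono hx₀.1)
    have hqA : q ∈ {x | x ≤ q ∧ ¬ x ≤ p} := ⟨le_rfl, fun h => hqz (h.trans hpz)⟩
    set ℓ : ℝ → ℝ := fun t => c + t * Λ with hℓ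
    have hqℓ : ∀ t ∈ Icc α β, ℓ t ≤ (S t).s q := hge q hqA hqz
    have hkapeq : ∀ t ∈ Ioo α β, kap z₁ (S t) = ℓ t := by
      intro t ht
      have ht' := Ioo_subset_Icc_self ht
      refine le_antisymm (hkap t ht') (le_kap _ fun x hx => ?_)
      by_cases hxq : x ≤ q
      · exact hge x ⟨hxq, fun h => hx (h.trans hpz)⟩ hx t ht'
      · exact (hqℓ t ht').trans (lt_of_carr (hpq t ht).2 hxq).le
    have hw : ∀ t ∈ Ioo α β, ∃ w, ¬ w ≤ z₁ ∧ (S t).s w = ℓ t := by
      intro t ht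
      obtain ⟨w, hw1, hw2⟩ := exists_kap z₁ (S t)
      exact ⟨w, hw1, by rw [← hw2, hkapeq t ht]⟩
    have hpℓ : ∀ t ∈ Ioo α β, (S t).s p < ℓ t := by
      intro t ht
      obtain ⟨w, hw1, hw2⟩ := hw t ht
      by_contra hc
      push Not at hc
      rw [← hw2] at hc
      exact hw1 ((mem_carr_iff.1 (hpq t ht).1 w hc).trans hpz)
    set y : ℝ → L := fun t => (S t).top (ℓ t) with hy
    set z : ℝ → L := fun t => (S t).top' (ℓ t) with hz
    have hzy : ∀ t, z t ≤ y t := fun t => (S t).top'_le_top _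
    have hyq : ∀ t ∈ Ioo α β, y t ≤ q := fun t ht =>
      mem_carr_iff.1 (hpq t ht).2 _ (((S t).s_top _).trans (hqℓ t (Ioo_subset_Icc_self ht)))
    have hyp : ∀ t ∈ Ioo α β, ¬ y t ≤ p := by
      intro t ht h
      obtain ⟨w, hw1, hw2⟩ := hw t ht
      have h3 : w ≤ y t := (S t).le_top_iff.2 hw2.le
      exact hw1 ((h3.trans h).trans hpz)
    have hpz' : ∀ t ∈ Ioo α β, p ≤ z t := fun t ht => (S t).le_top'_iff.2 (hpℓ t ht)
    have hzq : ∀ t ∈ Ioo α β, ¬ q ≤ z t := by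
      intro t ht h
      exact absurd ((S t).le_top'_iff.1 h) (not_lt.2 (hqℓ t (Ioo_subset_Icc_self ht)))
    have hmonoz : ∀ t ∈ Ioo α β, ∀ t' ∈ Ioo α β, t ≤ t' → z t ≤ z t' := by
      intro t ht t' ht' htt
      refine (S t').le_top'_iff.2 ?_
      by_cases h : z t ≤ p
      · exact ((S t').mono h).trans_lt (hpℓ t' ht')
      · have h3 := hslope (z t) ⟨(hzy t).trans (hyq t ht), h⟩ t t' ht.1.le htt ht'.2.le
        have h4 := (S t).s_top' (ℓ t)
        simp only [hℓ] at h4 ⊢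
        linarith
    have hmonoy : ∀ t ∈ Ioo α β, ∀ t' ∈ Ioo α β, t ≤ t' → y t ≤ y t' := by
      intro t ht t' ht' htt
      refine (S t').le_top_iff.2 ?_
      have h3 := hslope (y t) ⟨hyq t ht, hyp t ht⟩ t t' ht.1.le htt ht'.2.le
      have h4 := (S t).s_top (ℓ t)
      simp only [hℓ] at h4 ⊢
      linarith
    have htot : ∀ f : ℝ → L, (∀ t ∈ Ioo α β, ∀ t' ∈ Ioo α β, t ≤ t' → f t ≤ f t') →
        ∀ x ∈ f '' Ioo α β, ∀ x' ∈ f '' Ioo α β, x ≤ x' ∨ x' ≤ x := by
      rintro f hf _ ⟨t, ht, rfl⟩ _ ⟨t', ht', rfl⟩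
      rcases le_total t t' with h | h
      · exact Or.inl (hf t ht t' ht' h)
      · exact Or.inr (hf t' ht' t ht h)
    obtain ⟨Fz, hFzc, hFz⟩ := chain_card hht (htot z hmonoz) (by
      rintro _ ⟨t, ht, rfl⟩
      exact ⟨hpz' t ht, (hzy t).trans (hyq t ht)⟩)
    obtain ⟨Fy, hFyc, hFy⟩ := chain_card hht (htot y hmonoy) (by
      rintro _ ⟨t, ht, rfl⟩
      exact ⟨(hpz' t ht).trans (hzy t), hyq t ht⟩)
    -- the cuts of a fibre
    have hclaim : ∀ v : L × L, ∃ Z : Finset ℝ, Z.card ≤ 2 + 2 * stripF m ∧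
        ∀ a b, α ≤ a → a < b → b ≤ β → (∀ z ∈ Z, z ∉ Ioo a b) →
          (∃ t ∈ Ioo a b, z t = v.1 ∧ y t = v.2) →
          ∃ P Q : L → ℝ, ∀ t ∈ Icc a b, ∀ x, x ≤ q → ¬ x ≤ p → (S t).s x = P x + t * Q x := by
      intro v
      set I : Set ℝ := {t | t ∈ Ioo α β ∧ z t = v.1 ∧ y t = v.2} with hI
      have hIbb : BddBelow I := ⟨α, fun t ht => ht.1.1.le⟩
      have hIba : BddAbove I := ⟨β, fun t ht => ht.1.2.le⟩
      by_cases hIne : I.Nonempty
      swap
      · refine ⟨∅, Nat.zero_le _, fun a b ha hab hb _ ht => ?_⟩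
        obtain ⟨t, ht, ht'⟩ := ht
        exact absurd ⟨t, ⟨ha.trans_lt ht.1, ht.2.trans_le hb⟩, ht'⟩ hIne
      have hαI : α ≤ sInf I := le_csInf hIne fun t ht => ht.1.1.le
      have hβI : sSup I ≤ β := csSup_le hIne fun t ht => ht.1.2.le
      have hcut : ∀ a b, α ≤ a → b ≤ β → sInf I ∉ Ioo a b → sSup I ∉ Ioo a b →
          (∃ t ∈ Ioo a b, z t = v.1 ∧ y t = v.2) → sInf I ≤ a ∧ b ≤ sSup I := by
        intro a b ha hb hi hs ht
        obtain ⟨t, ht, ht'⟩ := ht
        have htI : t ∈ I := ⟨⟨ha.trans_lt ht.1, ht.2.trans_le hb⟩, ht'⟩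
        have h3 := csInf_le hIbb htI
        have h4 := le_csSup hIba htI
        constructor
        · by_contra hc
          push Not at hc
          exact hi ⟨hc, h3.trans_lt ht.2⟩
        · by_contra hc
          push Not at hc
          exact hs ⟨ht.1.trans_le h4, hc⟩
      have hfib : ∀ u ∈ Ioo (sInf I) (sSup I), u ∈ I := by
        intro u hu
        obtain ⟨t, ht, htu⟩ := exists_lt_of_csInf_lt hIne hu.1
        obtain ⟨t', ht', htu'⟩ := exists_lt_of_lt_csSup hIne hu.2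
        have huI : u ∈ Ioo α β := ⟨ht.1.1.trans htu, htu'.trans ht'.1.2⟩
        refine ⟨huI, ?_, ?_⟩
        · refine le_antisymm ?_ ?_
          · rw [← ht'.2.1]; exact hmonoz u huI t' ht'.1 htu'.le
          · rw [← ht.2.1]; exact hmonoz t ht.1 u huI htu.le
        · refine le_antisymm ?_ ?_
          · rw [← ht'.2.2]; exact hmonoy u huI t' ht'.1 htu'.le
          · rw [← ht.2.2]; exact hmonoy t ht.1 u huI htu.le
      rcases lt_or_ge (sInf I) (sSup I) with hlt | hge'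
      swap
      · refine ⟨{sInf I}, by rw [Finset.card_singleton]; omega, fun a b ha hab hb hZ ht => ?_⟩
        obtain ⟨t, ht, ht'⟩ := ht
        have htI : t ∈ I := ⟨⟨ha.trans_lt ht.1, ht.2.trans_le hb⟩, ht'⟩
        have h3 := csInf_le hIbb htI
        have h4 := le_csSup hIba htI
        have h5 : t = sInf I := le_antisymm (h4.trans hge') h3
        exact absurd ht (h5 ▸ hZ _ (Finset.mem_singleton_self _))
      obtain ⟨t₀, ht₀⟩ := hIne
      have hv1q : v.1 < q := by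
        rw [← ht₀.2.1]
        exact lt_of_le_of_ne ((hzy t₀).trans (hyq t₀ ht₀.1)) fun h => hzq t₀ ht₀.1 h.ge
      have hpv2 : p < v.2 := by
        rw [← ht₀.2.2]
        exact lt_of_le_of_ne ((hpz' t₀ ht₀.1).trans (hzy t₀)) fun h => hyp t₀ ht₀.1 h.ge
      obtain ⟨Z₁, hZ₁c, hZ₁⟩ := ih p v.1 (sInf I) (sSup I) (h1.trans hαI) hlt (hβI.trans h2)
        (fun u hu => by
          have huI := hfib u hu
          refine ⟨(hpq u huI.1).1, ?_⟩
          rw [← huI.2.1]
          exact top'_mem_carr _ _) (hht.left hv1q)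
      obtain ⟨Z₂, hZ₂c, hZ₂⟩ := ih v.2 q (sInf I) (sSup I) (h1.trans hαI) hlt (hβI.trans h2)
        (fun u hu => by
          have huI := hfib u hu
          refine ⟨?_, (hpq u huI.1).2⟩
          rw [← huI.2.2]
          exact top_mem_carr _ _) (hht.right hpv2)
      refine ⟨{sInf I, sSup I} ∪ (Z₁ ∪ Z₂), ?_, fun a b ha hab hb hZ ht => ?_⟩
      · have h3 := Finset.card_union_le ({sInf I, sSup I} : Finset ℝ) (Z₁ ∪ Z₂)
        have h4 := Finset.card_union_le Z₁ Z₂
        have h5 := Finset.card_insert_le (sInf I) ({sSup I} : Finset ℝ)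
        rw [Finset.card_singleton] at h5
        omega
      · obtain ⟨h3, h4⟩ := hcut a b ha hb (hZ _ (by simp)) (hZ _ (by simp)) ht
        obtain ⟨P₁, Q₁, hPQ₁⟩ := hZ₁ a b h3 hab h4 fun w hw => hZ w (by simp [hw])
        obtain ⟨P₂, Q₂, hPQ₂⟩ := hZ₂ a b h3 hab h4 fun w hw => hZ w (by simp [hw])
        refine ⟨fun x => if x ≤ v.1 then P₁ x else if x ≤ v.2 then c else P₂ x,
          fun x => if x ≤ v.1 then Q₁ x else if x ≤ v.2 then Λ else Q₂ x,
          fun t ht x hxq hxp => ?_⟩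
        by_cases hx1 : x ≤ v.1
        · simp only [hx1, if_true]
          exact hPQ₁ t ht x hx1 hxp
        · by_cases hx2 : x ≤ v.2
          · simp only [hx1, hx2, if_true, if_false]
            refine eq_of_Ioo hab (f := fun t => (S t).s x) (fun s hs t ht => ?_) (fun u hu => ?_)
              t ht
            · refine (abs_le_dist (S s) (S t) x).trans (hS.lip s ?_ t ?_)
              · exact ⟨h1.trans (ha.trans hs.1), hs.2.trans (hb.trans h2)⟩
              · exact ⟨h1.trans (ha.trans ht.1), ht.2.trans (hb.trans h2)⟩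
            · have huI := hfib u ⟨h3.trans_lt hu.1, hu.2.trans_le h4⟩
              refine le_antisymm ?_ ?_
              · rw [← huI.2.2] at hx2
                exact (S u).le_top_iff.1 hx2
              · rw [← huI.2.1] at hx1
                rw [(S u).le_top'_iff] at hx1
                push Not at hx1
                exact hx1
          · simp only [hx1, hx2, if_false]
            exact hPQ₂ t ht x hxq hx2
    choose Zv hZvc hZv using hclaim
    refine ⟨(Fz ×ˢ Fy).biUnion Zv, ?_, fun a b ha hab hb hZ => ?_⟩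
    · refine Finset.card_biUnion_le.trans ?_
      calc ∑ v ∈ Fz ×ˢ Fy, (Zv v).card ≤ ∑ _v ∈ Fz ×ˢ Fy, (2 + 2 * stripF m) :=
            Finset.sum_le_sum fun v _ => hZvc v
        _ = (Fz.card * Fy.card) * (2 + 2 * stripF m) := by
            rw [Finset.sum_const, Finset.card_product, smul_eq_mul]
        _ ≤ (m + 2) ^ 2 * (2 + 2 * stripF m) := by
            refine Nat.mul_le_mul_right _ ?_
            rw [pow_two]
            exact Nat.mul_le_mul hFzc hFyc
    · have hm : (a + b) / 2 ∈ Ioo a b := ⟨by linarith, by linarith⟩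
      have hmI : (a + b) / 2 ∈ Ioo α β := ⟨ha.trans_lt hm.1, hm.2.trans_le hb⟩
      refine hZv (z ((a + b) / 2), y ((a + b) / 2)) a b ha hab hb (fun w hw => hZ w ?_)
        ⟨_, hm, rfl, rfl⟩
      rw [Finset.mem_biUnion]
      exact ⟨_, Finset.mem_product.2 ⟨hFz ⟨_, hmI, rfl⟩, hFy ⟨_, hmI, rfl⟩⟩, hw⟩

end

end Pool.Agent.LSH
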