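import Mathlib
import Pool.Agent.Lib.LSH.Geo

/-!
# Semilattices with a shift: cells and local affinity of the bicombing
-/

set_option autoImplicit false
set_option linter.unusedSectionVars false

open Set

namespace Pool.Agent.LSH

open Pool.Agent.GLN

/-- a chain `… < e 0 < e 1 < …` with `e (z + n) = φ (e z)` -/
structure Cell (L : Type) [SemilatticeSup L] [HasShift L] where
  n : ℕ
  pos : 0 < n
  e : ℤ → L
  mono : StrictMono e
  per : ∀ z, e (z + n) = HasShift.φ (e z)

section
variable {L : Type} [SemilatticeSup L] [HasShift L]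

open HasShift (φ)

namespace Cell

variable (C : Cell L)

theorem per_mul (k z : ℤ) : C.e (z + k * C.n) = sh k (C.e z) := by
  induction k using Int.induction_on with
  | zero => rw [zero_mul, add_zero, sh_zero]
  | succ k ih =>
    have h1 : z + ((k : ℤ) + 1) * C.n = (z + (k : ℤ) * C.n) + C.n := by ring
    rw [h1, C.per, ih, ← sh_one, ← sh_add, add_comm (1 : ℤ)]
  | pred k ih =>
    have h1 : z + (-(k : ℤ)) * C.n = (z + (-(k : ℤ) - 1) * C.n) + C.n := by ring
    rw [h1, C.per] at ih
    have h2 : sh (-(k : ℤ)) (C.e z) = φ (sh (-(k : ℤ) - 1) (C.e z)) := by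
      rw [← sh_one, ← sh_add]
      congr 1
      ring
    rw [h2] at ih
    exact (φ).injective ih

theorem n_le : C.n ≤ HasShift.d L := by
  refine HasShift.chain C.n (fun i => C.e i) (fun i _ => C.mono (by push_cast; omega)) ?_
  show C.e (C.n : ℤ) ≤ φ (C.e ((0 : ℕ) : ℤ))
  rw [← C.per]
  simp

theorem exists_idx (x : L) : ∃ z : ℤ, x ≤ C.e z ∧ ∀ z', x ≤ C.e z' → z ≤ z' := by
  refine Int.exists_least_of_bdd ?_ ?_
  · obtain ⟨k, hk⟩ := exists_sh x (C.e 0)
    refine ⟨-((k : ℤ) + 1) * C.n, fun z hz => ?_⟩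
    by_contra hlt
    push Not at hlt
    have h1 : x ≤ C.e (0 + -((k : ℤ) + 1) * C.n) := hz.trans (C.mono.monotone (by omega))
    rw [C.per_mul, le_sh_iff, neg_neg] at h1
    have h2 : sh (1 + (k : ℤ)) x ≤ sh (k : ℤ) x := by
      rw [add_comm]
      exact h1.trans hk
    rw [sh_add] at h2
    exact absurd h2 (not_le_of_gt (lt_sh_one _))
  · obtain ⟨k, hk⟩ := exists_sh (C.e 0) x
    exact ⟨0 + (k : ℤ) * C.n, by rwa [C.per_mul]⟩

/-- the least `z` with `x ≤ e z` -/
noncomputable def idx (x : L) : ℤ := (C.exists_idx x).choose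

theorem idx_le {x : L} {z : ℤ} : C.idx x ≤ z ↔ x ≤ C.e z :=
  ⟨fun h => (C.exists_idx x).choose_spec.1.trans (C.mono.monotone h),
    fun h => (C.exists_idx x).choose_spec.2 z h⟩

theorem le_e_idx (x : L) : x ≤ C.e (C.idx x) := C.idx_le.1 le_rfl

theorem idx_e (z : ℤ) : C.idx (C.e z) = z :=
  le_antisymm (C.idx_le.2 le_rfl) (C.mono.le_iff_le.1 (C.le_e_idx (C.e z)))

theorem idx_mono {x y : L} (h : x ≤ y) : C.idx x ≤ C.idx y := C.idx_le.2 (h.trans (C.le_e_idx y))

theorem idx_sup (x y : L) : C.idx (x ⊔ y) = max (C.idx x) (C.idx y) := by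
  refine le_antisymm (C.idx_le.2 (sup_le (C.idx_le.1 (le_max_left _ _))
    (C.idx_le.1 (le_max_right _ _)))) (max_le (C.idx_mono le_sup_left) (C.idx_mono le_sup_right))

theorem idx_sh (k : ℤ) (x : L) : C.idx (sh k x) = C.idx x + k * C.n := by
  have key : ∀ (k : ℤ) (x : L), C.idx (sh k x) ≤ C.idx x + k * C.n := by
    intro k x
    rw [C.idx_le, C.per_mul, sh_le_sh]
    exact C.le_e_idx x
  refine le_antisymm (key k x) ?_
  have h1 := key (-k) (sh k x)
  rw [sh_neg] at h1
  have h2 : -k * (C.n : ℤ) = -(k * C.n) := by ring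
  rw [h2] at h1
  omega

theorem idx_phi (x : L) : C.idx (φ x) = C.idx x + C.n := by
  rw [← sh_one, C.idx_sh, one_mul]

end Cell

/-- `p` is a function of the index -/
def InCell (C : Cell L) (p : Pt L) : Prop := ∀ x, p.s x = p.s (C.e (C.idx x))

theorem InCell.mono {C : Cell L} {p : Pt L} (h : InCell C p) {x y : L} (hxy : C.idx x ≤ C.idx y) :
    p.s x ≤ p.s y := by
  rw [h x, h y]
  exact p.mono (C.mono.monotone hxy)

/-! ### the values of a point -/

theorem values_finite (p : Pt L) : (range p.s ∩ Ico 0 1).Finite := by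
  classical
  by_contra hinf
  obtain ⟨F, hF, hcard⟩ := Set.Infinite.exists_subset_card_eq hinf (HasShift.d L + 2)
  let w := F.orderEmbOfFin hcard
  have hw : ∀ i, w i ∈ range p.s ∩ Ico (0 : ℝ) 1 := fun i => hF (F.orderEmbOfFin_mem hcard i)
  have hval : ∀ i, p.s (p.top (w i)) = w i := by
    intro i
    obtain ⟨x, hx⟩ := (hw i).1
    refine le_antisymm (p.s_top _) ?_
    have h1 : x ≤ p.top (w i) := p.le_top_iff.2 hx.le
    have h2 := p.mono h1
    rwa [hx] at h2
  have hlt : ∀ i j, i < j → p.top (w i) < p.top (w j) := by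
    intro i j hij
    refine lt_of_le_of_ne (p.top_mono (w.monotone hij.le)) fun h => ?_
    have h1 := congrArg p.s h
    rw [hval, hval] at h1
    exact absurd h1 (w.strictMono hij).ne
  have h1 := HasShift.chain (HasShift.d L + 1)
    (fun i => p.top (w ⟨min i (HasShift.d L + 1), by omega⟩)) (fun i hi => hlt _ _ (by
      rw [Fin.mk_lt_mk]
      omega)) (by
      show p.top (w ⟨min (HasShift.d L + 1) (HasShift.d L + 1), by omega⟩) ≤
        φ (p.top (w ⟨min 0 (HasShift.d L + 1), by omega⟩))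
      have h2 := (hw ⟨min (HasShift.d L + 1) (HasShift.d L + 1), by omega⟩).2.2
      have h3 := (hw ⟨min 0 (HasShift.d L + 1), by omega⟩).2.1
      rw [← sh_one, ← p.top_sh]
      refine p.top_mono ?_
      push_cast
      linarith)
  omega

/-- every point has a cell whose values increase strictly -/
theorem exists_cell (p : Pt L) : ∃ C : Cell L, InCell C p ∧ (StrictMono fun z => p.s (C.e z)) ∧
    0 ≤ p.s (C.e 0) ∧ p.s (C.e 0) < 1 ∧ ∀ z, C.e z = p.top (p.s (C.e z)) := by
  classical
  set F : Finset ℝ := (values_finite p).toFinset with hF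
  have hmem : ∀ v, v ∈ F ↔ v ∈ range p.s ∧ 0 ≤ v ∧ v < 1 := by
    intro v
    rw [hF, Set.Finite.mem_toFinset]
    rfl
  obtain ⟨n, hn⟩ : ∃ n, F.card = n := ⟨_, rfl⟩
  -- the fractional part of a value is in `F`
  have hfrac : ∀ x : L, p.s x - ⌊p.s x⌋ ∈ F := by
    intro x
    rw [hmem]
    refine ⟨⟨sh (-⌊p.s x⌋) x, by rw [p.s_sh]; push_cast; ring⟩, ?_, ?_⟩
    · linarith [Int.floor_le (p.s x)]
    · linarith [Int.lt_floor_add_one (p.s x)]
  have hpos : 0 < n := by
    obtain ⟨g⟩ := p.nonempty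
    rw [← hn]
    exact Finset.card_pos.2 ⟨_, hfrac g⟩
  have hn0 : (n : ℤ) ≠ 0 := by exact_mod_cast hpos.ne'
  have hnZ : (0 : ℤ) < n := by exact_mod_cast hpos
  let w := F.orderEmbOfFin hn
  have hw : ∀ i, w i ∈ F := fun i => F.orderEmbOfFin_mem hn i
  have hmod : ∀ z : ℤ, (z % n).toNat < n := by
    intro z
    have h1 := Int.emod_nonneg z hn0
    have h2 := Int.emod_lt_of_pos z hnZ
    omega
  let v : ℤ → ℝ := fun z => w ⟨(z % n).toNat, hmod z⟩ + ((z / n : ℤ) : ℝ)
  have hvdef : ∀ z, v z = w ⟨(z % n).toNat, hmod z⟩ + ((z / n : ℤ) : ℝ) := fun z => rfl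
  have hv01 : ∀ z : ℤ, ((z / n : ℤ) : ℝ) ≤ v z ∧ v z < ((z / n : ℤ) : ℝ) + 1 := by
    intro z
    have h1 := (hmem _).1 (hw ⟨(z % n).toNat, hmod z⟩)
    rw [hvdef]
    constructor
    · linarith [h1.2.1]
    · linarith [h1.2.2]
  have hvmono : StrictMono v := by
    intro z z' hzz
    have hdiv : z / n ≤ z' / n := Int.ediv_le_ediv hnZ hzz.le
    rcases eq_or_lt_of_le hdiv with h | h
    · rw [hvdef, hvdef, h]
      have h1 := Int.emod_add_mul_ediv z n
      have h2 := Int.emod_add_mul_ediv z' n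
      rw [h] at h1
      have h3 : z % n < z' % n := by omega
      have h4 := Int.emod_nonneg z hn0
      have h5 : w ⟨(z % n).toNat, hmod z⟩ < w ⟨(z' % n).toNat, hmod z'⟩ := by
        apply w.strictMono
        rw [Fin.mk_lt_mk]
        omega
      linarith
    · have h1 : ((z / n : ℤ) : ℝ) + 1 ≤ ((z' / n : ℤ) : ℝ) := by exact_mod_cast h
      linarith [(hv01 z).2, (hv01 z').1]
  have hvval : ∀ z, v z ∈ range p.s := by
    intro z
    obtain ⟨⟨x, hx⟩, -⟩ := (hmem _).1 (hw ⟨(z % n).toNat, hmod z⟩)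
    exact ⟨sh (z / n) x, by rw [p.s_sh, hx]⟩
  have htop : ∀ z, p.s (p.top (v z)) = v z := by
    intro z
    obtain ⟨x, hx⟩ := hvval z
    refine le_antisymm (p.s_top _) ?_
    have h1 : x ≤ p.top (v z) := p.le_top_iff.2 hx.le
    have h2 := p.mono h1
    rwa [hx] at h2
  have hvper : ∀ z : ℤ, v (z + n) = v z + 1 := by
    intro z
    rw [hvdef, hvdef]
    have h1 : (z + (n : ℤ)) % n = z % n := Int.add_emod_right z n
    have h2 : (z + (n : ℤ)) / n = z / n + 1 := Int.add_ediv_of_dvd_right (dvd_refl (n : ℤ)) |>.trans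
      (by rw [Int.ediv_self hn0])
    have h3 : w ⟨((z + (n : ℤ)) % n).toNat, hmod _⟩ = w ⟨(z % n).toNat, hmod z⟩ :=
      congrArg w (Fin.ext (congrArg Int.toNat h1))
    rw [h3, h2]
    push_cast
    ring
  let C : Cell L :=
    { n := n
      pos := hpos
      e := fun z => p.top (v z)
      mono := fun z z' hzz => lt_of_le_of_ne (p.top_mono (hvmono hzz).le) fun h => by
        have h1 := congrArg p.s h
        rw [htop, htop] at h1
        exact absurd h1 (hvmono hzz).ne
      per := fun z => by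
        show p.top (v (z + n)) = φ (p.top (v z))
        rw [hvper, ← sh_one, ← p.top_sh]
        push_cast
        rfl }
  have hCe : ∀ z, C.e z = p.top (v z) := fun z => rfl
  have hs : ∀ z, p.s (C.e z) = v z := fun z => htop z
  refine ⟨C, fun x => ?_, ?_, ?_, ?_, fun z => ?_⟩
  · -- surjectivity
    obtain ⟨i, hi⟩ : ∃ i, w i = p.s x - ⌊p.s x⌋ := by
      have h1 : p.s x - ⌊p.s x⌋ ∈ Set.range w := by
        rw [Finset.range_orderEmbOfFin]
        exact hfrac x
      exact h1
    set z : ℤ := (i : ℤ) + ⌊p.s x⌋ * n with hz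
    have hvz : v z = p.s x := by
      rw [hvdef]
      have h1 : z % n = (i : ℤ) := by
        rw [hz, Int.add_mul_emod_self_right]
        exact Int.emod_eq_of_lt (by omega) (by exact_mod_cast i.2)
      have h2 : z / n = ⌊p.s x⌋ := by
        rw [hz, Int.add_mul_ediv_right _ _ hn0, Int.ediv_eq_zero_of_lt (by omega)
          (by exact_mod_cast i.2), zero_add]
      have h3 : w ⟨(z % n).toNat, hmod z⟩ = w i :=
        congrArg w (Fin.ext ((congrArg Int.toNat h1).trans (Int.toNat_natCast _)))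
      rw [h3, h2, hi]
      ring
    have h1 : C.idx x ≤ z := by
      rw [C.idx_le, hCe, p.le_top_iff, hvz]
    refine le_antisymm (p.mono (C.le_e_idx x)) ?_
    rw [hs, ← hvz]
    exact hvmono.monotone h1
  · intro z z' hzz
    show p.s (C.e z) < p.s (C.e z')
    rw [hs, hs]
    exact hvmono hzz
  · rw [hs]
    have := (hv01 0).1
    simpa using this
  · rw [hs]
    have := (hv01 0).2
    simpa using this
  · rw [hs]

/-- different values have a distance bounded from below -/
theorem exists_gap (p : Pt L) : ∃ γ : ℝ, 0 < γ ∧ ∀ x y, p.s x < p.s y → p.s x + γ ≤ p.s y := by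
  obtain ⟨C, hC, hmono, -⟩ := exists_cell p
  have hne : (Finset.range C.n).Nonempty := ⟨0, Finset.mem_range.2 C.pos⟩
  obtain ⟨i, -, hmin⟩ := Finset.exists_min_image (Finset.range C.n)
    (fun i => p.s (C.e ((i : ℤ) + 1)) - p.s (C.e i)) hne
  refine ⟨p.s (C.e ((i : ℤ) + 1)) - p.s (C.e i), sub_pos.2 (hmono (lt_add_one _)), ?_⟩
  have hall : ∀ z : ℤ, p.s (C.e z) + (p.s (C.e ((i : ℤ) + 1)) - p.s (C.e i)) ≤
      p.s (C.e (z + 1)) := by
    intro z
    have hnZ : (0 : ℤ) < C.n := by exact_mod_cast C.pos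
    have h0 := Int.emod_nonneg z hnZ.ne'
    have h1 := Int.emod_lt_of_pos z hnZ
    have h2 := hmin (z % C.n).toNat (Finset.mem_range.2 (by omega))
    have h3 : (((z % C.n).toNat : ℕ) : ℤ) = z % C.n := Int.toNat_of_nonneg h0
    rw [h3] at h2
    have h4 : z = z % C.n + (z / C.n) * C.n := by
      have := Int.emod_add_mul_ediv z C.n
      rw [mul_comm (z / (C.n : ℤ))]
      exact this.symm
    have h5 : p.s (C.e z) = p.s (C.e (z % C.n)) + ((z / C.n : ℤ) : ℝ) := by
      conv_lhs => rw [h4]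
      rw [C.per_mul, p.s_sh]
    have h6 : p.s (C.e (z + 1)) = p.s (C.e (z % C.n + 1)) + ((z / C.n : ℤ) : ℝ) := by
      have h7 : z + 1 = (z % C.n + 1) + (z / C.n) * C.n := by omega
      conv_lhs => rw [h7]
      rw [C.per_mul, p.s_sh]
    rw [h5, h6]
    linarith
  intro x y hxy
  rw [hC x, hC y] at hxy ⊢
  have h1 : C.idx x < C.idx y := by
    by_contra hcon
    push Not at hcon
    exact absurd (hmono.monotone hcon) (not_le_of_gt hxy)
  exact (hall _).trans (hmono.monotone (show C.idx x + 1 ≤ C.idx y from h1))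

/-- a cell of a near point is a cell -/
theorem InCell.of_near {p q : Pt L} {γ : ℝ} (hγ : ∀ x y, p.s x < p.s y → p.s x + γ ≤ p.s y)
    (hd : 2 * dist p q < γ) {C : Cell L} (hC : InCell C q) : InCell C p := by
  intro x
  have h1 := p.mono (C.le_e_idx x)
  refine le_antisymm h1 ?_
  by_contra hlt
  push Not at hlt
  have h2 := hγ _ _ hlt
  have h3 := le_add_dist p q (C.e (C.idx x))
  have h4 := le_add_dist q p x
  rw [dist_comm] at h4
  rw [← hC x] at h3
  linarith

/-! ### chords -/

theorem fam_chord {C : Cell L} {p q : Pt L} (hp : InCell C p) (hq : InCell C q) :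
    Fam 0 1 (fun t x => (1 - t) * p.s x + t * q.s x) := by
  refine ⟨fun x => ?_, fun t ht x y => ?_⟩
  · refine ⟨convex_Icc 0 1, fun s _ t _ c d _ _ hcd => le_of_eq ?_⟩
    simp only [smul_eq_mul]
    have : d = 1 - c := by linarith
    subst this
    ring
  · have key : ∀ x y : L, C.idx x ≤ C.idx y →
        (1 - t) * p.s (x ⊔ y) + t * q.s (x ⊔ y) =
          max ((1 - t) * p.s x + t * q.s x) ((1 - t) * p.s y + t * q.s y) := by
      intro x y hxy
      have h1 := hp.mono hxy
      have h2 := hq.mono hxy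
      rw [p.sup, q.sup, max_eq_right h1, max_eq_right h2, max_eq_right]
      have h3 := mul_le_mul_of_nonneg_left h1 (by linarith [ht.2] : 0 ≤ 1 - t)
      have h4 := mul_le_mul_of_nonneg_left h2 ht.1
      linarith
    rcases le_total (C.idx x) (C.idx y) with h | h
    · exact key x y h
    · rw [sup_comm, max_comm]
      exact key y x h

theorem geo_chord {C : Cell L} {p q : Pt L} (hp : InCell C p) (hq : InCell C q) {t : ℝ}
    (ht : t ∈ Icc (0 : ℝ) 1) (x : L) : (geo p q t).s x = (1 - t) * p.s x + t * q.s x := by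
  refine le_antisymm (by rw [geo_s p q ht]; exact geoS_le_lin p q ht x) ?_
  have h1 := geo_max (p := p) (q := q) (fam_chord hp hq) (a := 0) (b := 0)
    (fun x => by simp) (fun x => by simp) ht x
  simpa using h1

theorem geo_inCell {C : Cell L} {p q : Pt L} (hp : InCell C p) (hq : InCell C q) {t : ℝ}
    (ht : t ∈ Icc (0 : ℝ) 1) : InCell C (geo p q t) := by
  intro x
  rw [geo_chord hp hq ht, geo_chord hp hq ht, ← hp x, ← hq x]

/-- consistency for all orders of the end points -/
theorem geo_consistent (p q : Pt L) {a b t : ℝ} (ha : a ∈ Icc (0 : ℝ) 1) (hb : b ∈ Icc (0 : ℝ) 1)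
    (ht : t ∈ Icc (0 : ℝ) 1) : geo (geo p q a) (geo p q b) t = geo p q ((1 - t) * a + t * b) :=
  bicomb.consistent p q a b t ha.1 ha.2 hb.1 hb.2 ht.1 ht.2

theorem geo_speed (p q : Pt L) {s t : ℝ} (hs : s ∈ Icc (0 : ℝ) 1) (ht : t ∈ Icc (0 : ℝ) 1) :
    dist (geo p q s) (geo p q t) ≤ |s - t| * dist p q :=
  bicomb.speed p q s t hs.1 hs.2 ht.1 ht.2

/-- a geodesic is affine between two times with a common cell -/
theorem geo_affine {C : Cell L} (p q : Pt L) {a b : ℝ} (ha : a ∈ Icc (0 : ℝ) 1)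
    (hb : b ∈ Icc (0 : ℝ) 1) (hab : a ≤ b) (hCa : InCell C (geo p q a))
    (hCb : InCell C (geo p q b)) :
    ∃ P Q : L → ℝ, ∀ u ∈ Icc a b, ∀ x, (geo p q u).s x = P x + u * Q x := by
  rcases eq_or_lt_of_le hab with h | h
  · subst h
    refine ⟨(geo p q a).s, fun _ => 0, fun u hu x => ?_⟩
    have : u = a := le_antisymm hu.2 hu.1
    rw [this, mul_zero, add_zero]
  · have hba : 0 < b - a := by linarith
    refine ⟨fun x => (geo p q a).s x - a * (((geo p q b).s x - (geo p q a).s x) / (b - a)),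
      fun x => ((geo p q b).s x - (geo p q a).s x) / (b - a), fun u hu x => ?_⟩
    have hτ : (u - a) / (b - a) ∈ Icc (0 : ℝ) 1 := by
      refine ⟨div_nonneg (by linarith [hu.1]) hba.le, ?_⟩
      rw [div_le_one hba]
      linarith [hu.2]
    have h1 := geo_consistent p q ha hb hτ
    have h2 : (1 - (u - a) / (b - a)) * a + (u - a) / (b - a) * b = u := by
      field_simp
      ring
    rw [h2] at h1
    rw [← h1, geo_chord hCa hCb hτ]
    field_simp
    ring

/-- **local affinity** -/
theorem germ (p q : Pt L) {t : ℝ} (ht : t ∈ Icc (0 : ℝ) 1) : ∃ ε > 0, ∀ a b,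
    a ∈ Icc (0 : ℝ) 1 → b ∈ Icc (0 : ℝ) 1 → a ≤ b →
    ((a = t ∧ b ≤ t + ε) ∨ (b = t ∧ t - ε ≤ a)) →
    ∃ P Q : L → ℝ, ∀ u ∈ Icc a b, ∀ x, (geo p q u).s x = P x + u * Q x := by
  obtain ⟨γ, hγ, hgap⟩ := exists_gap (geo p q t)
  have hD : 0 < dist p q + 1 := by linarith [dist_nonneg (x := p) (y := q)]
  have hε : 0 < γ / (4 * (dist p q + 1)) := by positivity
  refine ⟨γ / (4 * (dist p q + 1)), hε, fun a b ha hb hab hcase => ?_⟩
  have hnear : ∀ u ∈ Icc (0 : ℝ) 1, |t - u| ≤ γ / (4 * (dist p q + 1)) →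
      2 * dist (geo p q t) (geo p q u) < γ := by
    intro u hu htu
    have h1 := geo_speed p q ht hu
    have h2 : |t - u| * dist p q ≤ γ / (4 * (dist p q + 1)) * (dist p q + 1) :=
      mul_le_mul htu (by linarith) dist_nonneg hε.le
    have h3 : γ / (4 * (dist p q + 1)) * (dist p q + 1) = γ / 4 := by
      field_simp
    linarith
  rcases hcase with ⟨h1, h2⟩ | ⟨h1, h2⟩
  · subst h1
    obtain ⟨C, hC, -⟩ := exists_cell (geo p q b)
    have h3 : InCell C (geo p q a) := InCell.of_near hgap (hnear b hb (by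
      rw [abs_sub_comm, abs_of_nonneg (by linarith)]
      linarith)) hC
    exact geo_affine p q ha hb hab h3 hC
  · subst h1
    obtain ⟨C, hC, -⟩ := exists_cell (geo p q a)
    have h3 : InCell C (geo p q b) := InCell.of_near hgap (hnear a ha (by
      rw [abs_of_nonneg (by linarith)]
      linarith)) hC
    exact geo_affine p q ha hb hab hC h3

/-- if all values are affine in the time, one cell works for all times -/
theorem cell_of_affine {f : ℝ → Pt L} {a b : ℝ} (hab : a < b) {P Q : L → ℝ}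
    (h : ∀ u ∈ Icc a b, ∀ x, (f u).s x = P x + u * Q x) : ∃ C : Cell L,
      (∀ u ∈ Icc a b, InCell C (f u)) ∧
      ∀ u ∈ Ioo a b, StrictMono fun z => (f u).s (C.e z) := by
  set m := (a + b) / 2 with hm
  have hmI : m ∈ Icc a b := ⟨by rw [hm]; linarith, by rw [hm]; linarith⟩
  obtain ⟨C, hC, hmono, -⟩ := exists_cell (f m)
  refine ⟨C, fun u hu x => ?_, fun u hu z z' hzz => ?_⟩
  · set y := C.e (C.idx x) with hy
    have h0 : ∀ v ∈ Icc a b, P x + v * Q x ≤ P y + v * Q y := by
      intro v hv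
      rw [← h v hv, ← h v hv]
      exact (f v).mono (C.le_e_idx x)
    have hmid : P x + m * Q x = P y + m * Q y := by
      rw [← h m hmI, ← h m hmI]
      exact hC x
    have ha := h0 a ⟨le_rfl, hab.le⟩
    have hb := h0 b ⟨hab.le, le_rfl⟩
    rw [h u hu, h u hu]
    have hQ : Q x = Q y := by
      have e1 : P x - P y = m * (Q y - Q x) := by linarith
      have e2 : (m - a) * (Q y - Q x) ≤ 0 := by nlinarith
      have e3 : 0 ≤ (b - m) * (Q y - Q x) := by nlinarith
      have hma : 0 < m - a := by rw [hm]; linarith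
      have hbm : 0 < b - m := by rw [hm]; linarith
      have e4 : Q y - Q x ≤ 0 := by
        by_contra hc
        push Not at hc
        have := mul_pos hma hc
        linarith
      have e5 : 0 ≤ Q y - Q x := by
        by_contra hc
        push Not at hc
        have := mul_pos hbm (neg_pos.2 hc)
        nlinarith
      linarith
    have hP : P x = P y := by rw [hQ] at hmid; linarith
    rw [hP, hQ]
  · show (f u).s (C.e z) < (f u).s (C.e z')
    have hlt := hmono hzz
    simp only at hlt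
    rw [h m hmI, h m hmI] at hlt
    have hle : ∀ v ∈ Icc a b, P (C.e z) + v * Q (C.e z) ≤ P (C.e z') + v * Q (C.e z') := by
      intro v hv
      rw [← h v hv, ← h v hv]
      exact (f v).mono (C.mono hzz).le
    have ha := hle a ⟨le_rfl, hab.le⟩
    have hb := hle b ⟨hab.le, le_rfl⟩
    have huI : u ∈ Icc a b := ⟨hu.1.le, hu.2.le⟩
    rw [h u huI, h u huI]
    by_contra hcon
    push Not at hcon
    -- an affine function which is `≥ 0` at `a`, `b`, `> 0` at `m` and `≤ 0` at `u`
    set A := P (C.e z') - P (C.e z) with hA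
    set B := Q (C.e z') - Q (C.e z) with hB
    have e1 : 0 ≤ A + a * B := by rw [hA, hB]; linarith
    have e2 : 0 ≤ A + b * B := by rw [hA, hB]; linarith
    have e3 : 0 < A + m * B := by rw [hA, hB]; linarith
    have e4 : A + u * B ≤ 0 := by rw [hA, hB]; linarith
    rcases le_total 0 B with hB0 | hB0
    · -- increasing: `0 ≤ A + a B ≤ A + u B ≤ 0`, so `B = 0` or `u = a`
      have e5 : (u - a) * B ≤ 0 := by nlinarith
      have hua : 0 < u - a := by linarith [hu.1]
      have hB1 : B = 0 := by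
        by_contra hne
        have := mul_pos hua (lt_of_le_of_ne hB0 (Ne.symm hne))
        linarith
      rw [hB1] at e3 e4
      linarith
    · have e5 : 0 ≤ (b - u) * B := by nlinarith
      have hub : 0 < b - u := by linarith [hu.2]
      have hB1 : B = 0 := by
        by_contra hne
        have := mul_neg_of_pos_of_neg hub (lt_of_le_of_ne hB0 hne)
        linarith
      rw [hB1] at e3 e4
      linarith

end

end Pool.Agent.LSH
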