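import Mathlib
import Pool.Agent.Lib.LSH.Cells

/-!
# Semilattices with a shift: the left germ of a geodesic
-/

set_option autoImplicit false

open Set

namespace Pool.Agent.LSH

variable {L : Type} [SemilatticeSup L] [HasShift L]

/-- on a short interval to the left of a time all values are affine -/
theorem germL (p q : Pt L) : ∀ t ∈ Ioc (0 : ℝ) 1, ∃ ε > 0, 0 ≤ t - ε ∧ ∃ P Q : L → ℝ,
    ∀ u ∈ Icc (t - ε) t, ∀ x, (geo p q u).s x = P x + u * Q x := by
  intro t ht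
  obtain ⟨ε, hε, h⟩ := germ p q (t := t) ⟨ht.1.le, ht.2⟩
  refine ⟨min ε t, lt_min hε ht.1, by linarith [min_le_right ε t], ?_⟩
  exact h (t - min ε t) t ⟨by linarith [min_le_right ε t], by linarith [lt_min hε ht.1, ht.2]⟩
    ⟨ht.1.le, ht.2⟩ (by linarith [lt_min hε ht.1])
    (Or.inr ⟨rfl, by linarith [min_le_left ε t]⟩)

/-- on a short interval to the right of a time all values are affine -/
theorem germR (p q : Pt L) : ∀ t ∈ Ico (0 : ℝ) 1, ∃ ε > 0, t + ε ≤ 1 ∧ ∃ P Q : L → ℝ,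
    ∀ u ∈ Icc t (t + ε), ∀ x, (geo p q u).s x = P x + u * Q x := by
  intro t ht
  obtain ⟨ε, hε, h⟩ := germ p q (t := t) ⟨ht.1, ht.2.le⟩
  have h1 : 0 < 1 - t := by linarith [ht.2]
  refine ⟨min ε (1 - t), lt_min hε h1, by linarith [min_le_right ε (1 - t)], ?_⟩
  exact h t (t + min ε (1 - t)) ⟨ht.1, ht.2.le⟩
    ⟨by linarith [lt_min hε h1, ht.1], by linarith [min_le_right ε (1 - t)]⟩
    (by linarith [lt_min hε h1])
    (Or.inl ⟨rfl, by linarith [min_le_left ε (1 - t)]⟩)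

end Pool.Agent.LSH
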