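import Pool.Agent.Lib.LSH.Iface
import Pool.Agent.Lib.MP_98022b_td.AsmQ
import Pool.Agent.Lib.MP_98022b_tl.LineDisc

/-!
# Semilattices with a shift: geodesic segments
-/

set_option autoImplicit false
set_option linter.unusedSectionVars false

open Set

namespace Pool.Agent.LSH

open Pool.Agent.TD Pool.Agent.ND Pool.Agent.GLN

section
variable {L : Type} [SemilatticeSup L] [HasShift L]

/-- renumbering of a cell -/
noncomputable def Cell.shift (C : Cell L) (m : ℤ) : Cell L where
  n := C.n
  pos := C.pos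
  e z := C.e (z + m)
  mono z z' h := C.mono (by omega)
  per z := by rw [add_right_comm, C.per]

theorem Cell.idx_shift (C : Cell L) (m : ℤ) (x : L) : (C.shift m).idx x = C.idx x - m := by
  refine le_antisymm ?_ ?_
  · rw [Cell.idx_le]
    show x ≤ C.e (C.idx x - m + m)
    rw [sub_add_cancel]
    exact C.le_e_idx x
  · have h1 : C.idx x ≤ (C.shift m).idx x + m := by
      rw [Cell.idx_le]
      exact (C.shift m).le_e_idx x
    omega

theorem Cell.exists_norm (C : Cell L) (p : Pt L) : ∃ C' : Cell L,
    (∀ q, InCell C q → InCell C' q) ∧ 0 ≤ p.s (C'.e 0) ∧ p.s (C'.e 0) < 1 := by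
  have hk : ∀ k : ℤ, p.s (C.e (k * C.n)) = p.s (C.e 0) + k := by
    intro k
    have := C.per_mul k 0
    rw [zero_add] at this
    rw [this, p.s_sh]
  have hn : (0 : ℤ) < C.n := by exact_mod_cast C.pos
  obtain ⟨m, hm, hmin⟩ := Int.exists_least_of_bdd (P := fun z : ℤ => 0 ≤ p.s (C.e z)) (by
    refine ⟨(-⌈p.s (C.e 0)⌉ - 1) * C.n, fun z hz => ?_⟩
    by_contra hlt
    push Not at hlt
    have h1 := p.mono (C.mono.monotone hlt.le)
    rw [hk] at h1
    push_cast at h1
    have h2 := Int.le_ceil (p.s (C.e 0))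
    linarith) ⟨(-⌊p.s (C.e 0)⌋) * C.n, by
      rw [hk]
      push_cast
      have h2 := Int.floor_le (p.s (C.e 0))
      linarith⟩
  refine ⟨C.shift m, fun q hq x => ?_, ?_, ?_⟩
  · rw [hq x, Cell.idx_shift]
    show q.s (C.e (C.idx x)) = q.s (C.e (C.idx x - m + m))
    rw [sub_add_cancel]
  · show 0 ≤ p.s (C.e (0 + m))
    rwa [zero_add]
  · show p.s (C.e (0 + m)) < 1
    rw [zero_add]
    by_contra hge
    push Not at hge
    have h1 := C.per_mul (-1) m
    have h2 : 0 ≤ p.s (C.e (m + -1 * C.n)) := by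
      rw [h1, p.s_sh]
      push_cast
      linarith
    have h3 := hmin _ h2
    omega

theorem GeoSeg.exists_cell {γ : ℝ → Pt L} {a b : ℝ} (_h : GeoSeg γ a b) {a' b' : ℝ} (_h1 : a ≤ a')
    (h2 : a' ≤ b') (_h3 : b' ≤ b) (haff : AffOn (fun s => (γ s).s) a' b') :
    ∃ C : Cell L, ∀ s ∈ Icc a' b', InCell C (γ s) := by
  rcases h2.eq_or_lt with h | h
  · subst h
    obtain ⟨C, hC, -⟩ := Pool.Agent.LSH.exists_cell (γ a')
    refine ⟨C, fun s hs => ?_⟩
    rw [le_antisymm hs.2 hs.1]
    exact hC
  · obtain ⟨P, Q, hPQ⟩ := haff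
    obtain ⟨C, hC, -⟩ := cell_of_affine h hPQ
    exact ⟨C, hC⟩

theorem GeoSeg.sub {γ : ℝ → Pt L} {a b : ℝ} (h : GeoSeg γ a b) {a' b' : ℝ} (h1 : a ≤ a')
    (_h2 : a' ≤ b') (h3 : b' ≤ b) : GeoSeg (fun s => γ (a' + s)) 0 (b' - a') := by
  have hm : ∀ s ∈ Icc 0 (b' - a'), a' + s ∈ Icc a b := fun s hs =>
    ⟨by linarith [hs.1], by linarith [hs.2]⟩
  refine ⟨fun s hs s' hs' => ?_, ⟨fun x => ⟨convex_Icc _ _, fun s hs t ht c d hc hd hcd => ?_⟩,
    fun t ht x y => h.fam.sup _ (hm t ht) x y⟩, fun k u v hu huv hv hk e h0 h1' t ht x => ?_⟩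
  · rw [h.dist_eq _ (hm s hs) _ (hm s' hs')]
    congr 1
    ring
  · have h4 := (h.fam.conv x).2 (hm s hs) (hm t ht) hc hd hcd
    have h5 : c • (a' + s) + d • (a' + t) = a' + (c • s + d • t) := by
      simp only [smul_eq_mul]
      have : d = 1 - c := by linarith
      subst this
      ring
    rw [h5] at h4
    exact h4
  · have hk' : Fam (a' + u) (a' + v) (fun t x => k (t - a') x) := by
      refine ⟨fun x => ⟨convex_Icc _ _, fun s hs t ht c d hc hd hcd => ?_⟩, fun t ht x y =>
        hk.sup _ ⟨by linarith [ht.1], by linarith [ht.2]⟩ x y⟩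
      have h4 := (hk.conv x).2 (x := s - a') (y := t - a')
        ⟨by linarith [hs.1], by linarith [hs.2]⟩ ⟨by linarith [ht.1], by linarith [ht.2]⟩ hc hd hcd
      have h5 : c • (s - a') + d • (t - a') = (c • s + d • t) - a' := by
        simp only [smul_eq_mul]
        have : d = 1 - c := by linarith
        subst this
        ring
      rw [h5] at h4
      exact h4
    have h6 := h.great _ (a' + u) (a' + v) (by linarith) (by linarith) (by linarith) hk' e
      (fun x => by rw [add_sub_cancel_left]; exact h0 x)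
      (fun x => by rw [add_sub_cancel_left]; exact h1' x) (a' + t)
      ⟨by linarith [ht.1], by linarith [ht.2]⟩ x
    rwa [add_sub_cancel_left] at h6

theorem geoSeg_endPt (x y : Pt L) : GeoSeg (endPt geo x y) 0 (dist x y) := by
  rcases (dist_nonneg (x := x) (y := y)).eq_or_lt with h0 | h0
  · rw [← h0]
    have hz : ∀ s ∈ Icc (0 : ℝ) 0, s = 0 := fun s hs => le_antisymm hs.2 hs.1
    refine ⟨fun s hs s' hs' => by rw [hz s hs, hz s' hs']; simp,
      ⟨fun z => ⟨convex_Icc _ _, fun s hs t ht c d hc hd hcd => ?_⟩, fun t ht u v =>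
        (endPt geo x y t).sup u v⟩, fun k u v hu huv hv hk e e0 e1 t ht z => ?_⟩
    · rw [hz s hs, hz t ht]
      simp only [smul_eq_mul, mul_zero, add_zero]
      have : d = 1 - c := by linarith
      subst this
      exact le_of_eq (by ring)
    · have h1 : u = 0 := le_antisymm (huv.trans hv) hu
      have h2 : v = 0 := le_antisymm hv (hu.trans huv)
      rw [h1, h2] at ht
      have h3 := e0 z
      rw [h1] at h3
      rw [hz t ht]
      exact h3
  · have hmem : ∀ s ∈ Icc 0 (dist x y), 1 - s / dist x y ∈ Icc (0 : ℝ) 1 := by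
      intro s hs
      have h1 : s / dist x y ≤ 1 := (div_le_one h0).2 hs.2
      have h2 : 0 ≤ s / dist x y := div_nonneg hs.1 h0.le
      exact ⟨by linarith, by linarith⟩
    refine ⟨fun s hs s' hs' => ?_, ⟨fun z => ⟨convex_Icc _ _, fun s hs t ht c d hc hd hcd => ?_⟩,
      fun t ht u v => (endPt geo x y t).sup u v⟩, fun k u v hu huv hv hk e e0 e1 t ht z => ?_⟩
    · refine le_antisymm (dist_endPt_le' bicomb hs.1 hs.2 hs'.1 hs'.2) ?_
      rcases le_total s s' with h | h
      · have := dist_endPt_endPt (bicomb (L := L)) hs.1 h hs'.2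
        rw [abs_sub_comm, abs_of_nonneg (by linarith)]
        exact this
      · have := dist_endPt_endPt (bicomb (L := L)) hs'.1 h hs.2
        rw [abs_of_nonneg (by linarith), dist_comm]
        exact this
    · have h4 := ((fam_geo x y).conv z).2 (hmem s hs) (hmem t ht) hc hd hcd
      have h5 : c • (1 - s / dist x y) + d • (1 - t / dist x y) =
          1 - (c • s + d • t) / dist x y := by
        simp only [smul_eq_mul]
        have : d = 1 - c := by linarith
        subst this
        field_simp
        ring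
      rw [h5] at h4
      exact h4
    · rcases huv.eq_or_lt with h | h
      · subst h
        rw [le_antisymm ht.2 ht.1]
        exact e0 z
      · have hu' : u ∈ Icc 0 (dist x y) := ⟨hu, h.le.trans hv⟩
        have hv' : v ∈ Icc 0 (dist x y) := ⟨hu.trans h.le, hv⟩
        have hk' : Fam 0 1 (fun τ x => k ((1 - τ) * v + τ * u) x) := hk.reparam (by
          intro τ hτ
          constructor
          · nlinarith [hτ.1, hτ.2]
          · nlinarith [hτ.1, hτ.2])
        have hvu : 0 < v - u := by linarith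
        have hτ : (v - t) / (v - u) ∈ Icc (0 : ℝ) 1 := by
          refine ⟨div_nonneg (by linarith [ht.2]) hvu.le, ?_⟩
          rw [div_le_one hvu]
          linarith [ht.1]
        have h6 := geo_max (p := endPt geo x y v) (q := endPt geo x y u) hk' (a := e) (b := e)
          (fun x => by simpa using e1 x) (fun x => by simpa using e0 x) hτ z
        have h7 : (1 - (v - t) / (v - u)) * v + (v - t) / (v - u) * u = t := by
          field_simp
          ring
        have h8 := (bicomb (L := L)).consistent x y (1 - v / dist x y) (1 - u / dist x y)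
          ((v - t) / (v - u)) (hmem v hv').1 (hmem v hv').2 (hmem u hu').1 (hmem u hu').2 hτ.1 hτ.2
        have h9 : (1 - (v - t) / (v - u)) * (1 - v / dist x y) +
            (v - t) / (v - u) * (1 - u / dist x y) = 1 - t / dist x y := by
          field_simp
          ring
        rw [h9] at h8
        rw [h7] at h6
        unfold endPt at h6 ⊢
        rw [h8] at h6
        linarith

end

end Pool.Agent.LSH
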