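import Mathlib
import Pool.Agent.Lib.LSH.Count
import Pool.Agent.Lib.LSH.Germ
import Pool.Agent.Lib.LSH.Seg

/-!
# Semilattices with a shift: the number of the breaks of a geodesic
-/

set_option autoImplicit false
set_option linter.unusedSectionVars false

open Set

namespace Pool.Agent.LSH

open Pool.Agent.TD

section
variable {L : Type} [SemilatticeSup L] [HasShift L] {S : ℝ → Pt L} {α₀ β₀ : ℝ}

/-- the number of the cuts of a short window -/
def topF (d : ℕ) : ℕ := (d + 1) ^ 2 * (2 + stripF d)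

theorem count (hS : Traj S α₀ β₀) {α β : ℝ} (h1 : α₀ ≤ α) (hαβ : α < β) (h2 : β ≤ β₀)
    (hlen : β - α ≤ 1 / 2) : ∃ Z : Finset ℝ, Z.card ≤ topF (HasShift.d L) ∧
      ∀ a b, α ≤ a → a < b → b ≤ β → (∀ z ∈ Z, z ∉ Ioo a b) →
        ∃ P Q : L → ℝ, ∀ t ∈ Icc a b, ∀ x, (S t).s x = P x + t * Q x := by
  classical
  have hne : (univ : Set L).Nonempty := ⟨(S α).nonempty.some, mem_univ _⟩
  obtain ⟨c, Λ, t₂, x₀, ht₂, -, hΛ, hkap, hge, hslope⟩ := line hS h1 hαβ h2 hne
  set z₁ := (S t₂).top' ((S t₂).s x₀) with hz₁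
  set ℓ : ℝ → ℝ := fun t => c + t * Λ with hℓ
  have hΛ' := abs_le.1 hΛ
  have hsub : ∀ t ∈ Icc α β, t ∈ Icc α₀ β₀ := fun t ht => ⟨h1.trans ht.1, ht.2.trans h2⟩
  set y : ℝ → L := fun t => (S t).top (ℓ t) with hy
  set z : ℝ → L := fun t => (S t).top' (ℓ t) with hz
  have hzy : ∀ t, z t ≤ y t := fun t => (S t).top'_le_top _
  have hmonoz : ∀ t ∈ Icc α β, ∀ t' ∈ Icc α β, t ≤ t' → z t ≤ z t' := by
    intro t ht t' ht' htt
    refine (S t').le_top'_iff.2 ?_
    have h3 := hslope (z t) (mem_univ _) t t' ht.1 htt ht'.2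
    have h4 := (S t).s_top' (ℓ t)
    simp only [hℓ] at h4 ⊢
    linarith
  have hmonoy : ∀ t ∈ Icc α β, ∀ t' ∈ Icc α β, t ≤ t' → y t ≤ y t' := by
    intro t ht t' ht' htt
    refine (S t').le_top_iff.2 ?_
    have h3 := hslope (y t) (mem_univ _) t t' ht.1 htt ht'.2
    have h4 := (S t).s_top (ℓ t)
    simp only [hℓ] at h4 ⊢
    linarith
  have hαI : α ∈ Icc α β := ⟨le_rfl, hαβ.le⟩
  -- the range of the values on the line
  have hback : ∀ t ∈ Icc α β, ∀ x, (S α).s x ≤ (S t).s x + 1 / 2 := by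
    intro t ht x
    have h3 := le_add_dist (S α) (S t) x
    have h4 := hS.lip α (hsub α hαI) t (hsub t ht)
    rw [abs_sub_comm, abs_of_nonneg (by linarith [ht.1])] at h4
    linarith [ht.2]
  have hline : ∀ t ∈ Icc α β, ℓ t ≤ ℓ α + 1 / 2 := by
    intro t ht
    simp only [hℓ]
    nlinarith [ht.1, ht.2]
  have hyα : ∀ t ∈ Icc α β, y t ≤ sh 1 (y α) := by
    intro t ht
    have h3 := (S α).top_sh (ℓ α) 1
    rw [Int.cast_one] at h3
    rw [hy]
    simp only
    rw [← h3, (S α).le_top_iff]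
    have h4 := hback t ht ((S t).top (ℓ t))
    have h5 := (S t).s_top (ℓ t)
    have h6 := hline t ht
    linarith
  have hzα : ∀ t ∈ Icc α β, z t ≤ sh 1 (z α) := by
    intro t ht
    have h3 := (S α).top'_sh (ℓ α) 1
    rw [Int.cast_one] at h3
    rw [hz]
    simp only
    rw [← h3, (S α).le_top'_iff]
    have h4 := hback t ht ((S t).top' (ℓ t))
    have h5 := (S t).s_top' (ℓ t)
    have h6 := hline t ht
    linarith
  have hHt : ∀ u : L, Ht u (sh 1 u) (HasShift.d L) := by
    intro u k c' hc' h0 hk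
    refine HasShift.chain k c' hc' (hk.trans ?_)
    rw [← sh_one]
    exact sh_le_sh.2 h0
  have htot : ∀ f : ℝ → L, (∀ t ∈ Icc α β, ∀ t' ∈ Icc α β, t ≤ t' → f t ≤ f t') →
      ∀ x ∈ f '' Icc α β, ∀ x' ∈ f '' Icc α β, x ≤ x' ∨ x' ≤ x := by
    rintro f hf _ ⟨t, ht, rfl⟩ _ ⟨t', ht', rfl⟩
    rcases le_total t t' with h | h
    · exact Or.inl (hf t ht t' ht' h)
    · exact Or.inr (hf t' ht' t ht h)
  obtain ⟨Fz, hFzc, hFz⟩ := chain_card (hHt (z α)) (htot z hmonoz) (by
    rintro _ ⟨t, ht, rfl⟩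
    exact ⟨hmonoz α hαI t ht ht.1, hzα t ht⟩)
  obtain ⟨Fy, hFyc, hFy⟩ := chain_card (hHt (y α)) (htot y hmonoy) (by
    rintro _ ⟨t, ht, rfl⟩
    exact ⟨hmonoy α hαI t ht ht.1, hyα t ht⟩)
  have hyz1 : ∀ t, y t ≤ sh 1 (z t) := by
    intro t
    have h3 := (S t).top'_sh (ℓ t) 1
    rw [Int.cast_one] at h3
    rw [hz]
    simp only
    rw [← h3, (S t).le_top'_iff]
    have := (S t).s_top (ℓ t)
    linarith
  -- the cuts of a fibre
  have hclaim : ∀ v : L × L, ∃ Z : Finset ℝ, Z.card ≤ 2 + stripF (HasShift.d L) ∧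
      ∀ a b, α ≤ a → a < b → b ≤ β → (∀ z ∈ Z, z ∉ Ioo a b) →
        (∃ t ∈ Ioo a b, z t = v.1 ∧ y t = v.2) →
        ∃ P Q : L → ℝ, ∀ t ∈ Icc a b, ∀ x, (S t).s x = P x + t * Q x := by
    intro v
    set I : Set ℝ := {t | t ∈ Icc α β ∧ z t = v.1 ∧ y t = v.2} with hI
    have hIbb : BddBelow I := ⟨α, fun t ht => ht.1.1⟩
    have hIba : BddAbove I := ⟨β, fun t ht => ht.1.2⟩
    by_cases hIne : I.Nonempty
    swap
    · refine ⟨∅, Nat.zero_le _, fun a b ha hab hb _ ht => ?_⟩
      obtain ⟨t, ht, ht'⟩ := ht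
      exact absurd ⟨t, ⟨ha.trans ht.1.le, ht.2.le.trans hb⟩, ht'⟩ hIne
    have hαI : α ≤ sInf I := le_csInf hIne fun t ht => ht.1.1
    have hβI : sSup I ≤ β := csSup_le hIne fun t ht => ht.1.2
    have hcut : ∀ a b, α ≤ a → b ≤ β → sInf I ∉ Ioo a b → sSup I ∉ Ioo a b →
        (∃ t ∈ Ioo a b, z t = v.1 ∧ y t = v.2) → sInf I ≤ a ∧ b ≤ sSup I := by
      intro a b ha hb hi hs ht
      obtain ⟨t, ht, ht'⟩ := ht
      have htI : t ∈ I := ⟨⟨ha.trans ht.1.le, ht.2.le.trans hb⟩, ht'⟩
      have h3 := csInf_le hIbb htI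
      have h4 := le_csSup hIba htI
      constructor
      · by_contra hc
        push Not at hc
        exact hi ⟨hc, h3.trans_lt ht.2⟩
      · by_contra hc
        push Not at hc
        exact hs ⟨ht.1.trans_le h4, hc⟩
    have hfib : ∀ u ∈ Ioo (sInf I) (sSup I), u ∈ I := by
      intro u hu
      obtain ⟨t, ht, htu⟩ := exists_lt_of_csInf_lt hIne hu.1
      obtain ⟨t', ht', htu'⟩ := exists_lt_of_lt_csSup hIne hu.2
      have huI : u ∈ Icc α β := ⟨ht.1.1.trans htu.le, htu'.le.trans ht'.1.2⟩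
      refine ⟨huI, ?_, ?_⟩
      · refine le_antisymm ?_ ?_
        · rw [← ht'.2.1]; exact hmonoz u huI t' ht'.1 htu'.le
        · rw [← ht.2.1]; exact hmonoz t ht.1 u huI htu.le
      · refine le_antisymm ?_ ?_
        · rw [← ht'.2.2]; exact hmonoy u huI t' ht'.1 htu'.le
        · rw [← ht.2.2]; exact hmonoy t ht.1 u huI htu.le
    rcases lt_or_ge (sInf I) (sSup I) with hlt | hge'
    swap
    · refine ⟨{sInf I}, by rw [Finset.card_singleton]; omega, fun a b ha hab hb hZ ht => ?_⟩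
      obtain ⟨t, ht, ht'⟩ := ht
      have htI : t ∈ I := ⟨⟨ha.trans ht.1.le, ht.2.le.trans hb⟩, ht'⟩
      have h3 := csInf_le hIbb htI
      have h4 := le_csSup hIba htI
      have h5 : t = sInf I := le_antisymm (h4.trans hge') h3
      exact absurd ht (h5 ▸ hZ _ (Finset.mem_singleton_self _))
    have hvv : v.1 ≤ v.2 ∧ v.2 ≤ sh 1 v.1 := by
      obtain ⟨t₀, ht₀⟩ := hIne
      rw [← ht₀.2.1, ← ht₀.2.2]
      exact ⟨hzy t₀, hyz1 t₀⟩
    obtain ⟨Z₂, hZ₂c, hZ₂⟩ := strip hS (HasShift.d L) v.2 (sh 1 v.1) (sInf I) (sSup I)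
      (h1.trans hαI) hlt (hβI.trans h2)
      (fun u hu => by
        have huI := hfib u hu
        constructor
        · rw [← huI.2.2]
          exact top_mem_carr _ _
        · rw [← huI.2.1]
          exact sh_mem_carr (top'_mem_carr _ _) 1)
      (fun k c' hc' h0 hk => hHt v.2 k c' hc' h0 (hk.trans (sh_le_sh.2 hvv.1)))
    refine ⟨{sInf I, sSup I} ∪ Z₂, ?_, fun a b ha hab hb hZ ht => ?_⟩
    · have h3 := Finset.card_union_le ({sInf I, sSup I} : Finset ℝ) Z₂
      have h5 := Finset.card_insert_le (sInf I) ({sSup I} : Finset ℝ)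
      rw [Finset.card_singleton] at h5
      omega
    · obtain ⟨h3, h4⟩ := hcut a b ha hb (hZ _ (by simp)) (hZ _ (by simp)) ht
      obtain ⟨P₂, Q₂, hPQ₂⟩ := hZ₂ a b h3 hab h4 fun w hw => hZ w (by simp [hw])
      -- the representative of `x` in the strip
      set r : L → L := fun x => sh (-(pv v.1 x - 1)) x with hr
      have hr1 : ∀ x, r x ≤ sh 1 v.1 := by
        intro x
        have h5 := le_sh_pv v.1 x
        rw [hr]
        simp only
        rw [← le_sh_iff, ← sh_add]
        have : pv v.1 x - 1 + 1 = pv v.1 x := by ring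
        rw [this]
        exact h5
      have hr2 : ∀ x, ¬ r x ≤ v.1 := by
        intro x h5
        rw [hr] at h5
        simp only at h5
        rw [← le_sh_iff, ← pv_le_iff] at h5
        omega
      have hr3 : ∀ (x : L) (t : ℝ), (S t).s x = (S t).s (r x) + ((pv v.1 x : ℝ) - 1) := by
        intro x t
        rw [hr]
        simp only
        rw [(S t).s_sh]
        push_cast
        ring
      refine ⟨fun x => (if r x ≤ v.2 then c else P₂ (r x)) + ((pv v.1 x : ℝ) - 1),
        fun x => if r x ≤ v.2 then Λ else Q₂ (r x), fun t ht x => ?_⟩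
      rw [hr3 x t]
      by_cases hx2 : r x ≤ v.2
      · simp only [hx2, if_true]
        have h5 : (S t).s (r x) = c + t * Λ := by
          refine eq_of_Ioo hab (f := fun t => (S t).s (r x)) (fun s hs t ht => ?_)
            (fun u hu => ?_) t ht
          · refine (abs_le_dist (S s) (S t) _).trans (hS.lip s ?_ t ?_)
            · exact ⟨h1.trans (ha.trans hs.1), hs.2.trans (hb.trans h2)⟩
            · exact ⟨h1.trans (ha.trans ht.1), ht.2.trans (hb.trans h2)⟩
          · have huI := hfib u ⟨h3.trans_lt hu.1, hu.2.trans_le h4⟩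
            refine le_antisymm ?_ ?_
            · rw [← huI.2.2] at hx2
              exact (S u).le_top_iff.1 hx2
            · have h6 := hr2 x
              rw [← huI.2.1] at h6
              rw [(S u).le_top'_iff] at h6
              push Not at h6
              exact h6
        rw [h5]
        ring
      · simp only [hx2, if_false]
        rw [hPQ₂ t ht (r x) (hr1 x) hx2]
        ring
  choose Zv hZvc hZv using hclaim
  refine ⟨(Fz ×ˢ Fy).biUnion Zv, ?_, fun a b ha hab hb hZ => ?_⟩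
  · refine Finset.card_biUnion_le.trans ?_
    calc ∑ v ∈ Fz ×ˢ Fy, (Zv v).card ≤ ∑ _v ∈ Fz ×ˢ Fy, (2 + stripF (HasShift.d L)) :=
          Finset.sum_le_sum fun v _ => hZvc v
      _ = (Fz.card * Fy.card) * (2 + stripF (HasShift.d L)) := by
          rw [Finset.sum_const, Finset.card_product, smul_eq_mul]
      _ ≤ topF (HasShift.d L) := by
          unfold topF
          refine Nat.mul_le_mul_right _ ?_
          rw [pow_two]
          exact Nat.mul_le_mul hFzc hFyc
  · have hm : (a + b) / 2 ∈ Ioo a b := ⟨by linarith, by linarith⟩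
    have hmI : (a + b) / 2 ∈ Icc α β := ⟨ha.trans hm.1.le, hm.2.le.trans hb⟩
    refine hZv (z ((a + b) / 2), y ((a + b) / 2)) a b ha hab hb (fun w hw => hZ w ?_)
      ⟨_, hm, rfl, rfl⟩
    rw [Finset.mem_biUnion]
    exact ⟨_, Finset.mem_product.2 ⟨hFz ⟨_, hmI, rfl⟩, hFy ⟨_, hmI, rfl⟩⟩, hw⟩

/-! ### geodesic segments -/

/-- a segment is the geodesic between its ends -/
theorem GeoSeg.eq_geo {γ : ℝ → Pt L} {a b : ℝ} (h : GeoSeg γ a b) (hab : a < b) {τ : ℝ}
    (hτ : τ ∈ Icc (0 : ℝ) 1) : γ ((1 - τ) * a + τ * b) = geo (γ a) (γ b) τ := by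
  have hmem : ∀ t ∈ Icc (0 : ℝ) 1, (1 - t) * a + t * b ∈ Icc a b := by
    intro t ht
    constructor
    · nlinarith [ht.1]
    · nlinarith [ht.2]
  ext x
  refine le_antisymm ?_ ?_
  · have h1 := geo_max (p := γ a) (q := γ b) (h.fam.reparam hmem) (a := 0) (b := 0)
      (fun y => by simp) (fun y => by simp) hτ x
    simpa using h1
  · -- the geodesic as a family on `[a, b]`
    have hba : 0 < b - a := by linarith
    set f : ℝ → L → ℝ := fun t x => (geo (γ a) (γ b) ((t - a) / (b - a))).s x with hf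
    have hmem' : ∀ t ∈ Icc a b, (t - a) / (b - a) ∈ Icc (0 : ℝ) 1 := by
      intro t ht
      constructor
      · exact div_nonneg (by linarith [ht.1]) hba.le
      · rw [div_le_one hba]
        linarith [ht.2]
    have hfam : Fam a b f := by
      refine ⟨fun y => ⟨convex_Icc a b, fun s hs t ht c d hc hd hcd => ?_⟩, fun t ht y z => ?_⟩
      · have h1 := ((fam_geo (γ a) (γ b)).conv y).2 (hmem' s hs) (hmem' t ht) hc hd hcd
        have h2 : c • ((s - a) / (b - a)) + d • ((t - a) / (b - a)) =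
            (c • s + d • t - a) / (b - a) := by
          simp only [smul_eq_mul]
          have : d = 1 - c := by linarith
          subst this
          field_simp
          ring
        rw [h2] at h1
        exact h1
      · exact (geo (γ a) (γ b) _).sup y z
    have h1 := h.great f a b le_rfl hab.le le_rfl hfam 0
      (fun y => by simp [hf, geo_zero]) (fun y => by
        simp only [hf]
        rw [div_self hba.ne', geo_one]
        simp) ((1 - τ) * a + τ * b) (hmem τ hτ) x
    have h2 : ((1 - τ) * a + τ * b - a) / (b - a) = τ := by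
      field_simp
      ring
    simp only [hf] at h1
    rw [h2, add_zero] at h1
    exact h1

theorem GeoSeg.traj {γ : ℝ → Pt L} {a b : ℝ} (h : GeoSeg γ a b) (hab : a < b) : Traj γ a b := by
  have hba : 0 < b - a := by linarith
  have heq : ∀ t ∈ Icc a b, γ t = geo (γ a) (γ b) ((t - a) / (b - a)) := by
    intro t ht
    rw [← h.eq_geo hab (τ := (t - a) / (b - a)) ⟨div_nonneg (by linarith [ht.1]) hba.le, by
      rw [div_le_one hba]; linarith [ht.2]⟩]
    congr 1
    field_simp
    ring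
  refine ⟨h.fam.conv, fun g => ⟨convex_Icc a b, fun s hs t ht c d hc hd hcd => ?_⟩,
    fun s hs t ht => (h.dist_eq s hs t ht).le, fun t ht => ?_⟩
  · have hmem' : ∀ t ∈ Icc a b, (t - a) / (b - a) ∈ Icc (0 : ℝ) 1 := by
      intro t ht
      constructor
      · exact div_nonneg (by linarith [ht.1]) hba.le
      · rw [div_le_one hba]
        linarith [ht.2]
    have h1 := (kap_concave (γ a) (γ b) g).2 (hmem' s hs) (hmem' t ht) hc hd hcd
    have h2 : c • ((s - a) / (b - a)) + d • ((t - a) / (b - a)) =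
        (c • s + d • t - a) / (b - a) := by
      simp only [smul_eq_mul]
      have : d = 1 - c := by linarith
      subst this
      field_simp
      ring
    rw [h2] at h1
    beta_reduce at h1
    rw [← heq s hs, ← heq t ht, ← heq _ (convex_Icc a b hs ht hc hd hcd)] at h1
    exact h1
  · have hτ : (t - a) / (b - a) ∈ Ioc (0 : ℝ) 1 := by
      constructor
      · exact div_pos (by linarith [ht.1]) hba
      · rw [div_le_one hba]
        linarith [ht.2]
    obtain ⟨ε, hε, hε1, P, Q, hPQ⟩ := germL (γ a) (γ b) _ hτ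
    refine ⟨ε * (b - a), by positivity, ?_, fun x => P x - a / (b - a) * Q x,
      fun x => Q x / (b - a), fun u hu x => ?_⟩
    · have h1 : ε ≤ (t - a) / (b - a) := by linarith
      rw [le_div_iff₀ hba] at h1
      linarith
    · have hε2 : ε * (b - a) ≤ t - a := by
        have h1 : ε ≤ (t - a) / (b - a) := by linarith
        rwa [le_div_iff₀ hba] at h1
      have huI : u ∈ Icc a b := ⟨by linarith [hu.1], hu.2.trans ht.2⟩
      have h1 := hPQ ((u - a) / (b - a)) ⟨by
        have h3 := hu.1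
        rw [le_div_iff₀ hba]
        have h4 : ((t - a) / (b - a) - ε) * (b - a) = (t - a) - ε * (b - a) := by
          field_simp
        rw [h4]
        linarith, by
        have h3 := hu.2
        gcongr⟩ x
      rw [heq u huI, h1]
      field_simp
      ring

theorem exists_breaks : ∃ M : ℕ, ∀ (γ : ℝ → Pt L) (a b : ℝ), GeoSeg γ a b → b - a ≤ 1 / 2 →
    ∃ Z : Finset ℝ, Z.card ≤ M ∧ ∀ a' b', a ≤ a' → a' ≤ b' → b' ≤ b →
      (∀ z ∈ Z, z ∉ Ioo a' b') → AffOn (fun s => (γ s).s) a' b' := by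
  refine ⟨topF (HasShift.d L), fun γ a b h hlen => ?_⟩
  have hpt : ∀ a', AffOn (fun s => (γ s).s) a' a' := fun a' =>
    ⟨(γ a').s, fun _ => 0, fun s hs x => by
      have : s = a' := le_antisymm hs.2 hs.1
      subst this
      simp⟩
  rcases lt_or_ge a b with hab | hab
  · obtain ⟨Z, hZc, hZ⟩ := count (h.traj hab) le_rfl hab le_rfl hlen
    refine ⟨Z, hZc, fun a' b' h1 h2 h3 hz => ?_⟩
    rcases h2.eq_or_lt with h4 | h4
    · subst h4
      exact hpt a'
    · exact hZ a' b' h1 h4 h3 hz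
  · refine ⟨∅, Nat.zero_le _, fun a' b' h1 h2 h3 _ => ?_⟩
    have : b' = a' := le_antisymm (h3.trans (hab.trans h1)) h2
    subst this
    exact hpt b'

end

end Pool.Agent.LSH
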