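import Pool.Agent.Lib.LSH.Cells
import Pool.Agent.Lib.LSH.Conc
import Pool.Agent.Lib.MP_98022b_td.EucDefs
import Pool.Agent.Lib.MP_98022b_gln.GeoIface
import Pool.Agent.Lib.MP_98022b_nd.Tail

/-!
# Semilattices with a shift: coordinates and windows (definitions)
-/

set_option autoImplicit false

open Set

open scoped Pointwise

namespace Pool.Agent.LSH

open Pool.Agent.TD Pool.Agent.ND

section
variable {L : Type} [SemilatticeSup L] [HasShift L]

/-- the barycentric coordinates: the length of the set of the `r ∈ [0, 1)` for which `v` is the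
greatest element with `p.s v ≤ r` -/
noncomputable def co (p : Pt L) (v : L) : ℝ := max 0 (min (kap v p) 1 - max (p.s v) 0)

/-- geodesic segments: unit speed, a convex family, the greatest one -/
structure GeoSeg (γ : ℝ → Pt L) (a b : ℝ) : Prop where
  dist_eq : ∀ s ∈ Icc a b, ∀ s' ∈ Icc a b, dist (γ s) (γ s') = |s - s'|
  fam : Fam a b (fun t x => (γ t).s x)
  great : ∀ (k : ℝ → L → ℝ) (a' b' : ℝ), a ≤ a' → a' ≤ b' → b' ≤ b → Fam a' b' k → ∀ e : ℝ,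
    (∀ x, k a' x ≤ (γ a').s x + e) → (∀ x, k b' x ≤ (γ b').s x + e) →
    ∀ t ∈ Icc a' b', ∀ x, k t x ≤ (γ t).s x + e

/-- a window of a geodesic with `P` pieces; the cells are numbered such that
`0 ≤ (γ 0).s (e 0) < 1` -/
structure LWin (L : Type) [SemilatticeSup L] [HasShift L] (P : ℕ) (T : ℝ) where
  γ : ℝ → Pt L
  t : ℕ → ℝ
  C : ℕ → Cell L
  seg : GeoSeg γ 0 T
  mono : ∀ i < P, t i ≤ t (i + 1)
  t0 : t 0 = 0
  tP : t P = T
  inCell : ∀ i < P, ∀ s ∈ Icc (t i) (t (i + 1)), InCell (C i) (γ s)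
  norm : ∀ i < P, 0 ≤ (γ 0).s ((C i).e 0) ∧ (γ 0).s ((C i).e 0) < 1
  affS : ∀ i < P, AffOn (fun s => (γ s).s) (t i) (t (i + 1))
  affCo : ∀ i < P, AffOn (fun s => co (γ s)) (t i) (t (i + 1))

/-- `w'` has the same type as `w`, and the ends have almost the same values -/
structure Same {P : ℕ} {T : ℝ} (R : ℕ) (w w' : LWin L P T) : Prop where
  rel : ∀ i < P, ∀ j < P, ∀ u v : ℤ, (∃ x, (w.C i).idx x = u ∧ (w.C j).idx x = v) ↔
    ∃ x, (w'.C i).idx x = u ∧ (w'.C j).idx x = v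
  zero : ∀ z : ℤ, |(w.γ 0).s ((w.C 0).e z) - (w'.γ 0).s ((w'.C 0).e z)| ≤ 1 / R
  one : ∀ z : ℤ, |(w.γ T).s ((w.C (P - 1)).e z) - (w'.γ T).s ((w'.C (P - 1)).e z)| ≤ 1 / R

/-- the values of `p` and `p'` are close -/
def Near (e : ℝ) (p p' : Pt L) : Prop :=
  (∀ x, ∃ x', |p.s x - p'.s x'| ≤ e) ∧ ∀ x', ∃ x, |p.s x - p'.s x'| ≤ e

end

/-! ### spaces with coordinates (generic) -/

/-- barycentric coordinates on a set: each `co x` is a probability measure on `V` with at most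
`d + 1` atoms -/
def Coord {X V : Type} (d : ℕ) (co : X → V → ℝ) : Prop :=
  ∀ x, ∃ s : Finset V, s.card ≤ d + 1 ∧ IsPt s (co x) ∧ ∀ v, 0 < co x v ↔ v ∈ s

/-- windows of geodesics with `P` pieces on which the coordinates are affine -/
structure CWin {X V : Type} [MetricSpace X] (co : X → V → ℝ) (P : ℕ) (T : ℝ) where
  γ : ℝ → X
  t : ℕ → ℝ
  geod : ∀ s ∈ Icc 0 T, ∀ s' ∈ Icc 0 T, dist (γ s) (γ s') = |s - s'|
  mono : ∀ i < P, t i ≤ t (i + 1)
  t0 : t 0 = 0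
  tP : t P = T
  aff : ∀ i < P, AffOn (fun s => co (γ s)) (t i) (t (i + 1))

/-- few pieces: a window of length `≤ n` has at most `M (n + 1)` pieces -/
def FewWinC {X V : Type} [MetricSpace X] (co : X → V → ℝ) (geo : X → X → ℝ → X) (M : ℕ) : Prop :=
  ∀ (x y : X) (n : ℕ) (a b : ℝ), 0 ≤ a → a ≤ b → b ≤ dist x y → b - a ≤ n →
    ∃ w : CWin co (M * (n + 1)) (b - a), ∀ s, w.γ s = Pool.Agent.GLN.endPt geo x y (a + s)

/-- few classes of windows, the windows of a class have close tail sums -/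
def FewClsC {X V : Type} [MetricSpace X] (co : X → V → ℝ) (geo : X → X → ℝ → X) (d M C : ℕ) :
    Prop :=
  ∀ n R : ℕ, 2 ≤ n → 0 < R → ∃ (Cl : Type) (_ : Fintype Cl)
    (cls : {p : X × X // 5 * (n : ℝ) ≤ dist p.1 p.2} → Cl),
    Fintype.card Cl ≤ 2 ^ (C * (M * (5 * n + 1)) ^ 3) * (R + 1) ^ (2 * (d + 1)) ∧
    ∀ ω ω', cls ω = cls ω' → ∀ k : ℕ, k ≤ d → ∀ s ∈ Icc (0 : ℝ) (5 * n),
      |tail k (co (Pool.Agent.GLN.endPt geo ω.1.1 ω.1.2 s)) -
        tail k (co (Pool.Agent.GLN.endPt geo ω'.1.1 ω'.1.2 s))| ≤ C / R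

end Pool.Agent.LSH
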