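import Mathlib
import Pool.Agent.Lib.LSH.Iface

/-!
# Semilattices with a shift: the number of types of windows

Row R7.  The type of a window is given by the lengths of the cells, the relations between the
indices (up to the shift the indices are bounded) and the rounded values at the ends.
-/

set_option autoImplicit false

open Set

namespace Pool.Agent.LSH

open Pool.Agent.TD Pool.Agent.ND

section
variable {L : Type} [SemilatticeSup L] [HasShift L]

/-! ### values in a cell -/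

theorem Cell.s_add (C : Cell L) (p : Pt L) (z k : ℤ) :
    p.s (C.e (z + k * C.n)) = p.s (C.e z) + k := by
  rw [C.per_mul, p.s_sh]

theorem Cell.s_lower (C : Cell L) (p : Pt L) {z k : ℤ} (h : k * C.n ≤ z) :
    p.s (C.e 0) + k ≤ p.s (C.e z) := by
  rw [← C.s_add]
  exact p.mono (C.mono.monotone (by omega))

theorem Cell.s_upper (C : Cell L) (p : Pt L) {z k : ℤ} (h : z ≤ k * C.n) :
    p.s (C.e z) ≤ p.s (C.e 0) + k := by
  rw [← C.s_add]
  exact p.mono (C.mono.monotone (by omega))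

namespace LWin

variable {P : ℕ} {T : ℝ} (w : LWin L P T)

theorem t_mono {i j : ℕ} (hij : i ≤ j) (hj : j ≤ P) : w.t i ≤ w.t j := by
  induction j, hij using Nat.le_induction with
  | base => exact le_rfl
  | succ j hij ih => exact (ih (by omega)).trans (w.mono j (by omega))

theorem t_mem {i : ℕ} (hi : i ≤ P) : w.t i ∈ Icc 0 T := by
  constructor
  · rw [← w.t0]
    exact w.t_mono (Nat.zero_le _) hi
  · exact (w.t_mono hi le_rfl).trans_eq w.tP

theorem near {s s' : ℝ} (hs : s ∈ Icc 0 T) (hs' : s' ∈ Icc 0 T) (x : L) :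
    |(w.γ s).s x - (w.γ s').s x| ≤ T := by
  refine (abs_le_dist _ _ x).trans ?_
  rw [w.seg.dist_eq s hs s' hs', abs_le]
  constructor
  · linarith [hs.1, hs'.2]
  · linarith [hs.2, hs'.1]

theorem val0 {i : ℕ} (hi : i < P) {s : ℝ} (hs : s ∈ Icc 0 T) :
    -T ≤ (w.γ s).s ((w.C i).e 0) ∧ (w.γ s).s ((w.C i).e 0) ≤ 1 + T := by
  have hT : 0 ≤ T := hs.1.trans hs.2
  have h1 := abs_le.1 (w.near hs ⟨le_rfl, hT⟩ ((w.C i).e 0))
  have h2 := w.norm i hi
  constructor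
  · linarith [h1.1, h2.1]
  · linarith [h1.2, h2.2]

theorem val {i : ℕ} (hi : i < P) (x : L) :
    (w.γ (w.t i)).s x = (w.γ (w.t i)).s ((w.C i).e ((w.C i).idx x)) :=
  w.inCell i hi _ ⟨le_rfl, w.mono i hi⟩ x

theorem idx_bound (hT : T ≤ P) {i j : ℕ} (hi : i < P) (hj : j < P) {x : L}
    (h0 : 0 ≤ (w.C i).idx x) (h1 : (w.C i).idx x ≤ (w.C i).n) :
    |(w.C j).idx x| ≤ ((3 * P + 3) * HasShift.d L : ℕ) := by
  have hti := w.t_mem hi.le
  have htj := w.t_mem hj.le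
  have e1 := (w.C i).s_lower (w.γ (w.t i)) (z := (w.C i).idx x) (k := 0) (by rwa [zero_mul])
  have e2 := (w.C i).s_upper (w.γ (w.t i)) (z := (w.C i).idx x) (k := 1) (by rwa [one_mul])
  rw [← w.val hi] at e1 e2
  push_cast at e1 e2
  have e3 := w.val0 hi hti
  have e4 := abs_le.1 (w.near hti htj x)
  have e5 := w.val0 hj htj
  have e6 := w.val hj x
  have hn : ((w.C j).n : ℤ) ≤ HasShift.d L := by exact_mod_cast (w.C j).n_le
  have hn0 : (0 : ℤ) < (w.C j).n := by exact_mod_cast (w.C j).pos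
  have hk : ((3 * P + 3 : ℕ) : ℤ) * (w.C j).n ≤ ((3 * P + 3) * HasShift.d L : ℕ) := by
    push_cast
    exact mul_le_mul_of_nonneg_left hn (by positivity)
  rw [abs_le]
  constructor
  · by_contra hlt
    push Not at hlt
    have h2 := (w.C j).s_upper (w.γ (w.t j)) (z := (w.C j).idx x) (k := -((3 * P + 3 : ℕ) : ℤ))
      (by linarith)
    rw [← e6] at h2
    push_cast at h2
    linarith [e1, e3.1, e4.2, e5.2]
  · by_contra hlt
    push Not at hlt
    have h2 := (w.C j).s_lower (w.γ (w.t j)) (z := (w.C j).idx x) (k := ((3 * P + 3 : ℕ) : ℤ))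
      (by linarith)
    rw [← e6] at h2
    push_cast at h2
    linarith [e2, e3.2, e4.1, e5.1]

end LWin

/-! ### rounding -/

/-- the rounded value -/
noncomputable def rnd (R P : ℕ) (y : ℝ) : ℕ := ⌊(R : ℝ) * (y + P)⌋₊

theorem rnd_eq {R P : ℕ} (hR : 0 < R) {y y' : ℝ} (hy : 0 ≤ y + P) (hy' : 0 ≤ y' + P)
    (h : rnd R P y = rnd R P y') : |y - y'| ≤ 1 / R := by
  have hR' : (0 : ℝ) < R := by exact_mod_cast hR
  unfold rnd at h
  have h1 := Nat.floor_le (mul_nonneg hR'.le hy)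
  have h2 := Nat.lt_floor_add_one ((R : ℝ) * (y + P))
  have h3 := Nat.floor_le (mul_nonneg hR'.le hy')
  have h4 := Nat.lt_floor_add_one ((R : ℝ) * (y' + P))
  rw [h] at h1 h2
  rw [abs_le]
  constructor
  · have h5 : -1 ≤ (R : ℝ) * (y - y') := by linarith
    have h6 : -(1 / (R : ℝ)) = -1 / R := by ring
    rw [h6, div_le_iff₀ hR']
    linarith
  · rw [le_div_iff₀ hR']
    linarith

theorem rnd_le {R P N : ℕ} {y : ℝ} (hy : y + P ≤ N) : rnd R P y ≤ R * N := by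
  unfold rnd
  refine Nat.floor_le_of_le ?_
  push_cast
  exact mul_le_mul_of_nonneg_left hy (Nat.cast_nonneg _)

/-- values of two windows agree up to `1 / R` if they agree on a period -/
theorem close_of_period {C C' : Cell L} {p p' : Pt L} {e : ℝ} (hn : C.n = C'.n)
    (h : ∀ r : ℕ, r < C.n → |p.s (C.e r) - p'.s (C'.e r)| ≤ e) (z : ℤ) :
    |p.s (C.e z) - p'.s (C'.e z)| ≤ e := by
  have hn0 : (0 : ℤ) < C.n := by exact_mod_cast C.pos
  have h1 := Int.emod_nonneg z hn0.ne'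
  have h2 := Int.emod_lt_of_pos z hn0
  have h3 := Int.emod_add_mul_ediv z C.n
  have h4 : z = z % C.n + (z / C.n) * C.n := by
    rw [mul_comm (z / (C.n : ℤ))]
    exact h3.symm
  have h5 : (((z % C.n).toNat : ℕ) : ℤ) = z % C.n := Int.toNat_of_nonneg h1
  have h6 := h (z % C.n).toNat (by omega)
  rw [h5] at h6
  have e1 : p.s (C.e z) = p.s (C.e (z % C.n)) + ((z / C.n : ℤ) : ℝ) := by
    conv_lhs => rw [h4]
    exact C.s_add p _ _
  have e2 : p'.s (C'.e z) = p'.s (C'.e (z % C.n)) + ((z / C.n : ℤ) : ℝ) := by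
    conv_lhs => rw [h4]
    conv_lhs => rw [hn]
    rw [C'.s_add p', ← hn]
  rw [e1, e2]
  have e3 : p.s (C.e (z % C.n)) + ((z / C.n : ℤ) : ℝ) - (p'.s (C'.e (z % C.n)) +
      ((z / C.n : ℤ) : ℝ)) = p.s (C.e (z % C.n)) - p'.s (C'.e (z % C.n)) := by ring
  rw [e3]
  exact h6

/-! ### the classes -/

/-- the type of the classes -/
abbrev ClT (D B P N : ℕ) : Type :=
  (Fin P → Fin (D + 1)) × (Fin P → Fin P → Fin (D + 1) → Fin (2 * B + 1) → Bool) ×
    (Fin (D + 1) → Fin (N + 1)) × (Fin (D + 1) → Fin (N + 1))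

open Classical in
/-- the class of a window -/
noncomputable def clsW {P : ℕ} {T : ℝ} (R B N : ℕ) (w : LWin L P T) :
    ClT (HasShift.d L) B P N :=
  (fun i => ⟨(w.C i).n, Nat.lt_succ_of_le (w.C i).n_le⟩,
    fun i j u v => decide (∃ x, (w.C i).idx x = (u : ℕ) ∧ (w.C j).idx x = ((v : ℕ) : ℤ) - B),
    fun z => ⟨min (rnd R P ((w.γ 0).s ((w.C 0).e (z : ℕ)))) N,
      Nat.lt_succ_of_le (min_le_right _ _)⟩,
    fun z => ⟨min (rnd R P ((w.γ T).s ((w.C (P - 1)).e (z : ℕ)))) N,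
      Nat.lt_succ_of_le (min_le_right _ _)⟩)

/-- one half of the relations -/
theorem rel_of_cls {P : ℕ} {T : ℝ} (hT : T ≤ P) {R N : ℕ} {w w' : LWin L P T}
    (h : clsW R ((3 * P + 3) * HasShift.d L) N w = clsW R ((3 * P + 3) * HasShift.d L) N w')
    {i j : ℕ} (hi : i < P) (hj : j < P) {u v : ℤ}
    (hx : ∃ x, (w.C i).idx x = u ∧ (w.C j).idx x = v) :
    ∃ x, (w'.C i).idx x = u ∧ (w'.C j).idx x = v := by
  classical
  obtain ⟨x, hu, hv⟩ := hx
  have hn : ∀ i, i < P → (w.C i).n = (w'.C i).n := fun i hi =>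
    congrArg Fin.val (congrFun (congrArg Prod.fst h) ⟨i, hi⟩)
  have hn0 : (0 : ℤ) < (w.C i).n := by exact_mod_cast (w.C i).pos
  set k : ℤ := u / (w.C i).n with hk
  have h1 := Int.emod_nonneg u hn0.ne'
  have h2 := Int.emod_lt_of_pos u hn0
  have h3 := Int.emod_add_mul_ediv u (w.C i).n
  -- shift to the first period
  set y := sh (-k) x with hy
  have hyi : (w.C i).idx y = u % (w.C i).n := by
    rw [hy, Cell.idx_sh, hu]
    rw [← hk] at h3
    linarith [mul_comm k ((w.C i).n : ℤ)]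
  have hyj : (w.C j).idx y = v - k * (w.C j).n := by
    rw [hy, Cell.idx_sh, hv]
    ring
  have hb := w.idx_bound hT hi hj (x := y) (by rw [hyi]; exact h1) (by rw [hyi]; exact h2.le)
  have hb' := abs_le.1 hb
  set B : ℕ := (3 * P + 3) * HasShift.d L with hB
  have hnd : (w.C i).n ≤ HasShift.d L := (w.C i).n_le
  have hut : (((u % (w.C i).n).toNat : ℕ) : ℤ) = u % (w.C i).n := Int.toNat_of_nonneg h1
  have hvt : ((((w.C j).idx y + B).toNat : ℕ) : ℤ) = (w.C j).idx y + B :=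
    Int.toNat_of_nonneg (by omega)
  have h4 := congrFun (congrFun (congrFun (congrFun (congrArg (fun c => c.2.1) h) ⟨i, hi⟩) ⟨j, hj⟩)
    ⟨(u % (w.C i).n).toNat, by omega⟩) ⟨((w.C j).idx y + B).toNat, by omega⟩
  have h5 : (∃ x, (w.C i).idx x = (((u % (w.C i).n).toNat : ℕ) : ℤ) ∧
      (w.C j).idx x = ((((w.C j).idx y + B).toNat : ℕ) : ℤ) - B) ↔
      ∃ x, (w'.C i).idx x = (((u % (w.C i).n).toNat : ℕ) : ℤ) ∧
      (w'.C j).idx x = ((((w.C j).idx y + B).toNat : ℕ) : ℤ) - B := by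
    exact decide_eq_decide.1 h4
  obtain ⟨x', hx1, hx2⟩ := h5.1 ⟨y, by rw [hut, hyi], by rw [hvt]; ring⟩
  rw [hut] at hx1
  rw [hvt, add_sub_cancel_right, hyj] at hx2
  refine ⟨sh k x', ?_, ?_⟩
  · rw [Cell.idx_sh, hx1, ← hn i hi]
    linarith [mul_comm k ((w.C i).n : ℤ)]
  · rw [Cell.idx_sh, hx2, ← hn j hj]
    ring

theorem same_of_cls {P : ℕ} {T : ℝ} (hP : 0 < P) (hT0 : 0 ≤ T) (hT : T ≤ P) {R : ℕ} (hR : 0 < R)
    {w w' : LWin L P T}
    (h : clsW R ((3 * P + 3) * HasShift.d L) (R * (2 * P + HasShift.d L + 1)) w =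
      clsW R ((3 * P + 3) * HasShift.d L) (R * (2 * P + HasShift.d L + 1)) w') : Same R w w' := by
  have hn : ∀ i, i < P → (w.C i).n = (w'.C i).n := fun i hi =>
    congrArg Fin.val (congrFun (congrArg Prod.fst h) ⟨i, hi⟩)
  -- the values on a period
  have hval : ∀ (w : LWin L P T) (i : ℕ), i < P → ∀ s ∈ Icc 0 T, ∀ r : ℕ, r < (w.C i).n →
      0 ≤ (w.γ s).s ((w.C i).e r) + P ∧
      (w.γ s).s ((w.C i).e r) + P ≤ ((2 * P + HasShift.d L + 1 : ℕ) : ℝ) := by
    intro w i hi s hs r hr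
    have e1 := w.val0 hi hs
    have e2 := (w.C i).s_lower (w.γ s) (z := (r : ℤ)) (k := 0) (by rw [zero_mul]; positivity)
    have e3 := (w.C i).s_upper (w.γ s) (z := (r : ℤ)) (k := 1) (by rw [one_mul]; exact_mod_cast hr.le)
    have e4 : 0 < HasShift.d L := (w.C i).pos.trans_le (w.C i).n_le
    have e5 : (1 : ℝ) ≤ HasShift.d L := by exact_mod_cast e4
    push_cast at e2 e3 ⊢
    constructor
    · linarith [e1.1]
    · linarith [e1.2]
  have hclose : ∀ (i : ℕ), i < P → ∀ s ∈ Icc 0 T,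
      (∀ r : Fin (HasShift.d L + 1), min (rnd R P ((w.γ s).s ((w.C i).e (r : ℕ))))
        (R * (2 * P + HasShift.d L + 1)) = min (rnd R P ((w'.γ s).s ((w'.C i).e (r : ℕ))))
        (R * (2 * P + HasShift.d L + 1))) → ∀ z : ℤ,
      |(w.γ s).s ((w.C i).e z) - (w'.γ s).s ((w'.C i).e z)| ≤ 1 / R := by
    intro i hi s hs hr z
    refine close_of_period (hn i hi) (fun r hrn => ?_) z
    have h1 := hr ⟨r, Nat.lt_succ_of_le (hrn.le.trans (w.C i).n_le)⟩
    have h2 := hval w i hi s hs r hrn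
    have h3 := hval w' i hi s hs r (by rw [← hn i hi]; exact hrn)
    rw [min_eq_left (rnd_le h2.2), min_eq_left (rnd_le h3.2)] at h1
    exact rnd_eq hR h2.1 h3.1 h1
  refine ⟨fun i hi j hj u v => ⟨rel_of_cls hT h hi hj, rel_of_cls hT h.symm hi hj⟩, ?_, ?_⟩
  · exact hclose 0 hP 0 ⟨le_rfl, hT0⟩ fun r =>
      congrArg Fin.val (congrFun (congrArg (fun c => c.2.2.1) h) r)
  · exact hclose (P - 1) (by omega) T ⟨hT0, le_rfl⟩ fun r =>
      congrArg Fin.val (congrFun (congrArg (fun c => c.2.2.2) h) r)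

/-! ### the number of classes -/

theorem card_ClT (D P R : ℕ) (hP : 0 < P) :
    Fintype.card (ClT D ((3 * P + 3) * D) P (R * (2 * P + D + 1))) ≤
      2 ^ (((D + 1) + (12 * D + 1) * (D + 1) + 2 * (D + 4) * (D + 1)) * P ^ 3) *
        (R + 1) ^ (2 * (D + 1)) := by
  have hP3 : P ≤ P ^ 3 := Nat.le_self_pow (by norm_num) P
  have hP1 : 1 ≤ P ^ 3 := Nat.one_le_pow _ _ hP
  have hc : Fintype.card (ClT D ((3 * P + 3) * D) P (R * (2 * P + D + 1))) =
      (D + 1) ^ P * (2 ^ ((2 * ((3 * P + 3) * D) + 1) * (D + 1) * P * P) *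
        ((R * (2 * P + D + 1) + 1) ^ (D + 1) * (R * (2 * P + D + 1) + 1) ^ (D + 1))) := by
    simp only [Fintype.card_prod, Fintype.card_fun, Fintype.card_fin, Fintype.card_bool, ← pow_mul]
  rw [hc]
  have h1 : (D + 1) ^ P ≤ 2 ^ ((D + 1) * P ^ 3) := by
    calc (D + 1) ^ P ≤ (2 ^ (D + 1)) ^ P := Nat.pow_le_pow_left (Nat.lt_two_pow_self).le P
      _ = 2 ^ ((D + 1) * P) := (pow_mul _ _ _).symm
      _ ≤ 2 ^ ((D + 1) * P ^ 3) := Nat.pow_le_pow_right (by norm_num) (Nat.mul_le_mul_left _ hP3)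
  have h2 : 2 ^ ((2 * ((3 * P + 3) * D) + 1) * (D + 1) * P * P) ≤
      2 ^ ((12 * D + 1) * (D + 1) * P ^ 3) := by
    refine Nat.pow_le_pow_right (by norm_num) ?_
    have e1 : 2 * ((3 * P + 3) * D) + 1 ≤ (12 * D + 1) * P := by nlinarith
    calc (2 * ((3 * P + 3) * D) + 1) * (D + 1) * P * P
        ≤ (12 * D + 1) * P * (D + 1) * P * P := by gcongr
      _ = (12 * D + 1) * (D + 1) * P ^ 3 := by ring
  have h3 : (R * (2 * P + D + 1) + 1) ^ (D + 1) * (R * (2 * P + D + 1) + 1) ^ (D + 1) ≤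
      2 ^ (2 * (D + 4) * (D + 1) * P ^ 3) * (R + 1) ^ (2 * (D + 1)) := by
    have e1 : R * (2 * P + D + 1) + 1 ≤ (R + 1) * (2 * P + D + 1) := by nlinarith
    have e2 : 2 * P + D + 1 ≤ 2 ^ ((D + 4) * P ^ 3) := by
      calc 2 * P + D + 1 ≤ (D + 3) * P := by nlinarith
        _ ≤ 2 ^ (D + 3) * 2 ^ P := Nat.mul_le_mul (Nat.lt_two_pow_self).le (Nat.lt_two_pow_self).le
        _ = 2 ^ (D + 3 + P) := (pow_add _ _ _).symm
        _ ≤ 2 ^ ((D + 4) * P ^ 3) := by
          refine Nat.pow_le_pow_right (by norm_num) ?_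
          nlinarith
    have e3 : R * (2 * P + D + 1) + 1 ≤ (R + 1) * 2 ^ ((D + 4) * P ^ 3) :=
      e1.trans (Nat.mul_le_mul_left _ e2)
    calc (R * (2 * P + D + 1) + 1) ^ (D + 1) * (R * (2 * P + D + 1) + 1) ^ (D + 1)
        = (R * (2 * P + D + 1) + 1) ^ (2 * (D + 1)) := by
          rw [← pow_add]
          congr 1
          ring
      _ ≤ ((R + 1) * 2 ^ ((D + 4) * P ^ 3)) ^ (2 * (D + 1)) := Nat.pow_le_pow_left e3 _
      _ = 2 ^ (2 * (D + 4) * (D + 1) * P ^ 3) * (R + 1) ^ (2 * (D + 1)) := by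
        rw [mul_pow, ← pow_mul, mul_comm]
        congr 2
        ring
  calc (D + 1) ^ P * (2 ^ ((2 * ((3 * P + 3) * D) + 1) * (D + 1) * P * P) *
        ((R * (2 * P + D + 1) + 1) ^ (D + 1) * (R * (2 * P + D + 1) + 1) ^ (D + 1)))
      ≤ 2 ^ ((D + 1) * P ^ 3) * (2 ^ ((12 * D + 1) * (D + 1) * P ^ 3) *
        (2 ^ (2 * (D + 4) * (D + 1) * P ^ 3) * (R + 1) ^ (2 * (D + 1)))) :=
        Nat.mul_le_mul h1 (Nat.mul_le_mul h2 h3)
    _ = 2 ^ (((D + 1) + (12 * D + 1) * (D + 1) + 2 * (D + 4) * (D + 1)) * P ^ 3) *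
        (R + 1) ^ (2 * (D + 1)) := by
      rw [← mul_assoc, ← mul_assoc, ← pow_add, ← pow_add]
      congr 2
      ring

end

/-- **the number of types of windows** -/
theorem win_classes (L : Type) [SemilatticeSup L] [HasShift L] :
    ∃ C : ℕ, ∀ (P R : ℕ) (T : ℝ), 0 < P → 0 < R → 0 ≤ T → T ≤ P →
    ∃ (Cl : Type) (_ : Fintype Cl) (cls : LWin L P T → Cl),
      Fintype.card Cl ≤ 2 ^ (C * P ^ 3) * (R + 1) ^ (2 * (HasShift.d L + 1)) ∧
      ∀ w w', cls w = cls w' → Same R w w' := by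
  refine ⟨_, fun P R T hP hR hT0 hT => ⟨_, inferInstance, clsW R ((3 * P + 3) * HasShift.d L)
    (R * (2 * P + HasShift.d L + 1)), card_ClT (HasShift.d L) P R hP, fun w w' h => ?_⟩⟩
  exact same_of_cls hP hT0 hT hR h

end Pool.Agent.LSH
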