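import Pool.Agent.Lib.LSH.Iface
import Pool.Agent.Lib.MP_98022b_cc.MidConvex
import Pool.Agent.Lib.MP_98022b_nd.Pcc

/-!
# Semilattices with a shift: windows of the same type are close
-/

set_option autoImplicit false
set_option linter.unusedSectionVars false

open Set Filter Topology

namespace Pool.Agent.LSH

open Pool.Agent.TD Pool.Agent.ND

/-- continuous functions which are locally convex are convex -/
theorem convexOn_of_local {f : ℝ → ℝ} {T : ℝ}
    (h : ∀ t ∈ Icc 0 T, ∃ ε > 0, ∃ g : ℝ → ℝ, ConvexOn ℝ (Icc 0 T) g ∧ ContinuousOn g (Icc 0 T) ∧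
      ∀ s ∈ Icc 0 T, |s - t| < ε → f s = g s) : ConvexOn ℝ (Icc 0 T) f := by
  have hcont : ContinuousOn f (Icc 0 T) := by
    intro t ht
    obtain ⟨ε, hε, g, -, hg, heq⟩ := h t ht
    refine (hg t ht).congr_of_eventuallyEq ?_ (heq t ht (by simpa using hε))
    have h1 : ∀ᶠ s in 𝓝[Icc 0 T] t, s ∈ Icc 0 T ∧ |s - t| < ε := by
      refine (eventually_mem_nhdsWithin).and ?_
      refine eventually_nhdsWithin_of_eventually_nhds ?_
      filter_upwards [Metric.ball_mem_nhds t hε] with b hb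
      rwa [Metric.mem_ball, Real.dist_eq] at hb
    filter_upwards [h1] with s hs
    exact heq s hs.1 hs.2
  refine ⟨convex_Icc 0 T, fun u hu v hv c d hc hd hcd => ?_⟩
  have hmem : ∀ τ ∈ Icc (0 : ℝ) 1, (1 - τ) * u + τ * v ∈ Icc 0 T := by
    intro τ hτ
    have := (convex_Icc (0 : ℝ) T) hu hv (by linarith [hτ.2] : (0 : ℝ) ≤ 1 - τ) hτ.1 (by ring)
    simpa only [smul_eq_mul] using this
  have h1 := Pool.Agent.CCC.le_of_midConvex (φ := fun τ => f ((1 - τ) * u + τ * v)) (by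
    refine hcont.comp ?_ fun τ hτ => hmem τ hτ
    fun_prop) (by
    intro τ hτ
    obtain ⟨ε, hε, g, hg, -, heq⟩ := h _ (hmem τ ⟨hτ.1.le, hτ.2.le⟩)
    have hD : 0 < |v - u| + 1 := by positivity
    refine ⟨min (ε / (|v - u| + 1)) (min τ (1 - τ)), lt_min (by positivity)
      (lt_min hτ.1 (by linarith [hτ.2])), fun η hη hη1 => ?_⟩
    have e1 : η < ε / (|v - u| + 1) := hη1.trans_le (min_le_left _ _)
    have e2 : η < τ := hη1.trans_le ((min_le_right _ _).trans (min_le_left _ _))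
    have e3 : η < 1 - τ := hη1.trans_le ((min_le_right _ _).trans (min_le_right _ _))
    rw [lt_div_iff₀ hD] at e1
    have hm1 : τ - η ∈ Icc (0 : ℝ) 1 := ⟨by linarith, by linarith⟩
    have hm2 : τ + η ∈ Icc (0 : ℝ) 1 := ⟨by linarith, by linarith⟩
    have hsmall : η * |v - u| < ε := by nlinarith [abs_nonneg (v - u)]
    have d1 : |(1 - (τ - η)) * u + (τ - η) * v - ((1 - τ) * u + τ * v)| < ε := by
      have : (1 - (τ - η)) * u + (τ - η) * v - ((1 - τ) * u + τ * v) = -(η * (v - u)) := by ring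
      rw [this, abs_neg, abs_mul, abs_of_pos hη]
      exact hsmall
    have d2 : |(1 - (τ + η)) * u + (τ + η) * v - ((1 - τ) * u + τ * v)| < ε := by
      have : (1 - (τ + η)) * u + (τ + η) * v - ((1 - τ) * u + τ * v) = η * (v - u) := by ring
      rw [this, abs_mul, abs_of_pos hη]
      exact hsmall
    have f0 := heq _ (hmem τ ⟨hτ.1.le, hτ.2.le⟩) (by simpa using hε)
    have f1 := heq _ (hmem _ hm1) d1
    have f2 := heq _ (hmem _ hm2) d2
    beta_reduce
    rw [f0, f1, f2]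
    have h2 := hg.2 (hmem _ hm1) (hmem _ hm2) (by norm_num : (0 : ℝ) ≤ 1 / 2)
      (by norm_num : (0 : ℝ) ≤ 1 / 2) (by norm_num)
    simp only [smul_eq_mul] at h2
    have h3 : 1 / 2 * ((1 - (τ - η)) * u + (τ - η) * v) + 1 / 2 * ((1 - (τ + η)) * u + (τ + η) * v)
        = (1 - τ) * u + τ * v := by ring
    rw [h3] at h2
    linarith) d ⟨hd, by linarith⟩
  beta_reduce at h1
  have h2 : 1 - d = c := by linarith
  rw [h2] at h1
  simp only [smul_eq_mul]
  have e0 : (1 - (0 : ℝ)) * u + 0 * v = u := by ring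
  have e1 : (1 - (1 : ℝ)) * u + 1 * v = v := by ring
  rw [e0, e1] at h1
  exact h1

/-- the pieces on the left -/
theorem exists_left {P : ℕ} {T : ℝ} {t : ℕ → ℝ} (hP : 0 < P) (h0 : t 0 = 0) (hT : t P = T)
    {x : ℝ} (hx : x ∈ Icc 0 T) : ∃ i < P, ∃ ε > 0, ∀ s ∈ Icc 0 T, x - ε < s → s ≤ x →
      s ∈ Icc (t i) (t (i + 1)) := by
  classical
  rcases hx.1.eq_or_lt with h | h
  · obtain ⟨i, hi, hx'⟩ := exists_piece h0 hT hP hx
    refine ⟨i, hi, 1, one_pos, fun s hs _ hsx => ?_⟩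
    have : s = x := le_antisymm hsx (h ▸ hs.1)
    rwa [this]
  · have hspec := Nat.findGreatest_spec (P := fun i => t i < x) (m := 0) (n := P - 1)
      (Nat.zero_le _) (by rw [h0]; exact h)
    set i := Nat.findGreatest (fun i => t i < x) (P - 1) with hi
    have hle : i ≤ P - 1 := Nat.findGreatest_le _
    have hup : x ≤ t (i + 1) := by
      rcases hle.eq_or_lt with h1 | h1
      · have : i + 1 = P := by omega
        rw [this, hT]
        exact hx.2
      · have := Nat.findGreatest_is_greatest (P := fun i => t i < x) (n := P - 1) (k := i + 1)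
          (by omega) (by omega)
        exact not_lt.1 this
    refine ⟨i, by omega, x - t i, by linarith, fun s _ h1 h2 => ⟨by linarith, h2.trans hup⟩⟩

/-- the pieces on the right -/
theorem exists_right {P : ℕ} {T : ℝ} {t : ℕ → ℝ} (hP : 0 < P) (h0 : t 0 = 0) (hT : t P = T)
    {x : ℝ} (hx : x ∈ Icc 0 T) : ∃ i < P, ∃ ε > 0, ∀ s ∈ Icc 0 T, x ≤ s → s < x + ε →
      s ∈ Icc (t i) (t (i + 1)) := by
  classical
  rcases hx.2.eq_or_lt with h | h
  · obtain ⟨i, hi, hx'⟩ := exists_piece h0 hT hP hx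
    refine ⟨i, hi, 1, one_pos, fun s hs hsx _ => ?_⟩
    have : s = x := le_antisymm (h ▸ hs.2) hsx
    rwa [this]
  · have hex : ∃ i, x < t (i + 1) := ⟨P - 1, by rw [Nat.sub_add_cancel hP, hT]; exact h⟩
    have hspec := Nat.find_spec hex
    have hle : Nat.find hex ≤ P - 1 := Nat.find_min' hex (by
      rw [Nat.sub_add_cancel hP, hT]; exact h)
    set i := Nat.find hex with hi
    have hlo : t i ≤ x := by
      rcases Nat.eq_zero_or_pos i with h1 | h1
      · rw [h1, h0]; exact hx.1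
      · have h2 := Nat.find_min hex (m := i - 1) (by omega)
        rw [Nat.sub_add_cancel h1] at h2
        exact not_lt.1 h2
    refine ⟨i, by omega, t (i + 1) - x, by linarith, fun s _ h1 h2 => ⟨hlo.trans h1, by linarith⟩⟩

section
variable {L : Type} [SemilatticeSup L] [HasShift L]

theorem Same.symm {P : ℕ} {T : ℝ} {R : ℕ} {w w' : LWin L P T} (h : Same R w w') : Same R w' w :=
  ⟨fun i hi j hj u v => (h.rel i hi j hj u v).symm,
    fun z => by rw [abs_sub_comm]; exact h.zero z, fun z => by rw [abs_sub_comm]; exact h.one z⟩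

/-- the transplant of the positions of `w'` to the labels of `w` -/
theorem Same.exists_trans {P : ℕ} {T : ℝ} {R : ℕ} {w w' : LWin L P T} (h : Same R w w')
    {i j : ℕ} (hi : i < P) (hj : j < P) (x : L) :
    ∃ x', ∀ k, (k = i ∨ k = j) → ∀ s ∈ Icc (w'.t k) (w'.t (k + 1)),
      (w'.γ s).s ((w'.C k).e ((w.C k).idx x)) = (w'.γ s).s x' := by
  obtain ⟨x', h1, h2⟩ := (h.rel i hi j hj _ _).1 ⟨x, rfl, rfl⟩
  refine ⟨x', ?_⟩
  rintro k (rfl | rfl) s hs
  · rw [← h1]
    exact (w'.inCell k hi s hs x').symm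
  · rw [← h2]
    exact (w'.inCell k hj s hs x').symm

theorem Same.indep {P : ℕ} {T : ℝ} {R : ℕ} {w w' : LWin L P T} (h : Same R w w')
    {i j : ℕ} (hi : i < P) (hj : j < P) (x : L) {s : ℝ} (hsi : s ∈ Icc (w'.t i) (w'.t (i + 1)))
    (hsj : s ∈ Icc (w'.t j) (w'.t (j + 1))) :
    (w'.γ s).s ((w'.C i).e ((w.C i).idx x)) = (w'.γ s).s ((w'.C j).e ((w.C j).idx x)) := by
  obtain ⟨x', hx'⟩ := h.exists_trans hi hj x
  rw [hx' i (Or.inl rfl) s hsi, hx' j (Or.inr rfl) s hsj]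

/-- the transplant is below `w` up to `1 / R` -/
theorem Same.le {P : ℕ} {T : ℝ} {R : ℕ} (hP : 0 < P) {w w' : LWin L P T} (h : Same R w w')
    {s : ℝ} (hs : s ∈ Icc 0 T) {j : ℕ} (hj : j < P) (hsj : s ∈ Icc (w'.t j) (w'.t (j + 1)))
    (x : L) : (w'.γ s).s ((w'.C j).e ((w.C j).idx x)) ≤ (w.γ s).s x + 1 / R := by
  classical
  have hT : (0 : ℝ) ≤ T := hs.1.trans hs.2
  set pc : ℝ → ℕ := fun t => if h : ∃ j < P, t ∈ Icc (w'.t j) (w'.t (j + 1)) then h.choose else 0
    with hpc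
  have hpc1 : ∀ t ∈ Icc 0 T, pc t < P ∧ t ∈ Icc (w'.t (pc t)) (w'.t (pc t + 1)) := by
    intro t ht
    have hex : ∃ j < P, t ∈ Icc (w'.t j) (w'.t (j + 1)) := exists_piece w'.t0 w'.tP hP ht
    simp only [hpc, dif_pos hex]
    exact hex.choose_spec
  set β : ℝ → L → ℝ := fun t x => (w'.γ t).s ((w'.C (pc t)).e ((w.C (pc t)).idx x)) with hβ
  have hβ1 : ∀ t ∈ Icc 0 T, ∀ j < P, t ∈ Icc (w'.t j) (w'.t (j + 1)) → ∀ x,
      β t x = (w'.γ t).s ((w'.C j).e ((w.C j).idx x)) := fun t ht j hj htj x =>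
    h.indep (hpc1 t ht).1 hj x (hpc1 t ht).2 htj
  have hfam : Fam 0 T β := by
    refine ⟨fun x => convexOn_of_local fun t ht => ?_, fun t ht x y => ?_⟩
    · obtain ⟨i, hi, ε, hε, hl⟩ := exists_left hP w'.t0 w'.tP ht
      obtain ⟨j, hj, ε', hε', hr⟩ := exists_right hP w'.t0 w'.tP ht
      obtain ⟨x', hx'⟩ := h.exists_trans hi hj x
      refine ⟨min ε ε', lt_min hε hε', fun s => (w'.γ s).s x', w'.seg.fam.conv x', ?_, ?_⟩
      · have : LipschitzOnWith 1 (fun s => (w'.γ s).s x') (Icc 0 T) := by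
          refine LipschitzOnWith.of_dist_le_mul fun a ha b hb => ?_
          rw [Real.dist_eq, Real.dist_eq, NNReal.coe_one, one_mul, ← w'.seg.dist_eq a ha b hb]
          exact abs_le_dist _ _ x'
        exact this.continuousOn
      · intro s hs hst
        obtain ⟨h1, h2⟩ := abs_lt.1 hst
        rcases le_total s t with hle | hle
        · have hsi := hl s hs (by linarith [min_le_left ε ε']) hle
          rw [hβ1 s hs i hi hsi, hx' i (Or.inl rfl) s hsi]
        · have hsj := hr s hs hle (by linarith [min_le_right ε ε'])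
          rw [hβ1 s hs j hj hsj, hx' j (Or.inr rfl) s hsj]
    · have hm : Monotone fun z => (w'.γ t).s ((w'.C (pc t)).e z) := fun a b hab =>
        (w'.γ t).mono ((w'.C (pc t)).mono.monotone hab)
      simp only [hβ]
      rw [Cell.idx_sup]
      exact hm.map_max
  have h0 : ∀ x, β 0 x ≤ (w.γ 0).s x + 1 / R := by
    intro x
    have hm0 : (0 : ℝ) ∈ Icc (w'.t 0) (w'.t (0 + 1)) := ⟨by rw [w'.t0], by
      rw [← w'.t0]; exact w'.mono 0 hP⟩
    have hm0' : (0 : ℝ) ∈ Icc (w.t 0) (w.t (0 + 1)) := ⟨by rw [w.t0], by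
      rw [← w.t0]; exact w.mono 0 hP⟩
    rw [hβ1 0 ⟨le_rfl, hT⟩ 0 hP hm0, w.inCell 0 hP 0 hm0' x]
    have := (abs_le.1 (h.zero ((w.C 0).idx x))).1
    linarith
  have h1 : ∀ x, β T x ≤ (w.γ T).s x + 1 / R := by
    intro x
    have hP1 : P - 1 + 1 = P := Nat.sub_add_cancel hP
    have hm0 : T ∈ Icc (w'.t (P - 1)) (w'.t (P - 1 + 1)) := ⟨by
      have := w'.mono (P - 1) (by omega)
      rw [hP1, w'.tP] at this
      exact this, by rw [hP1, w'.tP]⟩
    have hm0' : T ∈ Icc (w.t (P - 1)) (w.t (P - 1 + 1)) := ⟨by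
      have := w.mono (P - 1) (by omega)
      rw [hP1, w.tP] at this
      exact this, by rw [hP1, w.tP]⟩
    rw [hβ1 T ⟨hT, le_rfl⟩ (P - 1) (by omega) hm0, w.inCell (P - 1) (by omega) T hm0' x]
    have := (abs_le.1 (h.one ((w.C (P - 1)).idx x))).1
    linarith
  have h2 := w.seg.great β 0 T le_rfl hT le_rfl hfam (1 / R) h0 h1 s hs x
  rw [hβ1 s hs j hj hsj] at h2
  exact h2

/-- windows of the same type are close -/
theorem Same.near {P : ℕ} {T : ℝ} {R : ℕ} (hP : 0 < P) {w w' : LWin L P T}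
    (h : Same R w w') : ∀ s ∈ Icc 0 T, Near (1 / R) (w.γ s) (w'.γ s) := by
  intro s hs
  obtain ⟨i, hi, hsi⟩ := exists_piece w.t0 w.tP hP hs
  obtain ⟨j, hj, hsj⟩ := exists_piece w'.t0 w'.tP hP hs
  have key : ∀ x x', (w.C i).idx x = (w'.C i).idx x' → (w.C j).idx x = (w'.C j).idx x' →
      |(w.γ s).s x - (w'.γ s).s x'| ≤ 1 / R := by
    intro x x' h1 h2
    have h3 := h.le hP hs hj hsj x
    rw [h2, ← w'.inCell j hj s hsj x'] at h3
    have h4 := h.symm.le hP hs hi hsi x'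
    rw [← h1, ← w.inCell i hi s hsi x] at h4
    rw [abs_le]
    constructor <;> linarith
  constructor
  · intro x
    obtain ⟨x', h1, h2⟩ := (h.rel i hi j hj _ _).1 ⟨x, rfl, rfl⟩
    exact ⟨x', key x x' h1.symm h2.symm⟩
  · intro x'
    obtain ⟨x, h1, h2⟩ := (h.rel i hi j hj _ _).2 ⟨x', rfl, rfl⟩
    exact ⟨x, key x x' h1 h2⟩

end

end Pool.Agent.LSH
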