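import Pool.Agent.Lib.LSH.Iface

/-!
# Few classes of windows of each length
-/

set_option autoImplicit false

open Set

namespace Pool.Agent.LSH

open Pool.Agent.TD Pool.Agent.ND Pool.Agent.GLN

/-- Few classes of the windows of the length `T ≤ 5 * n`, the windows of a class have close tail
sums. -/
def FewClsT {X V : Type} [MetricSpace X] (co : X → V → ℝ) (geo : X → X → ℝ → X) (d M C : ℕ) :
    Prop :=
  ∀ (n R : ℕ) (T : ℝ), 2 ≤ n → 0 < R → 0 ≤ T → T ≤ 5 * n → ∃ (Cl : Type) (_ : Fintype Cl)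
    (cls : {p : X × X // T ≤ dist p.1 p.2} → Cl),
    Fintype.card Cl ≤ 2 ^ (C * (M * (5 * n + 1)) ^ 3) * (R + 1) ^ (2 * (d + 1)) ∧
    ∀ ω ω', cls ω = cls ω' → ∀ k : ℕ, k ≤ d → ∀ s ∈ Icc (0 : ℝ) T,
      |tail k (co (endPt geo ω.1.1 ω.1.2 s)) - tail k (co (endPt geo ω'.1.1 ω'.1.2 s))| ≤ C / R

theorem FewClsT.toC {X V : Type} [MetricSpace X] {co : X → V → ℝ} {geo : X → X → ℝ → X}
    {d M C : ℕ} (h : FewClsT co geo d M C) : FewClsC co geo d M C := fun n R hn hR =>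
  h n R (5 * n) hn hR (by positivity) le_rfl

end Pool.Agent.LSH
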