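import Pool.Agent.Lib.LSH.Seg
import Pool.Agent.Lib.LSH.ClsT

/-!
# Semilattices with a shift: few windows and few classes
-/

set_option autoImplicit false
set_option linter.unusedSectionVars false

open Set

namespace Pool.Agent.LSH

open Pool.Agent.TD Pool.Agent.ND Pool.Agent.GLN

/-- a window as a window with coordinates -/
noncomputable def LWin.toCWin {L : Type} [SemilatticeSup L] [HasShift L] {P : ℕ} {T : ℝ}
    (w : LWin L P T) : CWin (co : Pt L → L → ℝ) P T where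
  γ := w.γ
  t := w.t
  geod := w.seg.dist_eq
  mono := w.mono
  t0 := w.t0
  tP := w.tP
  aff := w.affCo

theorem few_clsT' (L : Type) [SemilatticeSup L] [HasShift L]
    (hfew : ∃ M : ℕ, 0 < M ∧ ∀ (x y : Pt L) (n : ℕ) (a b : ℝ), 0 ≤ a → a ≤ b →
      b ≤ dist x y → b - a ≤ n →
      ∃ w : LWin L (M * (n + 1)) (b - a), ∀ s, w.γ s = endPt geo x y (a + s))
    (hnear : ∀ {P : ℕ} {T : ℝ} {R : ℕ}, 0 < P → ∀ {w w' : LWin L P T}, Same R w w' →
      ∀ s ∈ Icc 0 T, Near (1 / R) (w.γ s) (w'.γ s))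
    (hclass : ∃ C : ℕ, ∀ (P R : ℕ) (T : ℝ), 0 < P → 0 < R → 0 ≤ T → T ≤ P →
      ∃ (Cl : Type) (_ : Fintype Cl) (cls : LWin L P T → Cl),
        Fintype.card Cl ≤ 2 ^ (C * P ^ 3) * (R + 1) ^ (2 * (HasShift.d L + 1)) ∧
        ∀ w w', cls w = cls w' → Same R w w')
    (htail : ∀ {e : ℝ}, 0 ≤ e → ∀ {p p' : Pt L}, Near e p p' → ∀ k : ℕ,
      |tail k (co p) - tail k (co p')| ≤ 2 * k * e) :
    ∃ M C : ℕ, 0 < M ∧ FewWinC (co : Pt L → L → ℝ) geo M ∧
      FewClsT (co : Pt L → L → ℝ) geo (HasShift.d L) M C := by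
  obtain ⟨M, hM, hw⟩ := hfew
  obtain ⟨C, hC⟩ := hclass
  refine ⟨M, C + 2 * HasShift.d L, hM, fun x y n a b h0 hab hb hn => ?_,
    fun n R T hn hR hT0 hTn => ?_⟩
  · obtain ⟨w, hw'⟩ := hw x y n a b h0 hab hb hn
    exact ⟨w.toCWin, hw'⟩
  · have hwin : ∀ ω : {p : Pt L × Pt L // T ≤ dist p.1 p.2},
        ∃ w : LWin L (M * (5 * n + 1)) T, ∀ s, w.γ s = endPt geo ω.1.1 ω.1.2 s := by
      intro ω
      have h1 := hw ω.1.1 ω.1.2 (5 * n) 0 T le_rfl hT0 ω.2 (by push_cast; linarith)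
      rw [sub_zero] at h1
      obtain ⟨w, hw'⟩ := h1
      exact ⟨w, fun s => by rw [hw', zero_add]⟩
    choose W hW using hwin
    have hPpos : 0 < M * (5 * n + 1) := by positivity
    have hTP : T ≤ (M * (5 * n + 1) : ℕ) := by
      have h1 : 5 * n ≤ M * (5 * n + 1) := by nlinarith
      have h2 : ((5 * n : ℕ) : ℝ) ≤ (M * (5 * n + 1) : ℕ) := by exact_mod_cast h1
      push_cast at h2 ⊢
      linarith
    obtain ⟨Cl, hfin, cls, hcard, hsame⟩ := hC (M * (5 * n + 1)) R T hPpos hR hT0 hTP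
    refine ⟨Cl, hfin, fun ω => cls (W ω), ?_, fun ω ω' hωω k hk s hs => ?_⟩
    · refine hcard.trans (Nat.mul_le_mul_right _ (Nat.pow_le_pow_right (by norm_num) ?_))
      exact Nat.mul_le_mul_right _ (by omega)
    · have h1 := hnear hPpos (hsame _ _ hωω) s hs
      have h2 := htail (by positivity) h1 k
      rw [hW, hW] at h2
      refine h2.trans ?_
      have hR0 : (0 : ℝ) < R := by exact_mod_cast hR
      rw [mul_one_div]
      refine div_le_div_of_nonneg_right ?_ hR0.le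
      push_cast
      have h3 : (k : ℝ) ≤ HasShift.d L := by exact_mod_cast hk
      have h4 : (0 : ℝ) ≤ C := Nat.cast_nonneg C
      linarith

end Pool.Agent.LSH
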