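import Mathlib
import Pool.Agent.Lib.LSH.Iface

/-!
# Semilattices with a shift: the coordinates of a point

`co p v` is the length of the time in `[0, 1]` for which the value of `p` is `v`.
-/

set_option autoImplicit false
set_option linter.unusedSectionVars false

open Set

namespace Pool.Agent.LSH

open Pool.Agent.ND

section
variable {L : Type} [SemilatticeSup L] [HasShift L]

theorem co_nonneg (p : Pt L) (v : L) : 0 ≤ co p v := le_max_left _ _

theorem co_pos_iff' {p : Pt L} {v : L} :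
    0 < co p v ↔ v ∈ carr p ∧ p.s v < 1 ∧ 0 < kap v p := by
  unfold co
  rw [lt_max_iff, ← gap_pos_iff]
  unfold gap
  rw [lt_max_iff]
  simp only [lt_irrefl, false_or, sub_pos, max_lt_iff, lt_min_iff]
  have h1 : (0 : ℝ) < 1 := one_pos
  tauto

theorem co_pos_iff (p : Pt L) (x : L) : 0 < co p x ↔ ∃ r, 0 ≤ r ∧ r < 1 ∧ p.top r = x := by
  rw [co_pos_iff', mem_carr]
  constructor
  · rintro ⟨h1, h2, h3⟩
    refine ⟨max (p.s x) 0, le_max_right _ _, max_lt h2 one_pos, le_antisymm ?_ ?_⟩
    · rw [← lt_kap]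
      exact max_lt (lt_kap.2 h1.le) h3
    · rw [p.le_top_iff]
      exact le_max_left _ _
  · rintro ⟨r, h0, h1, rfl⟩
    exact ⟨p.top_s_top r, (p.s_top r).trans_lt h1, h0.trans_lt (lt_kap.2 le_rfl)⟩

theorem co_eq_zero' {p : Pt L} {v : L} (h : v ∉ carr p) : co p v = 0 := by
  by_contra hne
  exact h (co_pos_iff'.1 (lt_of_le_of_ne (co_nonneg p v) (Ne.symm hne))).1

/-- the coordinates are 2-Lipschitz -/
theorem co_lip (p q : Pt L) (v : L) : |co p v - co q v| ≤ 2 * dist p q := by
  have h1 := abs_le.1 (abs_kap_le v p q)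
  have h2 := abs_le.1 (abs_le_dist p q v)
  unfold co
  refine (abs_max_sub_max_le_max 0 _ 0 _).trans (max_le (by simp) ?_)
  have h3 := abs_le.1 ((abs_min_sub_min_le_max (kap v p) 1 (kap v q) 1).trans
    (max_le (abs_kap_le v p q) (by simp)))
  have h4 := abs_le.1 ((abs_max_sub_max_le_max (p.s v) 0 (q.s v) 0).trans
    (max_le (abs_le_dist p q v) (by simp)))
  rw [abs_le]
  constructor <;> linarith [h3.1, h3.2, h4.1, h4.2]

/-- the clamp to `[0, 1]` -/
noncomputable def cl (t : ℝ) : ℝ := max 0 (min t 1)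

theorem cl_mono {s t : ℝ} (h : s ≤ t) : cl s ≤ cl t := max_le_max le_rfl (min_le_min h le_rfl)

theorem cl_of_le {t : ℝ} (h : t ≤ 0) : cl t = 0 := max_eq_left ((min_le_left _ _).trans h)

theorem cl_of_ge {t : ℝ} (h : 1 ≤ t) : cl t = 1 := by
  unfold cl
  rw [min_eq_right h]
  exact max_eq_right zero_le_one

theorem cl_of_mem {t : ℝ} (h0 : 0 ≤ t) (h1 : t ≤ 1) : cl t = t := by
  unfold cl
  rw [min_eq_left h1, max_eq_right h0]

theorem cl_sub {a b : ℝ} (h : a ≤ b) : max 0 (min b 1 - max a 0) = cl b - cl a := by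
  rcases le_total a 0 with ha | ha
  · rw [max_eq_right ha, cl_of_le ha, sub_zero, sub_zero]
    rfl
  · rw [max_eq_left ha]
    rcases le_total a 1 with ha1 | ha1
    · rw [cl_of_mem ha ha1]
      rcases le_total b 1 with hb | hb
      · rw [min_eq_left hb, cl_of_mem (ha.trans h) hb]
        exact max_eq_right (sub_nonneg.2 h)
      · rw [min_eq_right hb, cl_of_ge hb]
        exact max_eq_right (sub_nonneg.2 ha1)
    · rw [cl_of_ge ha1, cl_of_ge (ha1.trans h), min_eq_right (ha1.trans h)]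
      rw [sub_self]
      exact max_eq_left (sub_nonpos.2 ha1)

/-! ### coordinates in a cell -/

theorem InCell.kap_e {C : Cell L} {p : Pt L} (h : InCell C p) (z : ℤ) :
    kap (C.e z) p = p.s (C.e (z + 1)) := by
  refine le_antisymm (kap_le p fun hle => ?_) (le_kap p fun x hx => ?_)
  · have := C.mono.le_iff_le.1 hle
    omega
  · rw [← C.idx_le] at hx
    refine h.mono ?_
    rw [C.idx_e]
    omega

theorem InCell.eq_e {C : Cell L} {p : Pt L} (h : InCell C p) {v : L} (hv : v ∈ carr p) :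
    C.e (C.idx v) = v := by
  refine le_antisymm ?_ (C.le_e_idx v)
  rw [mem_carr] at hv
  have h1 : C.e (C.idx v) ≤ p.top (p.s v) := p.le_top_iff.2 (h v).ge
  rwa [hv] at h1

theorem co_e {C : Cell L} {p : Pt L} (h : InCell C p) (z : ℤ) :
    co p (C.e z) = max 0 (min (p.s (C.e (z + 1))) 1 - max (p.s (C.e z)) 0) := by
  unfold co
  rw [h.kap_e]

theorem InCell.co_e' {C : Cell L} {p : Pt L} (h : InCell C p) (z : ℤ) :
    co p (C.e z) = cl (p.s (C.e (z + 1))) - cl (p.s (C.e z)) := by
  rw [co_e h, cl_sub (p.mono (C.mono.monotone (by omega)))]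

theorem InCell.co_off {C : Cell L} {p : Pt L} (h : InCell C p) {v : L}
    (hv : C.e (C.idx v) ≠ v) : co p v = 0 :=
  co_eq_zero' fun hc => hv (h.eq_e hc)

theorem co_eq_zero {C : Cell L} {p : Pt L} (h : InCell C p) {x : L} (hx : x ∉ range C.e) :
    co p x = 0 :=
  h.co_off fun he => hx ⟨_, he⟩

/-- the support -/
theorem exists_supp (p : Pt L) : ∃ s : Finset L, IsPt s (co p) ∧ (∀ v, 0 < co p v ↔ v ∈ s) ∧
    s.card ≤ HasShift.d L + 1 := by
  classical
  obtain ⟨C, hC, hmono, h0, h1, htop⟩ := exists_cell p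
  set v : ℤ → ℝ := fun z => p.s (C.e z) with hv
  have hvper : ∀ z, v (z + C.n) = v z + 1 := by
    intro z
    simp only [hv]
    rw [C.per, p.phi]
  obtain ⟨A, hA, hAmax⟩ := Int.exists_greatest_of_bdd (P := fun z => v z ≤ 0)
    ⟨0, fun z hz => by
      by_contra hlt
      push Not at hlt
      have : v 0 < v z := hmono hlt
      have h2 : (0 : ℝ) ≤ v 0 := h0
      linarith⟩
    ⟨-(C.n : ℤ), by
      have h2 := hvper (-(C.n : ℤ))
      rw [neg_add_cancel] at h2
      have h3 : v 0 < 1 := h1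
      show v (-(C.n : ℤ)) ≤ 0
      linarith⟩
  have hA1 : 0 < v (A + 1) := by
    by_contra hle
    push Not at hle
    have := hAmax _ hle
    omega
  have hB : 1 ≤ v (A + C.n + 1) := by
    have h2 := hvper (A + 1)
    have h3 : A + 1 + (C.n : ℤ) = A + C.n + 1 := by ring
    rw [h3] at h2
    linarith
  -- the sum over the cell
  have hsum : ∀ m : ℕ, ∑ i ∈ Finset.range m, co p (C.e (A + i)) = cl (v (A + m)) - cl (v A) := by
    intro m
    induction m with
    | zero => simp
    | succ m ih =>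
      rw [Finset.sum_range_succ, ih, hC.co_e']
      have h3 : A + (m : ℤ) + 1 = A + ((m + 1 : ℕ) : ℤ) := by push_cast; ring
      rw [h3]
      simp only [hv]
      ring
  have hinj : Function.Injective fun i : ℕ => C.e (A + i) := by
    intro i j hij
    have := C.mono.injective hij
    omega
  set S : Finset L := (Finset.range (C.n + 1)).image fun i : ℕ => C.e (A + i) with hS
  have hS1 : ∑ x ∈ S, co p x = 1 := by
    rw [hS, Finset.sum_image fun a _ b _ hab => hinj hab, hsum, cl_of_le hA]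
    have h3 : A + ((C.n + 1 : ℕ) : ℤ) = A + C.n + 1 := by push_cast; ring
    rw [h3, cl_of_ge hB, sub_zero]
  have hsub : ∀ x, 0 < co p x → x ∈ S := by
    intro x hx
    have h2 := co_pos_iff'.1 hx
    have h3 := hC.eq_e h2.1
    have h4 : v (C.idx x) < 1 := by
      simp only [hv]
      rw [h3]
      exact h2.2.1
    have h5 : 0 < v (C.idx x + 1) := by
      simp only [hv]
      rw [← hC.kap_e, h3]
      exact h2.2.2
    have h6 : A ≤ C.idx x := by
      by_contra hlt
      push Not at hlt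
      have : v (C.idx x + 1) ≤ v A := hmono.monotone (by omega)
      linarith
    have h7 : C.idx x < A + C.n + 1 := by
      by_contra hle
      push Not at hle
      have : v (A + C.n + 1) ≤ v (C.idx x) := hmono.monotone hle
      linarith
    rw [hS, Finset.mem_image]
    refine ⟨(C.idx x - A).toNat, Finset.mem_range.2 (by omega), ?_⟩
    have h8 : A + (((C.idx x - A).toNat : ℕ) : ℤ) = C.idx x := by omega
    rw [h8, h3]
  refine ⟨S.filter fun x => 0 < co p x, ⟨co_nonneg p, fun x hx => ?_, ?_⟩, fun x => ?_, ?_⟩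
  · by_contra hne
    have h2 : 0 < co p x := lt_of_le_of_ne (co_nonneg p x) (Ne.symm hne)
    exact hx (Finset.mem_filter.2 ⟨hsub x h2, h2⟩)
  · rw [← hS1, Finset.sum_filter]
    refine Finset.sum_congr rfl fun x _ => ?_
    split_ifs with h
    · rfl
    · exact le_antisymm (co_nonneg p x) (not_lt.1 h)
  · exact ⟨fun h => Finset.mem_filter.2 ⟨hsub x h, h⟩, fun h => (Finset.mem_filter.1 h).2⟩
  · refine (Finset.card_filter_le _ _).trans (Finset.card_image_le.trans ?_)
    rw [Finset.card_range]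
    exact Nat.add_le_add_right C.n_le 1

/-- at most `d + 1` atoms, sum `1` -/
theorem coord : Coord (HasShift.d L) (co : Pt L → L → ℝ) := fun p => by
  obtain ⟨s, h1, h2, h3⟩ := exists_supp p
  exact ⟨s, h3, h1, h2⟩

/-- the vertices of the support are near -/
theorem dist_vt_le {p : Pt L} {v : L} (h : 0 < co p v) : dist (vt v) p ≤ 1 := by
  obtain ⟨h1, h2, h3⟩ := co_pos_iff'.1 h
  refine dist_le_of fun x => ?_
  rw [vt_s, abs_le]
  have h4 := pv_add_kap_le p v x
  have h5 := p.mono (le_sh_pv v x)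
  rw [p.s_sh] at h5
  constructor <;> linarith

/-- `dist (vt v) (vt w)` is the least `k` with `w ≤ φ^k v`, `v ≤ φ^k w` -/
theorem dist_vt_le_iff {v w : L} {k : ℕ} :
    dist (vt v) (vt w) ≤ k ↔ w ≤ sh k v ∧ v ≤ sh k w := by
  constructor
  · intro h
    have h1 := abs_le.1 ((abs_le_dist (vt v) (vt w) w).trans h)
    have h2 := abs_le.1 ((abs_le_dist (vt v) (vt w) v).trans h)
    rw [vt_s, vt_s, pv_self] at h1 h2
    rw [← pv_le_iff, ← pv_le_iff]
    push_cast at h1 h2
    constructor
    · have : (pv v w : ℝ) ≤ (k : ℤ) := by push_cast; linarith [h1.2]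
      exact_mod_cast this
    · have : (pv w v : ℝ) ≤ (k : ℤ) := by push_cast; linarith [h2.1]
      exact_mod_cast this
  · rintro ⟨h1, h2⟩
    have key : ∀ a b x : L, b ≤ sh k a → pv a x ≤ pv b x + k := by
      intro a b x h
      rw [pv_le_iff, sh_add]
      exact (le_sh_pv b x).trans (sh_le_sh.2 h)
    refine dist_le_of fun x => ?_
    have h3 := key v w x h1
    have h4 := key w v x h2
    have h5 : (pv v x : ℝ) ≤ pv w x + k := by exact_mod_cast h3
    have h6 : (pv w x : ℝ) ≤ pv v x + k := by exact_mod_cast h4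
    rw [vt_s, vt_s, abs_le]
    constructor <;> linarith

/-- on an interval on which one cell works, all values are affine and no value crosses `0` or `1`,
the coordinates are affine -/
theorem co_affine {C : Cell L} {f : ℝ → Pt L} {I : Set ℝ} (hC : ∀ t ∈ I, InCell C (f t))
    {P Q : L → ℝ} (haff : ∀ t ∈ I, ∀ x, (f t).s x = P x + t * Q x)
    (hcr : ∀ z, (∀ t ∈ I, (f t).s (C.e z) ≤ 0) ∨
      (∀ t ∈ I, 0 ≤ (f t).s (C.e z) ∧ (f t).s (C.e z) ≤ 1) ∨ ∀ t ∈ I, 1 ≤ (f t).s (C.e z)) :
    ∃ P' Q' : L → ℝ, ∀ t ∈ I, ∀ v, co (f t) v = P' v + t * Q' v := by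
  have key : ∀ z, ∃ A B : ℝ, ∀ t ∈ I, cl ((f t).s (C.e z)) = A + t * B := by
    intro z
    rcases hcr z with h | h | h
    · exact ⟨0, 0, fun t ht => by rw [cl_of_le (h t ht)]; ring⟩
    · exact ⟨P (C.e z), Q (C.e z), fun t ht => by
        rw [cl_of_mem (h t ht).1 (h t ht).2, haff t ht]⟩
    · exact ⟨1, 0, fun t ht => by rw [cl_of_ge (h t ht)]; ring⟩
  choose A B hAB using key
  classical
  refine ⟨fun v => if C.e (C.idx v) = v then A (C.idx v + 1) - A (C.idx v) else 0,
    fun v => if C.e (C.idx v) = v then B (C.idx v + 1) - B (C.idx v) else 0, fun t ht v => ?_⟩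
  by_cases hv : C.e (C.idx v) = v
  · simp only [if_pos hv]
    have h1 := (hC t ht).co_e' (C.idx v)
    rw [hv] at h1
    rw [h1, hAB _ t ht]
    have h2 := hAB (C.idx v) t ht
    rw [hv] at h2
    rw [h2]
    ring
  · simp only [if_neg hv]
    rw [(hC t ht).co_off hv]
    ring

end

section
variable {G L : Type} [Group G] [SemilatticeSup L] [HasShift L] [ShiftAct G L]

theorem co_smul (g : G) (p : Pt L) (v : L) : co (g • p) (g • v) = co p v := by
  unfold co
  rw [kap_smul, smul_s']

theorem pv_smul (g : G) (v x : L) : pv (g • v) (g • x) = pv v x := by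
  refine eq_of_forall_ge_iff fun m => ?_
  rw [pv_le_iff, pv_le_iff, ← smul_sh, smul_le_iff]

theorem vt_smul (g : G) (v : L) : vt (g • v) = g • vt v := by
  ext x
  rw [smul_s, vt_s, vt_s]
  have h1 := pv_smul g v (g⁻¹ • x)
  rw [smul_inv_smul] at h1
  rw [h1]

end

end Pool.Agent.LSH
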