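import Mathlib
import Pool.Agent.Lib.LSH.Co

/-!
# Semilattices with a shift: the crossings of the integers
-/

set_option autoImplicit false
set_option linter.unusedSectionVars false

open Set

namespace Pool.Agent.LSH

open Pool.Agent.TD Pool.Agent.ND Pool.Agent.GLN

section
variable {L : Type} [SemilatticeSup L] [HasShift L]

theorem affOn_point {V : Type} (f : ℝ → V → ℝ) (a : ℝ) : AffOn f a a :=
  ⟨f a, fun _ => 0, fun s hs v => by
    rw [le_antisymm hs.2 hs.1, mul_zero, add_zero]⟩

/-- **crossings of an integer** -/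
theorem exists_cuts {γ : ℝ → Pt L} {a b : ℝ}
    (hlip : ∀ s ∈ Icc a b, ∀ s' ∈ Icc a b, dist (γ s) (γ s') ≤ |s - s'|) (hab : b - a < 1)
    {C : Cell L} (hC : ∀ s ∈ Icc a b, InCell C (γ s)) (haff : AffOn (fun s => (γ s).s) a b) :
    ∃ Z : Finset ℝ, Z.card ≤ HasShift.d L ∧ ∀ a' b', a ≤ a' → a' ≤ b' → b' ≤ b →
      (∀ z ∈ Z, z ∉ Ioo a' b') → AffOn (fun s => co (γ s)) a' b' := by
  classical
  obtain ⟨P, Q, hPQ'⟩ := haff
  have hPQ : ∀ t ∈ Icc a b, ∀ x, (γ t).s x = P x + t * Q x := hPQ'
  let Cr : ℕ → ℝ → Prop := fun j t => t ∈ Icc a b ∧ Q (C.e j) ≠ 0 ∧ ∃ m : ℤ, (γ t).s (C.e j) = m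
  have huniq : ∀ j t t', Cr j t → Cr j t' → t = t' := by
    rintro j t t' ⟨ht, hQ, m, hm⟩ ⟨ht', -, m', hm'⟩
    have h1 := (abs_le_dist (γ t) (γ t') (C.e j)).trans (hlip t ht t' ht')
    have h2 : |t - t'| < 1 := by
      rw [abs_lt]
      constructor <;> linarith [ht.1, ht.2, ht'.1, ht'.2]
    have h3 : |((m - m' : ℤ) : ℝ)| < 1 := by
      push_cast
      rw [← hm, ← hm']
      exact h1.trans_lt h2
    have h4 : m - m' = 0 := by
      rw [← Int.cast_abs] at h3
      exact Int.abs_lt_one_iff.1 (by exact_mod_cast h3)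
    have h5 : (γ t).s (C.e j) = (γ t').s (C.e j) := by
      rw [hm, hm']
      have : m = m' := by omega
      rw [this]
    rw [hPQ t ht, hPQ t' ht'] at h5
    have h6 : (t - t') * Q (C.e j) = 0 := by linarith
    rcases mul_eq_zero.1 h6 with h | h
    · linarith
    · exact absurd h hQ
  let cut : ℕ → ℝ := fun j => if h : ∃ t, Cr j t then h.choose else a
  have hcut : ∀ j t, Cr j t → cut j = t := by
    intro j t h
    have h1 : ∃ t, Cr j t := ⟨t, h⟩
    simp only [cut, dif_pos h1]
    exact huniq j _ _ h1.choose_spec h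
  refine ⟨(Finset.range C.n).image cut, ?_, fun a' b' ha hab' hb hZ => ?_⟩
  · refine Finset.card_image_le.trans ?_
    rw [Finset.card_range]
    exact C.n_le
  have hsub : ∀ t ∈ Icc a' b', t ∈ Icc a b := fun t ht => ⟨ha.trans ht.1, ht.2.trans hb⟩
  -- no sign change
  have hsign : ∀ (z m : ℤ), (∀ t ∈ Icc a' b', (γ t).s (C.e z) ≤ m) ∨
      ∀ t ∈ Icc a' b', (m : ℝ) ≤ (γ t).s (C.e z) := by
    intro z m
    by_contra hcon
    push Not at hcon
    obtain ⟨⟨t₁, ht₁, h1⟩, ⟨t₂, ht₂, h2⟩⟩ := hcon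
    have hn : (0 : ℤ) < C.n := by exact_mod_cast C.pos
    obtain ⟨j, k, hj, hz⟩ : ∃ (j : ℕ) (k : ℤ), j < C.n ∧ z = j + k * C.n := by
      refine ⟨(z % C.n).toNat, z / C.n, ?_, ?_⟩
      · have h3 := Int.emod_nonneg z hn.ne'
        have h4 := Int.emod_lt_of_pos z hn
        omega
      · rw [Int.toNat_of_nonneg (Int.emod_nonneg z hn.ne')]
        have := Int.emod_add_mul_ediv z C.n
        linarith
    have hv : ∀ t, (γ t).s (C.e z) = (γ t).s (C.e j) + k := by
      intro t
      rw [hz, C.per_mul, Pt.s_sh]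
    rw [hv] at h1 h2
    have hQ : Q (C.e j) ≠ 0 := by
      intro hQ
      rw [hPQ t₁ (hsub t₁ ht₁), hQ] at h1
      rw [hPQ t₂ (hsub t₂ ht₂), hQ] at h2
      linarith
    rw [hPQ t₁ (hsub t₁ ht₁)] at h1
    rw [hPQ t₂ (hsub t₂ ht₂)] at h2
    -- the zero
    set t₀ := ((m - k : ℤ) - P (C.e j)) / Q (C.e j) with ht₀
    have h0 : P (C.e j) + t₀ * Q (C.e j) = ((m - k : ℤ) : ℝ) := by
      rw [ht₀, div_mul_cancel₀ _ hQ]
      ring
    have h0' := h0
    push_cast at h0'
    have e1 : 0 < (t₁ - t₀) * Q (C.e j) := by linarith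
    have e2 : (t₂ - t₀) * Q (C.e j) < 0 := by linarith
    have hmem : t₀ ∈ Ioo a' b' := by
      rcases lt_or_gt_of_ne hQ with hq | hq
      · have e3 : t₁ - t₀ < 0 := by
          by_contra hc
          push Not at hc
          have := mul_nonpos_of_nonneg_of_nonpos hc hq.le
          linarith
        have e4 : 0 < t₂ - t₀ := by
          by_contra hc
          push Not at hc
          have := mul_nonneg_of_nonpos_of_nonpos hc hq.le
          linarith
        exact ⟨by linarith [ht₁.1], by linarith [ht₂.2]⟩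
      · have e3 : 0 < t₁ - t₀ := by
          by_contra hc
          push Not at hc
          have := mul_nonpos_of_nonpos_of_nonneg hc hq.le
          linarith
        have e4 : t₂ - t₀ < 0 := by
          by_contra hc
          push Not at hc
          have := mul_nonneg hc hq.le
          linarith
        exact ⟨by linarith [ht₂.1], by linarith [ht₁.2]⟩
    have hCr : Cr j t₀ := ⟨hsub t₀ ⟨hmem.1.le, hmem.2.le⟩, hQ, m - k, by
      rw [hPQ t₀ (hsub t₀ ⟨hmem.1.le, hmem.2.le⟩), h0]⟩
    refine hZ _ (Finset.mem_image_of_mem cut (Finset.mem_range.2 hj)) ?_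
    rw [hcut j t₀ hCr]
    exact hmem
  obtain ⟨P', Q', h⟩ := co_affine (C := C) (f := γ) (I := Icc a' b')
    (fun t ht => hC t (hsub t ht)) (fun t ht => hPQ t (hsub t ht)) (fun z => by
      rcases hsign z 0 with h0 | h0
      · left
        intro t ht
        simpa using h0 t ht
      · right
        rcases hsign z 1 with h1 | h1
        · left
          intro t ht
          exact ⟨by simpa using h0 t ht, by simpa using h1 t ht⟩
        · right
          intro t ht
          simpa using h1 t ht)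
  exact ⟨P', Q', h⟩

end

end Pool.Agent.LSH
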