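import Mathlib
import Pool.Agent.Lib.LSH.Cuts
import Pool.Agent.Lib.LSH.Seg

/-!
# Semilattices with a shift: the windows of geodesics have few pieces
-/

set_option autoImplicit false
set_option linter.unusedSectionVars false

open Set

namespace Pool.Agent.LSH

open Pool.Agent.TD Pool.Agent.ND Pool.Agent.GLN

/-! ### finite sets of cuts -/

theorem tle {P : ℕ} {t : ℕ → ℝ} (h : ∀ i < P, t i ≤ t (i + 1)) :
    ∀ i j, i ≤ j → j ≤ P → t i ≤ t j := by
  intro i j hij
  induction j, hij using Nat.le_induction with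
  | base => intro _; exact le_rfl
  | succ j hij ih => intro hj; exact (ih (by omega)).trans (h j (by omega))

theorem exists_pc {P : ℕ} {t : ℕ → ℝ} (hPpos : 0 < P) {s : ℝ} (h0 : t 0 ≤ s) (h1 : s ≤ t P) :
    ∃ i < P, s ∈ Icc (t i) (t (i + 1)) := by
  classical
  have hex : ∃ i, s ≤ t (i + 1) ∧ i < P := ⟨P - 1, by
    rw [Nat.sub_add_cancel hPpos]; exact h1, by omega⟩
  have hspec := Nat.find_spec hex
  set i := Nat.find hex with hi
  refine ⟨i, hspec.2, ?_, hspec.1⟩
  rcases Nat.eq_zero_or_pos i with h | h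
  · rw [h]; exact h0
  · have hm : i - 1 < i := by omega
    have := Nat.find_min hex hm
    push Not at this
    by_contra hlt
    push Not at hlt
    have h3 : s ≤ t (i - 1 + 1) := by
      rw [Nat.sub_add_cancel h]; exact hlt.le
    have := this h3
    omega

/-- a property of intervals holds off `m` cuts in each of `N` intervals, so off few cuts -/
theorem merge_cuts {A : ℝ → ℝ → Prop} {N m : ℕ} (hN : 0 < N) {t : ℕ → ℝ} (hpt : ∀ c, A c c)
    (H : ∀ i < N, ∃ Z : Finset ℝ, Z.card ≤ m ∧ ∀ a' b', t i ≤ a' → a' ≤ b' → b' ≤ t (i + 1) →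
      (∀ z ∈ Z, z ∉ Ioo a' b') → A a' b') :
    ∃ Z : Finset ℝ, Z.card ≤ (N + 1) + N * m ∧ ∀ a' b', t 0 ≤ a' → a' ≤ b' → b' ≤ t N →
      (∀ z ∈ Z, z ∉ Ioo a' b') → A a' b' := by
  classical
  have H' : ∀ i, ∃ Z : Finset ℝ, Z.card ≤ m ∧ (i < N → ∀ a' b', t i ≤ a' → a' ≤ b' →
      b' ≤ t (i + 1) → (∀ z ∈ Z, z ∉ Ioo a' b') → A a' b') := by
    intro i
    by_cases hi : i < N
    · obtain ⟨Z, h1, h2⟩ := H i hi
      exact ⟨Z, h1, fun _ => h2⟩
    · exact ⟨∅, by simp, fun h => absurd h hi⟩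
  choose Z hZc hZ using H'
  refine ⟨(Finset.range (N + 1)).image t ∪ (Finset.range N).biUnion Z, ?_,
    fun a' b' h0 hab h1 hz => ?_⟩
  · refine (Finset.card_union_le _ _).trans (Nat.add_le_add ?_ ?_)
    · refine Finset.card_image_le.trans ?_
      rw [Finset.card_range]
    · refine (Finset.card_biUnion_le_card_mul _ _ m fun i _ => hZc i).trans ?_
      rw [Finset.card_range]
  rcases hab.eq_or_lt with h | h
  · rw [h]
    exact hpt b'
  obtain ⟨i, hi, hi1, hi2⟩ := exists_pc (t := t) (s := (a' + b') / 2) hN (by linarith) (by linarith)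
  refine hZ i hi a' b' ?_ hab ?_ fun z hz' => hz z ?_
  · by_contra hc
    push Not at hc
    refine hz (t i) (Finset.mem_union_left _ (Finset.mem_image_of_mem t (Finset.mem_range.2
      (by omega)))) ⟨hc, by linarith⟩
  · by_contra hc
    push Not at hc
    refine hz (t (i + 1)) (Finset.mem_union_left _ (Finset.mem_image_of_mem t (Finset.mem_range.2
      (by omega)))) ⟨by linarith, hc⟩
  · exact Finset.mem_union_right _ (Finset.mem_biUnion.2 ⟨i, Finset.mem_range.2 hi, hz'⟩)

/-- an ordered subdivision whose open intervals avoid a finite set -/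
theorem exists_subdiv (Z : Finset ℝ) {P : ℕ} (hP : Z.card < P) {a b : ℝ} (hab : a ≤ b) :
    ∃ t : ℕ → ℝ, (∀ i < P, t i ≤ t (i + 1)) ∧ t 0 = a ∧ t P = b ∧
      ∀ i < P, ∀ z ∈ Z, z ∉ Ioo (t i) (t (i + 1)) := by
  classical
  set F := Z.filter fun z => a < z ∧ z < b with hF
  have hFc : F.card < P := (Finset.card_filter_le _ _).trans_lt hP
  have hFm : ∀ z, z ∈ F ↔ z ∈ Z ∧ a < z ∧ z < b := by
    intro z
    rw [hF, Finset.mem_filter]
  let e := F.orderEmbOfFin rfl
  have he : ∀ i, e i ∈ F := fun i => F.orderEmbOfFin_mem rfl i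
  let t : ℕ → ℝ := fun i => match i with
    | 0 => a
    | i + 1 => if h : i < F.card then e ⟨i, h⟩ else b
  have ht0 : t 0 = a := rfl
  have ht1 : ∀ i (h : i < F.card), t (i + 1) = e ⟨i, h⟩ := by
    intro i h
    simp only [t, dif_pos h]
  have ht2 : ∀ i, ¬ i < F.card → t (i + 1) = b := by
    intro i h
    simp only [t, dif_neg h]
  have hge : ∀ i, t i ≤ b := by
    intro i
    rcases i with _ | i
    · rw [ht0]; exact hab
    · by_cases h : i < F.card
      · rw [ht1 i h]
        exact ((hFm _).1 (he _)).2.2.le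
      · rw [ht2 i h]
  refine ⟨t, fun i _ => ?_, ht0, ?_, fun i _ z hz hmem => ?_⟩
  · by_cases h : i < F.card
    · rw [ht1 i h]
      rcases i with _ | i
      · rw [ht0]
        exact ((hFm _).1 (he _)).2.1.le
      · rw [ht1 i (by omega)]
        exact e.monotone (by simp)
    · rw [ht2 i h]
      exact hge i
  · obtain ⟨P', rfl⟩ : ∃ P', P = P' + 1 := ⟨P - 1, by omega⟩
    exact ht2 P' (by omega)
  · have hzF : z ∈ F := by
      rw [hFm]
      refine ⟨hz, ?_, hmem.2.trans_le (hge (i + 1))⟩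
      refine lt_of_le_of_lt ?_ hmem.1
      rcases i with _ | i
      · rw [ht0]
      · by_cases h : i < F.card
        · rw [ht1 i h]
          exact ((hFm _).1 (he _)).2.1.le
        · rw [ht2 i h]
          exact hab
    obtain ⟨j, hj⟩ : ∃ j, e j = z := by
      have : z ∈ Set.range e := by
        rw [Finset.range_orderEmbOfFin]
        exact hzF
      exact this
    rw [← hj] at hmem
    -- `i ≤ j` and `j < i`
    have h1 : i ≤ (j : ℕ) := by
      rcases i with _ | i
      · exact Nat.zero_le _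
      · by_cases h : i < F.card
        · have h2 := hmem.1
          rw [ht1 i h] at h2
          have h3 := e.lt_iff_lt.1 h2
          exact h3
        · have h2 := hmem.1
          rw [ht2 i h] at h2
          exact absurd (h2.trans ((hFm _).1 (he j)).2.2) (lt_irrefl _)
    have h4 : i < F.card := lt_of_le_of_lt h1 j.2
    have h2 := hmem.2
    rw [ht1 i h4] at h2
    have h3 : (j : ℕ) < i := e.lt_iff_lt.1 h2
    omega

section
variable {L : Type} [SemilatticeSup L] [HasShift L]

/-- short segments: values and coordinates are affine off few cuts -/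
theorem GeoSeg.exists_both {M : ℕ}
    (hM : ∀ (γ : ℝ → Pt L) (a b : ℝ), GeoSeg γ a b → b - a ≤ 1 / 2 →
      ∃ Z : Finset ℝ, Z.card ≤ M ∧ ∀ a' b', a ≤ a' → a' ≤ b' → b' ≤ b →
        (∀ z ∈ Z, z ∉ Ioo a' b') → AffOn (fun s => (γ s).s) a' b')
    {γ : ℝ → Pt L} {a b : ℝ} (h : GeoSeg γ a b) (hab : a ≤ b) (hba : b - a ≤ 1 / 2) :
    ∃ Z : Finset ℝ, Z.card ≤ (M + 1 + 1) + (M + 1) * HasShift.d L ∧
      ∀ a' b', a ≤ a' → a' ≤ b' → b' ≤ b → (∀ z ∈ Z, z ∉ Ioo a' b') →
        AffOn (fun s => (γ s).s) a' b' ∧ AffOn (fun s => co (γ s)) a' b' := by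
  obtain ⟨Z, hZc, hZ⟩ := hM γ a b h hba
  obtain ⟨t, hmono, ht0, htP, hav⟩ := exists_subdiv Z (P := M + 1) (by omega) hab
  have key := merge_cuts (A := fun a' b' => AffOn (fun s => (γ s).s) a' b' ∧
    AffOn (fun s => co (γ s)) a' b') (N := M + 1) (m := HasShift.d L) (Nat.succ_pos _)
    (t := t) (fun c => ⟨affOn_point _ c, affOn_point _ c⟩) (fun i hi => by
      have e1 : a ≤ t i := by
        rw [← ht0]
        exact tle hmono 0 i (Nat.zero_le _) hi.le
      have e2 : t (i + 1) ≤ b := by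
        rw [← htP]
        exact tle hmono (i + 1) (M + 1) hi le_rfl
      have haff : AffOn (fun s => (γ s).s) (t i) (t (i + 1)) :=
        hZ _ _ e1 (hmono i hi) e2 (hav i hi)
      obtain ⟨C, hC⟩ := h.exists_cell e1 (hmono i hi) e2 haff
      have hsub : ∀ s ∈ Icc (t i) (t (i + 1)), s ∈ Icc a b := fun s hs =>
        ⟨e1.trans hs.1, hs.2.trans e2⟩
      obtain ⟨Z', hZ'c, hZ'⟩ := exists_cuts (γ := γ) (a := t i) (b := t (i + 1))
        (fun s hs s' hs' => (h.dist_eq s (hsub s hs) s' (hsub s' hs')).le) (by linarith) hC haff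
      refine ⟨Z', hZ'c, fun a' b' h1 h2 h3 h4 => ⟨?_, hZ' a' b' h1 h2 h3 h4⟩⟩
      obtain ⟨P, Q, hPQ⟩ := haff
      exact ⟨P, Q, fun s hs => hPQ s ⟨h1.trans hs.1, hs.2.trans h3⟩⟩)
  rw [ht0, htP] at key
  exact key

/-- **windows have few pieces**, from the number of the breaks of short segments -/
theorem fewWin_of {M : ℕ}
    (hM : ∀ (γ : ℝ → Pt L) (a b : ℝ), GeoSeg γ a b → b - a ≤ 1 / 2 →
      ∃ Z : Finset ℝ, Z.card ≤ M ∧ ∀ a' b', a ≤ a' → a' ≤ b' → b' ≤ b →
        (∀ z ∈ Z, z ∉ Ioo a' b') → AffOn (fun s => (γ s).s) a' b') :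
    ∃ M' : ℕ, 0 < M' ∧ ∀ (x y : Pt L) (n : ℕ) (a b : ℝ), 0 ≤ a → a ≤ b →
      b ≤ dist x y → b - a ≤ n →
      ∃ w : LWin L (M' * (n + 1)) (b - a), ∀ s, w.γ s = endPt geo x y (a + s) := by
  set m := (M + 1 + 1) + (M + 1) * HasShift.d L with hm
  refine ⟨2 * m + 4, by omega, fun x y n a b ha hab hb hn => ?_⟩
  set T := b - a with hT
  have hT0 : 0 ≤ T := by linarith
  set γ : ℝ → Pt L := fun s => endPt geo x y (a + s) with hγ
  have hseg : GeoSeg γ 0 T := (geoSeg_endPt x y).sub ha hab hb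
  -- the intervals of length `1 / 2`
  set u : ℕ → ℝ := fun i => min ((i : ℝ) / 2) T with hu
  set N := 2 * (n + 1) with hN
  have hu0 : u 0 = 0 := by
    simp only [hu, Nat.cast_zero, zero_div]
    exact min_eq_left hT0
  have huN : u N = T := by
    simp only [hu, hN]
    push_cast
    exact min_eq_right (by linarith)
  have humono : ∀ i < N, u i ≤ u (i + 1) := by
    intro i _
    simp only [hu]
    push_cast
    exact min_le_min (by linarith) le_rfl
  obtain ⟨Z, hZc, hZ⟩ := merge_cuts (A := fun a' b' => AffOn (fun s => (γ s).s) a' b' ∧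
    AffOn (fun s => co (γ s)) a' b') (N := N) (m := m) (by omega)
    (t := u) (fun c => ⟨affOn_point _ c, affOn_point _ c⟩) (fun i hi => by
      have e1 : 0 ≤ u i := by
        rw [← hu0]
        exact tle humono 0 i (Nat.zero_le _) hi.le
      have e2 : u (i + 1) ≤ T := by
        rw [← huN]
        exact tle humono (i + 1) N hi le_rfl
      have e3 : u (i + 1) - u i ≤ 1 / 2 := by
        simp only [hu]
        push_cast
        have h1 : min (((i : ℝ) + 1) / 2) T ≤ min ((i : ℝ) / 2) T + 1 / 2 := by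
          rw [← min_add_add_right]
          exact min_le_min (by linarith) (by linarith)
        linarith
      have hs : GeoSeg γ (u i) (u (i + 1)) := by
        have hmem : ∀ s ∈ Icc (u i) (u (i + 1)), s ∈ Icc 0 T := fun s hs =>
          ⟨e1.trans hs.1, hs.2.trans e2⟩
        refine ⟨fun s hs s' hs' => hseg.dist_eq s (hmem s hs) s' (hmem s' hs'),
          ⟨fun z => (hseg.fam.conv z).subset (fun s hs => hmem s hs) (convex_Icc _ _),
            fun t ht => hseg.fam.sup t (hmem t ht)⟩,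
          fun k a' b' h1 h2 h3 => hseg.great k a' b' (e1.trans h1) h2 (h3.trans e2)⟩
      exact hs.exists_both hM (humono i hi) e3)
  rw [hu0, huN] at hZ
  have hcard : Z.card < (2 * m + 4) * (n + 1) := by
    refine lt_of_le_of_lt hZc ?_
    rw [hN]
    nlinarith
  obtain ⟨t, hmono, ht0, htP, hav⟩ := exists_subdiv Z hcard hT0
  have hpc : ∀ i < (2 * m + 4) * (n + 1), AffOn (fun s => (γ s).s) (t i) (t (i + 1)) ∧
      AffOn (fun s => co (γ s)) (t i) (t (i + 1)) := by
    intro i hi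
    refine hZ _ _ ?_ (hmono i hi) ?_ (hav i hi)
    · rw [← ht0]
      exact tle hmono 0 i (Nat.zero_le _) hi.le
    · rw [← htP]
      exact tle hmono (i + 1) _ hi le_rfl
  have hcell : ∀ i, ∃ C : Cell L, i < (2 * m + 4) * (n + 1) →
      (∀ s ∈ Icc (t i) (t (i + 1)), InCell C (γ s)) ∧
        0 ≤ (γ 0).s (C.e 0) ∧ (γ 0).s (C.e 0) < 1 := by
    intro i
    by_cases hi : i < (2 * m + 4) * (n + 1)
    · obtain ⟨C, hC⟩ := hseg.exists_cell (a' := t i) (b' := t (i + 1)) (by
        rw [← ht0]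
        exact tle hmono 0 i (Nat.zero_le _) hi.le) (hmono i hi) (by
        rw [← htP]
        exact tle hmono (i + 1) _ hi le_rfl) (hpc i hi).1
      obtain ⟨C', h1, h2⟩ := C.exists_norm (γ 0)
      exact ⟨C', fun _ => ⟨fun s hs => h1 _ (hC s hs), h2⟩⟩
    · obtain ⟨C, -⟩ := exists_cell (γ 0)
      exact ⟨C, fun h => absurd h hi⟩
  choose C hC using hcell
  let w : LWin L ((2 * m + 4) * (n + 1)) T :=
    { γ := γ
      t := t
      C := C
      seg := hseg
      mono := hmono
      t0 := ht0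
      tP := htP
      inCell := fun i hi => (hC i hi).1
      norm := fun i hi => (hC i hi).2
      affS := fun i hi => (hpc i hi).1
      affCo := fun i hi => (hpc i hi).2 }
  exact ⟨w, fun s => rfl⟩

end

end Pool.Agent.LSH
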