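import Mathlib
import Pool.Agent.Lib.LSH.Breaks
import Pool.Agent.Lib.LSH.Few

/-!
# Semilattices with a shift: the windows of geodesics have few pieces, final form
-/

set_option autoImplicit false

open Set

namespace Pool.Agent.LSH

open Pool.Agent.TD Pool.Agent.ND Pool.Agent.GLN

/-- **row R5** -/
theorem fewWin {L : Type} [SemilatticeSup L] [HasShift L] :
    ∃ M : ℕ, 0 < M ∧ ∀ (x y : Pt L) (n : ℕ) (a b : ℝ), 0 ≤ a → a ≤ b →
      b ≤ dist x y → b - a ≤ n →
      ∃ w : LWin L (M * (n + 1)) (b - a), ∀ s, w.γ s = endPt geo x y (a + s) := by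
  obtain ⟨M, hM⟩ := exists_breaks (L := L)
  exact fewWin_of hM

end Pool.Agent.LSH
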