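import Mathlib
import Pool.Agent.Lib.LSH.Co

/-!
# Semilattices with a shift: tail sums of points with near values

Row R4.
-/

set_option autoImplicit false

open Set

namespace Pool.Agent.LSH

open Pool.Agent.TD Pool.Agent.ND

section
variable {L : Type} [SemilatticeSup L] [HasShift L]

theorem Near.symm' {e : ℝ} {p p' : Pt L} (h : Near e p p') : Near e p' p := by
  refine ⟨fun x => ?_, fun x => ?_⟩
  · obtain ⟨y, hy⟩ := h.2 x
    exact ⟨y, by rwa [abs_sub_comm]⟩
  · obtain ⟨y, hy⟩ := h.1 x
    exact ⟨y, by rwa [abs_sub_comm]⟩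

/-- there are no values between `p.s v` and `kap v p` -/
theorem kap_le_of_lt {p : Pt L} {v x : L} (h : p.s v < p.s x) : kap v p ≤ p.s x :=
  kap_le p fun hle => absurd (p.mono hle) (not_le_of_gt h)

/-- a long interval of `p` contains a slightly shorter interval of `p'` -/
theorem co_near {e : ℝ} {p p' : Pt L} (h : Near e p p') {v : L} (hv : 2 * e < co p v)
    (he : 0 ≤ e) : co p v - 2 * e ≤ co p' (p'.top (max (p.s v) 0 + e)) := by
  have hpos : 0 < co p v := by linarith
  have hco : co p v = min (kap v p) 1 - max (p.s v) 0 := by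
    unfold co at hpos ⊢
    exact max_eq_right (by
      by_contra hlt
      push Not at hlt
      rw [max_eq_left hlt.le] at hpos
      exact lt_irrefl _ hpos)
  set a := max (p.s v) 0 with ha
  set b := min (kap v p) 1 with hb
  have ha0 : 0 ≤ a := le_max_right _ _
  have hav : p.s v ≤ a := le_max_left _ _
  have h1 : p'.s (p'.top (a + e)) ≤ a + e := p'.s_top _
  have h2 : b - e ≤ kap (p'.top (a + e)) p' := by
    obtain ⟨x', hx', hk⟩ := exists_kap (p'.top (a + e)) p'
    rw [hk]
    rw [p'.le_top_iff, not_le] at hx'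
    obtain ⟨x, hx⟩ := h.2 x'
    have h3 := abs_le.1 hx
    have h4 : p.s v < p.s x := by linarith [h3.1]
    have h5 := kap_le_of_lt h4
    have h6 : b ≤ kap v p := min_le_left _ _
    linarith [h3.2]
  rw [hco]
  unfold co
  refine le_trans ?_ (le_max_right _ _)
  have h3 : max (p'.s (p'.top (a + e))) 0 ≤ a + e := max_le h1 (by linarith)
  have h4 : b - e ≤ min (kap (p'.top (a + e)) p') 1 := le_min h2 (by
    have : b ≤ 1 := min_le_right _ _
    linarith)
  linarith

/-- different long intervals give different intervals -/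
theorem top_inj {e : ℝ} {p p' : Pt L} (h : Near e p p') (he : 0 ≤ e) {v w : L}
    (hv : 2 * e < co p v) (hw : 2 * e < co p w)
    (hvw : p'.top (max (p.s v) 0 + e) = p'.top (max (p.s w) 0 + e)) : v = w := by
  have hcv := (co_pos_iff'.1 (show 0 < co p v by linarith)).1
  have hcw := (co_pos_iff'.1 (show 0 < co p w by linarith)).1
  have key : ∀ v w : L, 2 * e < co p v → p.s v < p.s w →
      p'.top (max (p.s v) 0 + e) ≠ p'.top (max (p.s w) 0 + e) := by
    intro v w hv hlt heq
    have hpos : 0 < co p v := by linarith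
    have hco : co p v = min (kap v p) 1 - max (p.s v) 0 := by
      unfold co at hpos ⊢
      exact max_eq_right (by
        by_contra hlt
        push Not at hlt
        rw [max_eq_left hlt.le] at hpos
        exact lt_irrefl _ hpos)
    have h1 := kap_le_of_lt hlt
    obtain ⟨x', hx'⟩ := h.1 w
    have h2 := abs_le.1 hx'
    have h3 : x' ≤ p'.top (max (p.s w) 0 + e) := by
      rw [p'.le_top_iff]
      have := le_max_left (p.s w) 0
      linarith [h2.1]
    rw [← heq, p'.le_top_iff] at h3
    have h4 : min (kap v p) 1 ≤ kap v p := min_le_left _ _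
    linarith [h2.2]
  rcases lt_trichotomy (p.s v) (p.s w) with hlt | heq | hlt
  · exact absurd hvw (key v w hv hlt)
  · rw [mem_carr] at hcv hcw
    rw [← hcv, ← hcw, heq]
  · exact absurd hvw.symm (key w v hw hlt)

theorem tail_near_le {e : ℝ} (he : 0 ≤ e) {p p' : Pt L} (h : Near e p p') (k : ℕ) :
    tail k (co p') ≤ tail k (co p) + 2 * k * e := by
  classical
  obtain ⟨s, -, hs, -⟩ := coord p
  obtain ⟨s', -, hs', -⟩ := coord p'
  obtain ⟨σ, -, hσc, hσ⟩ := hs.exists_tail k
  set σ1 := σ.filter fun v => 2 * e < co p v with hσ1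
  set ψ : L → L := fun v => p'.top (max (p.s v) 0 + e) with hψ
  have hinj : Set.InjOn ψ (σ1 : Set L) := by
    intro v hv w hw hvw
    exact top_inj h he (Finset.mem_filter.1 hv).2 (Finset.mem_filter.1 hw).2 hvw
  have hcard : (σ1.image ψ).card ≤ k :=
    Finset.card_image_le.trans ((Finset.card_filter_le _ _).trans hσc)
  have h1 := hs'.tail_le hcard
  have h2 : ∑ v ∈ σ1.image ψ, co p' v = ∑ v ∈ σ1, co p' (ψ v) :=
    Finset.sum_image fun x hx y hy hxy => hinj hx hy hxy
  have h3 : ∑ v ∈ σ, co p v ≤ (∑ v ∈ σ1, co p' (ψ v)) + ∑ v ∈ σ, 2 * e := by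
    rw [hσ1, Finset.sum_filter, ← Finset.sum_add_distrib]
    refine Finset.sum_le_sum fun v _ => ?_
    split_ifs with hif
    · have := co_near h hif he
      simp only [hψ]
      linarith
    · linarith
  have h4 : ∑ _v ∈ σ, 2 * e ≤ 2 * k * e := by
    rw [Finset.sum_const, nsmul_eq_mul]
    have : (σ.card : ℝ) ≤ k := by exact_mod_cast hσc
    nlinarith
  rw [hσ]
  unfold gs at h1 ⊢
  rw [h2] at h1
  linarith

theorem tail_near {e : ℝ} (he : 0 ≤ e) {p p' : Pt L} (h : Near e p p') (k : ℕ) :
    |tail k (co p) - tail k (co p')| ≤ 2 * k * e := by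
  have h1 := tail_near_le he h k
  have h2 := tail_near_le he h.symm' k
  rw [abs_le]
  constructor <;> linarith

end

end Pool.Agent.LSH
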