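import Pool.Agent.Lib.LSH.Cls
import Pool.Agent.Lib.LSH.Close
import Pool.Agent.Lib.LSH.Classes
import Pool.Agent.Lib.LSH.FewWin
import Pool.Agent.Lib.LSH.TailNear

/-!
# Semilattices with a shift: few windows and few classes, final form
-/

set_option autoImplicit false

open Set

namespace Pool.Agent.LSH

open Pool.Agent.TD Pool.Agent.ND Pool.Agent.GLN

theorem few_clsT (L : Type) [SemilatticeSup L] [HasShift L] :
    ∃ M C : ℕ, 0 < M ∧ FewWinC (co : Pt L → L → ℝ) geo M ∧
      FewClsT (co : Pt L → L → ℝ) geo (HasShift.d L) M C :=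
  few_clsT' L fewWin (fun hP _ _ h => h.near hP) (win_classes L)
    fun he _ _ h k => tail_near he h k

theorem few_cls (L : Type) [SemilatticeSup L] [HasShift L] :
    ∃ M C : ℕ, 0 < M ∧ FewWinC (co : Pt L → L → ℝ) geo M ∧
      FewClsC (co : Pt L → L → ℝ) geo (HasShift.d L) M C := by
  obtain ⟨M, C, h1, h2, h3⟩ := few_clsT L
  exact ⟨M, C, h1, h2, h3.toC⟩

end Pool.Agent.LSH
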