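import Mathlib
import Pool.Agent.Lib.LSH.Cells
import Pool.Agent.Lib.MP_98022b_gln.ConeDefs

/-!
# Semilattices with a shift: small covers
-/

set_option autoImplicit false
set_option linter.unusedSectionVars false

open Set

namespace Pool.Agent.LSH

open Pool.Agent.GLN

section
variable {L : Type} [SemilatticeSup L] [HasShift L]

/-- a finite set of positive reals has a positive lower bound -/
theorem exists_min_pos {F : Set ℝ} (hF : F.Finite) (h : ∀ v ∈ F, 0 < v) :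
    ∃ δ : ℝ, 0 < δ ∧ ∀ v ∈ F, δ ≤ v := by
  rcases F.eq_empty_or_nonempty with he | hne
  · exact ⟨1, one_pos, by rw [he]; simp⟩
  · obtain ⟨m, hm, hmin⟩ := Set.exists_min_image F id hF hne
    exact ⟨m, h m hm, hmin⟩

/-- the set of the points with values in the gaps `a` of the grid `c + ℤ / N` -/
def box (N : ℕ) (c : ℝ) (a : L → ℤ) : Set (Pt L) :=
  {p | ∀ x, (a x : ℝ) < N * p.s x - c ∧ N * p.s x - c < a x + 1}

theorem isOpen_box {N : ℕ} (hN : 0 < N) (c : ℝ) (a : L → ℤ) : IsOpen (box N c a) := by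
  rw [Metric.isOpen_iff]
  intro p hp
  have hN0 : (0 : ℝ) < N := by exact_mod_cast hN
  obtain ⟨δ, hδ, hmin⟩ := exists_min_pos
    (F := (fun v : ℝ => min (Int.fract (N * v - c)) (1 - Int.fract (N * v - c))) ''
      (range p.s ∩ Ico 0 1)) ((values_finite p).image _) (by
      rintro _ ⟨v, ⟨⟨x, rfl⟩, -⟩, rfl⟩
      have h1 := hp x
      refine lt_min ?_ ?_
      · rw [Int.fract_pos]
        intro h2
        have h3 : (a x : ℝ) < ⌊(N : ℝ) * p.s x - c⌋ := by rw [← h2]; exact h1.1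
        have h4 : (⌊(N : ℝ) * p.s x - c⌋ : ℝ) < a x + 1 := by rw [← h2]; exact h1.2
        have h5 : a x < ⌊(N : ℝ) * p.s x - c⌋ := by exact_mod_cast h3
        have h6 : ⌊(N : ℝ) * p.s x - c⌋ < a x + 1 := by exact_mod_cast h4
        omega
      · have := Int.fract_lt_one ((N : ℝ) * p.s x - c)
        linarith)
  have hall : ∀ x, a x + δ ≤ N * p.s x - c ∧ N * p.s x - c + δ ≤ a x + 1 := by
    intro x
    have h1 := hmin _ ⟨p.s x - ⌊p.s x⌋, ⟨⟨sh (-⌊p.s x⌋) x, by rw [p.s_sh]; push_cast; ring⟩,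
      by linarith [Int.floor_le (p.s x)], by linarith [Int.lt_floor_add_one (p.s x)]⟩, rfl⟩
    have h2 : Int.fract ((N : ℝ) * (p.s x - ⌊p.s x⌋) - c) = Int.fract ((N : ℝ) * p.s x - c) := by
      have h3 : (N : ℝ) * (p.s x - ⌊p.s x⌋) - c =
          N * p.s x - c - (((N : ℤ) * ⌊p.s x⌋ : ℤ) : ℝ) := by
        push_cast
        ring
      rw [h3, Int.fract_sub_intCast]
    simp only [h2] at h1
    have h4 : ⌊(N : ℝ) * p.s x - c⌋ = a x := by
      rw [Int.floor_eq_iff]
      exact ⟨(hp x).1.le, (hp x).2⟩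
    have h5 : Int.fract ((N : ℝ) * p.s x - c) = N * p.s x - c - a x := by
      unfold Int.fract
      rw [h4]
    rw [h5] at h1
    have h6 := h1.trans (min_le_left _ _)
    have h7 := h1.trans (min_le_right _ _)
    constructor <;> linarith
  refine ⟨δ / N, by positivity, fun q hq x => ?_⟩
  rw [Metric.mem_ball, lt_div_iff₀ hN0] at hq
  have h1 := abs_le.1 (abs_le_dist q p x)
  have h2 := hall x
  have h3 : (N : ℝ) * (q.s x - p.s x) ≤ N * dist q p := mul_le_mul_of_nonneg_left h1.2 hN0.le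
  have h4 : (N : ℝ) * -dist q p ≤ N * (q.s x - p.s x) := mul_le_mul_of_nonneg_left h1.1 hN0.le
  constructor <;> nlinarith

theorem dist_box {N : ℕ} (hN : 0 < N) {c : ℝ} {a : L → ℤ} {p q : Pt L} (hp : p ∈ box N c a)
    (hq : q ∈ box N c a) : dist p q ≤ 1 / N := by
  have hN0 : (0 : ℝ) < N := by exact_mod_cast hN
  refine dist_le_of fun x => ?_
  have h1 := hp x
  have h2 := hq x
  rw [le_div_iff₀ hN0]
  have h3 : |p.s x - q.s x| * N = |(N : ℝ) * p.s x - N * q.s x| := by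
    rw [← mul_sub, abs_mul, abs_of_pos hN0, mul_comm]
  rw [h3, abs_le]
  constructor <;> linarith [h1.1, h1.2, h2.1, h2.2]

/-- some of the grids `j / (d + 1) + ℤ`, `j ≤ d`, contains no value -/
theorem exists_grid {N : ℕ} (hN : 0 < N) (p : Pt L) : ∃ (j : Fin (HasShift.d L + 1)) (a : L → ℤ),
    p ∈ box N (((j : ℕ) : ℝ) / (HasShift.d L + 1)) a := by
  by_contra hcon
  push Not at hcon
  set d := HasShift.d L with hd
  have hd0 : (0 : ℝ) < d + 1 := by positivity
  have hN0 : (0 : ℝ) < N := by exact_mod_cast hN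
  obtain ⟨C, hC, -⟩ := exists_cell p
  have hnZ : (0 : ℤ) < C.n := by exact_mod_cast C.pos
  have hbad : ∀ j : Fin (d + 1), ∃ i : Fin C.n, ∃ m : ℤ,
      (N : ℝ) * p.s (C.e i) - ((j : ℕ) : ℝ) / (d + 1) = m := by
    intro j
    have h1 := hcon j fun x => ⌊(N : ℝ) * p.s x - ((j : ℕ) : ℝ) / (d + 1)⌋
    have h2 : ∃ x, (N : ℝ) * p.s x - ((j : ℕ) : ℝ) / (d + 1) =
        ⌊(N : ℝ) * p.s x - ((j : ℕ) : ℝ) / (d + 1)⌋ := by
      by_contra hne
      push Not at hne
      exact h1 fun x => ⟨lt_of_le_of_ne (Int.floor_le _) (Ne.symm (hne x)),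
        Int.lt_floor_add_one _⟩
    obtain ⟨x, hx⟩ := h2
    have h3 := Int.emod_nonneg (C.idx x) hnZ.ne'
    have h4 := Int.emod_lt_of_pos (C.idx x) hnZ
    refine ⟨⟨(C.idx x % C.n).toNat, by omega⟩,
      ⌊(N : ℝ) * p.s x - ((j : ℕ) : ℝ) / (d + 1)⌋ - N * (C.idx x / C.n), ?_⟩
    have h5 : (((C.idx x % C.n).toNat : ℕ) : ℤ) = C.idx x % C.n := Int.toNat_of_nonneg h3
    show (N : ℝ) * p.s (C.e (((C.idx x % C.n).toNat : ℕ) : ℤ)) - ((j : ℕ) : ℝ) / (d + 1) = _
    rw [h5]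
    have h6 : C.idx x = C.idx x % C.n + (C.idx x / C.n) * C.n := by
      have := Int.emod_add_mul_ediv (C.idx x) C.n
      rw [mul_comm (C.idx x / (C.n : ℤ))]
      exact this.symm
    have h7 : p.s x = p.s (C.e (C.idx x % C.n)) + ((C.idx x / C.n : ℤ) : ℝ) := by
      rw [hC x]
      conv_lhs => rw [h6]
      rw [C.per_mul, p.s_sh]
    rw [h7] at hx
    push_cast
    rw [h7]
    linarith
  choose g hg using hbad
  obtain ⟨j, j', hne, hgg⟩ := Fintype.exists_ne_map_eq_of_card_lt g (by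
    rw [Fintype.card_fin, Fintype.card_fin]
    have := C.n_le
    omega)
  obtain ⟨m, hm⟩ := hg j
  obtain ⟨m', hm'⟩ := hg j'
  rw [← hgg] at hm'
  have h1 : ((j : ℕ) : ℝ) / (d + 1) - ((j' : ℕ) : ℝ) / (d + 1) = m' - m := by linarith
  rw [← sub_div, div_eq_iff hd0.ne'] at h1
  have h2 : (((j : ℕ) : ℤ) - ((j' : ℕ) : ℤ)) = (m' - m) * (d + 1) := by exact_mod_cast h1
  have h3 := j.2
  have h4 := j'.2
  have h5 : ((j : ℕ) : ℤ) ≠ ((j' : ℕ) : ℤ) := fun h => hne (Fin.ext (by exact_mod_cast h))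
  rcases lt_trichotomy (m' - m) 0 with h | h | h
  · have h6 : (m' - m) * ((d : ℤ) + 1) ≤ -1 * ((d : ℤ) + 1) :=
      mul_le_mul_of_nonneg_right (by omega) (by omega)
    omega
  · rw [h, zero_mul] at h2
    omega
  · have h6 : 1 * ((d : ℤ) + 1) ≤ (m' - m) * ((d : ℤ) + 1) :=
      mul_le_mul_of_nonneg_right (by omega) (by omega)
    omega

/-- the space has small covers of multiplicity at most `d + 1` -/
theorem smallCovers_pt : SmallCovers (Pt L) (HasShift.d L) := by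
  intro ε hε
  obtain ⟨N, hN⟩ := exists_nat_gt (1 / ε)
  have hN0 : (0 : ℝ) < N := lt_trans (by positivity) hN
  have hNpos : 0 < N := by exact_mod_cast hN0
  refine ⟨Fin (HasShift.d L + 1) × (L → ℤ),
    fun k => box N (((k.1 : ℕ) : ℝ) / (HasShift.d L + 1)) k.2, fun k => isOpen_box hNpos _ _, ?_,
    ?_, ?_⟩
  · rw [eq_univ_iff_forall]
    intro p
    obtain ⟨j, a, h⟩ := exists_grid hNpos p
    exact mem_iUnion.2 ⟨(j, a), h⟩
  · intro k p hp q hq
    refine (dist_box hNpos hp hq).trans_lt ?_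
    rw [div_lt_iff₀ hN0]
    rw [div_lt_iff₀ hε] at hN
    linarith
  · intro p
    have hinj : Set.InjOn (fun k : Fin (HasShift.d L + 1) × (L → ℤ) => k.1)
        {k | p ∈ box N (((k.1 : ℕ) : ℝ) / (HasShift.d L + 1)) k.2} := by
      rintro ⟨j, a⟩ hk ⟨j', a'⟩ hk' hjj
      simp only at hjj
      subst hjj
      refine Prod.ext rfl (funext fun x => ?_)
      have h1 : (a x : ℝ) < a' x + 1 := (hk x).1.trans (hk' x).2
      have h2 : (a' x : ℝ) < a x + 1 := (hk' x).1.trans (hk x).2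
      have h3 : a x < a' x + 1 := by exact_mod_cast h1
      have h4 : a' x < a x + 1 := by exact_mod_cast h2
      show a x = a' x
      omega
    rw [← hinj.encard_image]
    refine (Set.encard_le_encard (subset_univ _)).trans ?_
    rw [Set.encard_univ]
    simp

end

theorem smallCovers (L : Type) [SemilatticeSup L] [HasShift L] :
    ∃ n : ℕ, SmallCovers (Pt L) n := ⟨_, smallCovers_pt⟩

end Pool.Agent.LSH
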