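import Pool.Agent.Lib.LSH.Abs
import Pool.Agent.Lib.LSH.Iface

/-!
# The discretization of a space with coordinates: the row R9
-/

set_option autoImplicit false

open Set Filter Topology

open scoped Pointwise

namespace Pool.Agent.LSH

open Pool.Agent.TD Pool.Agent.ND Pool.Agent.GLN

section

variable {X V Γ : Type} [MetricSpace X] [Group Γ] [MulAction Γ X] [MulAction Γ V] {co : X → V → ℝ}
  {d : ℕ} {Lc : ℝ}

theorem tail_smulC (h : IsCo co d Lc) (hco : ∀ (g : Γ) x v, co (g • x) (g • v) = co x v) (g : Γ)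
    (x : X) (k : ℕ) : tail k (co (g • x)) = tail k (co x) := by
  obtain ⟨s, _, hs, _⟩ := h.pt x
  obtain ⟨s', _, hs', _⟩ := h.pt (g • x)
  exact tail_transp hs hs' (ψ := fun v => g • v) (fun a _ b _ hab => smul_left_cancel g hab)
    (fun v _ => hco g x v) k

theorem bigSet_smul (h : IsCo co d Lc) (hco : ∀ (g : Γ) x v, co (g • x) (g • v) = co x v) (g : Γ)
    (x : X) (r : ℕ → ℝ) : bigSet co r (g • x) = g • bigSet co r x := by
  have hlev : lev r (co (g • x)) = lev r (co x) :=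
    lev_congr fun k => by rw [tail_smulC h hco]
  ext v
  rw [mem_smul_set_iff_inv_smul_mem]
  show r (lev r (co (g • x))) ≤ co (g • x) v ↔ r (lev r (co x)) ≤ co x (g⁻¹ • v)
  rw [hlev]
  have h1 : co (g • x) v = co x (g⁻¹ • v) := by
    rw [← hco g x (g⁻¹ • v), smul_inv_smul]
  rw [h1]

theorem bigSet_pos (h : IsCo co d Lc) {r : ℕ → ℝ} (hr : IsThr r) (x : X) :
    (bigSet co r x).Nonempty ∧ ∀ v ∈ bigSet co r x, 0 < co x v := by
  obtain ⟨s, _, hs, _⟩ := h.pt x
  obtain ⟨σ, _, hne, _, _, hmem⟩ := exists_state hr hs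
  obtain ⟨v, hv⟩ := hne
  exact ⟨⟨v, (hmem v).1 hv⟩, fun v hv => (hr.pos _).trans_le hv⟩

end

theorem exists_discC {X V V' Γ : Type} [MetricSpace X] [Group Γ] [MulAction Γ X] [MulAction Γ V]
    [MulAction Γ V'] {geo : X → X → ℝ → X} {co : X → V → ℝ} {d : ℕ} (hd1 : 1 ≤ d)
    (hpt : Coord d co) {Lc : ℝ} (hL : 0 < Lc)
    (hlip : ∀ x y v, |co x v - co y v| ≤ Lc * dist x y)
    (hco : ∀ (g : Γ) x v, co (g • x) (g • v) = co x v) {M C : ℕ} (hM : 0 < M)
    (hfew : FewWinC co geo M) (hcls : FewClsC co geo d M C) (f : Set V → V') (pos : V' → X)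
    (hf : ∀ (g : Γ) (x : X) (σ : Set V), σ.Nonempty → (∀ v ∈ σ, 0 < co x v) →
      f (g • σ) = g • f σ)
    (hpos : ∀ (x : X) (σ : Set V), σ.Nonempty → (∀ v ∈ σ, 0 < co x v) →
      dist (pos (f σ)) x ≤ Lc) :
    Nonempty (DiscQ Thr Γ X V' (fun v w => ⌊dist (pos v) (pos w)⌋₊) geo) := by
  have h : IsCo co d Lc := ⟨hpt, hlip⟩
  refine ⟨discC h hL hd1 hM ?_ hcls f (fun r g x => ?_) (fun g x k => tail_smulC h hco g x k)
    ⟨⌈2 * Lc⌉₊ + 1, fun r r' w w' => ?_⟩⟩
  · intro x y n a b h1 h2 h3 h4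
    obtain ⟨w, hw⟩ := hfew x y n a b h1 h2 h3 h4
    refine ⟨w.t, ?_, w.mono, w.t0, w.tP, ?_⟩
    · intro s hs s' hs'
      show dist (endPt geo x y (a + s)) (endPt geo x y (a + s')) ≤ |s - s'|
      rw [← hw s, ← hw s']
      exact (w.geod s hs s' hs').le
    · intro i hi
      obtain ⟨p, q, hpq⟩ := w.aff i hi
      refine ⟨p, q, fun s hs v => ?_⟩
      show co (endPt geo x y (a + s)) v = _
      rw [← hw s]
      exact hpq s hs v
  · rw [bigSet_smul h hco]
    obtain ⟨h1, h2⟩ := bigSet_pos h r.2 x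
    exact hf g x _ h1 h2
  · obtain ⟨h1, h2⟩ := bigSet_pos h r.2 w
    obtain ⟨h1', h2'⟩ := bigSet_pos h r'.2 w'
    have h3 := hpos w _ h1 h2
    have h4 := hpos w' _ h1' h2'
    set p := pos (f (bigSet co r.1 w)) with hp
    set p' := pos (f (bigSet co r'.1 w')) with hp'
    have h5 := Nat.le_ceil (2 * Lc)
    have h6 := Nat.floor_le (dist_nonneg : 0 ≤ dist p p')
    have h7 := Nat.lt_floor_add_one (dist p p')
    have h8 := dist_triangle4 p w w' p'
    have h9 := dist_triangle4 w p p' w'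
    rw [dist_comm w' p'] at h8
    rw [dist_comm w p] at h9
    push_cast
    constructor <;> linarith

end Pool.Agent.LSH
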