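import Pool.Agent.Lib.LSH.LineP

/-!
# The discretization of a space with coordinates, with the index property for the line
-/

set_option autoImplicit false

open Set Filter Topology

open scoped Pointwise

namespace Pool.Agent.LSH

open Pool.Agent.TD Pool.Agent.ND Pool.Agent.GLN

theorem exists_discCL {X V V' Γ : Type} [MetricSpace X] [Group Γ] [MulAction Γ X] [MulAction Γ V]
    [MulAction Γ V'] {geo : X → X → ℝ → X} (hb : Bicomb X geo) {co : X → V → ℝ} {d : ℕ}
    (hd1 : 1 ≤ d) (hpt : Coord d co) {Lc : ℝ} (hL : 0 < Lc)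
    (hlip : ∀ x y v, |co x v - co y v| ≤ Lc * dist x y)
    (hco : ∀ (g : Γ) x v, co (g • x) (g • v) = co x v) {M C : ℕ} (hM : 0 < M)
    (hfew : FewWinC co geo M) (hcls : FewClsT co geo d M C) (f : Set V → V') (pos : V' → X)
    (hf : ∀ (g : Γ) (x : X) (σ : Set V), σ.Nonempty → (∀ v ∈ σ, 0 < co x v) →
      f (g • σ) = g • f σ)
    (hpos : ∀ (x : X) (σ : Set V), σ.Nonempty → (∀ v ∈ σ, 0 < co x v) →
      dist (pos (f σ)) x ≤ Lc) :
    ∃ Δ : DiscQ Thr Γ X V' (fun v w => ⌊dist (pos v) (pos w)⌋₊) geo, PairsL Δ := by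
  have h : IsCo co d Lc := ⟨hpt, hlip⟩
  have hfew' : FewP co geo M := by
    intro x y n a b h1 h2 h3 h4
    obtain ⟨w, hw⟩ := hfew x y n a b h1 h2 h3 h4
    refine ⟨w.t, ?_, w.mono, w.t0, w.tP, ?_⟩
    · intro s hs s' hs'
      show dist (endPt geo x y (a + s)) (endPt geo x y (a + s')) ≤ |s - s'|
      rw [← hw s, ← hw s']
      exact (w.geod s hs s' hs').le
    · intro i hi
      obtain ⟨p, q, hpq⟩ := w.aff i hi
      refine ⟨p, q, fun s hs v => ?_⟩
      show co (endPt geo x y (a + s)) v = _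
      rw [← hw s]
      exact hpq s hs v
  refine ⟨discC h hL hd1 hM hfew' hcls.toC f (fun r g x => ?_) (fun g x k => tail_smulC h hco g x k)
    ⟨⌈2 * Lc⌉₊ + 1, fun r r' w w' => ?_⟩, ?_⟩
  · rw [bigSet_smul h hco]
    obtain ⟨h1, h2⟩ := bigSet_pos h r.2 x
    exact hf g x _ h1 h2
  · obtain ⟨h1, h2⟩ := bigSet_pos h r.2 w
    obtain ⟨h1', h2'⟩ := bigSet_pos h r'.2 w'
    have h3 := hpos w _ h1 h2
    have h4 := hpos w' _ h1' h2'
    set p := pos (f (bigSet co r.1 w)) with hp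
    set p' := pos (f (bigSet co r'.1 w')) with hp'
    have h5 := Nat.le_ceil (2 * Lc)
    have h6 := Nat.floor_le (dist_nonneg : 0 ≤ dist p p')
    have h7 := Nat.lt_floor_add_one (dist p p')
    have h8 := dist_triangle4 p w w' p'
    have h9 := dist_triangle4 w p p' w'
    rw [dist_comm w' p'] at h8
    rw [dist_comm w p] at h9
    push_cast
    constructor <;> linarith
  · exact pairsL_of_fewP h hL hM hfew' hcls (Lc := ⌈d * Lc⌉₊ + 1)
      (by push_cast; linarith [Nat.le_ceil (d * Lc)]) (by omega)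
      fun x y s t h0 h1 h2 h3 => dist_endPt_le' hb h0 h1 h2 h3

end Pool.Agent.LSH
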