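import Pool.Agent.Lib.LSH.Mem
import Pool.Agent.Lib.MP_98022b_cc.MedMain

/-!
# Semilattices with a shift: actions with small stabilizers, quasi-Garside groups
-/

set_option autoImplicit false
set_option linter.unusedSectionVars false

open Set

namespace Pool.Agent.LSH

open Pool.Agent.FJ Pool.Agent.CCC Pool.Agent.TD Pool.Agent.ND Pool.Agent.GLN Pool.Agent.FA

/-- No labels. -/
theorem isLab_none (Γ : Type) {V : Type} [Group Γ] [MulAction Γ V] :
    IsLab Γ (fun (_ : Set V) (_ : Unit) => False) where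
  unique _ _ _ h := h.elim
  smul _ _ _ h := h
  conv _ _ _ _ _ _ h := h.elim

/-- A group acting on a semilattice with a shift is in the class if the stabilizers of the elements
are in the class, in each increasing sequence of far finite sets of a given length two consecutive
sets have the same pointwise stabilizer, and for a pointwise stabilizer `J` of a far finite set and
an element `t` which normalizes `J` the group generated by `J` and `t` is in the class. -/
theorem mem_of_shift {P : ∀ (G : Type) [Group G], Prop} (hP : IsFJClassT P)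
    {Γ L : Type} [Group Γ] [SemilatticeSup L] [HasShift L] [Nonempty L] [ShiftAct Γ L] (k l : ℕ)
    (hv : ∀ v : L, P (MulAction.stabilizer Γ v))
    (hchain : ∀ T : ℕ → Set L, (∀ i, (T i).Finite) → (∀ i, T i ⊆ T (i + 1)) →
      (∃ v ∈ T 0, ∃ w ∈ T 0, ¬ w ≤ sh k v) →
      ∃ i < l, fixingSubgroup Γ (T i) = fixingSubgroup Γ (T (i + 1)))
    (hnorm : ∀ T : Set L, T.Finite → (∃ v ∈ T, ∃ w ∈ T, ¬ w ≤ sh k v) → ∀ t : Γ,
      (∀ j, j ∈ fixingSubgroup Γ T ↔ t * j * t⁻¹ ∈ fixingSubgroup Γ T) →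
      P (fixingSubgroup Γ T ⊔ Subgroup.zpowers t : Subgroup Γ)) : P Γ :=
  mem_of_shiftL hP k l hv (isLab_none Γ) (fun T h1 h2 h3 => by
    obtain ⟨i, hi, h⟩ := hchain T h1 h2 h3
    exact ⟨i, hi, Or.inl h⟩) hnorm (fun _ _ _ _ h => h.elim)

/-- A group `G` acting on a join semilattice `L` with an automorphism `φ` such that `x < φ x`, the
elements `φ^k x` are cofinal and the chains from `x` to `φ x` have at most `d` steps. The action
preserves the order and commutes with `φ`, and the stabilizers are finite of bounded order. -/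
theorem mem_of_fin {P : ∀ (G : Type) [Group G], Prop} (hP : IsFJClassT P) {G L : Type} [Group G]
    [SemilatticeSup L] [Nonempty L] [MulAction G L] (φ : L ≃o L) (d N : ℕ)
    (hφ : ∀ x, x < φ x) (hcof : ∀ x y, ∃ k : ℕ, y ≤ φ^[k] x)
    (hd : ∀ (m : ℕ) (c : ℕ → L), (∀ i < m, c i < c (i + 1)) → c m ≤ φ (c 0) → m ≤ d)
    (hmono : ∀ (g : G) (x y : L), x ≤ y → g • x ≤ g • y)
    (hcomm : ∀ (g : G) (x : L), g • φ x = φ (g • x))
    (hfin : ∀ x : L, Finite (MulAction.stabilizer G x))
    (hcard : ∀ x : L, Nat.card (MulAction.stabilizer G x) ≤ N) : P G := by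
  letI : HasShift L := ⟨φ, d, hφ, hcof, hd⟩
  letI : ShiftAct G L := { mono := fun g {x y} h => hmono g x y h, phi := hcomm }
  have hle : ∀ T : Set L, ∀ v ∈ T, fixingSubgroup G T ≤ MulAction.stabilizer G v := by
    intro T v hv g hg
    exact (mem_fixingSubgroup_iff G).1 hg v hv
  have hf : ∀ T : Set L, ∀ v ∈ T, Finite (fixingSubgroup G T) := by
    intro T v hv
    have := hfin v
    exact Finite.of_injective _ (Subgroup.inclusion_injective (hle T v hv))
  refine mem_of_shift hP (L := L) 0 (N + 1) (fun v => ?_) (fun T _ hmono' hfar => ?_)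
    (fun T _ hfar t ht => ?_)
  · have := hfin v
    exact hP.toIsFJClass.of_finite
  · obtain ⟨v, hv, -⟩ := hfar
    have := hfin v
    exact exists_eq_of_card (fun i => fixingSubgroup G (T i))
      (fun i => fixingSubgroup_antitone G _ (hmono' i)) (hf (T 0) v hv)
      ((Subgroup.card_le_of_le (hle (T 0) v hv)).trans (hcard v))
  · obtain ⟨v, hv, -⟩ := hfar
    exact IsFJClass_sup_zpowers hP.toIsFJClass (hf T v hv) ht

/-- Quasi-Garside groups of finite height: `M` is a submonoid of the group `G` without inverses,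
`x ≤ y` means `x⁻¹ * y ∈ M`, any two elements have a least upper bound, `Δ ∈ M` normalizes `M`,
the elements `Δ^k` are cofinal, and the chains of left divisors of `Δ` have at most `d` steps. -/
theorem mem_of_garside {P : ∀ (G : Type) [Group G], Prop} (hP : IsFJClassT P) {G : Type} [Group G]
    (M : Submonoid G) (Δ : G) (d : ℕ)
    (hM : ∀ x ∈ M, x⁻¹ ∈ M → x = 1)
    (hjoin : ∀ g : G, ∃ h, h ∈ M ∧ g⁻¹ * h ∈ M ∧ ∀ z, z ∈ M → g⁻¹ * z ∈ M → h⁻¹ * z ∈ M)
    (hΔM : Δ ∈ M) (hΔ : ∀ x, x ∈ M ↔ Δ⁻¹ * x * Δ ∈ M)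
    (hcof : ∀ g : G, ∃ k : ℕ, g * Δ ^ k ∈ M)
    (hd : ∀ (m : ℕ) (c : ℕ → G), c 0 = 1 →
      (∀ i < m, (c i)⁻¹ * c (i + 1) ∈ M ∧ c i ≠ c (i + 1)) → (c m)⁻¹ * Δ ∈ M → m ≤ d) : P G := by
  by_cases hΔ1 : Δ = 1
  · have hall : ∀ g : G, g ∈ M := by
      intro g
      obtain ⟨k, hk⟩ := hcof g
      rwa [hΔ1, one_pow, mul_one] at hk
    have : Subsingleton G := ⟨fun x y => by
      rw [hM x (hall x) (hall _), hM y (hall y) (hall _)]⟩
    exact hP.toIsFJClass.of_subsingleton
  choose j hj1 hj2 hj3 using hjoin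
  letI : SemilatticeSup G :=
    { le := fun x y => x⁻¹ * y ∈ M
      le_refl := fun x => by
        show x⁻¹ * x ∈ M
        rw [inv_mul_cancel]
        exact M.one_mem
      le_trans := fun x y z hxy hyz => by
        show x⁻¹ * z ∈ M
        have : x⁻¹ * z = (x⁻¹ * y) * (y⁻¹ * z) := by group
        rw [this]
        exact M.mul_mem hxy hyz
      le_antisymm := fun x y hxy hyx => by
        have h1 : (x⁻¹ * y)⁻¹ ∈ M := by
          rw [mul_inv_rev, inv_inv]
          exact hyx
        have h2 := hM _ hxy h1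
        have h3 : x * (x⁻¹ * y) = x * 1 := by rw [h2]
        rw [mul_inv_cancel_left, mul_one] at h3
        exact h3.symm
      sup := fun x y => x * j (x⁻¹ * y)
      le_sup_left := fun x y => by
        show x⁻¹ * (x * j (x⁻¹ * y)) ∈ M
        rw [inv_mul_cancel_left]
        exact hj1 _
      le_sup_right := fun x y => by
        show y⁻¹ * (x * j (x⁻¹ * y)) ∈ M
        have h1 := hj2 (x⁻¹ * y)
        have h2 : (x⁻¹ * y)⁻¹ * j (x⁻¹ * y) = y⁻¹ * (x * j (x⁻¹ * y)) := by group
        rwa [h2] at h1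
      sup_le := fun x y z hxz hyz => by
        show (x * j (x⁻¹ * y))⁻¹ * z ∈ M
        have h1 := hj3 (x⁻¹ * y) (x⁻¹ * z) hxz (by
          have h2 : (x⁻¹ * y)⁻¹ * (x⁻¹ * z) = y⁻¹ * z := by group
          rw [h2]
          exact hyz)
        have h2 : (j (x⁻¹ * y))⁻¹ * (x⁻¹ * z) = (x * j (x⁻¹ * y))⁻¹ * z := by group
        rwa [h2] at h1 }
  have hle : ∀ x y : G, x ≤ y ↔ x⁻¹ * y ∈ M := fun x y => Iff.rfl
  let φ : G ≃o G :=
    { toFun := fun x => x * Δ
      invFun := fun x => x * Δ⁻¹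
      left_inv := fun x => by simp
      right_inv := fun x => by simp
      map_rel_iff' := fun {a b} => by
        show (a * Δ)⁻¹ * (b * Δ) ∈ M ↔ a⁻¹ * b ∈ M
        rw [hΔ (a⁻¹ * b)]
        have : (a * Δ)⁻¹ * (b * Δ) = Δ⁻¹ * (a⁻¹ * b) * Δ := by group
        rw [this] }
  have hφ : ∀ x, φ x = x * Δ := fun x => rfl
  have hpow : ∀ (k : ℕ) (x : G), φ^[k] x = x * Δ ^ k := by
    intro k
    induction k with
    | zero => intro x; simp
    | succ k ih =>
      intro x
      rw [Function.iterate_succ_apply', ih, hφ, pow_succ, mul_assoc]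
  refine mem_of_fin hP (L := G) φ d 1 (fun x => ?_) (fun x y => ?_) (fun m c hc hm => ?_)
    (fun g x y hxy => ?_) (fun g x => ?_) (fun x => ?_) (fun x => ?_)
  · refine lt_of_le_of_ne ?_ fun h => hΔ1 ?_
    · rw [hle, hφ, inv_mul_cancel_left]
      exact hΔM
    · rw [hφ] at h
      have h1 : x * 1 = x * Δ := by rw [mul_one]; exact h
      exact (mul_left_cancel h1).symm
  · obtain ⟨k, hk⟩ := hcof (y⁻¹ * x)
    refine ⟨k, ?_⟩
    rw [hle, hpow, ← mul_assoc]
    exact hk
  · refine hd m (fun i => (c 0)⁻¹ * c i) (by simp) (fun i hi => ⟨?_, fun h => ?_⟩) ?_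
    · have h1 := (hle _ _).1 (hc i hi).le
      have h2 : ((c 0)⁻¹ * c i)⁻¹ * ((c 0)⁻¹ * c (i + 1)) = (c i)⁻¹ * c (i + 1) := by group
      rw [h2]
      exact h1
    · exact (hc i hi).ne (mul_left_cancel h)
    · have h1 := (hle _ _).1 hm
      rw [hφ] at h1
      have h2 : ((c 0)⁻¹ * c m)⁻¹ * Δ = (c m)⁻¹ * (c 0 * Δ) := by group
      rw [h2]
      exact h1
  · rw [hle, smul_eq_mul, smul_eq_mul]
    have h2 : (g * x)⁻¹ * (g * y) = x⁻¹ * y := by group
    rw [h2]
    exact hxy
  · rw [hφ, hφ, smul_eq_mul, smul_eq_mul, mul_assoc]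
  · have hs : MulAction.stabilizer G x = ⊥ := by
      rw [eq_bot_iff]
      intro g hg
      have h1 : g * x = x := hg
      exact Subgroup.mem_bot.2 (mul_eq_right.1 h1)
    rw [hs]
    infer_instance
  · have hs : MulAction.stabilizer G x = ⊥ := by
      rw [eq_bot_iff]
      intro g hg
      have h1 : g * x = x := hg
      exact Subgroup.mem_bot.2 (mul_eq_right.1 h1)
    rw [hs]
    simp

end Pool.Agent.LSH
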