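import Pool.Agent.Lib.MP_98022b_tl.LinePairs
import Pool.Agent.Lib.LSH.Disc
import Pool.Agent.Lib.LSH.ClsT

/-!
# The index property for the product of a space with coordinates with the line
-/

set_option autoImplicit false

open Set Filter Topology

open scoped Pointwise

namespace Pool.Agent.LSH

open Pool.Agent.ND Pool.Agent.TD Pool.Agent.GLN

variable {X V : Type} [MetricSpace X] {co : X → V → ℝ} {d : ℕ} {L : ℝ}

/-- The functions of the time which define the states. -/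
noncomputable def fPthC (co : X → V → ℝ) (geo : X → X → ℝ → X) (d : ℕ) {n : ℕ} (ω : Pth X n)
    (k : Fin (d + 1)) (s : ℝ) : ℝ :=
  if (k : ℕ) < d then tail ((k : ℕ) + 1) (co (endPt geo ω.x ω.y (ω.v * s)))
  else zz (ω.a + ω.w * s)

theorem exists_windowC {geo : X → X → ℝ → X} {M : ℕ} (hw : FewP co geo M)
    {n : ℕ} (ω : Pth X n) {T : ℝ} (hT0 : 0 ≤ T) (hT : T ≤ ω.v * (5 * n)) :
    ∃ t : ℕ → ℝ, PWin co (M * (5 * n + 1)) T (endPt geo ω.x ω.y) t := by
  have h5 : ω.v * (5 * n) ≤ 5 * n := by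
    have := mul_le_mul_of_nonneg_right ω.v1 (by positivity : (0 : ℝ) ≤ 5 * n)
    linarith
  obtain ⟨t, ht⟩ := hw ω.x ω.y (5 * n) 0 T le_rfl hT0 (hT.trans ω.le) (by push_cast; linarith)
  exact ⟨t, ht.congr (sub_zero T) fun s => by rw [zero_add]⟩

theorem pcc_fPthC (h : IsCo co d L) {geo : X → X → ℝ → X} {M : ℕ} (hM : 0 < M)
    (hw : FewP co geo M) (hL : 0 < L) {Lc : ℕ}
    (hLc : d * L ≤ Lc) (hLc1 : 1 ≤ Lc) {n : ℕ} (ω : Pth X n) (k : Fin (d + 1)) :
    ∃ t, Pcc ((M + 2) * (5 * n + 1)) (5 * n) Lc t (fPthC co geo d ω k) := by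
  have hLc0 : (1 : ℝ) ≤ Lc := by exact_mod_cast hLc1
  have hn0 : (0 : ℝ) ≤ 5 * n := by positivity
  by_cases hk : (k : ℕ) < d
  · have hf : fPthC co geo d ω k =
        fun s => tail ((k : ℕ) + 1) (co (endPt geo ω.x ω.y (ω.v * s))) := by
      funext s
      exact if_pos hk
    rw [hf]
    rcases ω.v0.eq_or_lt with hv | hv
    · have e : (fun s : ℝ => tail ((k : ℕ) + 1) (co (endPt geo ω.x ω.y (ω.v * s)))) =
          fun _ => tail ((k : ℕ) + 1) (co (endPt geo ω.x ω.y 0)) := by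
        funext s
        rw [← hv, zero_mul]
      rw [e]
      exact pcc_const (by positivity) hn0 (by linarith) _
    · obtain ⟨t, w⟩ := exists_windowC hw ω (mul_nonneg ω.v0 hn0) le_rfl
      have h1 := w.pcc h hL.le (k := (k : ℕ) + 1) hk hLc
      exact (h1.slow hv ω.v1 (by linarith)).pad (Nat.mul_le_mul_right _ (by omega))
  · have hf : fPthC co geo d ω k = fun s => zz (ω.a + ω.w * s) := by
      funext s
      exact if_neg hk
    rw [hf]
    obtain ⟨t, ht⟩ := pcc_zz (n := 5 * n) (a := ω.a) ω.w1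
    push_cast at ht
    refine (ht.monoL hLc0).pad ?_
    nlinarith

/-- The index property. -/
theorem pairsL_of_fewP (h : IsCo co d L) (hL : 0 < L) {geo : X → X → ℝ → X}
    {M C₀ : ℕ} (hM : 0 < M) (hw : FewP co geo M) (hcl : FewClsT co geo d M C₀) {Lc : ℕ}
    (hLc : d * L ≤ Lc) (hLc1 : 1 ≤ Lc)
    (hspeed : ∀ (x y : X) (s t : ℝ), 0 ≤ s → s ≤ dist x y → 0 ≤ t → t ≤ dist x y →
      dist (endPt geo x y s) (endPt geo x y t) ≤ |s - t|) :
    ∃ m A : ℕ, ∀ n : ℕ, 2 ≤ n → ∃ (r : Fin m → Thr × Rho) (δ : Fin m → ℝ) (ε : ℝ), 0 < ε ∧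
      1 / 2 ^ (n ^ A) ≤ ε ∧ (∀ k, ε ≤ δ k ∧ δ k ≤ 1 / 100) ∧
      ∀ (x y : X) (v a w : ℝ), 0 ≤ v → v ≤ 1 → |w| ≤ 1 → v * (5 * n) ≤ dist x y → ∃ k,
        ∀ s ∈ Icc 0 (5 * (n : ℝ)), ∀ s' ∈ Icc 0 (5 * (n : ℝ)),
          ¬ (farC co Lc d (r k).1.1 ε (endPt geo x y (v * s)) ∧ ε ≤ |zz (a + w * s) - (r k).2.1|) →
          ¬ (farC co Lc d (r k).1.1 ε (endPt geo x y (v * s')) ∧
            ε ≤ |zz (a + w * s') - (r k).2.1|) →
          |s - s'| ≤ δ k ∨ 4 * δ k ≤ |s - s'| := by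
  classical
  obtain ⟨C, hC⟩ : ∃ C : ℕ, C = 2 * C₀ + 8 := ⟨_, rfl⟩
  obtain ⟨d', hd'⟩ : ∃ d' : ℕ, d' = 2 * d + 3 := ⟨_, rfl⟩
  obtain ⟨A, hA⟩ := exists_params3s C (M + 2) d' Lc hLc1
  refine ⟨8 * (d' + 1) + 1, A, fun n hn => ?_⟩
  obtain ⟨N, R, w₀, δ, e, ε, hN, hR, hδ, hε, heε, hεδ, hδ1, hεA, h2w, hw1, hw2, hCR, hcard⟩ :=
    hA n hn
  have hn0 : (0 : ℝ) < n := by exact_mod_cast (by omega : 0 < n)
  have hn2 : (2 : ℝ) ≤ n := by exact_mod_cast hn
  obtain ⟨P, hP⟩ : ∃ P, P = (M + 2) * (5 * n + 1) := ⟨_, rfl⟩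
  obtain ⟨P₁, hP₁⟩ : ∃ P₁, P₁ = M * (5 * n + 1) := ⟨_, rfl⟩
  have hPpos : 0 < P := by rw [hP]; positivity
  have hT : (0 : ℝ) < 5 * n := by positivity
  have hR0 : (0 : ℝ) < R := by exact_mod_cast hR
  have hLc0 : (1 : ℝ) ≤ Lc := by exact_mod_cast hLc1
  have he0 : 0 ≤ e := by rw [heε]; positivity
  have hCr : (8 : ℝ) ≤ C := by
    have : 8 ≤ C := by omega
    exact_mod_cast this
  -- the precision
  have hC0 : (0 : ℝ) ≤ C / R := by positivity
  have hprec1 : (C / R : ℝ) ≤ ε := by nlinarith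
  have hprec0 : (C₀ / R : ℝ) ≤ ε / 2 := by
    have h1 : (C₀ / R : ℝ) * 2 ≤ C / R := by
      rw [div_mul_eq_mul_div]
      refine div_le_div_of_nonneg_right ?_ hR0.le
      have : C₀ * 2 ≤ C := by omega
      exact_mod_cast this
    linarith
  have hprec2 : (1 / R : ℝ) * (1 + 5 * n) ≤ ε := by
    refine le_trans ?_ hCR
    rw [div_mul_eq_mul_div, div_mul_eq_mul_div]
    refine div_le_div_of_nonneg_right ?_ hR0.le
    nlinarith
  have hprec3 : (3 / R : ℝ) ≤ ε / 2 := by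
    have h1 : (3 / R : ℝ) ≤ C / R / 2 := by
      rw [div_div, div_le_div_iff₀ hR0 (by positivity)]
      nlinarith
    linarith
  have hRn : 5 * n ≤ R := by
    have h1 : (1 / R : ℝ) * (1 + 5 * n) ≤ 1 := by linarith
    rw [div_mul_eq_mul_div, one_mul, div_le_one hR0] at h1
    have h2 : ((5 * n : ℕ) : ℝ) ≤ R := by
      push_cast
      linarith
    exact_mod_cast h2
  -- the windows of the lengths `i / R`
  obtain ⟨Bd, hBd⟩ : ∃ Bd, Bd = 2 ^ (C₀ * P₁ ^ 3) * (R + 1) ^ (2 * (d + 1)) := ⟨_, rfl⟩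
  obtain ⟨TT, hTT⟩ : ∃ TT : ℕ → ℝ, ∀ i, TT i = min ((i : ℝ) / R) (5 * n) := ⟨_, fun _ => rfl⟩
  have hcls : ∀ i : ℕ, ∃ cls : {p : X × X // TT i ≤ dist p.1 p.2} → Fin Bd,
      ∀ ω ω', cls ω = cls ω' → ∀ k : ℕ, k ≤ d → ∀ s ∈ Icc (0 : ℝ) (TT i),
        |tail k (co (endPt geo ω.1.1 ω.1.2 s)) - tail k (co (endPt geo ω'.1.1 ω'.1.2 s))| ≤
          C₀ / R := by
    intro i
    have h0 : 0 ≤ TT i := by rw [hTT]; positivity
    have h5 : TT i ≤ 5 * n := by rw [hTT]; exact min_le_right _ _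
    obtain ⟨Cl, _, cls, h1, h2⟩ := hcl n R (TT i) hn hR h0 h5
    rw [← hP₁, ← hBd] at h1
    obtain ⟨f⟩ : Nonempty (Cl ↪ Fin Bd) := by
      rw [Function.Embedding.nonempty_iff_card_le, Fintype.card_fin]
      exact h1
    exact ⟨fun w => f (cls w), fun w w' h => h2 w w' (f.injective h)⟩
  choose cls hcls using hcls
  obtain ⟨ix, hix⟩ : ∃ ix : Pth X n → ℕ, ∀ ω, ix ω = ⌊ω.v * (5 * n) * R⌋₊ := ⟨_, fun _ => rfl⟩
  have hTω : ∀ ω : Pth X n, ω.v * (5 * n) ≤ 5 * n := by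
    intro ω
    have := mul_le_mul_of_nonneg_right ω.v1 hT.le
    linarith
  have hTω0 : ∀ ω : Pth X n, 0 ≤ ω.v * (5 * n) := fun ω => mul_nonneg ω.v0 hT.le
  have hix1 : ∀ ω, (ix ω : ℝ) / R ≤ ω.v * (5 * n) := by
    intro ω
    rw [div_le_iff₀ hR0, hix]
    exact Nat.floor_le (mul_nonneg (hTω0 ω) hR0.le)
  have hix2 : ∀ ω, ω.v * (5 * n) ≤ (ix ω : ℝ) / R + 1 / R := by
    intro ω
    rw [← add_div, le_div_iff₀ hR0, hix]
    exact (Nat.lt_floor_add_one _).le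
  have hix3 : ∀ ω, ix ω ≤ 5 * n * R := by
    intro ω
    rw [hix]
    have h1 : ω.v * (5 * n) * R ≤ ((5 * n * R : ℕ) : ℝ) := by
      push_cast
      exact mul_le_mul_of_nonneg_right (hTω ω) hR0.le
    have := Nat.floor_le_floor h1
    rwa [Nat.floor_natCast] at this
  have hTix : ∀ ω, TT (ix ω) = (ix ω : ℝ) / R := by
    intro ω
    rw [hTT, min_eq_left ((hix1 ω).trans (hTω ω))]
  have hTd : ∀ ω : Pth X n, TT (ix ω) ≤ dist (ω.x, ω.y).1 (ω.x, ω.y).2 := by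
    intro ω
    rw [hTix]
    exact (hix1 ω).trans ω.le
  -- the first values
  have hf01 : ∀ (ω : Pth X n) (k : Fin (d + 1)) (s : ℝ), 0 ≤ fPthC co geo d ω k s ∧
      fPthC co geo d ω k s ≤ 1 := by
    intro ω k s
    unfold fPthC
    split_ifs with hk
    · obtain ⟨σ, _, hσ, _⟩ := h.pt (endPt geo ω.x ω.y (ω.v * s))
      refine ⟨hσ.tail_nonneg _, (hσ.tail_le (σ := ∅) (by simp)).trans ?_⟩
      simp [gs]
    · exact ⟨zz_nonneg _, (zz_le_half _).trans (by norm_num)⟩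
  -- the classes
  obtain ⟨cl, hcl'⟩ : ∃ cl : Pth X n → Fin (5 * n * R + 1) × Fin Bd × (Fin (d + 1) → Fin (R + 1)) ×
      Fin (R + 1) × Fin (2 * R + 1), ∀ ω, cl ω = (⟨ix ω, Nat.lt_succ_of_le (hix3 ω)⟩,
        cls (ix ω) ⟨(ω.x, ω.y), hTd ω⟩, (fun k => rnd R R (fPthC co geo d ω k 0)),
        rnd R R (Int.fract ω.a), rnd R (2 * R) (ω.w + 1)) := ⟨_, fun _ => rfl⟩
  have hsame : ∀ (i j : ℕ) (p p' : X × X) (hi : TT i ≤ dist p.1 p.2)
      (hj : TT j ≤ dist p'.1 p'.2) (_ : i = j), cls i ⟨p, hi⟩ = cls j ⟨p', hj⟩ →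
      ∀ k : ℕ, k ≤ d → ∀ s ∈ Icc (0 : ℝ) (TT i),
        |tail k (co (endPt geo p.1 p.2 s)) - tail k (co (endPt geo p'.1 p'.2 s))| ≤ C₀ / R := by
    intro i j p p' hi hj hij hpp k hk s hs
    subst hij
    exact hcls i ⟨p, hi⟩ ⟨p', hj⟩ hpp k hk s hs
  obtain ⟨rv, hrv⟩ : ∃ rv : Fin (d + 1) → Fin N → ℝ,
      ∀ k j, rv k j = (1 + ((j : ℕ) : ℝ) / N) / 4 ^ ((k : ℕ) + 1) := ⟨_, fun _ _ => rfl⟩
  have hN0 : (0 : ℝ) < N := by exact_mod_cast hN
  have hsep : ∀ k j j', j ≠ j' → 2 * w₀ ≤ |rv k j - rv k j'| := by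
    intro k j j' hne
    have h4 : rv k j - rv k j' =
        (((j : ℕ) : ℝ) - ((j' : ℕ) : ℝ)) / (4 ^ ((k : ℕ) + 1) * N) := by
      rw [hrv, hrv]; field_simp; ring
    rw [h4, abs_div]
    have h5 : (1 : ℝ) ≤ |((j : ℕ) : ℝ) - ((j' : ℕ) : ℝ)| := by
      have : ((j : ℕ) : ℤ) - ((j' : ℕ) : ℤ) ≠ 0 := by
        intro h
        exact hne (Fin.ext (by omega))
      have h6 : (1 : ℤ) ≤ |((j : ℕ) : ℤ) - ((j' : ℕ) : ℤ)| := Int.one_le_abs this
      exact_mod_cast h6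
    have h6 : (4 : ℝ) ^ ((k : ℕ) + 1) ≤ 4 ^ d' :=
      pow_le_pow_right₀ (by norm_num) (by have := k.2; omega)
    have h7 : |(4 : ℝ) ^ ((k : ℕ) + 1) * (N : ℝ)| ≤ 4 ^ d' * N := by
      rw [abs_of_pos (by positivity)]
      exact mul_le_mul_of_nonneg_right h6 (by positivity)
    exact h2w.trans (div_le_div₀ (abs_nonneg _) h5 (abs_pos.2 (by positivity)) h7)
  choose t ht using fun (ω : Pth X n) (k : Fin (d + 1)) =>
    pcc_fPthC h hM hw hL hLc hLc1 ω k
  rw [← hP] at ht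
  obtain ⟨vv, hvv⟩ := index_abstractK (Ω := Pth X n) (n := d + 1) (P := P)
    (K := 8 * (d' + 1) + 1) (T := 5 * n) (L := Lc) t (fPthC co geo d) cl ht hPpos hδ he0
    (by linarith) hw1 hw2 rv hsep
    (by
      intro ω ω' hωω' k s hs
      rw [hcl', hcl', Prod.mk.injEq, Prod.mk.injEq, Prod.mk.injEq, Prod.mk.injEq] at hωω'
      obtain ⟨g1, g2, g3, g4, g5⟩ := hωω'
      have g1' : ix ω = ix ω' := congrArg Fin.val g1
      have hS := hsame _ _ _ _ (hTd ω) (hTd ω') g1' g2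
      have hε' : ε ≤ Lc * ε := by nlinarith
      by_cases hk : (k : ℕ) < d
      · -- the complex
        have hfk : ∀ (ω : Pth X n) s, fPthC co geo d ω k s =
            tail ((k : ℕ) + 1) (co (endPt geo ω.x ω.y (ω.v * s))) := fun ω s => if_pos hk
        have hlipk : ∀ p q : X, |tail ((k : ℕ) + 1) (co p) - tail ((k : ℕ) + 1) (co q)| ≤
            Lc * dist p q := by
          intro p q
          refine (h.tail_lip ((k : ℕ) + 1) p q).trans
            (mul_le_mul_of_nonneg_right ?_ dist_nonneg)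
          exact (mul_le_mul_of_nonneg_right (by exact_mod_cast hk) hL.le).trans hLc
        obtain ⟨T₀, hT₀⟩ : ∃ T₀ : ℝ, T₀ = (ix ω : ℝ) / R := ⟨_, rfl⟩
        have hT₀0 : 0 ≤ T₀ := by rw [hT₀]; positivity
        have hb1 : T₀ ≤ ω.v * (5 * n) := by rw [hT₀]; exact hix1 ω
        have hb2 : ω.v * (5 * n) ≤ T₀ + 1 / R := by rw [hT₀]; exact hix2 ω
        have hb1' : T₀ ≤ ω'.v * (5 * n) := by rw [hT₀, g1']; exact hix1 ω'
        have hb2' : ω'.v * (5 * n) ≤ T₀ + 1 / R := by rw [hT₀, g1']; exact hix2 ω'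
        have hvs : 0 ≤ ω.v * s := mul_nonneg ω.v0 hs.1
        have hvs' : 0 ≤ ω'.v * s := mul_nonneg ω'.v0 hs.1
        have hvT : ω.v * s ≤ ω.v * (5 * n) := mul_le_mul_of_nonneg_left hs.2 ω.v0
        have hvT' : ω'.v * s ≤ ω'.v * (5 * n) := mul_le_mul_of_nonneg_left hs.2 ω'.v0
        have hR1 : (0 : ℝ) ≤ 1 / R := by positivity
        -- the common time
        obtain ⟨z, hz⟩ : ∃ z : ℝ, z = min (ω.v * s) T₀ := ⟨_, rfl⟩
        have hz0 : 0 ≤ z := by rw [hz]; exact le_min hvs hT₀0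
        have hzT : z ≤ T₀ := by rw [hz]; exact min_le_right _ _
        have hz1 : |ω.v * s - z| ≤ 1 / R := by
          rw [hz, abs_of_nonneg (by linarith [min_le_left (ω.v * s) T₀])]
          rcases le_total (ω.v * s) T₀ with h | h
          · rw [min_eq_left h]
            linarith
          · rw [min_eq_right h]
            linarith
        have hvv' : |ω.v * s - ω'.v * s| ≤ 1 / R := by
          have h1 : |ω.v - ω'.v| * (5 * n) ≤ 1 / R := by
            have h2 : |ω.v - ω'.v| * (5 * n) = |(ω.v - ω'.v) * (5 * n)| := by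
              rw [abs_mul, abs_of_pos hT]
            rw [h2, sub_mul, abs_le]
            constructor <;> linarith
          rw [← sub_mul, abs_mul, abs_of_nonneg hs.1]
          exact (mul_le_mul_of_nonneg_left hs.2 (abs_nonneg _)).trans h1
        have hz2 : |z - ω'.v * s| ≤ 2 / R := by
          have h1 := abs_sub_le z (ω.v * s) (ω'.v * s)
          have h3 : |z - ω.v * s| ≤ 1 / R := by
            rw [abs_sub_comm]
            exact hz1
          have h2 : (2 : ℝ) / R = 1 / R + 1 / R := by ring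
          linarith
        have k1 := hlipk (endPt geo ω.x ω.y (ω.v * s)) (endPt geo ω.x ω.y z)
        have k2 := hlipk (endPt geo ω'.x ω'.y z) (endPt geo ω'.x ω'.y (ω'.v * s))
        have k3 := hspeed ω.x ω.y (ω.v * s) z hvs (hvT.trans ω.le) hz0
          (hzT.trans (hb1.trans ω.le))
        have k4 := hspeed ω'.x ω'.y z (ω'.v * s) hz0 (hzT.trans (hb1'.trans ω'.le)) hvs'
          (hvT'.trans ω'.le)
        have k5 : |tail ((k : ℕ) + 1) (co (endPt geo ω.x ω.y z)) -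
            tail ((k : ℕ) + 1) (co (endPt geo ω'.x ω'.y z))| ≤ Lc * (ε / 2) := by
          have h1 := hS ((k : ℕ) + 1) hk z ⟨hz0, by rw [hTix, ← hT₀]; exact hzT⟩
          refine h1.trans (hprec0.trans ?_)
          nlinarith
        rw [hfk, hfk, heε]
        have k6 := abs_sub_le (tail ((k : ℕ) + 1) (co (endPt geo ω.x ω.y (ω.v * s))))
          (tail ((k : ℕ) + 1) (co (endPt geo ω.x ω.y z)))
          (tail ((k : ℕ) + 1) (co (endPt geo ω'.x ω'.y (ω'.v * s))))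
        have k7 := abs_sub_le (tail ((k : ℕ) + 1) (co (endPt geo ω.x ω.y z)))
          (tail ((k : ℕ) + 1) (co (endPt geo ω'.x ω'.y z)))
          (tail ((k : ℕ) + 1) (co (endPt geo ω'.x ω'.y (ω'.v * s))))
        have k8 : (Lc : ℝ) * dist (endPt geo ω.x ω.y (ω.v * s)) (endPt geo ω.x ω.y z) ≤
            Lc * (1 / R) := mul_le_mul_of_nonneg_left (k3.trans hz1) (by linarith)
        have k9 : (Lc : ℝ) * dist (endPt geo ω'.x ω'.y z) (endPt geo ω'.x ω'.y (ω'.v * s)) ≤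
            Lc * (2 / R) := mul_le_mul_of_nonneg_left (k4.trans hz2) (by linarith)
        have k10 : (Lc : ℝ) * (1 / R) + Lc * (2 / R) = Lc * (3 / R) := by ring
        have k11 : (Lc : ℝ) * (3 / R) ≤ Lc * (ε / 2) :=
          mul_le_mul_of_nonneg_left hprec3 (by linarith)
        have k12 : (Lc : ℝ) * (ε / 2) + Lc * (ε / 2) = Lc * ε := by ring
        linarith
      · -- the line
        have hfk : ∀ (ω : Pth X n) s, fPthC co geo d ω k s = zz (ω.a + ω.w * s) :=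
          fun ω s => if_neg hk
        rw [hfk, hfk]
        have hw1 := abs_le.1 ω.w1
        have hw1' := abs_le.1 ω'.w1
        have h1 := rnd_close hR (Int.fract_nonneg _) (Int.fract_nonneg _)
          (mul_le_of_le_one_left hR0.le (Int.fract_lt_one _).le)
          (mul_le_of_le_one_left hR0.le (Int.fract_lt_one _).le) g4
        have h2 := rnd_close (x := ω.w + 1) (y := ω'.w + 1) hR (by linarith) (by linarith)
          (by
            push_cast
            exact mul_le_mul_of_nonneg_right (by linarith) hR0.le)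
          (by
            push_cast
            exact mul_le_mul_of_nonneg_right (by linarith) hR0.le) g5
        rw [add_sub_add_right_eq_sub] at h2
        refine (zz_close hs.1 hs.2 h1 h2 (by positivity)).trans ?_
        rw [heε]
        linarith)
    hN (by
      refine lt_of_le_of_lt ?_ hcard
      rw [← hP]
      refine Nat.mul_le_mul ?_ (Nat.pow_le_pow_left (Nat.mul_le_mul_right _
        (Nat.mul_le_mul_left _ (Nat.pow_le_pow_left (by omega) 2))) _)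
      simp only [Fintype.card_prod, Fintype.card_fin, Fintype.card_fun]
      have h1 : 5 * n * R + 1 ≤ (R + 1) ^ 2 := by nlinarith
      have h2 : Bd ≤ 2 ^ (C * P ^ 3) * (R + 1) ^ (2 * (d + 1)) := by
        rw [hBd]
        refine Nat.mul_le_mul_right _ (Nat.pow_le_pow_right (by norm_num) ?_)
        refine Nat.mul_le_mul (by omega) (Nat.pow_le_pow_left ?_ 3)
        rw [hP₁, hP]
        exact Nat.mul_le_mul_right _ (by omega)
      have h3 : 2 * R + 1 ≤ (R + 1) ^ 2 := by nlinarith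
      calc (5 * n * R + 1) * (Bd * ((R + 1) ^ (d + 1) * ((R + 1) * (2 * R + 1))))
          ≤ (R + 1) ^ 2 * ((2 ^ (C * P ^ 3) * (R + 1) ^ (2 * (d + 1))) *
            ((R + 1) ^ (d + 1) * ((R + 1) * (R + 1) ^ 2))) := by gcongr
        _ = 2 ^ (C * P ^ 3) * (R + 1) ^ (2 + 2 * (d + 1) + (d + 1) + 1 + 2) := by
            simp only [pow_add, pow_one]
            ring
        _ ≤ 2 ^ (C * P ^ 3) * (R + 1) ^ (2 * (d' + 1)) :=
            Nat.mul_le_mul_left _ (Nat.pow_le_pow_right (by omega) (by omega)))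
  -- the thresholds
  obtain ⟨xx, hxx⟩ : ∃ xx : Fin (8 * (d' + 1) + 1) → ℕ → ℝ, ∀ j k, xx j k =
    if h : k < d + 1 then ((vv j ⟨k, h⟩ : ℕ) : ℝ) / N else 0 := ⟨_, fun _ _ => rfl⟩
  have hx01 : ∀ j k, 0 ≤ xx j k ∧ xx j k ≤ 1 := by
    intro j k
    rw [hxx]
    split_ifs with h
    · refine ⟨by positivity, ?_⟩
      rw [div_le_one hN0]
      exact_mod_cast (vv j ⟨k, h⟩).2.le
    · exact ⟨le_rfl, zero_le_one⟩
  have hrho : ∀ j : Fin (8 * (d' + 1) + 1), 0 ≤ mkThr (xx j) (d + 1) ∧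
      mkThr (xx j) (d + 1) ≤ 1 / 2 := by
    intro j
    have h1 := hx01 j d
    have h2 : (4 : ℝ) ^ (d + 1) ≥ 4 := by
      calc (4 : ℝ) = 4 ^ 1 := (pow_one 4).symm
        _ ≤ 4 ^ (d + 1) := pow_le_pow_right₀ (by norm_num) (by omega)
    refine ⟨?_, ?_⟩
    · show 0 ≤ (1 + xx j d) / 4 ^ (d + 1)
      have := h1.1
      positivity
    · show (1 + xx j d) / 4 ^ (d + 1) ≤ 1 / 2
      rw [div_le_div_iff₀ (by positivity) (by norm_num)]
      linarith [h1.2]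
  refine ⟨fun j => (⟨mkThr (xx j), isThr_mkThr (hx01 j)⟩, ⟨mkThr (xx j) (d + 1), hrho j⟩),
    fun _ => δ, ε, hε, hεA, fun _ => ⟨hεδ, hδ1⟩, fun x y v a w hv0 hv1 hw' hxy => ?_⟩
  obtain ⟨ω, hω⟩ : ∃ ω : Pth X n, ω = ⟨x, y, v, a, w, hv0, hv1, hw', hxy⟩ := ⟨_, rfl⟩
  obtain ⟨j, hj⟩ := hvv ω
  refine ⟨j, fun s hs s' hs' hb hb' => ?_⟩
  have hbad : ∀ s, ¬ (farC co Lc d (mkThr (xx j)) ε (endPt geo x y (v * s)) ∧
      ε ≤ |zz (a + w * s) - mkThr (xx j) (d + 1)|) →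
      ∃ k : Fin (d + 1), |fPthC co geo d ω k s - rv k (vv j k)| < e := by
    intro s hs
    have hmk : ∀ k (hk : k < d + 1), mkThr (xx j) (k + 1) = rv ⟨k, hk⟩ (vv j ⟨k, hk⟩) := by
      intro k hk
      rw [hrv]
      show (1 + xx j k) / 4 ^ (k + 1) = _
      rw [hxx, dif_pos hk]
    by_cases hfar : farC co Lc d (mkThr (xx j)) ε (endPt geo x y (v * s))
    · have h1 : |zz (a + w * s) - mkThr (xx j) (d + 1)| < ε := by
        by_contra hcon
        push Not at hcon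
        exact hs ⟨hfar, hcon⟩
      refine ⟨⟨d, by omega⟩, ?_⟩
      have h2 : fPthC co geo d ω ⟨d, by omega⟩ s = zz (a + w * s) := by
        rw [hω]
        exact if_neg (lt_irrefl d)
      rw [h2, ← hmk d (by omega), heε]
      nlinarith
    · unfold farC at hfar
      push Not at hfar
      obtain ⟨k, hk1, hk2, hk⟩ := hfar
      obtain ⟨k', rfl⟩ : ∃ k', k = k' + 1 := ⟨k - 1, by omega⟩
      refine ⟨⟨k', by omega⟩, ?_⟩
      have h2 : fPthC co geo d ω ⟨k', by omega⟩ s =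
          tail (k' + 1) (co (endPt geo x y (v * s))) := by
        rw [hω]
        exact if_pos (show k' < d by omega)
      rw [h2, ← hmk k' (by omega), heε]
      exact hk
  obtain ⟨k, hk⟩ := hbad s hb
  obtain ⟨k', hk'⟩ := hbad s' hb'
  exact hj s hs s' hs' k k' hk hk'

end Pool.Agent.LSH
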