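import Pool.Agent.Lib.LSH.ClsF
import Pool.Agent.Lib.LSH.Cover
import Pool.Agent.Lib.LSH.DiscL
import Pool.Agent.Lib.MP_98022b_lb.MemL

/-!
# Groups acting on semilattices with a shift: membership in the class
-/

set_option autoImplicit false

open Set Filter Topology

open scoped Pointwise

namespace Pool.Agent.LSH

open Pool.Agent.TD Pool.Agent.ND Pool.Agent.GLN Pool.Agent.FJ Pool.Agent.FA

section

variable {Γ L : Type} [Group Γ] [SemilatticeSup L] [HasShift L] [ShiftAct Γ L]

theorem one_le_d (L : Type) [SemilatticeSup L] [HasShift L] [Nonempty L] : 1 ≤ HasShift.d L := by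
  obtain ⟨x⟩ := ‹Nonempty L›
  refine HasShift.chain 1 (fun i => if i = 0 then x else HasShift.φ x) (fun i hi => ?_) ?_
  · obtain rfl : i = 0 := by omega
    simpa using HasShift.lt x
  · simp

theorem dist_vt_smul (g : Γ) (v w : L) : dist (vt (g • v)) (vt (g • w)) = dist (vt v) (vt w) := by
  rw [vt_smul, vt_smul, dist_smul_pt]

open Classical in
/-- The least element of a set. -/
noncomputable def leastOf (L : Type) [SemilatticeSup L] [Nonempty L] (σ : Set L) : L :=
  if h : ∃ m, IsLeast σ m then h.choose else Classical.arbitrary L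

theorem leastOf_spec {L : Type} [SemilatticeSup L] [Nonempty L] {σ : Set L}
    (h : ∃ m, IsLeast σ m) : IsLeast σ (leastOf L σ) := by
  unfold leastOf
  rw [dif_pos h]
  exact h.choose_spec

theorem exists_least {p : Pt L} {σ : Set L} (hne : σ.Nonempty) (hσ : ∀ v ∈ σ, 0 < co p v) :
    ∃ m, IsLeast σ m := by
  obtain ⟨s, _, _, hs⟩ := coord p
  have hfin : σ.Finite := s.finite_toSet.subset fun v hv => (hs v).1 (hσ v hv)
  obtain ⟨m, hm, hmin⟩ := hfin.exists_minimalFor p.s σ hne
  refine ⟨m, hm, fun v hv => ?_⟩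
  obtain ⟨r, -, -, h1⟩ := (co_pos_iff p m).1 (hσ m hm)
  obtain ⟨r', -, -, h2⟩ := (co_pos_iff p v).1 (hσ v hv)
  rcases le_total r r' with h | h
  · rw [← h1, ← h2]
    exact p.top_mono h
  · have h3 : v ≤ m := by
      rw [← h1, ← h2]
      exact p.top_mono h
    have h4 := hmin hv (p.mono h3)
    rw [← h1, ← h2, p.le_top_iff, h1]
    refine h4.trans ?_
    rw [← h2]
    exact p.s_top r'

theorem exists_discQ (Γ L : Type) [Group Γ] [SemilatticeSup L] [HasShift L] [ShiftAct Γ L]
    [Nonempty L] :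
    ∃ Δ : DiscQ Thr Γ (Pt L) L (fun v w => ⌊dist (vt v) (vt w)⌋₊) geo, PairsL Δ := by
  obtain ⟨M, C, hM, hfew, hcls⟩ := few_clsT L
  refine exists_discCL bicomb (one_le_d L) coord (Lc := 2) two_pos co_lip
    (fun g p x => co_smul g p x) hM hfew hcls (leastOf L) vt (fun g p σ hne hσ => ?_)
    (fun p σ hne hσ => ?_)
  · have h1 := leastOf_spec (exists_least hne hσ)
    have h2 : IsLeast (g • σ) (g • leastOf L σ) := by
      refine ⟨smul_mem_smul_set h1.1, ?_⟩
      rintro _ ⟨v, hv, rfl⟩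
      exact ShiftAct.mono g (h1.2 hv)
    exact (leastOf_spec ⟨_, h2⟩).unique h2
  · have h1 := leastOf_spec (exists_least hne hσ)
    have h2 := dist_vt_le (hσ _ h1.1)
    linarith

theorem far_of_le_dist {k : ℕ} {T : Set L}
    (h : ∃ v ∈ T, ∃ w ∈ T, k + 1 ≤ ⌊dist (vt v) (vt w)⌋₊) :
    ∃ v ∈ T, ∃ w ∈ T, ¬ w ≤ sh k v := by
  obtain ⟨v, hv, w, hw, h⟩ := h
  have h1 : ¬ dist (vt v) (vt w) ≤ k := by
    intro h2
    have h3 := (Nat.le_floor_iff dist_nonneg).1 h
    push_cast at h3
    linarith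
  rw [dist_vt_le_iff, not_and_or] at h1
  rcases h1 with h1 | h1
  · exact ⟨v, hv, w, hw, h1⟩
  · exact ⟨w, hw, v, hv, h1⟩

/-- A group acting on a semilattice with a shift is in the class if the stabilizers of the elements
are in the class, in each increasing sequence of far finite sets of a given length two consecutive
sets have the same pointwise stabilizer or the same label, for a pointwise stabilizer `J` of a far
finite set and an element `t` which normalizes `J` the group generated by `J` and `t` is in the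
class, and the stabilizers of the labels are in the class. -/
theorem mem_of_shiftL {P : ∀ (G : Type) [Group G], Prop} (hP : IsFJClassT P)
    {Γ L Lb : Type} [Group Γ] [SemilatticeSup L] [HasShift L] [Nonempty L] [ShiftAct Γ L]
    [MulAction Γ Lb] (k l : ℕ) (hv : ∀ v : L, P (MulAction.stabilizer Γ v))
    {lab : Set L → Lb → Prop} (hlab : IsLab Γ lab)
    (hchain : ∀ T : ℕ → Set L, (∀ i, (T i).Finite) → (∀ i, T i ⊆ T (i + 1)) →
      (∃ v ∈ T 0, ∃ w ∈ T 0, ¬ w ≤ sh k v) →
      ∃ i < l, fixingSubgroup Γ (T i) = fixingSubgroup Γ (T (i + 1)) ∨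
        ∃ a, lab (T i) a ∧ lab (T (i + 1)) a)
    (hnorm : ∀ T : Set L, T.Finite → (∃ v ∈ T, ∃ w ∈ T, ¬ w ≤ sh k v) → ∀ t : Γ,
      (∀ j, j ∈ fixingSubgroup Γ T ↔ t * j * t⁻¹ ∈ fixingSubgroup Γ T) →
      P (fixingSubgroup Γ T ⊔ Subgroup.zpowers t : Subgroup Γ))
    (hL : ∀ T : Set L, T.Finite → (∃ v ∈ T, ∃ w ∈ T, ¬ w ≤ sh k v) → ∀ a : Lb, lab T a →
      P (MulAction.stabilizer Γ a)) : P Γ := by
  obtain ⟨Δ, -⟩ := exists_discQ Γ L
  have hn := smallCovers_pt (L := L)
  exact mem_of_discL (π := id) hP bicomb (fun g x y => dist_smul_pt g x y)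
    (fun g x y t h0 h1 => geo_smul g x y ⟨h0, h1⟩) hn
    (d' := fun v w => ⌊dist (vt v) (vt w)⌋₊)
    (fun g u v => by
      show ⌊dist (vt (g • u)) (vt (g • v))⌋₊ = _
      rw [dist_vt_smul]) (fun _ _ => rfl) Δ
    (exists_chg bicomb Δ) (vt (Classical.arbitrary L)) (k + 1) l hv hlab
    (fun T h1 h2 h3 => hchain T h1 h2 (far_of_le_dist h3))
    (fun T h1 h2 => hnorm T h1 (far_of_le_dist h2)) (fun T h1 h2 => hL T h1 (far_of_le_dist h2))

end

end Pool.Agent.LSH
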