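import Pool.Agent.Lib.LSH.Mem
import Pool.Agent.Lib.MP_98022b_lb.RelComm

/-!
# Groups acting on semilattices with a shift, relative to a homomorphism
-/

set_option autoImplicit false

open Set Filter Topology

open scoped Pointwise

namespace Pool.Agent.LSH

open Pool.Agent.TD Pool.Agent.ND Pool.Agent.GLN Pool.Agent.FJ Pool.Agent.FA

/-- The action of a subgroup. -/
instance subShiftAct {Γ L : Type} [Group Γ] [SemilatticeSup L] [HasShift L] [ShiftAct Γ L]
    (K' : Subgroup Γ) : ShiftAct K' L where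
  toMulAction := inferInstance
  mono g _ _ h := ShiftAct.mono (g : Γ) h
  phi g x := ShiftAct.phi (g : Γ) x

/-- THE RELATIVE THEOREM WITH LABELS. Let `Γ` act on a semilattice with a shift, and let
`f : Γ → Q` be a homomorphism to a group in the class. Let `N` be the kernel of `f`. Suppose that
the intersections of the stabilizers of the elements with the preimages of the cyclic subgroups of
`Q` are in the class, that in each increasing sequence of a given length of far finite sets two
consecutive sets have the same intersection of `N` with the pointwise stabilizer or the same label,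
that for each such intersection `F` and each element `t` of `Γ` which normalizes `F` the group
generated by `F` and `t` is in the class, and that the intersections of the stabilizers of the
labels with the preimages of the cyclic subgroups of `Q` are in the class. Then `Γ` is in the
class. -/
theorem mem_of_shift_relL {P : ∀ (G : Type) [Group G], Prop} (hP : IsFJClassT P)
    {Γ L Q Lb : Type} [Group Γ] [SemilatticeSup L] [HasShift L] [Nonempty L] [ShiftAct Γ L]
    [Group Q] (f : Γ →* Q) (hQ : P Q) (k l : ℕ)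
    (hv : ∀ (v : L) (q : Q),
      P (MulAction.stabilizer Γ v ⊓ (Subgroup.zpowers q).comap f : Subgroup Γ))
    [MulAction Γ Lb] {lab : Set L → Lb → Prop} (hlab : IsLab Γ lab)
    (hchain : ∀ T : ℕ → Set L, (∀ i, (T i).Finite) → (∀ i, T i ⊆ T (i + 1)) →
      (∃ v ∈ T 0, ∃ w ∈ T 0, ¬ w ≤ sh k v) →
      ∃ i < l, fixingSubgroup Γ (T i) ⊓ f.ker = fixingSubgroup Γ (T (i + 1)) ⊓ f.ker ∨
        ∃ a, lab (T i) a ∧ lab (T (i + 1)) a)
    (hnorm : ∀ T : Set L, T.Finite → (∃ v ∈ T, ∃ w ∈ T, ¬ w ≤ sh k v) → ∀ t : Γ,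
      (∀ j, j ∈ fixingSubgroup Γ T ⊓ f.ker ↔ t * j * t⁻¹ ∈ fixingSubgroup Γ T ⊓ f.ker) →
      P ((fixingSubgroup Γ T ⊓ f.ker) ⊔ Subgroup.zpowers t : Subgroup Γ))
    (hL : ∀ T : Set L, T.Finite → (∃ v ∈ T, ∃ w ∈ T, ¬ w ≤ sh k v) → ∀ a, lab T a → ∀ q : Q,
      P (MulAction.stabilizer Γ a ⊓ (Subgroup.zpowers q).comap f : Subgroup Γ)) : P Γ := by
  have hP' := hP.toIsFJClass
  -- the stabilizers in a subgroup
  have hstab : ∀ (K' : Subgroup Γ) (q : Q), K' ≤ (Subgroup.zpowers q).comap f → ∀ x : L,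
      P (MulAction.stabilizer K' x) := by
    intro K' q hK x
    refine hP.of_injective ((K'.subtype.comp (MulAction.stabilizer K' x).subtype).codRestrict
      (MulAction.stabilizer Γ x ⊓ (Subgroup.zpowers q).comap f) fun g => ?_) ?_ (hv x q)
    · exact ⟨g.2, hK g.1.2⟩
    · intro a b hab
      have h1 := congrArg (fun y : (MulAction.stabilizer Γ x ⊓
        (Subgroup.zpowers q).comap f : Subgroup Γ) => (y : Γ)) hab
      exact Subtype.ext (Subtype.ext h1)
  have hstabL : ∀ (K' : Subgroup Γ) (q : Q), K' ≤ (Subgroup.zpowers q).comap f → ∀ a : Lb,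
      P (MulAction.stabilizer Γ a ⊓ (Subgroup.zpowers q).comap f : Subgroup Γ) →
      P (MulAction.stabilizer K' a) := by
    intro K' q hK a ha
    refine hP.of_injective ((K'.subtype.comp (MulAction.stabilizer K' a).subtype).codRestrict
      (MulAction.stabilizer Γ a ⊓ (Subgroup.zpowers q).comap f) fun g => ?_) ?_ ha
    · exact ⟨g.2, hK g.1.2⟩
    · intro b c hbc
      have h1 := congrArg (fun y : (MulAction.stabilizer Γ a ⊓
        (Subgroup.zpowers q).comap f : Subgroup Γ) => (y : Γ)) hbc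
      exact Subtype.ext (Subtype.ext h1)
  have hfixK : ∀ (K' : Subgroup Γ) (T : Set L) (g : K'),
      g ∈ fixingSubgroup K' T ↔ (g : Γ) ∈ fixingSubgroup Γ T := by
    intro K' T g
    rw [mem_fixingSubgroup_iff, mem_fixingSubgroup_iff]
    exact Iff.rfl
  have hlabK : ∀ K' : Subgroup Γ, IsLab K' lab := fun K' =>
    ⟨hlab.unique, fun g T l h => hlab.smul (g : Γ) T l h, hlab.conv⟩
  -- the kernel
  have hN : P f.ker := by
    have hFN : ∀ (T : Set L) (g : f.ker),
        g ∈ fixingSubgroup f.ker T ↔ (g : Γ) ∈ fixingSubgroup Γ T ⊓ f.ker := by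
      intro T g
      rw [hfixK, Subgroup.mem_inf]
      exact ⟨fun h => ⟨h, g.2⟩, fun h => h.1⟩
    have hle : f.ker ≤ (Subgroup.zpowers (1 : Q)).comap f := by
      intro g hg
      rw [Subgroup.mem_comap, MonoidHom.mem_ker.1 hg]
      exact one_mem _
    refine mem_of_shiftL hP k l (hstab f.ker 1 hle) (hlabK f.ker) (fun T hfin hmono hfar => ?_)
      (fun T hfin hfar t ht => ?_)
      (fun T hfin hfar a ha => hstabL f.ker 1 hle a (hL T hfin hfar a ha 1))
    · obtain ⟨i, hi, h⟩ := hchain T hfin hmono hfar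
      refine ⟨i, hi, h.imp_left fun h => ?_⟩
      ext g
      rw [hFN, hFN, h]
    · exact CCC.mem_sup_of_sub hP' (hFN T) t (hnorm T hfin hfar t
        (CCC.normal_iff_of_sub inf_le_right (hFN T) ht))
  refine hP.extension f hQ fun q => ?_
  obtain ⟨K', hK⟩ : ∃ K' : Subgroup Γ, K' = (Subgroup.zpowers q).comap f := ⟨_, rfl⟩
  rw [← hK]
  have hKm : ∀ g : K', ∃ n : ℤ, q ^ n = f (g : Γ) := by
    intro g
    have h1 : (g : Γ) ∈ (Subgroup.zpowers q).comap f := hK ▸ g.2
    exact Subgroup.mem_zpowers_iff.1 (Subgroup.mem_comap.1 h1)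
  have hker : f.ker ≤ K' := by
    intro g hg
    rw [hK, Subgroup.mem_comap, MonoidHom.mem_ker.1 hg]
    exact one_mem _
  by_cases hq : IsOfFinOrder q
  · -- elements of finite order
    have : Finite (Subgroup.zpowers q) := hq.finite_zpowers
    obtain ⟨F, hF⟩ : ∃ F : K' →* Subgroup.zpowers q, ∀ g : K',
        ((F g : Subgroup.zpowers q) : Q) = f g :=
      ⟨(f.comp K'.subtype).codRestrict (Subgroup.zpowers q) fun g => by
        obtain ⟨n, hn⟩ := hKm g
        exact Subgroup.mem_zpowers_iff.2 ⟨n, hn⟩, fun g => rfl⟩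
    refine hP'.of_finite_range F ?_
    refine hP.of_injective ((K'.subtype.comp F.ker.subtype).codRestrict f.ker fun g => ?_) ?_ hN
    · have h2 : F g = 1 := g.2
      have h3 := hF (g : K')
      rw [h2] at h3
      exact h3.symm
    · intro a b hab
      have h1 := congrArg (fun x : f.ker => (x : Γ)) hab
      exact Subtype.ext (Subtype.ext h1)
  · -- elements of infinite order: product with the line
    obtain ⟨ψ, hψ⟩ : ∃ ψ : Multiplicative ℤ →* Q, ∀ n, ψ n = q ^ n.toAdd :=
      ⟨zpowersHom Q q, fun n => rfl⟩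
    have hinj : Function.Injective ψ := by
      rw [injective_iff_map_eq_one]
      intro n hn
      rw [hψ] at hn
      have h1 : n.toAdd = 0 := by
        by_contra h2
        exact hq (isOfFinOrder_iff_zpow_eq_one.2 ⟨n.toAdd, h2, hn⟩)
      exact Multiplicative.toAdd.injective h1
    obtain ⟨χ, hχ⟩ : ∃ χ : K' →* Multiplicative ℤ, ∀ g : K', f (g : Γ) = ψ (χ g) := by
      let e : Multiplicative ℤ ≃* ψ.range := MonoidHom.ofInjective hinj
      let φ : K' →* ψ.range := (f.comp K'.subtype).codRestrict ψ.range fun g => by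
        obtain ⟨n, hn⟩ := hKm g
        exact ⟨Multiplicative.ofAdd n, by rw [hψ]; exact hn⟩
      refine ⟨e.symm.toMonoidHom.comp φ, fun g => ?_⟩
      have h1 : e (e.symm (φ g)) = φ g := e.apply_symm_apply _
      have h2 : ((e (e.symm (φ g)) : ψ.range) : Q) = f (g : Γ) := by
        rw [h1]
        rfl
      rw [← h2]
      rfl
    obtain ⟨o⟩ := ‹Nonempty L›
    have : Nonempty L := ⟨o⟩
    obtain ⟨Δ, hΔ⟩ := exists_discQ K' L
    have hFK : ∀ (T : Set L) (g : K'), g ∈ fixingSubgroup K' T ⊓ χ.ker ↔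
        (g : Γ) ∈ fixingSubgroup Γ T ⊓ f.ker := by
      intro T g
      rw [Subgroup.mem_inf, Subgroup.mem_inf, MonoidHom.mem_ker, MonoidHom.mem_ker, hχ]
      refine and_congr (hfixK K' T g) ?_
      constructor
      · intro h
        rw [h, map_one]
      · intro h
        exact hinj (by rw [h, map_one])
    refine mem_of_lineL (geo := geo) hP bicomb (fun g x y => dist_smul_pt g x y)
      (fun g x y t h0 h1 => geo_smul g x y ⟨h0, h1⟩)
      (smallCovers_pt (L := L)) (dV := fun v w => ⌊dist (vt v) (vt w)⌋₊)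
      (fun g u v => by
        show ⌊dist (vt (g • u)) (vt (g • v))⌋₊ = _
        rw [dist_vt_smul]) Δ hΔ χ (vt o) (k + 1) l (hstab K' q hK.le)
      (hlabK K')
      (fun T hfin hmono h => ?_) (fun T hfin h t ht => ?_) (fun T hfin h a ha => ?_)
    · obtain ⟨i, hi, h1⟩ := hchain T hfin hmono (far_of_le_dist h)
      refine ⟨i, hi, h1.imp_left fun h1 => ?_⟩
      ext g
      rw [hFK, hFK, h1]
    · exact CCC.mem_sup_of_sub hP' (hFK T) t (hnorm T hfin (far_of_le_dist h) t
        (CCC.normal_iff_of_sub (inf_le_right.trans hker) (hFK T) ht))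
    · exact hstabL K' q hK.le a (hL T hfin (far_of_le_dist h) a ha q)

/-- The relative theorem, commensurability form: in each chain two consecutive groups are equal, or
they are commensurable and the intersections of the commensurator with the preimages of the cyclic
subgroups of `Q` are in the class. -/
theorem mem_of_shift_comm {P : ∀ (G : Type) [Group G], Prop} (hP : IsFJClassT P)
    {Γ L Q : Type} [Group Γ] [SemilatticeSup L] [HasShift L] [Nonempty L] [ShiftAct Γ L]
    [Group Q] (f : Γ →* Q) (hQ : P Q) (k l : ℕ)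
    (hv : ∀ (v : L) (q : Q),
      P (MulAction.stabilizer Γ v ⊓ (Subgroup.zpowers q).comap f : Subgroup Γ))
    (hchain : ∀ T : ℕ → Set L, (∀ i, (T i).Finite) → (∀ i, T i ⊆ T (i + 1)) →
      (∃ v ∈ T 0, ∃ w ∈ T 0, ¬ w ≤ sh k v) →
      ∃ i < l, fixingSubgroup Γ (T i) ⊓ f.ker = fixingSubgroup Γ (T (i + 1)) ⊓ f.ker ∨
        Subgroup.Commensurable (fixingSubgroup Γ (T i) ⊓ f.ker)
          (fixingSubgroup Γ (T (i + 1)) ⊓ f.ker) ∧
        ∀ q : Q, P (Subgroup.Commensurable.commensurator (fixingSubgroup Γ (T i) ⊓ f.ker) ⊓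
          (Subgroup.zpowers q).comap f : Subgroup Γ))
    (hnorm : ∀ T : Set L, T.Finite → (∃ v ∈ T, ∃ w ∈ T, ¬ w ≤ sh k v) → ∀ t : Γ,
      (∀ j, j ∈ fixingSubgroup Γ T ⊓ f.ker ↔ t * j * t⁻¹ ∈ fixingSubgroup Γ T ⊓ f.ker) →
      P ((fixingSubgroup Γ T ⊓ f.ker) ⊔ Subgroup.zpowers t : Subgroup Γ)) : P Γ := by
  refine mem_of_shift_relL hP f hQ k l hv
    (isLab_comm' (fun T : Set L => fixingSubgroup Γ T ⊓ f.ker) (fixing_inf_ker f)
      (fun T T' h => inf_le_inf_right _ (fixingSubgroup_antitone Γ _ h)) (GoodComm P f)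
      (fun g H => goodComm_conj f hP.toIsFJClass g) (fun H H' _ h => goodComm_congr f h))
    (fun T h1 h3 h4 => ?_) hnorm (fun T h1 h3 a ha q => ?_)
  · obtain ⟨i, hi, h⟩ := hchain T h1 h3 h4
    exact ⟨i, hi, h.imp_right fun h => ⟨_, ⟨h.2, rfl⟩, goodComm_congr f h.1 h.2, cclass_eq.2 h.1⟩⟩
  · rw [ha.2, stabilizer_cclass]
    exact ha.1 q

end Pool.Agent.LSH
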